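import Pool.Agent.HAV.HA

/-!
# HAV-AS: the sum over `a`

PROOF.  `g(a) = II Y a` is nonincreasing in `a ≥ 0`, `g(0) = Y`, `g(a) = 0` for `3a² ≥ 4Y` (`1 - s² ≥ 3/4`).  Abel summation:
`∑_{a ≤ Q} h(a) g(a) = ∑_{a ≤ Q} H(a) (g(a) - g(a+1))` (`g(Q+1) = 0`), `H(a) = C0 a + O((1 + log a)²)` (`sum_h`), only `a ≤ √(4Y/3)` occur, so it is
`C0 ∑_{a ≥ 1} g(a) + O(Y (1 + log Y)²)`, and `∑_{a ≥ 1} g(a) = ∫_0^∞ g + O(Y)` by monotonicity.
`∫_0^∞ II Y a da = ∫_{-1/2}^{1/2} ∫_0^∞ max 0 (Y - a²(1-s²)) da ds = ∫_{-1/2}^{1/2} (2/3) Y^(3/2) (1-s²)^(-1/2) ds = (2/3)(π/3) Y^(3/2)`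
(`arcsin (1/2) = π/6`).
-/

set_option autoImplicit false

open Finset Filter Topology
open BVM (psiAP psiCop thetaAP psiChi prim nonPrin)

namespace Pool.Agent.HAV

private theorem AS_cont (Y a : ℝ) : Continuous fun s : ℝ => max 0 (Y - a ^ 2 * (1 - s ^ 2)) := by
  fun_prop

theorem II_nonneg (Y a : ℝ) : 0 ≤ II Y a := by
  unfold II
  exact intervalIntegral.integral_nonneg (by norm_num) (fun s _ => le_max_left _ _)

theorem II_le (Y a : ℝ) (hY : 0 ≤ Y) : II Y a ≤ Y := by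
  unfold II
  have h1 : ∫ s in (-(1 / 2) : ℝ)..(1 / 2), max 0 (Y - a ^ 2 * (1 - s ^ 2)) ≤
      ∫ _s in (-(1 / 2) : ℝ)..(1 / 2), Y := by
    apply intervalIntegral.integral_mono_on (by norm_num) ((AS_cont Y a).intervalIntegrable _ _)
      (by simp)
    intro s hs
    apply max_le hY
    have h3 : s ^ 2 ≤ 1 := by nlinarith [hs.1, hs.2]
    nlinarith [mul_nonneg (sq_nonneg a) (sub_nonneg.2 h3)]
  have h2 : ∫ _s in (-(1 / 2) : ℝ)..(1 / 2), Y = Y := by
    rw [intervalIntegral.integral_const]; norm_num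
  linarith

private theorem AS_anti (Y : ℝ) {a b : ℝ} (ha : 0 ≤ a) (hab : a ≤ b) : II Y b ≤ II Y a := by
  unfold II
  apply intervalIntegral.integral_mono_on (by norm_num) ((AS_cont Y b).intervalIntegrable _ _)
    ((AS_cont Y a).intervalIntegrable _ _)
  intro s hs
  apply max_le_max le_rfl
  have h3 : s ^ 2 ≤ 1 := by nlinarith [hs.1, hs.2]
  have h2 : a ^ 2 ≤ b ^ 2 := by nlinarith
  nlinarith [mul_le_mul_of_nonneg_right h2 (sub_nonneg.2 h3)]

private theorem AS_zero (Y a : ℝ) (h : 4 * Y ≤ 3 * a ^ 2) : II Y a = 0 := by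
  unfold II
  rw [intervalIntegral.integral_congr (g := fun _ => (0 : ℝ))]
  · simp
  · intro s hs
    rw [Set.uIcc_of_le (by norm_num)] at hs
    show max 0 (Y - a ^ 2 * (1 - s ^ 2)) = 0
    apply max_eq_left
    have h3 : 0 ≤ 1 / 4 - s ^ 2 := by nlinarith [hs.1, hs.2]
    nlinarith [mul_nonneg (sq_nonneg a) h3]

private theorem AS_inner (Y c Q : ℝ) (hY : 0 ≤ Y) (hc : 0 < c) (hQ : 0 ≤ Q) (h : Y ≤ c * Q ^ 2) :
    ∫ x in (0 : ℝ)..Q, max 0 (Y - x ^ 2 * c) = 2 / 3 * Y * √(Y / c) := by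
  set t := √(Y / c) with ht
  have ht0 : 0 ≤ t := Real.sqrt_nonneg _
  have ht2 : t ^ 2 = Y / c := Real.sq_sqrt (by positivity)
  have htc : c * t ^ 2 = Y := by rw [ht2]; field_simp
  have htQ : t ≤ Q := by
    apply Real.sqrt_le_iff.2 ⟨hQ, _⟩
    rw [div_le_iff₀ hc]; linarith
  have hcont : Continuous fun x : ℝ => max 0 (Y - x ^ 2 * c) := by fun_prop
  rw [← intervalIntegral.integral_add_adjacent_intervals (hcont.intervalIntegrable 0 t)
    (hcont.intervalIntegrable t Q)]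
  have h1 : ∫ x in (0 : ℝ)..t, max 0 (Y - x ^ 2 * c) = ∫ x in (0 : ℝ)..t, (Y - x ^ 2 * c) := by
    apply intervalIntegral.integral_congr
    intro x hx
    rw [Set.uIcc_of_le ht0] at hx
    show max 0 (Y - x ^ 2 * c) = Y - x ^ 2 * c
    apply max_eq_right
    have h3 : 0 ≤ t ^ 2 - x ^ 2 := by nlinarith [hx.1, hx.2]
    nlinarith [mul_nonneg hc.le h3]
  have h2 : ∫ x in t..Q, max 0 (Y - x ^ 2 * c) = 0 := by
    rw [intervalIntegral.integral_congr (g := fun _ => (0 : ℝ))]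
    · simp
    · intro x hx
      rw [Set.uIcc_of_le htQ] at hx
      show max 0 (Y - x ^ 2 * c) = 0
      apply max_eq_left
      have h3 : 0 ≤ x ^ 2 - t ^ 2 := by nlinarith [hx.1, hx.2]
      nlinarith [mul_nonneg hc.le h3]
  have h4 : ∫ x in (0 : ℝ)..t, (Y - x ^ 2 * c) = Y * t - c * t ^ 3 / 3 := by
    rw [intervalIntegral.integral_sub (by simp) (by
      apply Continuous.intervalIntegrable; fun_prop), intervalIntegral.integral_mul_const,
      integral_pow]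
    simp
    ring
  rw [h1, h2, h4]
  have h5 : c * t ^ 3 = Y * t := by
    calc c * t ^ 3 = (c * t ^ 2) * t := by ring
      _ = Y * t := by rw [htc]
  rw [h5]; ring

private theorem AS_arcsin : ∫ s in (-(1 / 2) : ℝ)..(1 / 2), 1 / √(1 - s ^ 2) = Real.pi / 3 := by
  have h1 : ∀ s ∈ Set.uIcc (-(1 / 2) : ℝ) (1 / 2), HasDerivAt Real.arcsin (1 / √(1 - s ^ 2)) s := by
    intro s hs
    rw [Set.uIcc_of_le (by norm_num)] at hs
    apply Real.hasDerivAt_arcsin
    · intro h; rw [h] at hs; norm_num at hs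
    · intro h; rw [h] at hs; norm_num at hs
  rw [intervalIntegral.integral_eq_sub_of_hasDerivAt h1]
  · have h2 : Real.arcsin (1 / 2) = Real.pi / 6 := by
      rw [← Real.sin_pi_div_six]
      exact Real.arcsin_sin (by linarith [Real.pi_pos]) (by linarith [Real.pi_pos])
    rw [Real.arcsin_neg, h2]; ring
  · apply ContinuousOn.intervalIntegrable
    rw [Set.uIcc_of_le (by norm_num)]
    apply ContinuousOn.div continuousOn_const (by fun_prop)
    intro s hs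
    have h3 : 0 < 1 - s ^ 2 := by nlinarith [hs.1, hs.2]
    exact (Real.sqrt_pos.2 h3).ne'

private theorem AS_total (Y : ℝ) (Q : ℝ) (hY : 1 ≤ Y) (hQ : 0 ≤ Q) (h : 4 * Y ≤ 3 * Q ^ 2) :
    ∫ a in (0 : ℝ)..Q, II Y a = 2 * Real.pi / 9 * Y ^ (3 / 2 : ℝ) := by
  unfold II
  rw [MeasureTheory.intervalIntegral_intervalIntegral_swap
    (F := fun a s : ℝ => max 0 (Y - a ^ 2 * (1 - s ^ 2)))]
  · have h1 : ∀ s ∈ Set.uIcc (-(1 / 2) : ℝ) (1 / 2),
        ∫ x in (0 : ℝ)..Q, max 0 (Y - x ^ 2 * (1 - s ^ 2)) =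
          2 / 3 * Y ^ (3 / 2 : ℝ) * (1 / √(1 - s ^ 2)) := by
      intro s hs
      rw [Set.uIcc_of_le (by norm_num)] at hs
      have h3 : s ^ 2 ≤ 1 / 4 := by nlinarith [hs.1, hs.2]
      have h4 : 0 < 1 - s ^ 2 := by linarith
      rw [AS_inner Y (1 - s ^ 2) Q (by linarith) h4 hQ (by
        nlinarith [mul_nonneg (sq_nonneg Q) (sub_nonneg.2 h3)])]
      rw [Real.sqrt_div (by linarith)]
      have h5 : Y ^ (3 / 2 : ℝ) = Y * √Y := by
        rw [Real.sqrt_eq_rpow, show (3 / 2 : ℝ) = 1 + 1 / 2 by norm_num,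
          Real.rpow_add (by linarith), Real.rpow_one]
      rw [h5]; ring
    rw [intervalIntegral.integral_congr h1, intervalIntegral.integral_const_mul, AS_arcsin]
    ring
  · apply (ContinuousOn.integrableOn_compact (K := Set.uIcc 0 Q ×ˢ Set.uIcc (-(1 / 2) : ℝ) (1 / 2))
      (isCompact_uIcc.prod isCompact_uIcc) _).mono_set
    · exact Set.prod_mono Set.uIoc_subset_uIcc Set.uIoc_subset_uIcc
    · apply Continuous.continuousOn
      show Continuous fun p : ℝ × ℝ => max 0 (Y - p.1 ^ 2 * (1 - p.2 ^ 2))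
      fun_prop

private theorem AS_abel (f g : ℕ → ℝ) (n : ℕ) :
    ∑ a ∈ Icc 1 n, f a * g a =
      ∑ a ∈ Icc 1 n, (∑ b ∈ Icc 1 a, f b) * (g a - g (a + 1)) + (∑ b ∈ Icc 1 n, f b) * g (n + 1) := by
  induction n with
  | zero => simp
  | succ n ih =>
    rw [Finset.sum_Icc_succ_top (by omega), ih,
      Finset.sum_Icc_succ_top (b := n) (by omega) (fun a => (∑ b ∈ Icc 1 a, f b) * (g a - g (a + 1))),
      Finset.sum_Icc_succ_top (b := n) (by omega) f]
    ring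

private theorem AS_tele (g : ℕ → ℝ) (n : ℕ) :
    ∑ a ∈ Icc 1 n, (g a - g (a + 1)) = g 1 - g (n + 1) := by
  induction n with
  | zero => simp
  | succ n ih => rw [Finset.sum_Icc_succ_top (by omega), ih]; ring

theorem sum_a : ∃ C : ℝ, 0 ≤ C ∧ ∀ (Y : ℝ) (Q : ℕ), 1 ≤ Y → 4 * Y ≤ 3 * (Q : ℝ) ^ 2 →
    |∑ a ∈ Icc 1 Q, h a * II Y a - C0 * (2 * Real.pi / 9) * Y ^ (3 / 2 : ℝ)| ≤ C * Y * (1 + Real.log Y) ^ 2 := by
  obtain ⟨C, hC, hH⟩ := sum_h
  refine ⟨4 * C + |C0|, by positivity, ?_⟩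
  intro Y Q hY hQ
  have hlY : 0 ≤ Real.log Y := Real.log_nonneg hY
  have hL : 1 ≤ (1 + Real.log Y) ^ 2 := by nlinarith
  have hQ0 : (0 : ℝ) ≤ Q := Nat.cast_nonneg Q
  have hmono : ∀ a b : ℝ, 0 ≤ a → a ≤ b → II Y b ≤ II Y a := fun a b => AS_anti Y
  have hgQ : II Y ((Q + 1 : ℕ) : ℝ) = 0 := AS_zero _ _ (by push_cast; nlinarith)
  -- the first error
  have hE : |∑ a ∈ Icc 1 Q, (h a - C0) * II Y a| ≤ 4 * C * (1 + Real.log Y) ^ 2 * Y := by
    have e1 := AS_abel (fun a => h a - C0) (fun a => II Y a) Q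
    simp only [hgQ, mul_zero, add_zero] at e1
    rw [e1]
    calc |∑ a ∈ Icc 1 Q, (∑ b ∈ Icc 1 a, (h b - C0)) * (II Y a - II Y ((a + 1 : ℕ) : ℝ))|
        ≤ ∑ a ∈ Icc 1 Q, |(∑ b ∈ Icc 1 a, (h b - C0)) * (II Y a - II Y ((a + 1 : ℕ) : ℝ))| :=
          Finset.abs_sum_le_sum_abs _ _
      _ ≤ ∑ a ∈ Icc 1 Q, 4 * C * (1 + Real.log Y) ^ 2 * (II Y a - II Y ((a + 1 : ℕ) : ℝ)) := by
          apply Finset.sum_le_sum
          intro a ha
          have ha1 : 1 ≤ a := (Finset.mem_Icc.1 ha).1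
          have hd : 0 ≤ II Y a - II Y ((a + 1 : ℕ) : ℝ) :=
            sub_nonneg.2 (hmono _ _ (Nat.cast_nonneg a) (by push_cast; linarith))
          rw [abs_mul, abs_of_nonneg hd]
          by_cases hc : 4 * Y ≤ 3 * (a : ℝ) ^ 2
          · have z1 : II Y (a : ℝ) = 0 := AS_zero _ _ hc
            have z2 : II Y ((a + 1 : ℕ) : ℝ) = 0 := AS_zero _ _ (by
              push_cast; nlinarith [(Nat.cast_nonneg a : (0 : ℝ) ≤ a)])
            rw [z1, z2]; simp
          · push Not at hc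
            apply mul_le_mul_of_nonneg_right _ hd
            have e2 : ∑ b ∈ Icc 1 a, (h b - C0) = ∑ b ∈ Icc 1 a, h b - C0 * a := by
              rw [Finset.sum_sub_distrib]; simp [mul_comm]
            rw [e2]
            refine (hH a ha1).trans ?_
            have ha' : (1 : ℝ) ≤ a := by exact_mod_cast ha1
            have hla : 0 ≤ Real.log a := Real.log_nonneg ha'
            have l1 : 2 * Real.log a ≤ Real.log (4 / 3) + Real.log Y := by
              rw [← Real.log_mul (by norm_num) (by linarith)]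
              have : 2 * Real.log a = Real.log ((a : ℝ) ^ 2) := by rw [Real.log_pow]; norm_num
              rw [this]
              exact Real.log_le_log (by positivity) (by linarith)
            have l2 : Real.log (4 / 3) ≤ 1 := by
              have := Real.log_le_sub_one_of_pos (show (0 : ℝ) < 4 / 3 by norm_num)
              linarith
            have l3 : 1 + Real.log a ≤ 2 * (1 + Real.log Y) := by linarith
            have l4 : (1 + Real.log a) ^ 2 ≤ (2 * (1 + Real.log Y)) ^ 2 :=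
              pow_le_pow_left₀ (by linarith) l3 2
            calc C * (1 + Real.log a) ^ 2 ≤ C * (2 * (1 + Real.log Y)) ^ 2 :=
                  mul_le_mul_of_nonneg_left l4 hC
              _ = 4 * C * (1 + Real.log Y) ^ 2 := by ring
      _ = 4 * C * (1 + Real.log Y) ^ 2 * (II Y ((1 : ℕ) : ℝ) - II Y ((Q + 1 : ℕ) : ℝ)) := by
          rw [← Finset.mul_sum, AS_tele (fun a => II Y (a : ℝ)) Q]
      _ ≤ 4 * C * (1 + Real.log Y) ^ 2 * Y := by
          apply mul_le_mul_of_nonneg_left _ (by positivity)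
          rw [hgQ, sub_zero]
          exact II_le _ _ (by linarith)
  -- the second error
  have hI := AS_total Y Q hY hQ0 hQ
  have hanti : AntitoneOn (II Y) (Set.Icc (0 : ℝ) (0 + (Q : ℕ))) := by
    intro a ha b hb hab
    exact hmono a b ha.1 hab
  have u1 := hanti.integral_le_sum
  have u2 := hanti.sum_le_integral
  simp only [zero_add] at u1 u2
  have s1 : ∑ a ∈ Icc 1 Q, II Y a = ∑ i ∈ Finset.range Q, II Y ((i + 1 : ℕ) : ℝ) := by
    rw [Finset.range_eq_Ico, Finset.sum_Ico_add' (fun i : ℕ => II Y (i : ℝ)) 0 Q 1]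
    apply Finset.sum_congr _ (fun _ _ => rfl)
    ext x; simp only [Finset.mem_Icc, Finset.mem_Ico]; omega
  have s2 : ∑ i ∈ Finset.range Q, II Y (i : ℝ) ≤ ∑ i ∈ Finset.range Q, II Y ((i + 1 : ℕ) : ℝ) + Y := by
    have e3 : ∑ i ∈ Finset.range Q, (II Y ((i + 1 : ℕ) : ℝ) - II Y (i : ℝ)) =
        II Y (Q : ℝ) - II Y ((0 : ℕ) : ℝ) := Finset.sum_range_sub (fun i : ℕ => II Y (i : ℝ)) Q
    rw [Finset.sum_sub_distrib] at e3
    have e4 := II_le Y ((0 : ℕ) : ℝ) (by linarith)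
    have e5 := II_nonneg Y (Q : ℝ)
    linarith
  have hS : |∑ a ∈ Icc 1 Q, II Y a - 2 * Real.pi / 9 * Y ^ (3 / 2 : ℝ)| ≤ Y := by
    rw [abs_le, s1, ← hI]
    constructor <;> linarith
  have hsplit : ∑ a ∈ Icc 1 Q, h a * II Y a - C0 * (2 * Real.pi / 9) * Y ^ (3 / 2 : ℝ) =
      ∑ a ∈ Icc 1 Q, (h a - C0) * II Y a +
        C0 * (∑ a ∈ Icc 1 Q, II Y a - 2 * Real.pi / 9 * Y ^ (3 / 2 : ℝ)) := by
    have e6 : ∑ a ∈ Icc 1 Q, (h a - C0) * II Y a =
        ∑ a ∈ Icc 1 Q, h a * II Y a - C0 * ∑ a ∈ Icc 1 Q, II Y a := by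
      rw [Finset.mul_sum, ← Finset.sum_sub_distrib]
      exact Finset.sum_congr rfl (fun a _ => by ring)
    rw [e6]; ring
  rw [hsplit]
  have hY0 : 0 ≤ Y := by linarith
  calc |∑ a ∈ Icc 1 Q, (h a - C0) * II Y a +
        C0 * (∑ a ∈ Icc 1 Q, II Y a - 2 * Real.pi / 9 * Y ^ (3 / 2 : ℝ))|
      ≤ |∑ a ∈ Icc 1 Q, (h a - C0) * II Y a| +
        |C0 * (∑ a ∈ Icc 1 Q, II Y a - 2 * Real.pi / 9 * Y ^ (3 / 2 : ℝ))| := abs_add_le _ _
    _ ≤ 4 * C * (1 + Real.log Y) ^ 2 * Y + |C0| * Y := by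
        rw [abs_mul C0]
        exact add_le_add hE (mul_le_mul_of_nonneg_left hS (abs_nonneg _))
    _ ≤ 4 * C * (1 + Real.log Y) ^ 2 * Y + |C0| * Y * (1 + Real.log Y) ^ 2 := by
        have : 0 ≤ |C0| * Y := by positivity
        nlinarith
    _ = (4 * C + |C0|) * Y * (1 + Real.log Y) ^ 2 := by ring

end Pool.Agent.HAV
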