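import Pool.Agent.helper10.BV.Defs3

/-!
# Project HAV (MP_9fc08c_nt): half the Frobenius trace is prime, on average over all curves

`hurwitz N` is the Hurwitz class number `H(N)`.  By Deuring the number of elliptic curves `y² = x³ + a x + b` over
`F_p` with trace `± 2q` is `(p - 1) H(4p - 4q²)`.  The project proves
`∑_{p ≤ X} ∑_{q prime, q² < p} H(4p - 4q²) ∼ ∏_ℓ (1 - 1/(ℓ³ - ℓ² - ℓ + 1)) X² / (log X)²`.
-/

open Finset

namespace Pool.Agent.HAV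

open Classical in
/-- The Hurwitz class number `H(N)`: the number of reduced forms `A x² + B x y + C y²` of discriminant `-N`
(`B² + N = 4 A C`, `|B| ≤ A ≤ C`, `0 ≤ B` if `|B| = A` or `A = C`), where the forms `A (x² + y²)` count `1/2` and
the forms `A (x² + x y + y²)` count `1/3`. -/
noncomputable def hurwitz (N : ℕ) : ℝ :=
  ∑ A ∈ Icc (1 : ℤ) N, ∑ B ∈ Icc (-(N : ℤ)) N, ∑ C ∈ Icc (1 : ℤ) N,
    if B ^ 2 + N = 4 * A * C ∧ |B| ≤ A ∧ A ≤ C ∧ (|B| = A ∨ A = C → 0 ≤ B) then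
      (if A = C ∧ B = 0 then 1 / 2 else if A = C ∧ B = A then 1 / 3 else 1) else 0

open Classical in
/-- The primes `p ≤ X`. -/
noncomputable def pr (X : ℕ) : Finset ℕ := (Icc 1 X).filter Nat.Prime

open Classical in
/-- The primes `q` with `q² < p`. -/
noncomputable def qr (p : ℕ) : Finset ℕ := (Icc 1 p).filter (fun q => q.Prime ∧ q ^ 2 < p)

/-- The sum of the main theorem. -/
noncomputable def T (X : ℕ) : ℝ := ∑ p ∈ pr X, ∑ q ∈ qr p, hurwitz (4 * (p - q ^ 2))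

open Classical in
/-- The integers `k` with `2 |k| ≤ a`. -/
noncomputable def ks (a : ℕ) : Finset ℤ := (Icc (-(a : ℤ)) a).filter (fun k => 2 * |k| ≤ a)

open Classical in
/-- The number of pairs `(a, k)` with `2 |k| ≤ a`, `a ∣ n + k²`, `a² ≤ n + k²`. -/
noncomputable def N0 (n : ℕ) : ℝ :=
  ∑ a ∈ Icc 1 (2 * n), (((ks a).filter (fun k => (a : ℤ) ∣ n + k ^ 2 ∧ (a : ℤ) ^ 2 ≤ n + k ^ 2)).card : ℝ)

/-- The sum with `N0` in place of the class number. -/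
noncomputable def T0 (X : ℕ) : ℝ := ∑ p ∈ pr X, ∑ q ∈ qr p, N0 (p - q ^ 2)

/-- The weighted sum. -/
noncomputable def W (X : ℕ) : ℝ := ∑ p ∈ pr X, ∑ q ∈ qr p, Real.log p * Real.log q * N0 (p - q ^ 2)

/-- The range of the moduli `a`. -/
def QQ (X : ℕ) : ℕ := 2 * Nat.sqrt X + 2

/-- The residue of `q² - k²` modulo `a`. -/
def rr (a q : ℕ) (k : ℤ) : ℕ := (((q : ℤ) ^ 2 - k ^ 2) % a).toNat

/-- `a² + q² - k² - 1`: the primes counted are larger than this number. -/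
def mm (a q : ℕ) (k : ℤ) : ℕ := ((a : ℤ) ^ 2 + q ^ 2 - k ^ 2 - 1).toNat

open Classical in
/-- The main term. -/
noncomputable def M (X : ℕ) : ℝ :=
  ∑ q ∈ pr (Nat.sqrt X), Real.log q * ∑ a ∈ Icc 1 (QQ X),
    ∑ k ∈ (ks a).filter (fun k => (rr a q k).Coprime a), (1 / (a.totient : ℝ)) * ((X : ℝ) - (min X (mm a q k) : ℕ))

open Classical in
/-- `w_a(b)`: the number of pairs `(q, k)`, `q ≤ Z`, `2 |k| ≤ a`, with `q² - k² = b` modulo `a`. -/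
noncomputable def w (Z a b : ℕ) : ℝ :=
  ((((Icc 1 Z) ×ˢ (ks a)).filter (fun p : ℕ × ℤ => rr a p.1 p.2 = b)).card : ℝ)

/-- `ρ(2) = 1`, `ρ(ℓ) = 2` for odd `ℓ`: the number of solutions of `k² = q²` modulo `ℓ` for `ℓ ∤ q`. -/
def rho (l : ℕ) : ℕ := if l = 2 then 1 else 2

/-- `G(a) = ∏_{ℓ | a} (1 - ρ(ℓ)/ℓ)`. -/
noncomputable def G (a : ℕ) : ℝ := ∏ l ∈ a.primeFactors, (1 - (rho l : ℝ) / l)

/-- `h(a) = (a/φ(a)) G(a)`. -/
noncomputable def h (a : ℕ) : ℝ := (a : ℝ) / a.totient * G a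

/-- `C0 = ∏_{ℓ odd} (1 - 1/(ℓ (ℓ - 1)))`. -/
noncomputable def C0 : ℝ := ∏' l : Nat.Primes, (if (l : ℕ) = 2 then (1 : ℝ) else 1 - 1 / ((l : ℝ) * ((l : ℝ) - 1)))

/-- `I(Y, a) = ∫_{-1/2}^{1/2} (Y - a² (1 - s²))_+ ds`. -/
noncomputable def II (Y : ℝ) (a : ℝ) : ℝ := ∫ s in (-(1 / 2) : ℝ)..(1 / 2), max 0 (Y - a ^ 2 * (1 - s ^ 2))

/-- The constant of the main theorem. -/
noncomputable def CC : ℝ := ∏' l : Nat.Primes, (1 - 1 / ((l : ℝ) ^ 3 - (l : ℝ) ^ 2 - (l : ℝ) + 1))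

end Pool.Agent.HAV
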