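import Pool.Agent.helper24.BV.SW
import Pool.Agent.helper24.BV.ExistsGood
import Pool.Agent.HAV.Defs

/-!
# HAV-BDa: Siegel-Walfisz for all characters except one real character of large conductor

PROOF.  (1) `SW` of `Pool/Agent/helper24/BV/SW.lean` uses `Good B x` only through the lower bound for the SAME
character (`hreal`), so its proof gives, verbatim: for every `χ` primitive mod `q ≤ (log x)^B`, `χ ≠ 1`, with
`χ ^ 2 = 1 → ∀ σ ∈ (1,2], 1/√(log x) ≤ ‖L(σ,χ)‖`, the bound.  (2) `χ` is bad at `x` if it is real, primitive,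
`≠ 1`, of conductor `≤ (log x)^B` and `‖L(σ,χ)‖ < 1/√(log x)` for some `σ ∈ (1,2]`.  By `repulsion` with
`Z = (log x)^B + 3` two different bad characters cannot exist for large `x`
(`c/(log Z)^5 > 1/√(log x)`).  (3) A bad character has conductor `≥ D` for large `x`: for the finitely many
characters of conductor `< D` use `pos_inf` (ExistsGood.lean).  If there is no bad character take `d = D + 1`,
`χ₁ = 1`.
-/

set_option autoImplicit false

open Finset Filter Topology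
open BVM (psiAP psiCop thetaAP psiChi prim nonPrin)

namespace Pool.Agent.HAV

section BDa

open ArithmeticFunction Complex BVM

private theorem BDa_ell {B N : ℕ} {l : ℝ} (hl : 1 ≤ l) (hN : N ≠ 0) {q : ℕ} (hq : 1 ≤ q)
    (hqB : (q : ℝ) ≤ l ^ B) {ξ : ℝ} (hξ : |ξ| ≤ l ^ N) :
    ell q ξ ≤ ((B + N : ℕ) : ℝ) * Real.log (l + 2) := by
  have hq' : (1 : ℝ) ≤ q := by exact_mod_cast hq
  have h1 : (q : ℝ) * (|ξ| + 2) ≤ (l + 2) ^ (B + N) := by
    rw [pow_add]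
    have h2 : (q : ℝ) ≤ (l + 2) ^ B :=
      hqB.trans (pow_le_pow_left₀ (by linarith) (by linarith) B)
    have h3 : |ξ| + 2 ≤ (l + 2) ^ N := by
      have h4 := pow_add_pow_le (x := l) (y := (2 : ℝ)) (by linarith) (by norm_num) hN
      have h5 : (2 : ℝ) ≤ 2 ^ N := by
        calc (2 : ℝ) = 2 ^ 1 := (pow_one 2).symm
          _ ≤ 2 ^ N := pow_le_pow_right₀ (by norm_num) (Nat.one_le_iff_ne_zero.2 hN)
      linarith
    exact mul_le_mul h2 h3 (by positivity) (by positivity)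
  unfold ell
  have h6 := Real.log_le_log (by positivity) h1
  rw [Real.log_pow] at h6
  exact h6

private theorem BDa_pow (N : ℕ) {l : ℝ} (hl : 1 ≤ l) :
    Real.log (l + 2) ^ N ≤ 3 * (N.factorial : ℝ) * l := by
  have h0 : 0 ≤ Real.log (l + 2) := Real.log_nonneg (by linarith)
  have h1 := Real.pow_div_factorial_le_exp (Real.log (l + 2)) h0 N
  rw [Real.exp_log (by linarith), div_le_iff₀ (by positivity)] at h1
  have h2 : (0 : ℝ) < N.factorial := by positivity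
  nlinarith

/-- `SW` with the lower bound for one character as hypothesis. -/
private theorem BDa_SW (A B : ℕ) : ∃ C : ℝ, 0 ≤ C ∧ ∀ x : ℝ, 3 ≤ x → ∀ q : ℕ, 1 ≤ q →
    (q : ℝ) ≤ Real.log x ^ B → ∀ χ : DirichletCharacter ℂ q, χ ≠ 1 →
    (χ ^ 2 = 1 → ∀ σ : ℝ, 1 < σ → σ ≤ 2 →
      1 / Real.sqrt (Real.log x) ≤ ‖LSeries (fun n => χ (n : ZMod q)) (σ : ℂ)‖) →
    ∀ y : ℕ, (y : ℝ) ≤ x → ‖psiChi χ y‖ ≤ C * x / Real.log x ^ A := by
  obtain ⟨C0, hC0, htrick⟩ := log_trick (A + 1)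
  obtain ⟨C1, hC1, hUp⟩ := LUp
  obtain ⟨c, hc, hLow⟩ := LLow
  obtain ⟨k, hk⟩ : ∃ k : ℕ, k = A + 1 := ⟨_, rfl⟩
  rw [← hk] at htrick
  have hk1 : 1 ≤ k := by omega
  obtain ⟨c', hc'⟩ : ∃ c' : ℝ, c' = min c 1 := ⟨_, rfl⟩
  have hc'0 : 0 < c' := by rw [hc']; exact lt_min hc one_pos
  have hc'c : c' ≤ c := by rw [hc']; exact min_le_left _ _
  have hc'1 : c' ≤ 1 := by rw [hc']; exact min_le_right _ _
  obtain ⟨D, hD⟩ : ∃ D : ℝ, D = ((B + (8 * k + 2) : ℕ) : ℝ) := ⟨_, rfl⟩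
  have hD0 : 0 ≤ D := by rw [hD]; positivity
  obtain ⟨K0, hK0⟩ : ∃ K0 : ℝ, K0 = ((8 * k).factorial : ℝ) * ((8 * C1 / c') ^ (8 * k + 1) *
      (D ^ (11 * (8 * k + 1)) * (3 * ((11 * (8 * k + 1)).factorial : ℝ)))) := ⟨_, rfl⟩
  refine ⟨C0 * max 1 K0, mul_nonneg hC0.le (le_trans zero_le_one (le_max_left _ _)),
    fun x hx q hq hqB χ hχ1 hgood y hy => ?_⟩
  have : NeZero q := ⟨by omega⟩
  obtain ⟨l, hl⟩ : ∃ l : ℝ, l = Real.log x := ⟨_, rfl⟩
  have hl1 : 1 ≤ l := by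
    rw [hl, Real.le_log_iff_exp_le (by linarith)]
    have := Real.exp_one_lt_d9
    linarith
  have hl0 : 0 < l := by linarith
  rw [← hl] at hqB ⊢
  obtain ⟨κ, hκ⟩ : ∃ κ : ℝ, κ = 1 / Real.sqrt l := ⟨_, rfl⟩
  have hsq1 : 1 ≤ Real.sqrt l := Real.one_le_sqrt.2 hl1
  have hκ0 : 0 < κ := by rw [hκ]; positivity
  have hκ1 : κ ≤ 1 := by rw [hκ, div_le_one (by positivity)]; exact hsq1
  have hreal : χ ^ 2 = 1 → ∀ σ : ℝ, 1 < σ → σ ≤ 2 →
      κ ≤ ‖LSeries (fun n => χ (n : ZMod q)) (σ : ℂ)‖ := by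
    intro h2 σ hσ1 hσ2
    have := hgood h2 σ hσ1 hσ2
    rw [← hl] at this
    rw [hκ]
    exact this
  have hq3 : 3 ≤ q := three_le_of_ne_one hχ1
  -- the bound on the line
  have hline : ∀ ξ : ℝ, |ξ| ≤ l ^ (8 * k + 2) →
      ‖LSeries (fun n => (((vonMangoldt n : ℝ) : ℂ) * χ (n : ZMod q)) *
        ((Real.log n : ℝ) : ℂ) ^ (8 * k)) (((1 + 1 / l : ℝ) : ℂ) + ξ * I)‖ ≤
        max 1 K0 * l ^ (6 * k + 1) := by
    intro ξ hξ
    obtain ⟨s, hs⟩ : ∃ s : ℂ, s = ((1 + 1 / l : ℝ) : ℂ) + ξ * I := ⟨_, rfl⟩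
    have hre : s.re = 1 + 1 / l := by rw [hs]; simp
    have him : s.im = ξ := by rw [hs]; simp
    have hre1 : 1 < s.re := by
      rw [hre]
      have : 0 < 1 / l := by positivity
      linarith
    have hre2 : s.re ≤ 2 := by
      rw [hre]
      have : 1 / l ≤ 1 := by rw [div_le_one hl0]; exact hl1
      linarith
    rw [← hs]
    obtain ⟨e, he⟩ : ∃ e : ℝ, e = ell q ξ := ⟨_, rfl⟩
    have he1 : 1 ≤ e := by rw [he]; exact one_le_ell hq3 ξ
    have he0 : 0 < e := by linarith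
    have heD : e ≤ D * Real.log (l + 2) := by
      rw [he, hD]
      exact BDa_ell hl1 (by omega) hq hqB hξ
    have hi : ∀ i : ℕ, ‖LSeries (fun n => χ (n : ZMod q) * ((Real.log n : ℝ) : ℂ) ^ i) s‖ ≤
        (C1 * e) * i.factorial * (2 * e) ^ i := by
      intro i
      have h1 := hUp q χ hχ1 i s hre1 hre2
      rw [him, ← he] at h1
      calc _ ≤ C1 * i.factorial * (2 * e) ^ i * e := h1
        _ = _ := by ring
    have hlow := hLow q χ hχ1 κ hκ0 hκ1 hreal s hre1 hre2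
    rw [him, ← he] at hlow
    have hm : c' * κ / e ^ 9 ≤ ‖LSeries (fun n => χ (n : ZMod q)) s‖ := by
      refine le_trans ?_ hlow
      gcongr
    have hmM : c' * κ / e ^ 9 ≤ C1 * e := by
      have h1 : c' * κ / e ^ 9 ≤ 1 := by
        rw [div_le_one (by positivity)]
        calc c' * κ ≤ 1 * 1 := mul_le_mul hc'1 hκ1 hκ0.le zero_le_one
          _ = 1 := one_mul 1
          _ ≤ e ^ 9 := one_le_pow₀ he1
      have h2 : 1 ≤ C1 * e := by nlinarith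
      linarith
    have hmain := logderiv_bound χ s hre1 (C1 * e) (2 * e) (c' * κ / e ^ 9) (by positivity) hmM
      (by positivity) hm hi (8 * k)
    refine hmain.trans ?_
    have h3 : 4 * (2 * e) * (C1 * e) / (c' * κ / e ^ 9) =
        8 * C1 / c' * (e ^ 11 * Real.sqrt l) := by
      rw [hκ]
      have hs0 : Real.sqrt l ≠ 0 := by positivity
      field_simp
      ring
    rw [h3, mul_pow, mul_pow, ← pow_mul]
    have h4 : Real.sqrt l ^ (8 * k + 1) ≤ l ^ (4 * k + 1) := by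
      have h5 : Real.sqrt l ^ (8 * k + 2) = l ^ (4 * k + 1) := by
        have h6 : 8 * k + 2 = 2 * (4 * k + 1) := by ring
        rw [h6, pow_mul, Real.sq_sqrt hl0.le]
      rw [← h5]
      exact pow_le_pow_right₀ hsq1 (by omega)
    have h7 : e ^ (11 * (8 * k + 1)) ≤
        D ^ (11 * (8 * k + 1)) * (3 * ((11 * (8 * k + 1)).factorial : ℝ) * l) := by
      calc e ^ (11 * (8 * k + 1)) ≤ (D * Real.log (l + 2)) ^ (11 * (8 * k + 1)) :=
            pow_le_pow_left₀ he0.le heD _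
        _ = D ^ (11 * (8 * k + 1)) * Real.log (l + 2) ^ (11 * (8 * k + 1)) := mul_pow _ _ _
        _ ≤ _ := mul_le_mul_of_nonneg_left (BDa_pow _ hl1) (pow_nonneg hD0 _)
    have h8 : (0 : ℝ) ≤ 8 * C1 / c' := by positivity
    calc ((8 * k).factorial : ℝ) * ((8 * C1 / c') ^ (8 * k + 1) *
          (e ^ (11 * (8 * k + 1)) * Real.sqrt l ^ (8 * k + 1)))
        ≤ ((8 * k).factorial : ℝ) * ((8 * C1 / c') ^ (8 * k + 1) *
          ((D ^ (11 * (8 * k + 1)) * (3 * ((11 * (8 * k + 1)).factorial : ℝ) * l)) *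
            l ^ (4 * k + 1))) := by
          gcongr
      _ = K0 * l ^ (4 * k + 2) := by
          rw [hK0]
          ring
      _ ≤ max 1 K0 * l ^ (4 * k + 2) := by
          gcongr
          exact le_max_right _ _
      _ ≤ max 1 K0 * l ^ (6 * k + 1) :=
          mul_le_mul_of_nonneg_left (pow_le_pow_right₀ hl1 (by omega))
            (le_trans zero_le_one (le_max_left _ _))
  have hb : ∀ n : ℕ, 1 ≤ n → ‖((vonMangoldt n : ℝ) : ℂ) * χ (n : ZMod q)‖ ≤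
      1 + Real.log n := by
    intro n hn
    rw [norm_mul, Complex.norm_real, Real.norm_eq_abs, abs_of_nonneg vonMangoldt_nonneg]
    have h1 : vonMangoldt n ≤ Real.log n := vonMangoldt_le_log
    have h2 : ‖χ (n : ZMod q)‖ ≤ 1 := DirichletCharacter.norm_le_one χ _
    have h3 : 0 ≤ Real.log n := Real.log_natCast_nonneg n
    calc vonMangoldt n * ‖χ (n : ZMod q)‖ ≤ Real.log n * 1 :=
          mul_le_mul h1 h2 (norm_nonneg _) h3
      _ ≤ 1 + Real.log n := by linarith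
  have hfin := htrick (fun n => ((vonMangoldt n : ℝ) : ℂ) * χ (n : ZMod q)) x (max 1 K0) hx
    (le_max_left _ _) hb (by rw [← hl]; exact hline) y hy
  rw [← hl] at hfin
  unfold psiChi
  refine hfin.trans (le_of_eq ?_)
  rw [hk, pow_succ]
  field_simp

/-- The final inequality of the repulsion argument. -/
private theorem BDa_large (B : ℕ) {c : ℝ} (hc : 0 < c) : ∃ T₀ : ℝ, 3 ≤ T₀ ∧
    ∀ T : ℝ, T₀ ≤ T → 2 * Real.log (5 * (2 * T ^ 2) ^ B) ^ 5 < c * T := by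
  set K : ℝ := Real.log 5 + B * Real.log 2 + 2 * B with hK
  have hl5 : 0 < Real.log 5 := Real.log_pos (by norm_num)
  have hl2 : 0 < Real.log 2 := Real.log_pos (by norm_num)
  have hKpos : 0 < K := by positivity
  have ho := Real.isLittleO_pow_log_id_atTop (n := 5)
  have hε : 0 < c / (4 * K ^ 5) := by positivity
  have hev := ho.def hε
  obtain ⟨a, ha⟩ := Filter.eventually_atTop.1 hev
  refine ⟨max 3 a, le_max_left _ _, ?_⟩
  intro T hT
  have hT3 : 3 ≤ T := (le_max_left _ _).trans hT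
  have hTa : a ≤ T := (le_max_right _ _).trans hT
  have h1 := ha T hTa
  have hlogT : 1 ≤ Real.log T := by
    rw [Real.le_log_iff_exp_le (by linarith)]
    have := Real.exp_one_lt_d9
    linarith
  have h2 : Real.log T ^ 5 ≤ c / (4 * K ^ 5) * T := by
    have h3 : ‖Real.log T ^ 5‖ = Real.log T ^ 5 := by
      rw [Real.norm_eq_abs, abs_of_nonneg (by positivity)]
    have h4 : ‖(id T : ℝ)‖ = T := by
      rw [Real.norm_eq_abs, id, abs_of_nonneg (by linarith)]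
    rw [h3, h4] at h1
    exact h1
  have h3 : Real.log (5 * (2 * T ^ 2) ^ B) = Real.log 5 + B * (Real.log 2 + 2 * Real.log T) := by
    have hT0 : T ≠ 0 := by linarith
    rw [Real.log_mul (by norm_num) (by positivity), Real.log_pow,
      Real.log_mul (by norm_num) (by positivity), Real.log_pow]
    push_cast
    ring
  have h4 : Real.log (5 * (2 * T ^ 2) ^ B) ≤ K * Real.log T := by
    rw [h3, hK]
    have hB : (0 : ℝ) ≤ B := Nat.cast_nonneg B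
    have h5 : 0 ≤ (Real.log 5 + B * Real.log 2) * (Real.log T - 1) :=
      mul_nonneg (by positivity) (by linarith)
    nlinarith
  have h5 : 0 ≤ Real.log (5 * (2 * T ^ 2) ^ B) := by
    rw [h3]
    have hB : (0 : ℝ) ≤ B := Nat.cast_nonneg B
    have : 0 ≤ Real.log T := by linarith
    positivity
  have h6 : Real.log (5 * (2 * T ^ 2) ^ B) ^ 5 ≤ (K * Real.log T) ^ 5 :=
    pow_le_pow_left₀ h5 h4 5
  have h7 : (K * Real.log T) ^ 5 ≤ c / 4 * T := by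
    rw [mul_pow]
    calc K ^ 5 * Real.log T ^ 5 ≤ K ^ 5 * (c / (4 * K ^ 5) * T) :=
          mul_le_mul_of_nonneg_left h2 (by positivity)
      _ = c / 4 * T := by field_simp
  have h8 : 0 < c * T := mul_pos hc (by linarith)
  linarith

end BDa

/-- Finitely many characters: for large `x` no character of modulus `< D` has small values. -/
private theorem BDa_small (D : ℕ) : ∀ᶠ x : ℕ in atTop, ∀ q : ℕ, 1 ≤ q → q < D →
    ∀ χ : DirichletCharacter ℂ q, χ ≠ 1 → ∀ σ : ℝ, 1 < σ → σ ≤ 2 →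
      1 / Real.sqrt (Real.log x) ≤ ‖LSeries (fun n => χ (n : ZMod q)) (σ : ℂ)‖ := by
  have hlt : Tendsto (fun x : ℕ => 1 / Real.sqrt (Real.log (x : ℝ))) atTop (𝓝 0) := by
    have h1 : Tendsto (fun x : ℕ => Real.sqrt (Real.log (x : ℝ))) atTop atTop :=
      Real.tendsto_sqrt_atTop.comp (Real.tendsto_log_atTop.comp tendsto_natCast_atTop_atTop)
    simp only [one_div]
    exact h1.inv_tendsto_atTop
  have hq : ∀ q : ℕ, q < D → ∀ᶠ x : ℕ in atTop, 1 ≤ q →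
      ∀ χ : DirichletCharacter ℂ q, χ ≠ 1 → ∀ σ : ℝ, 1 < σ → σ ≤ 2 →
      1 / Real.sqrt (Real.log x) ≤ ‖LSeries (fun n => χ (n : ZMod q)) (σ : ℂ)‖ := by
    intro q _
    rcases Nat.eq_zero_or_pos q with h0 | h0
    · exact Eventually.of_forall fun x h => absurd h (by omega)
    · have : NeZero q := ⟨by omega⟩
      have h2 : ∀ᶠ x : ℕ in atTop, ∀ χ : DirichletCharacter ℂ q, χ ≠ 1 → ∀ σ : ℝ, 1 < σ → σ ≤ 2 →
          1 / Real.sqrt (Real.log x) ≤ ‖LSeries (fun n => χ (n : ZMod q)) (σ : ℂ)‖ := by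
        rw [eventually_all]
        intro χ
        by_cases hχ : χ = 1
        · exact Eventually.of_forall fun x h => absurd hχ h
        · obtain ⟨η, hη, hle, -⟩ := BVM.pos_inf χ hχ
          filter_upwards [hlt.eventually_le_const hη] with x hx _ σ h1 h2
          exact hx.trans (hle σ h1 h2)
      filter_upwards [h2] with x hx _
      exact hx
  have hfin : (Set.Iio D).Finite := Set.finite_Iio D
  have hall := (hfin.eventually_all (l := (atTop : Filter ℕ)) (p := fun q x => 1 ≤ q →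
      ∀ χ : DirichletCharacter ℂ q, χ ≠ 1 → ∀ σ : ℝ, 1 < σ → σ ≤ 2 →
      1 / Real.sqrt (Real.log x) ≤ ‖LSeries (fun n => χ (n : ZMod q)) (σ : ℂ)‖)).2 hq
  filter_upwards [hall] with x hx q h1 h2
  exact hx q h2 h1

theorem sw_exc (A B D : ℕ) : ∃ C : ℝ, 0 ≤ C ∧ ∃ x₀ : ℕ, ∀ x : ℕ, x₀ ≤ x →
    ∃ (d : ℕ) (χ₁ : DirichletCharacter ℂ d), 1 ≤ d ∧ D ≤ d ∧ χ₁ ^ 2 = 1 ∧
      ∀ q : ℕ, 1 ≤ q → (q : ℝ) ≤ Real.log x ^ B → ∀ χ : DirichletCharacter ℂ q, χ.IsPrimitive → χ ≠ 1 →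
        (∀ e : q = d, DirichletCharacter.changeLevel (dvd_of_eq e) χ ≠ χ₁) →
        ∀ y : ℕ, y ≤ x → ‖psiChi χ y‖ ≤ C * x / Real.log x ^ A := by
  obtain ⟨C, hC, hSW⟩ := BDa_SW A B
  obtain ⟨c, hc, hrep⟩ := BVM.repulsion
  obtain ⟨T₀, hT₀3, hT₀⟩ := BDa_large B hc
  obtain ⟨x₁, hx₁⟩ := eventually_atTop.1 (BDa_small D)
  have hlt : Tendsto (fun x : ℕ => Real.log (x : ℝ)) atTop atTop :=
    Real.tendsto_log_atTop.comp tendsto_natCast_atTop_atTop
  obtain ⟨x₂, hx₂⟩ := eventually_atTop.1 (hlt.eventually_ge_atTop (T₀ ^ 2))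
  refine ⟨C, hC, max 3 (max x₁ x₂), fun x hx => ?_⟩
  have hx3 : (3 : ℝ) ≤ x := by exact_mod_cast (le_max_left _ _).trans hx
  have hxx1 : x₁ ≤ x := ((le_max_left _ _).trans (le_max_right _ _)).trans hx
  have hxx2 : x₂ ≤ x := ((le_max_right _ _).trans (le_max_right _ _)).trans hx
  have hlog := hx₂ x hxx2
  have hsmall := hx₁ x hxx1
  have hT₀0 : 0 ≤ T₀ := by linarith
  have hlog9 : 9 ≤ Real.log x := by nlinarith
  obtain ⟨T, hT⟩ : ∃ T : ℝ, T = Real.sqrt (Real.log x) := ⟨_, rfl⟩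
  have hTT₀ : T₀ ≤ T := by rw [hT]; exact Real.le_sqrt_of_sq_le hlog
  have hTsq : T ^ 2 = Real.log x := by rw [hT]; exact Real.sq_sqrt (by linarith)
  have hT1 : 3 ≤ T := hT₀3.trans hTT₀
  have hTpos : 0 < T := by linarith
  -- two different bad characters cannot exist
  have huniq : ∀ (q₁ q₂ : ℕ), 1 ≤ q₁ → 1 ≤ q₂ → (q₁ : ℝ) ≤ Real.log x ^ B →
      (q₂ : ℝ) ≤ Real.log x ^ B → ∀ (χ₁ : DirichletCharacter ℂ q₁) (χ₂ : DirichletCharacter ℂ q₂),
      χ₁.IsPrimitive → χ₂.IsPrimitive → χ₁ ≠ 1 → χ₂ ≠ 1 → χ₁ ^ 2 = 1 → χ₂ ^ 2 = 1 →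
      (∀ e : q₁ = q₂, DirichletCharacter.changeLevel (dvd_of_eq e) χ₁ ≠ χ₂) →
      ∀ σ₁ σ₂ : ℝ, 1 < σ₁ → σ₁ ≤ 2 → 1 < σ₂ → σ₂ ≤ 2 →
      ‖LSeries (fun n => χ₁ (n : ZMod q₁)) (σ₁ : ℂ)‖ < 1 / Real.sqrt (Real.log x) →
      ‖LSeries (fun n => χ₂ (n : ZMod q₂)) (σ₂ : ℂ)‖ < 1 / Real.sqrt (Real.log x) → False := by
    intro q₁ q₂ hq1 hq2 hq1B hq2B χ₁ χ₂ hp1 hp2 hn1 hn2 hr1 hr2 hdiff σ₁ σ₂ h11 h12 h21 h22 hL1 hL2
    have hT2 : (1 : ℝ) ≤ 2 * T ^ 2 := by nlinarith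
    have hpow1 : (1 : ℝ) ≤ (2 * T ^ 2) ^ B := one_le_pow₀ hT2
    have hZ3 : (3 : ℝ) ≤ 5 * (2 * T ^ 2) ^ B := by linarith
    have hle : Real.log x ^ B ≤ (2 * T ^ 2) ^ B :=
      pow_le_pow_left₀ (by linarith) (by linarith) B
    have hfin := hrep _ hZ3 q₁ q₂ hq1 hq2 (by linarith) (by linarith) χ₁ χ₂ hp1 hp2 hn1 hn2 hr1 hr2
      hdiff σ₁ σ₂ h11 h12 h21 h22
    have hmax := max_lt hL1 hL2
    rw [← hT] at hmax
    have hlogZ : 0 < Real.log (5 * (2 * T ^ 2) ^ B) := Real.log_pos (by linarith)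
    have h1 : c / Real.log (5 * (2 * T ^ 2) ^ B) ^ 5 < 1 / T := lt_of_le_of_lt hfin hmax
    rw [div_lt_div_iff₀ (by positivity) hTpos] at h1
    have h2 := hT₀ T hTT₀
    have h3 : 0 < Real.log (5 * (2 * T ^ 2) ^ B) ^ 5 := by positivity
    linarith
  by_cases hbad : ∃ (d : ℕ) (χ₁ : DirichletCharacter ℂ d), 1 ≤ d ∧ (d : ℝ) ≤ Real.log x ^ B ∧
      χ₁.IsPrimitive ∧ χ₁ ≠ 1 ∧ χ₁ ^ 2 = 1 ∧ ∃ σ : ℝ, 1 < σ ∧ σ ≤ 2 ∧
        ‖LSeries (fun n => χ₁ (n : ZMod d)) (σ : ℂ)‖ < 1 / Real.sqrt (Real.log x)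
  · obtain ⟨d, χ₁, hd1, hdB, hp1, hn1, hr1, σ₁, hσ1, hσ1', hL1⟩ := hbad
    refine ⟨d, χ₁, hd1, ?_, hr1, ?_⟩
    · by_contra hD
      have := hsmall d hd1 (by omega) χ₁ hn1 σ₁ hσ1 hσ1'
      linarith
    · intro q hq hqB χ hχ hχ1 hne y hy
      refine hSW x hx3 q hq hqB χ hχ1 ?_ y (by exact_mod_cast hy)
      intro h2 σ hσ hσ'
      by_contra hcon
      push Not at hcon
      exact huniq q d hq hd1 hqB hdB χ χ₁ hχ hp1 hχ1 hn1 h2 hr1 hne σ σ₁ hσ hσ' hσ1 hσ1' hcon hL1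
  · refine ⟨D + 1, 1, by omega, by omega, one_pow 2, ?_⟩
    intro q hq hqB χ hχ hχ1 _ y hy
    refine hSW x hx3 q hq hqB χ hχ1 ?_ y (by exact_mod_cast hy)
    intro h2 σ hσ hσ'
    by_contra hcon
    push Not at hcon
    exact hbad ⟨q, χ, hq, hqB, hχ, hχ1, h2, σ, hσ, hσ', hcon⟩

end Pool.Agent.HAV
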