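import Pool.Agent.helper10.BV.D2
import Pool.Agent.helper10.BV.D6
import Pool.Agent.helper73.BV.Dual
import Pool.Agent.HAV.Defs

/-!
# HAV-BDb: one modulus (Parseval), the exceptional character removed

PROOF.  Let `g h = ψ(t;a,h) - ψ(t,χ₀)/φ(a) - [exceptional term]` for `h < a`, `(h,a) = 1`, as a complex number.
By `BVM.char_parseval` (helper73/BV/Dual.lean) `φ(a) ∑_h |g h|² = ∑_χ |∑_h χ⁻¹(h) g(h)|²`.  Now
`∑_h χ⁻¹(h) ψ(t;a,h) = psiChi χ⁻¹ t` (group the `n ≤ t` coprime to `a` by residues; `χ⁻¹ n = 0` otherwise) and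
`∑_h χ⁻¹(h) = φ(a) [χ = 1]`, `psiChi 1 t = psiCop a t`; the exceptional term is `χ₂(h) P / φ(a)` with
`χ₂ = changeLevel χ₁` real (`χ₂ ^ 2 = 1`, `χ₂ ≠ 1` because `χ₁ ≠ 1`: `changeLevel_eq_one_iff`), its values are real
and `P = psiChi χ₂ t` is real, `∑_h χ⁻¹(h) χ₂(h) = φ(a) [χ = χ₂]`.  So the sum over `h` is `0` for `χ = 1` and
`χ = χ₂` and `psiChi χ⁻¹ t` otherwise; replace `χ` by `χ⁻¹` (`1⁻¹ = 1`, `χ₂⁻¹ = χ₂`).  It is an equality.
-/

set_option autoImplicit false

open Finset Filter Topology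
open BVM (psiAP psiCop thetaAP psiChi prim nonPrin)

namespace Pool.Agent.HAV

private theorem BDb_psi (a t : ℕ) [NeZero a] (ψ : DirichletCharacter ℂ a) :
    ∑ h ∈ (range a).filter (Nat.Coprime a), ψ (h : ZMod a) * ((psiAP a h t : ℝ) : ℂ) = psiChi ψ t := by
  classical
  have ha : 0 < a := Nat.pos_of_ne_zero (NeZero.ne a)
  unfold psiAP psiChi
  have h1 : ∀ h ∈ (range a).filter (Nat.Coprime a),
      ψ (h : ZMod a) * ((∑ n ∈ (Icc 1 t).filter (fun n => n ≡ h [MOD a]),
        ArithmeticFunction.vonMangoldt n : ℝ) : ℂ) =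
      ∑ n ∈ Icc 1 t, if n ≡ h [MOD a] then
        ((ArithmeticFunction.vonMangoldt n : ℝ) : ℂ) * ψ (n : ZMod a) else 0 := by
    intro h _
    rw [Complex.ofReal_sum, Finset.mul_sum, Finset.sum_filter]
    refine Finset.sum_congr rfl fun n _ => ?_
    by_cases hn : n ≡ h [MOD a]
    · rw [if_pos hn, if_pos hn]
      have h2 : (n : ZMod a) = (h : ZMod a) := (ZMod.natCast_eq_natCast_iff n h a).2 hn
      rw [h2]
      ring
    · rw [if_neg hn, if_neg hn]
  rw [Finset.sum_congr rfl h1, Finset.sum_comm]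
  refine Finset.sum_congr rfl fun n _ => ?_
  by_cases hn : Nat.Coprime a n
  · rw [Finset.sum_eq_single (n % a)]
    · rw [if_pos (Nat.mod_modEq n a).symm]
    · intro b hb hne
      rw [if_neg]
      intro h3
      apply hne
      have hb' := Finset.mem_range.1 (Finset.mem_filter.1 hb).1
      have h4 : n % a = b % a := h3
      rw [h4, Nat.mod_eq_of_lt hb']
    · intro h3
      exfalso
      apply h3
      rw [Finset.mem_filter, Finset.mem_range]
      refine ⟨Nat.mod_lt _ ha, ?_⟩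
      have h5 : Nat.gcd a (n % a) = Nat.gcd a n := by
        rw [Nat.gcd_comm a (n % a), ← Nat.gcd_rec, Nat.gcd_comm a n, Nat.gcd_comm n a]
      show Nat.gcd a (n % a) = 1
      rw [h5]
      exact hn
  · have h6 : ψ (n : ZMod a) = 0 := by
      apply MulChar.map_nonunit
      intro h7
      exact hn ((ZMod.isUnit_iff_coprime n a).1 h7).symm
    rw [h6]
    simp

private theorem BDb_sum (a : ℕ) [NeZero a] (ψ : DirichletCharacter ℂ a) :
    ∑ h ∈ (range a).filter (Nat.Coprime a), ψ (h : ZMod a) = if ψ = 1 then (a.totient : ℂ) else 0 := by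
  classical
  have ha : 0 < a := Nat.pos_of_ne_zero (NeZero.ne a)
  have h1 : ∑ h ∈ (range a).filter (Nat.Coprime a), ψ (h : ZMod a) = ∑ x : ZMod a, ψ x := by
    rw [Finset.sum_filter]
    refine Finset.sum_nbij' (i := fun h => (h : ZMod a)) (j := fun x => x.val) ?_ ?_ ?_ ?_ ?_
    · intro h _
      exact Finset.mem_univ _
    · intro x _
      rw [Finset.mem_range]
      exact ZMod.val_lt x
    · intro h hh
      exact ZMod.val_cast_of_lt (Finset.mem_range.1 hh)
    · intro x _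
      exact ZMod.natCast_zmod_val x
    · intro h _
      by_cases hc : Nat.Coprime a h
      · rw [if_pos hc]
      · rw [if_neg hc]
        symm
        apply MulChar.map_nonunit
        intro h7
        exact hc ((ZMod.isUnit_iff_coprime h a).1 h7).symm
  rw [h1]
  by_cases h : ψ = 1
  · rw [if_pos h, h, MulChar.sum_one_eq_card_units, ZMod.card_units_eq_totient]
  · rw [if_neg h]
    exact MulChar.sum_eq_zero_of_ne_one h

private theorem BDb_one (a t : ℕ) [NeZero a] :
    psiChi (1 : DirichletCharacter ℂ a) t = ((psiCop a t : ℝ) : ℂ) := by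
  classical
  unfold psiChi psiCop
  rw [Complex.ofReal_sum, Finset.sum_filter]
  refine Finset.sum_congr rfl fun n _ => ?_
  by_cases hn : n.Coprime a
  · rw [if_pos hn, MulChar.one_apply ((ZMod.isUnit_iff_coprime n a).2 hn), mul_one]
  · rw [if_neg hn, MulChar.map_nonunit, mul_zero]
    intro h
    exact hn ((ZMod.isUnit_iff_coprime n a).1 h)

private theorem BDb_real {a : ℕ} {ψ : DirichletCharacter ℂ a} (hψ : ψ ^ 2 = 1) (x : ZMod a) :
    (((ψ x).re : ℝ) : ℂ) = ψ x := by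
  by_cases hx : IsUnit x
  · have h1 : (ψ x) ^ 2 = 1 := by
      have h2 : (ψ ^ 2) x = 1 := by
        rw [hψ]
        exact MulChar.one_apply hx
      rwa [MulChar.pow_apply' _ (by norm_num)] at h2
    have h2 : (ψ x - 1) * (ψ x + 1) = 0 := by linear_combination h1
    rcases mul_eq_zero.1 h2 with h3 | h3
    · rw [sub_eq_zero.1 h3]; simp
    · rw [eq_neg_of_add_eq_zero_left h3]; simp
  · rw [MulChar.map_nonunit ψ hx]
    simp

private theorem BDb_real' {a : ℕ} {ψ : DirichletCharacter ℂ a} (hψ : ψ ^ 2 = 1) (t : ℕ) :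
    (((psiChi ψ t).re : ℝ) : ℂ) = psiChi ψ t := by
  unfold psiChi
  rw [Complex.re_sum, Complex.ofReal_sum]
  refine Finset.sum_congr rfl fun n _ => ?_
  rw [Complex.re_ofReal_mul, Complex.ofReal_mul, BDb_real hψ]

open Classical in
theorem one_mod (a d t : ℕ) (ha : a ≠ 0) (χ₁ : DirichletCharacter ℂ d) (hr : χ₁ ^ 2 = 1) :
    ∑ b ∈ (range a).filter (Nat.Coprime a), (psiAP a b t - psiCop a t / a.totient -
      (if hd : d ∣ a ∧ χ₁ ≠ 1 then ((DirichletCharacter.changeLevel hd.1 χ₁) (b : ZMod a)).re *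
        (psiChi (DirichletCharacter.changeLevel hd.1 χ₁) t).re / a.totient else 0)) ^ 2 ≤
      (1 / (a.totient : ℝ)) * ∑ χ ∈ (nonPrin a).filter
        (fun χ => ∀ hd : d ∣ a, χ ≠ DirichletCharacter.changeLevel hd χ₁), ‖psiChi χ t‖ ^ 2 := by
  have : NeZero a := ⟨ha⟩
  set R := (range a).filter (Nat.Coprime a) with hR
  have hφ : (0 : ℝ) < a.totient := by
    have := Nat.totient_pos.2 (Nat.pos_of_ne_zero ha)
    exact_mod_cast this
  have hφc : (a.totient : ℂ) ≠ 0 := by
    have := hφ.ne'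
    exact_mod_cast this
  set A := (nonPrin a).filter
        (fun χ => ∀ hd : d ∣ a, χ ≠ DirichletCharacter.changeLevel hd χ₁) with hA
  have hmem : ∀ χ : DirichletCharacter ℂ a, χ ∈ A ↔
      χ ≠ 1 ∧ ∀ hd : d ∣ a, χ ≠ DirichletCharacter.changeLevel hd χ₁ := by
    intro χ
    rw [hA, Finset.mem_filter, BVM.mem_nonPrin ha]
  set G : ℕ → ℝ := fun b => psiAP a b t - psiCop a t / a.totient -
      (if hd : d ∣ a ∧ χ₁ ≠ 1 then ((DirichletCharacter.changeLevel hd.1 χ₁) (b : ZMod a)).re *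
        (psiChi (DirichletCharacter.changeLevel hd.1 χ₁) t).re / a.totient else 0) with hG
  have key : ∀ χ : DirichletCharacter ℂ a, ∑ h ∈ R, χ⁻¹ (h : ZMod a) * ((G h : ℝ) : ℂ) =
      if χ⁻¹ ∈ A then psiChi χ⁻¹ t else 0 := by
    intro χ
    have hsplit : ∀ (E : ℕ → ℂ), (∀ h, ((G h : ℝ) : ℂ) = ((psiAP a h t : ℝ) : ℂ) -
        ((psiCop a t : ℝ) : ℂ) / a.totient - E h) →
        ∑ h ∈ R, χ⁻¹ (h : ZMod a) * ((G h : ℝ) : ℂ) =
          psiChi χ⁻¹ t - (if χ⁻¹ = 1 then ((psiCop a t : ℝ) : ℂ) else 0) -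
            ∑ h ∈ R, χ⁻¹ (h : ZMod a) * E h := by
      intro E hE
      have h1 : ∀ h ∈ R, χ⁻¹ (h : ZMod a) * ((G h : ℝ) : ℂ) =
          χ⁻¹ (h : ZMod a) * ((psiAP a h t : ℝ) : ℂ) -
            χ⁻¹ (h : ZMod a) * (((psiCop a t : ℝ) : ℂ) / a.totient) - χ⁻¹ (h : ZMod a) * E h := by
        intro h _
        rw [hE h]
        ring
      rw [Finset.sum_congr rfl h1, Finset.sum_sub_distrib, Finset.sum_sub_distrib, BDb_psi,
        ← Finset.sum_mul, BDb_sum]
      congr 2
      split_ifs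
      · field_simp
      · rw [zero_mul]
    by_cases hd : d ∣ a ∧ χ₁ ≠ 1
    · -- the exceptional case
      set χ₂ := DirichletCharacter.changeLevel hd.1 χ₁ with hχ₂
      have h2 : χ₂ ^ 2 = 1 := by
        rw [hχ₂, ← map_pow, hr, map_one]
      have h2n : χ₂ ≠ 1 := by
        rw [hχ₂]
        intro h
        exact hd.2 ((DirichletCharacter.changeLevel_eq_one_iff hd.1).1 h)
      have hinv : χ₂⁻¹ = χ₂ := by
        rw [inv_eq_iff_mul_eq_one, ← sq, h2]
      have h3 := hsplit (fun h => χ₂ (h : ZMod a) * (psiChi χ₂ t / a.totient)) (by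
        intro h
        simp only [hG]
        rw [dif_pos hd]
        push_cast
        rw [BDb_real h2, BDb_real' h2]
        ring)
      rw [h3]
      have h4 : ∑ h ∈ R, χ⁻¹ (h : ZMod a) * (χ₂ (h : ZMod a) * (psiChi χ₂ t / a.totient)) =
          if χ⁻¹ = χ₂ then psiChi χ₂ t else 0 := by
        have h5 : ∀ h ∈ R, χ⁻¹ (h : ZMod a) * (χ₂ (h : ZMod a) * (psiChi χ₂ t / a.totient)) =
            (χ⁻¹ * χ₂) (h : ZMod a) * (psiChi χ₂ t / a.totient) := by
          intro h _
          rw [MulChar.mul_apply]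
          ring
        rw [Finset.sum_congr rfl h5, ← Finset.sum_mul, BDb_sum]
        have h6 : χ⁻¹ * χ₂ = 1 ↔ χ⁻¹ = χ₂ := by
          rw [mul_eq_one_iff_eq_inv, hinv]
        by_cases h7 : χ⁻¹ = χ₂
        · rw [if_pos (h6.2 h7), if_pos h7]
          field_simp
        · rw [if_neg (fun h => h7 (h6.1 h)), if_neg h7, zero_mul]
      rw [h4]
      by_cases h8 : χ⁻¹ = 1
      · rw [if_pos h8, if_neg, if_neg]
        · rw [h8, BDb_one]
          ring
        · rw [hmem]
          intro h9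
          exact h9.1 h8
        · rw [h8]
          exact fun h => h2n h.symm
      · rw [if_neg h8]
        by_cases h7 : χ⁻¹ = χ₂
        · rw [if_pos h7, if_neg, h7]
          · ring
          · rw [hmem]
            intro h9
            exact h9.2 hd.1 h7
        · rw [if_neg h7, if_pos]
          · ring
          · rw [hmem]
            exact ⟨h8, fun _ => h7⟩
    · have h3 := hsplit (fun _ => 0) (by
        intro h
        simp only [hG]
        rw [dif_neg hd]
        push_cast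
        ring)
      rw [h3]
      simp only [mul_zero, Finset.sum_const_zero, sub_zero]
      by_cases h8 : χ⁻¹ = 1
      · rw [if_pos h8, if_neg]
        · rw [h8, BDb_one]
          ring
        · rw [hmem]
          intro h9
          exact h9.1 h8
      · rw [if_neg h8, if_pos, sub_zero]
        rw [hmem]
        refine ⟨h8, fun hd' h9 => ?_⟩
        have h10 : χ₁ = 1 := by
          by_contra h11
          exact hd ⟨hd', h11⟩
        rw [h10, map_one] at h9
        exact h8 h9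
  have hpar := BVM.char_parseval (q := a) (fun h => ((G h : ℝ) : ℂ))
  have h1 : ∑ h ∈ R, ‖((G h : ℝ) : ℂ)‖ ^ 2 = ∑ h ∈ R, (G h) ^ 2 := by
    refine Finset.sum_congr rfl fun h _ => ?_
    rw [Complex.norm_real, Real.norm_eq_abs, sq_abs]
  have h2 : ∑ χ : DirichletCharacter ℂ a, ‖∑ h ∈ R, χ⁻¹ (h : ZMod a) * ((G h : ℝ) : ℂ)‖ ^ 2 =
      ∑ χ ∈ A, ‖psiChi χ t‖ ^ 2 := by
    have h3 : ∀ χ : DirichletCharacter ℂ a, ‖∑ h ∈ R, χ⁻¹ (h : ZMod a) * ((G h : ℝ) : ℂ)‖ ^ 2 =
        (fun χ => if χ ∈ A then ‖psiChi χ t‖ ^ 2 else 0) χ⁻¹ := by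
      intro χ
      rw [key χ]
      show _ = if χ⁻¹ ∈ A then ‖psiChi χ⁻¹ t‖ ^ 2 else 0
      split_ifs
      · rfl
      · simp
    have h6 : ∑ χ : DirichletCharacter ℂ a, (fun χ => if χ ∈ A then ‖psiChi χ t‖ ^ 2 else 0) χ⁻¹ =
        ∑ χ : DirichletCharacter ℂ a, if χ ∈ A then ‖psiChi χ t‖ ^ 2 else 0 :=
      Fintype.sum_equiv (Equiv.inv (DirichletCharacter ℂ a)) _ _ (fun _ => rfl)
    rw [Finset.sum_congr rfl fun χ _ => h3 χ, h6, ← Finset.sum_filter]
    refine Finset.sum_congr ?_ fun _ _ => rfl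
    ext χ
    simp
  have h4 : (a.totient : ℝ) * ∑ h ∈ R, (G h) ^ 2 = ∑ χ ∈ A, ‖psiChi χ t‖ ^ 2 := by
    rw [← h2, ← h1]
    exact hpar.symm
  have h5 : ∑ h ∈ R, (G h) ^ 2 = (1 / (a.totient : ℝ)) * ∑ χ ∈ A, ‖psiChi χ t‖ ^ 2 := by
    rw [← h4]
    field_simp
  refine le_of_eq (Eq.trans ?_ (h5.trans ?_))
  · refine Finset.sum_congr rfl fun b _ => ?_
    simp only [hG]
  · congr 1
    refine Finset.sum_congr ?_ fun _ _ => rfl
    ext χ
    exact (hmem χ).trans (Iff.symm ((@Finset.mem_filter _ _ (_) _ _).trans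
      (and_congr_left fun _ => BVM.mem_nonPrin ha χ)))

end Pool.Agent.HAV
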