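import Pool.Agent.helper10.BV.D4
import Pool.Agent.helper10.BV.D5
import Pool.Agent.helper10.BV.D6
import Pool.Agent.helper10.BV.D7
import Pool.Agent.helper10.BV.D8
import Pool.Agent.HAV.Defs

/-!
# HAV-BDc: from all characters to primitive characters

PROOF.  As in `helper10/BV/D5, D6, D7` (there for `rieszChi` and first powers).  For `χ` mod `a` and its primitive
character `χ*` mod `m = conductor`, `‖ψ(t,χ) - ψ(t,χ*)‖ ≤ ∑_{n ≤ t, (n,a) > 1} Λ(n) ≤ 2 log a log t` (`D4`:
`sum_not_coprime_le`), so `‖ψ(t,χ)‖² ≤ 2 ‖ψ(t,χ*)‖² + 8 (log a log t)²`.  `χ ≠ 1` has `1 < m`, `m ∣ a`; the map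
`χ ↦ (m, χ*)` is injective; if `(m, χ*) = (d, χ₁)` then `χ = changeLevel χ₁`, excluded by the filter (so the filter
on the right holds).  Hence the left side is `≤ ∑_a (1/φ(a)) ∑_{1 < m ∣ a} 2 S(m) + ∑_a 8 (log a log t)²`, `S(m)` the
inner sum on the right; `1/φ(m k) ≤ 1/(φ(m) φ(k))` and `∑_{k ≤ Q} 1/φ(k) ≤ 2 (1 + log Q)²` (`sum_inv_totient_le`).
-/

set_option autoImplicit false

open Finset Filter Topology
open BVM (psiAP psiCop thetaAP psiChi prim nonPrin)

namespace Pool.Agent.HAV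

/-- the character and its primitive character -/
private theorem BDc_psi {q : ℕ} (hq : q ≠ 0) (χ : DirichletCharacter ℂ q) (t : ℕ) :
    ‖psiChi χ t - psiChi χ.primitiveCharacter t‖ ≤ 2 * Real.log q * Real.log t := by
  classical
  have hdiff : psiChi χ t - psiChi χ.primitiveCharacter t =
      ∑ n ∈ Icc 1 t, ((ArithmeticFunction.vonMangoldt n : ℝ) : ℂ) *
        (χ (n : ZMod q) - χ.primitiveCharacter (n : ZMod χ.conductor)) := by
    unfold psiChi
    rw [← Finset.sum_sub_distrib]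
    refine Finset.sum_congr rfl fun n _ => ?_
    ring
  rw [hdiff]
  have hterm : ∀ n ∈ Icc 1 t, ‖((ArithmeticFunction.vonMangoldt n : ℝ) : ℂ) *
        (χ (n : ZMod q) - χ.primitiveCharacter (n : ZMod χ.conductor))‖ ≤
        if ¬ n.Coprime q then ArithmeticFunction.vonMangoldt n else 0 := by
    intro n _
    by_cases hn : n.Coprime q
    · have h1 : IsCoprime (n : ℤ) (q : ℤ) := Nat.isCoprime_iff_coprime.mpr hn
      have h2 := DirichletCharacter.primitiveCharacter_apply_of_isCoprime (χ := χ) h1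
      have h3 : χ.primitiveCharacter (n : ZMod χ.conductor) = χ (n : ZMod q) := by
        have e1 : (((n : ℤ)) : ZMod χ.conductor) = (n : ZMod χ.conductor) := by push_cast; rfl
        have e2 : (((n : ℤ)) : ZMod q) = (n : ZMod q) := by push_cast; rfl
        rw [e1, e2] at h2
        exact h2
      rw [h3, sub_self, mul_zero, norm_zero, if_neg (not_not.2 hn)]
    · rw [if_pos hn]
      have h1 : χ (n : ZMod q) = 0 := by
        apply χ.map_nonunit
        rw [ZMod.isUnit_iff_coprime]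
        exact hn
      rw [h1, zero_sub, norm_mul, norm_neg]
      have h2 : ‖χ.primitiveCharacter (n : ZMod χ.conductor)‖ ≤ 1 :=
        DirichletCharacter.norm_le_one _ _
      have hv : 0 ≤ ArithmeticFunction.vonMangoldt n := ArithmeticFunction.vonMangoldt_nonneg
      have h4 : ‖((ArithmeticFunction.vonMangoldt n : ℝ) : ℂ)‖ =
          ArithmeticFunction.vonMangoldt n := by
        rw [Complex.norm_real, Real.norm_of_nonneg hv]
      rw [h4]
      calc ArithmeticFunction.vonMangoldt n *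
            ‖χ.primitiveCharacter (n : ZMod χ.conductor)‖ ≤
              ArithmeticFunction.vonMangoldt n * 1 := mul_le_mul_of_nonneg_left h2 hv
        _ = ArithmeticFunction.vonMangoldt n := by ring
  calc ‖∑ n ∈ Icc 1 t, ((ArithmeticFunction.vonMangoldt n : ℝ) : ℂ) *
        (χ (n : ZMod q) - χ.primitiveCharacter (n : ZMod χ.conductor))‖
      ≤ ∑ n ∈ Icc 1 t, ‖((ArithmeticFunction.vonMangoldt n : ℝ) : ℂ) *
        (χ (n : ZMod q) - χ.primitiveCharacter (n : ZMod χ.conductor))‖ := norm_sum_le _ _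
    _ ≤ ∑ n ∈ Icc 1 t, (if ¬ n.Coprime q then ArithmeticFunction.vonMangoldt n else 0) :=
        Finset.sum_le_sum hterm
    _ = ∑ n ∈ (Icc 1 t).filter (fun n => ¬ n.Coprime q), ArithmeticFunction.vonMangoldt n := by
        rw [Finset.sum_filter]
    _ ≤ 2 * Real.log q * Real.log t := BVM.sum_not_coprime_le hq _

private theorem BDc_aux {q : ℕ} (p p' : Σ d : ℕ, DirichletCharacter ℂ d) (hpp : p = p')
    (h : p.1 ∣ q) (h' : p'.1 ∣ q) :
    DirichletCharacter.changeLevel h p.2 = DirichletCharacter.changeLevel h' p'.2 := by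
  subst hpp
  rfl

private theorem BDc_card {q : ℕ} (hq : q ≠ 0) : (nonPrin q).card ≤ q.totient := by
  classical
  have : NeZero q := ⟨hq⟩
  have h : (Set.univ : Set (DirichletCharacter ℂ q)).Finite := Set.toFinite _
  have h1 : (nonPrin q).card ≤ (Finset.univ : Finset (DirichletCharacter ℂ q)).card :=
    Finset.card_le_card (fun _ _ => Finset.mem_univ _)
  have h2 : (Finset.univ : Finset (DirichletCharacter ℂ q)).card = q.totient := by
    rw [Finset.card_univ, ← Nat.card_eq_fintype_card]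
    exact DirichletCharacter.card_eq_totient_of_hasEnoughRootsOfUnity ℂ q
  omega

/-- if the induced character is the given one, then so is its level -/
private theorem BDc_ne {a d : ℕ} (χ : DirichletCharacter ℂ a) (χ₁ : DirichletCharacter ℂ d)
    (h : ∀ hd : d ∣ a, χ ≠ DirichletCharacter.changeLevel hd χ₁) (e : χ.conductor = d) :
    DirichletCharacter.changeLevel (dvd_of_eq e) χ.primitiveCharacter ≠ χ₁ := by
  subst e
  intro h1
  rw [DirichletCharacter.changeLevel_self] at h1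
  apply h χ.conductor_dvd_level
  rw [← h1]
  exact χ.changeLevel_primitiveCharacter.symm

open Classical in
private theorem BDc_sum {a d : ℕ} (ha : a ≠ 0) (t : ℕ) (χ₁ : DirichletCharacter ℂ d) :
    ∑ χ ∈ (nonPrin a).filter (fun χ => ∀ hd : d ∣ a, χ ≠ DirichletCharacter.changeLevel hd χ₁),
        ‖psiChi χ.primitiveCharacter t‖ ^ 2 ≤
      ∑ m ∈ a.divisors.filter (fun m => 1 < m), ∑ χ ∈ (prim m).filter
        (fun χ => ∀ e : m = d, DirichletCharacter.changeLevel (dvd_of_eq e) χ ≠ χ₁),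
          ‖psiChi χ t‖ ^ 2 := by
  set F : DirichletCharacter ℂ a → Σ m : ℕ, DirichletCharacter ℂ m :=
    fun χ => ⟨χ.conductor, χ.primitiveCharacter⟩ with hF
  set g : (Σ m : ℕ, DirichletCharacter ℂ m) → ℝ := fun p => ‖psiChi p.2 t‖ ^ 2 with hg
  have hinj : Function.Injective F := by
    intro χ χ' h
    have h1 := BDc_aux (F χ) (F χ') h χ.conductor_dvd_level χ'.conductor_dvd_level
    have h2 := χ.changeLevel_primitiveCharacter
    have h3 := χ'.changeLevel_primitiveCharacter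
    exact h2.symm.trans (h1.trans h3)
  have e1 : ∀ s : Finset (DirichletCharacter ℂ a),
      ∑ χ ∈ s, ‖psiChi χ.primitiveCharacter t‖ ^ 2 = ∑ p ∈ s.image F, g p := by
    intro s
    rw [Finset.sum_image (fun a _ b _ h => hinj h)]
  rw [e1, Finset.sum_sigma']
  refine Finset.sum_le_sum_of_subset_of_nonneg ?_ fun _ _ _ => by positivity
  intro p hp
  obtain ⟨χ, hχ, rfl⟩ := Finset.mem_image.1 hp
  rw [Finset.mem_filter, BVM.mem_nonPrin ha] at hχ
  obtain ⟨hχ1, hχ2⟩ := hχ
  have hc0 : χ.conductor ≠ 0 := by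
    have : NeZero a := ⟨ha⟩
    exact χ.conductor_ne_zero
  have hc1 : χ.conductor ≠ 1 := by
    have : NeZero a := ⟨ha⟩
    intro h
    exact hχ1 (DirichletCharacter.eq_one_iff_conductor_eq_one.2 h)
  rw [Finset.mem_sigma, Finset.mem_filter, Nat.mem_divisors]
  refine ⟨⟨⟨χ.conductor_dvd_level, ha⟩, ?_⟩, ?_⟩
  · show 1 < χ.conductor
    omega
  · show χ.primitiveCharacter ∈ (prim χ.conductor).filter _
    rw [Finset.mem_filter, BVM.mem_prim hc0]
    exact ⟨χ.primitiveCharacter_isPrimitive, BDc_ne χ χ₁ hχ2⟩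

/-- exchange of the sums -/
private theorem BDc_exch (Q : ℕ) (f : ℕ → ℝ) (hf : ∀ m, 0 ≤ f m) :
    ∑ q ∈ Icc 1 Q, (1 / (q.totient : ℝ)) *
      ∑ d ∈ (Ioc 1 Q).filter (fun d => d ∣ q), f d ≤
      (∑ m ∈ Icc 1 Q, 1 / (m.totient : ℝ)) * (∑ d ∈ Ioc 1 Q, (1 / (d.totient : ℝ)) * f d) := by
  have key : ∀ d ∈ Ioc 1 Q, ∑ q ∈ (Icc 1 Q).filter (fun q => d ∣ q), 1 / (q.totient : ℝ) ≤
      (∑ m ∈ Icc 1 Q, 1 / (m.totient : ℝ)) * (1 / (d.totient : ℝ)) := by
    intro d hd
    rw [Finset.mem_Ioc] at hd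
    have hsub : (Icc 1 Q).filter (fun q => d ∣ q) ⊆ (Icc 1 Q).image (fun m => d * m) := by
      intro q hq
      rw [Finset.mem_filter, Finset.mem_Icc] at hq
      obtain ⟨⟨h1, h2⟩, m, rfl⟩ := hq
      rw [Finset.mem_image]
      refine ⟨m, ?_, rfl⟩
      rw [Finset.mem_Icc]
      constructor
      · rcases Nat.eq_zero_or_pos m with hm | hm
        · subst hm
          omega
        · exact hm
      · exact (Nat.le_mul_of_pos_left m (by omega)).trans h2
    calc ∑ q ∈ (Icc 1 Q).filter (fun q => d ∣ q), 1 / (q.totient : ℝ)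
        ≤ ∑ q ∈ (Icc 1 Q).image (fun m => d * m), 1 / (q.totient : ℝ) :=
          Finset.sum_le_sum_of_subset_of_nonneg hsub fun _ _ _ => by positivity
      _ = ∑ m ∈ Icc 1 Q, 1 / ((d * m).totient : ℝ) :=
          Finset.sum_image fun a _ b _ hab => Nat.eq_of_mul_eq_mul_left (by omega) hab
      _ ≤ ∑ m ∈ Icc 1 Q, 1 / (m.totient : ℝ) * (1 / (d.totient : ℝ)) := by
          refine Finset.sum_le_sum fun m hm => ?_
          rw [Finset.mem_Icc] at hm
          have h1 : 0 < d.totient := Nat.totient_pos.2 (by omega)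
          have h2 : 0 < m.totient := Nat.totient_pos.2 (by omega)
          have h3 := Nat.totient_super_multiplicative d m
          rw [one_div_mul_one_div]
          refine one_div_le_one_div_of_le (by positivity) ?_
          rw [mul_comm]
          exact_mod_cast h3
      _ = _ := by rw [Finset.sum_mul]
  have h1 : ∑ q ∈ Icc 1 Q, (1 / (q.totient : ℝ)) *
      ∑ d ∈ (Ioc 1 Q).filter (fun d => d ∣ q), f d =
      ∑ d ∈ Ioc 1 Q, (∑ q ∈ (Icc 1 Q).filter (fun q => d ∣ q), 1 / (q.totient : ℝ)) *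
        f d := by
    simp only [Finset.mul_sum, Finset.sum_mul, Finset.sum_filter]
    rw [Finset.sum_comm]
    refine Finset.sum_congr rfl fun d _ => Finset.sum_congr rfl fun q _ => ?_
    split_ifs <;> ring
  rw [h1, Finset.mul_sum]
  refine Finset.sum_le_sum fun d hd => ?_
  rw [← mul_assoc]
  exact mul_le_mul_of_nonneg_right (key d hd) (hf d)

open Classical in
theorem sum_mod (Q d t : ℕ) (ht : 1 ≤ t) (χ₁ : DirichletCharacter ℂ d) :
    ∑ a ∈ Icc 1 Q, (1 / (a.totient : ℝ)) * ∑ χ ∈ (nonPrin a).filter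
        (fun χ => ∀ hd : d ∣ a, χ ≠ DirichletCharacter.changeLevel hd χ₁), ‖psiChi χ t‖ ^ 2 ≤
      4 * (1 + Real.log Q) ^ 2 * (∑ m ∈ Ioc 1 Q, (1 / (m.totient : ℝ)) * ∑ χ ∈ (prim m).filter
        (fun χ => ∀ e : m = d, DirichletCharacter.changeLevel (dvd_of_eq e) χ ≠ χ₁), ‖psiChi χ t‖ ^ 2) +
      8 * Q * (Real.log Q * Real.log t) ^ 2 := by
  have hlt : 0 ≤ Real.log t := Real.log_natCast_nonneg t
  have hS0 : ∀ m : ℕ, 0 ≤ ∑ χ ∈ (prim m).filter
      (fun χ => ∀ e : m = d, DirichletCharacter.changeLevel (dvd_of_eq e) χ ≠ χ₁),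
        ‖psiChi χ t‖ ^ 2 := fun m => Finset.sum_nonneg fun _ _ => by positivity
  have hone : ∀ a ∈ Icc 1 Q, (1 / (a.totient : ℝ)) * ∑ χ ∈ (nonPrin a).filter
        (fun χ => ∀ hd : d ∣ a, χ ≠ DirichletCharacter.changeLevel hd χ₁), ‖psiChi χ t‖ ^ 2 ≤
      2 * ((1 / (a.totient : ℝ)) * ∑ m ∈ (Ioc 1 Q).filter (fun m => m ∣ a),
        ∑ χ ∈ (prim m).filter
          (fun χ => ∀ e : m = d, DirichletCharacter.changeLevel (dvd_of_eq e) χ ≠ χ₁),
            ‖psiChi χ t‖ ^ 2) + 8 * (Real.log Q * Real.log t) ^ 2 := by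
    intro a ha
    rw [Finset.mem_Icc] at ha
    have ha0 : a ≠ 0 := by omega
    have hφ : (0 : ℝ) < a.totient := by
      exact_mod_cast Nat.totient_pos.2 (Nat.pos_of_ne_zero ha0)
    have h2 : a.divisors.filter (fun m => 1 < m) = (Ioc 1 Q).filter (fun m => m ∣ a) := by
      ext m
      simp only [Finset.mem_filter, Nat.mem_divisors, Finset.mem_Ioc]
      constructor
      · rintro ⟨⟨hd, hq0⟩, h1d⟩
        exact ⟨⟨h1d, (Nat.le_of_dvd (by omega) hd).trans ha.2⟩, hd⟩
      · rintro ⟨⟨h1d, -⟩, hd⟩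
        exact ⟨⟨hd, by omega⟩, h1d⟩
    have h3 := BDc_sum ha0 t χ₁
    rw [h2] at h3
    have hlog : Real.log a ≤ Real.log Q :=
      Real.log_le_log (by exact_mod_cast ha.1) (by exact_mod_cast ha.2)
    have hla : 0 ≤ Real.log a := Real.log_natCast_nonneg a
    have hterm : ∀ χ : DirichletCharacter ℂ a, ‖psiChi χ t‖ ^ 2 ≤
        2 * ‖psiChi χ.primitiveCharacter t‖ ^ 2 + 8 * (Real.log Q * Real.log t) ^ 2 := by
      intro χ
      have h4 := BDc_psi ha0 χ t
      have h5 : ‖psiChi χ t‖ ≤ ‖psiChi χ.primitiveCharacter t‖ +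
          ‖psiChi χ t - psiChi χ.primitiveCharacter t‖ := by
        have := norm_add_le (psiChi χ.primitiveCharacter t)
          (psiChi χ t - psiChi χ.primitiveCharacter t)
        rwa [add_sub_cancel] at this
      have h6 : 2 * Real.log a * Real.log t ≤ 2 * (Real.log Q * Real.log t) := by
        have := mul_le_mul_of_nonneg_right hlog hlt
        linarith
      have h7 : ‖psiChi χ t‖ ≤ ‖psiChi χ.primitiveCharacter t‖ +
          2 * (Real.log Q * Real.log t) := by linarith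
      have h8 : 0 ≤ ‖psiChi χ t‖ := norm_nonneg _
      have h9 : ‖psiChi χ t‖ ^ 2 ≤ (‖psiChi χ.primitiveCharacter t‖ +
          2 * (Real.log Q * Real.log t)) ^ 2 := pow_le_pow_left₀ h8 h7 2
      nlinarith [sq_nonneg (‖psiChi χ.primitiveCharacter t‖ - 2 * (Real.log Q * Real.log t))]
    have hsum : ∑ χ ∈ (nonPrin a).filter
        (fun χ => ∀ hd : d ∣ a, χ ≠ DirichletCharacter.changeLevel hd χ₁), ‖psiChi χ t‖ ^ 2 ≤
        2 * ∑ m ∈ (Ioc 1 Q).filter (fun m => m ∣ a), ∑ χ ∈ (prim m).filter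
          (fun χ => ∀ e : m = d, DirichletCharacter.changeLevel (dvd_of_eq e) χ ≠ χ₁),
            ‖psiChi χ t‖ ^ 2 + a.totient * (8 * (Real.log Q * Real.log t) ^ 2) := by
      calc ∑ χ ∈ (nonPrin a).filter
            (fun χ => ∀ hd : d ∣ a, χ ≠ DirichletCharacter.changeLevel hd χ₁), ‖psiChi χ t‖ ^ 2
          ≤ ∑ χ ∈ (nonPrin a).filter
            (fun χ => ∀ hd : d ∣ a, χ ≠ DirichletCharacter.changeLevel hd χ₁),
              (2 * ‖psiChi χ.primitiveCharacter t‖ ^ 2 +
                8 * (Real.log Q * Real.log t) ^ 2) := Finset.sum_le_sum fun χ _ => hterm χ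
        _ = 2 * ∑ χ ∈ (nonPrin a).filter
            (fun χ => ∀ hd : d ∣ a, χ ≠ DirichletCharacter.changeLevel hd χ₁),
              ‖psiChi χ.primitiveCharacter t‖ ^ 2 +
            ((nonPrin a).filter
              (fun χ => ∀ hd : d ∣ a, χ ≠ DirichletCharacter.changeLevel hd χ₁)).card *
              (8 * (Real.log Q * Real.log t) ^ 2) := by
            rw [Finset.sum_add_distrib, Finset.sum_const, nsmul_eq_mul, Finset.mul_sum]
        _ ≤ _ := by
            refine add_le_add (mul_le_mul_of_nonneg_left h3 (by norm_num))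
              (mul_le_mul_of_nonneg_right ?_ (by positivity))
            exact_mod_cast (Finset.card_filter_le _ _).trans (BDc_card ha0)
    calc (1 / (a.totient : ℝ)) * ∑ χ ∈ (nonPrin a).filter
          (fun χ => ∀ hd : d ∣ a, χ ≠ DirichletCharacter.changeLevel hd χ₁), ‖psiChi χ t‖ ^ 2
        ≤ (1 / (a.totient : ℝ)) * (2 * ∑ m ∈ (Ioc 1 Q).filter (fun m => m ∣ a),
          ∑ χ ∈ (prim m).filter
            (fun χ => ∀ e : m = d, DirichletCharacter.changeLevel (dvd_of_eq e) χ ≠ χ₁),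
              ‖psiChi χ t‖ ^ 2 + a.totient * (8 * (Real.log Q * Real.log t) ^ 2)) :=
          mul_le_mul_of_nonneg_left hsum (by positivity)
      _ = _ := by
          field_simp
  have hex := BDc_exch Q (fun m => ∑ χ ∈ (prim m).filter
      (fun χ => ∀ e : m = d, DirichletCharacter.changeLevel (dvd_of_eq e) χ ≠ χ₁),
        ‖psiChi χ t‖ ^ 2) hS0
  have htot := BVM.sum_inv_totient_le Q
  have hR0 : 0 ≤ ∑ m ∈ Ioc 1 Q, (1 / (m.totient : ℝ)) * ∑ χ ∈ (prim m).filter
      (fun χ => ∀ e : m = d, DirichletCharacter.changeLevel (dvd_of_eq e) χ ≠ χ₁),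
        ‖psiChi χ t‖ ^ 2 :=
    Finset.sum_nonneg fun m _ => mul_nonneg (by positivity) (hS0 m)
  refine (Finset.sum_le_sum hone).trans ?_
  rw [Finset.sum_add_distrib, Finset.sum_const, Nat.card_Icc, nsmul_eq_mul, ← Finset.mul_sum,
    Nat.add_sub_cancel]
  have h10 := mul_le_mul_of_nonneg_right htot hR0
  have h11 := hex.trans h10
  have h12 : (Q : ℝ) * (8 * (Real.log Q * Real.log t) ^ 2) =
      8 * Q * (Real.log Q * Real.log t) ^ 2 := by ring
  rw [h12]
  linarith

end Pool.Agent.HAV
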