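import Pool.Agent.helper73.BV.LargeSieve
import Pool.Agent.HAV.Defs

/-!
# HAV-BDd: large conductors by the large sieve

PROOF.  `largeSieve` with `M = 0`, `N = t`, `a n = Λ n`: `∑_{m ≤ K} (m/φ(m)) ∑_χ ‖ψ(t,χ)‖² ≤ 10 (t + K²) ∑_{n ≤ t} Λ(n)²`
and `∑_{n ≤ t} Λ(n)² ≤ t (log t)²`.  The weight `1/m` is put in by partial summation:
`∑_{D1 < m ≤ Q} g(m)/m = F(Q)/(Q+1) + ∑_{D1 < k ≤ Q} F(k)/(k(k+1))`, `F(k) = ∑_{D1 < m ≤ k} g(m)`.
-/

set_option autoImplicit false

open Finset Filter Topology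
open BVM (psiAP psiCop thetaAP psiChi prim nonPrin)

namespace Pool.Agent.HAV

/-- Partial summation with the weight `1/m`. -/
private theorem BDd_abel (g : ℕ → ℝ) (D j : ℕ) :
    ∑ m ∈ Ioc D (D + j), g m / m =
      (∑ m ∈ Ioc D (D + j), g m) / (D + j + 1) +
        ∑ k ∈ Ioc D (D + j), (∑ m ∈ Ioc D k, g m) / ((k : ℝ) * (k + 1)) := by
  induction j with
  | zero => simp
  | succ j ih =>
    have h1 : D ≤ D + j := Nat.le_add_right _ _
    rw [← Nat.add_assoc, ← Nat.succ_eq_add_one (D + j), sum_Ioc_succ_top (Nat.le_add_right D j),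
      sum_Ioc_succ_top (Nat.le_add_right D j), sum_Ioc_succ_top (Nat.le_add_right D j), ih,
      sum_Ioc_succ_top (Nat.le_add_right D j)]
    push_cast
    have h2 : (0 : ℝ) < D + j + 1 := by positivity
    have h3 : (0 : ℝ) < D + (j + 1) + 1 := by positivity
    have h4 : (0 : ℝ) < D + j + 1 + 1 := by positivity
    field_simp
    ring

/-- The sum of `(t + k²)/(k(k+1))`. -/
private theorem BDd_tel (t : ℝ) (D j : ℕ) :
    ∑ k ∈ Ioc D (D + j), (t + (k : ℝ) ^ 2) / ((k : ℝ) * (k + 1)) ≤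
      t * (1 / (D + 1) - 1 / (D + j + 1)) + j := by
  induction j with
  | zero => simp
  | succ j ih =>
    rw [← Nat.add_assoc, ← Nat.succ_eq_add_one (D + j), sum_Ioc_succ_top (Nat.le_add_right D j)]
    push_cast
    have h2 : (0 : ℝ) < D + j + 1 := by positivity
    have h4 : (0 : ℝ) < D + j + 1 + 1 := by positivity
    have h5 : (t + ((D : ℝ) + j + 1) ^ 2) / (((D : ℝ) + j + 1) * (D + j + 1 + 1)) ≤
        t * (1 / ((D : ℝ) + j + 1) - 1 / (D + (j + 1) + 1)) + 1 := by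
      have h6 : t * (1 / ((D : ℝ) + j + 1) - 1 / (D + (j + 1) + 1)) + 1 -
          (t + ((D : ℝ) + j + 1) ^ 2) / (((D : ℝ) + j + 1) * (D + j + 1 + 1)) =
          1 / ((D : ℝ) + j + 1 + 1) := by
        have h3 : (0 : ℝ) < D + (j + 1) + 1 := by positivity
        field_simp
        ring
      have h7 : 0 ≤ 1 / ((D : ℝ) + j + 1 + 1) := by positivity
      linarith
    calc _ ≤ (t * (1 / ((D : ℝ) + 1) - 1 / (D + j + 1)) + j) +
          (t * (1 / ((D : ℝ) + j + 1) - 1 / (D + (j + 1) + 1)) + 1) := add_le_add ih h5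
      _ = _ := by ring

/-- The large sieve for `Λ`. -/
private theorem BDd_ls (K t : ℕ) (ht : 1 ≤ t) :
    ∑ m ∈ Icc 1 K, ((m : ℝ) / m.totient) * ∑ χ ∈ prim m, ‖psiChi χ t‖ ^ 2 ≤
      10 * (t + (K : ℝ) ^ 2) * (t * Real.log t ^ 2) := by
  have h := BVM.largeSieve K 0 t ht (fun n => ((ArithmeticFunction.vonMangoldt n : ℝ) : ℂ))
  have hI : Ioc 0 (0 + t) = Icc 1 t := by
    ext n
    simp only [mem_Ioc, mem_Icc, zero_add]
    omega
  rw [hI] at h
  have hE : ∑ n ∈ Icc 1 t, ‖((ArithmeticFunction.vonMangoldt n : ℝ) : ℂ)‖ ^ 2 ≤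
      t * Real.log t ^ 2 := by
    calc _ ≤ ∑ n ∈ Icc 1 t, Real.log t ^ 2 := by
          apply sum_le_sum
          intro n hn
          rw [mem_Icc] at hn
          rw [Complex.norm_real, Real.norm_eq_abs,
            abs_of_nonneg ArithmeticFunction.vonMangoldt_nonneg]
          have h1 : ArithmeticFunction.vonMangoldt n ≤ Real.log n :=
            ArithmeticFunction.vonMangoldt_le_log
          have h2 : Real.log n ≤ Real.log t :=
            Real.log_le_log (by exact_mod_cast hn.1) (by exact_mod_cast hn.2)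
          exact pow_le_pow_left₀ ArithmeticFunction.vonMangoldt_nonneg (h1.trans h2) 2
      _ = _ := by simp
  calc _ = ∑ q ∈ Icc 1 K, ∑ χ ∈ prim q, ((q : ℝ) / q.totient) *
        ‖∑ n ∈ Icc 1 t, ((ArithmeticFunction.vonMangoldt n : ℝ) : ℂ) * χ (n : ZMod q)‖ ^ 2 := by
        apply sum_congr rfl
        intro q _
        rw [mul_sum]
        rfl
    _ ≤ _ := h
    _ ≤ _ := by
        apply mul_le_mul_of_nonneg_left hE
        positivity

theorem ls_part : ∃ C : ℝ, 0 ≤ C ∧ ∀ D1 Q t : ℕ, 1 ≤ D1 → 1 ≤ t →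
    ∑ m ∈ Ioc D1 Q, (1 / (m.totient : ℝ)) * ∑ χ ∈ prim m, ‖psiChi χ t‖ ^ 2 ≤
      C * t * Real.log t ^ 2 * (t / D1 + Q) := by
  refine ⟨20, by norm_num, ?_⟩
  intro D Q t hD ht
  rcases Nat.lt_or_ge Q D with hQ | hQ
  · rw [Ioc_eq_empty_of_le hQ.le, sum_empty]
    positivity
  obtain ⟨j, rfl⟩ := Nat.exists_eq_add_of_le hQ
  set g : ℕ → ℝ := fun m => ((m : ℝ) / m.totient) * ∑ χ ∈ prim m, ‖psiChi χ t‖ ^ 2 with hg
  have hg0 : ∀ m, 0 ≤ g m := fun m => by
    simp only [hg]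
    positivity
  set E : ℝ := t * Real.log t ^ 2 with hE
  have hE0 : 0 ≤ E := by positivity
  have hF : ∀ k : ℕ, ∑ m ∈ Ioc D k, g m ≤ 10 * (t + (k : ℝ) ^ 2) * E := by
    intro k
    refine le_trans ?_ (BDd_ls k t ht)
    apply sum_le_sum_of_subset_of_nonneg
    · intro m hm
      rw [mem_Ioc] at hm
      rw [mem_Icc]
      omega
    · intro m _ _
      exact hg0 m
  have h1 : ∑ m ∈ Ioc D (D + j), (1 / (m.totient : ℝ)) * ∑ χ ∈ prim m, ‖psiChi χ t‖ ^ 2 =
      ∑ m ∈ Ioc D (D + j), g m / m := by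
    apply sum_congr rfl
    intro m hm
    rw [mem_Ioc] at hm
    have hm0 : (m : ℝ) ≠ 0 := by
      have : 0 < m := by omega
      positivity
    simp only [hg]
    field_simp
  rw [h1, BDd_abel g D j]
  have hDR : (1 : ℝ) ≤ D := by exact_mod_cast hD
  have h2 : (∑ m ∈ Ioc D (D + j), g m) / ((D : ℝ) + j + 1) ≤ 10 * E * (t / D + (D + j : ℕ)) := by
    rw [div_le_iff₀ (by positivity)]
    refine (hF _).trans ?_
    push_cast
    have h3 : (t : ℝ) ≤ t / D * (D + j + 1) := by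
      rw [div_mul_eq_mul_div, le_div_iff₀ (by positivity)]
      apply mul_le_mul_of_nonneg_left _ (by positivity)
      linarith [(Nat.cast_nonneg j : (0 : ℝ) ≤ j)]
    have h4 : ((D : ℝ) + j) ^ 2 ≤ (D + j) * (D + j + 1) := by
      nlinarith [(Nat.cast_nonneg j : (0 : ℝ) ≤ j)]
    calc 10 * ((t : ℝ) + (D + j) ^ 2) * E = 10 * E * (t + (D + j) ^ 2) := by ring
      _ ≤ 10 * E * (t / D * (D + j + 1) + (D + j) * (D + j + 1)) := by
          apply mul_le_mul_of_nonneg_left (add_le_add h3 h4) (by positivity)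
      _ = _ := by ring
  have h5 : ∑ k ∈ Ioc D (D + j), (∑ m ∈ Ioc D k, g m) / ((k : ℝ) * (k + 1)) ≤
      10 * E * (t / D + (D + j : ℕ)) := by
    calc _ ≤ ∑ k ∈ Ioc D (D + j), 10 * E * ((t + (k : ℝ) ^ 2) / ((k : ℝ) * (k + 1))) := by
          apply sum_le_sum
          intro k _
          rw [← mul_div_assoc]
          apply div_le_div_of_nonneg_right _ (by positivity)
          calc _ ≤ _ := hF k
            _ = _ := by ring
      _ = 10 * E * ∑ k ∈ Ioc D (D + j), (t + (k : ℝ) ^ 2) / ((k : ℝ) * (k + 1)) := by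
          rw [mul_sum]
      _ ≤ 10 * E * (t * (1 / (D + 1) - 1 / (D + j + 1)) + j) := by
          apply mul_le_mul_of_nonneg_left (BDd_tel t D j) (by positivity)
      _ ≤ _ := by
          apply mul_le_mul_of_nonneg_left _ (by positivity)
          push_cast
          have h6 : (1 : ℝ) / (D + 1) - 1 / (D + j + 1) ≤ 1 / D := by
            have h7 : (1 : ℝ) / (D + 1) ≤ 1 / D :=
              one_div_le_one_div_of_le (by linarith) (by linarith)
            have h8 : (0 : ℝ) ≤ 1 / (D + j + 1) := by positivity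
            linarith
          have h9 : (t : ℝ) * (1 / (D + 1) - 1 / (D + j + 1)) ≤ t / D := by
            calc _ ≤ (t : ℝ) * (1 / D) := mul_le_mul_of_nonneg_left h6 (by positivity)
              _ = _ := by ring
          linarith
  calc _ ≤ 10 * E * (t / D + (D + j : ℕ)) + 10 * E * (t / D + (D + j : ℕ)) := add_le_add h2 h5
    _ = _ := by
        simp only [hE]
        ring

end Pool.Agent.HAV
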