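import Pool.Agent.HAV.BDa
import Pool.Agent.HAV.BDb
import Pool.Agent.HAV.BDc
import Pool.Agent.HAV.BDd
import Pool.Agent.helper10.BV.D16
import Pool.Agent.helper24.BV.PNTerr
import Pool.Agent.helper10.BV.D11

/-!
# HAV-BDe: the theorem of Barban, Davenport and Halberstam at the level `√x`, one exceptional modulus removed

PROOF.  `L = log x`.  `sw_exc` with `A + 3`, `B = A + 4`, `D`; `D1 = ⌊L^B⌋`.  `g b = Re (χ₁ b)` (0 if `χ₁ = 1`),
`P t = Re (psiChi χ₁ t)`; `|P t| ≤ ψ(t) ≤ 2x` (large `x`).  The difference between `psiChi (changeLevel χ₁) t` and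
`psiChi χ₁ t` is at most `2 log a log t` (`D4`).  So the summand is `≤ 4 [(one_mod summand)² + |θ - ψ|² +
(|ψ(t,χ₀) - t|² )/φ² + (2 log a log t)²/φ²]`.  First: `one_mod`, `sum_mod`, conductors `1 < m ≤ D1` by `sw_exc` (each inner sum has
at most `φ(m)` terms, total `≤ D1 (C x/L^(A+3))²`), `m > D1` by `ls_part`: `C x L² (x/D1 + 2√x + 2)`.  Second: for each `a` the sum over the
classes of `|ψ - θ|` is `≤ 2 √x log x` (helper10/BV/D16, all prime powers), so the sum of squares is `≤ (2 √x log x)²`,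
total `Q 4 x L²`.  Third: `≤ ∑_a φ(a) (2 log a log t + C x/L^(A+1))²/φ(a)² ≤ 2 (1 + log Q)² (..)²` (`pnt_err`, `D4`,
`sum_inv_totient_le`).  Everything is `≤ C x²/L^A`.
-/

set_option autoImplicit false

open Finset Filter Topology
open BVM (psiAP psiCop thetaAP psiChi prim nonPrin)

namespace Pool.Agent.HAV

theorem BDe_sum_psi {a t : ℕ} (ha : 1 ≤ a) : ∑ b ∈ range a, psiAP a b t = psiAP 1 0 t := by
  classical
  unfold psiAP
  simp only [Finset.sum_filter]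
  rw [Finset.sum_comm]
  refine Finset.sum_congr rfl fun n _ => ?_
  have h1 : n % a ∈ range a := Finset.mem_range.2 (Nat.mod_lt _ (by omega))
  rw [Finset.sum_eq_single_of_mem (n % a) h1]
  · rw [if_pos (Nat.mod_modEq n a).symm, if_pos (Nat.modEq_one)]
  · intro b hb hne
    rw [if_neg]
    intro h
    apply hne
    unfold Nat.ModEq at h
    rw [h, Nat.mod_eq_of_lt (Finset.mem_range.1 hb)]

theorem BDe_sum_theta {a t : ℕ} (ha : 1 ≤ a) : ∑ b ∈ range a, thetaAP a b t = thetaAP 1 0 t := by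
  classical
  unfold thetaAP
  simp only [Finset.sum_filter]
  rw [Finset.sum_comm]
  refine Finset.sum_congr rfl fun n _ => ?_
  have h1 : n % a ∈ range a := Finset.mem_range.2 (Nat.mod_lt _ (by omega))
  rw [Finset.sum_eq_single_of_mem (n % a) h1]
  · by_cases hn : n.Prime
    · rw [if_pos ⟨hn, (Nat.mod_modEq n a).symm⟩, if_pos ⟨hn, Nat.modEq_one⟩]
    · rw [if_neg (fun h => hn h.1), if_neg (fun h => hn h.1)]
  · intro b hb hne
    rw [if_neg]
    rintro ⟨-, h⟩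
    apply hne
    unfold Nat.ModEq at h
    rw [h, Nat.mod_eq_of_lt (Finset.mem_range.1 hb)]

theorem BDe_sum_ap {a x t : ℕ} (ha : 1 ≤ a) (ht : t ≤ x) :
    ∑ b ∈ range a, (psiAP a b t - thetaAP a b t) ≤ 2 * √(x : ℝ) * Real.log x := by
  rw [Finset.sum_sub_distrib, BDe_sum_psi ha, BDe_sum_theta ha]
  exact (BVM.psiAP_sub_thetaAP (q := 1) (a := 0) ht).2

theorem BDe_sq_ap {a x t : ℕ} (ha : 1 ≤ a) (ht : t ≤ x) :
    ∑ b ∈ (range a).filter (Nat.Coprime a), (psiAP a b t - thetaAP a b t) ^ 2 ≤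
      (2 * √(x : ℝ) * Real.log x) ^ 2 := by
  have h0 : ∀ b, 0 ≤ psiAP a b t - thetaAP a b t := fun b => (BVM.psiAP_sub_thetaAP (q := a) (a := b) ht).1
  have h1 : ∀ b, psiAP a b t - thetaAP a b t ≤ 2 * √(x : ℝ) * Real.log x :=
    fun b => (BVM.psiAP_sub_thetaAP (q := a) (a := b) ht).2
  have hK : 0 ≤ 2 * √(x : ℝ) * Real.log x := (h0 0).trans (h1 0)
  calc ∑ b ∈ (range a).filter (Nat.Coprime a), (psiAP a b t - thetaAP a b t) ^ 2
      ≤ ∑ b ∈ (range a).filter (Nat.Coprime a), (psiAP a b t - thetaAP a b t) * (2 * √(x : ℝ) * Real.log x) := by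
        refine Finset.sum_le_sum fun b _ => ?_
        rw [sq]
        exact mul_le_mul_of_nonneg_left (h1 b) (h0 b)
    _ ≤ ∑ b ∈ range a, (psiAP a b t - thetaAP a b t) * (2 * √(x : ℝ) * Real.log x) := by
        refine Finset.sum_le_sum_of_subset_of_nonneg (Finset.filter_subset _ _) fun b _ _ => ?_
        exact mul_nonneg (h0 b) hK
    _ = (∑ b ∈ range a, (psiAP a b t - thetaAP a b t)) * (2 * √(x : ℝ) * Real.log x) := by
        rw [Finset.sum_mul]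
    _ ≤ (2 * √(x : ℝ) * Real.log x) * (2 * √(x : ℝ) * Real.log x) :=
        mul_le_mul_of_nonneg_right (BDe_sum_ap ha ht) hK
    _ = _ := by ring

theorem BDe_val {a d b : ℕ} (hd : d ∣ a) (hb : a.Coprime b) (χ₁ : DirichletCharacter ℂ d) :
    (DirichletCharacter.changeLevel hd χ₁) (b : ZMod a) = χ₁ (b : ZMod d) := by
  have h1 : IsCoprime (b : ℤ) (a : ℤ) := Nat.isCoprime_iff_coprime.mpr hb.symm
  have h2 := DirichletCharacter.changeLevel_eq_cast_of_dvd' χ₁ hd h1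
  have e1 : (((b : ℤ)) : ZMod a) = (b : ZMod a) := by push_cast; rfl
  have e2 : (((b : ℤ)) : ZMod d) = (b : ZMod d) := by push_cast; rfl
  rw [e1, e2] at h2
  exact h2

theorem BDe_diff {a d t : ℕ} (ha : a ≠ 0) (hd : d ∣ a) (χ₁ : DirichletCharacter ℂ d) :
    ‖psiChi (DirichletCharacter.changeLevel hd χ₁) t - psiChi χ₁ t‖ ≤ 2 * Real.log a * Real.log t := by
  classical
  unfold psiChi
  rw [← Finset.sum_sub_distrib]
  refine le_trans (norm_sum_le _ _) (le_trans ?_ (BVM.sum_not_coprime_le ha t))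
  rw [Finset.sum_filter]
  refine Finset.sum_le_sum fun n _ => ?_
  rw [← mul_sub]
  by_cases hn : n.Coprime a
  · rw [BDe_val hd hn.symm χ₁, sub_self, mul_zero, norm_zero, if_neg (not_not.2 hn)]
  · rw [if_pos hn]
    have h1 : (DirichletCharacter.changeLevel hd χ₁) (n : ZMod a) = 0 := by
      apply MulChar.map_nonunit
      rw [ZMod.isUnit_iff_coprime]
      exact hn
    rw [h1, zero_sub, norm_mul, norm_neg]
    have h2 : ‖χ₁ (n : ZMod d)‖ ≤ 1 := DirichletCharacter.norm_le_one _ _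
    have h4 : ‖((ArithmeticFunction.vonMangoldt n : ℝ) : ℂ)‖ = ArithmeticFunction.vonMangoldt n := by
      rw [Complex.norm_real, Real.norm_of_nonneg ArithmeticFunction.vonMangoldt_nonneg]
    rw [h4]
    calc ArithmeticFunction.vonMangoldt n * ‖χ₁ (n : ZMod d)‖ ≤ ArithmeticFunction.vonMangoldt n * 1 :=
          mul_le_mul_of_nonneg_left h2 ArithmeticFunction.vonMangoldt_nonneg
      _ = _ := mul_one _

theorem BDe_norm_le {d t : ℕ} (χ₁ : DirichletCharacter ℂ d) : ‖psiChi χ₁ t‖ ≤ Chebyshev.psi t := by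
  have h1 : Chebyshev.psi (t : ℝ) = ∑ n ∈ Icc 1 t, ArithmeticFunction.vonMangoldt n := by
    unfold Chebyshev.psi
    rw [Nat.floor_natCast]
    rfl
  rw [h1]
  unfold psiChi
  refine le_trans (norm_sum_le _ _) (Finset.sum_le_sum fun n _ => ?_)
  rw [norm_mul, Complex.norm_real, Real.norm_of_nonneg ArithmeticFunction.vonMangoldt_nonneg]
  have h2 : ‖χ₁ (n : ZMod d)‖ ≤ 1 := DirichletCharacter.norm_le_one _ _
  calc ArithmeticFunction.vonMangoldt n * ‖χ₁ (n : ZMod d)‖ ≤ ArithmeticFunction.vonMangoldt n * 1 :=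
        mul_le_mul_of_nonneg_left h2 ArithmeticFunction.vonMangoldt_nonneg
    _ = _ := mul_one _

open Classical in
/-- `g b = Re (χ₁ b)`, zero if `χ₁` is principal. -/
noncomputable def BDe_g {d : ℕ} (χ₁ : DirichletCharacter ℂ d) (b : ℕ) : ℝ :=
  if χ₁ ≠ 1 then (χ₁ (b : ZMod d)).re else 0

theorem BDe_g_le {d : ℕ} (χ₁ : DirichletCharacter ℂ d) (b : ℕ) : |BDe_g χ₁ b| ≤ 1 := by
  unfold BDe_g
  split_ifs
  · exact (Complex.abs_re_le_norm _).trans (DirichletCharacter.norm_le_one _ _)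
  · simp

theorem BDe_four (p q r s : ℝ) : (p + q + r + s) ^ 2 ≤ 4 * p ^ 2 + 4 * q ^ 2 + 4 * r ^ 2 + 4 * s ^ 2 := by
  have e : 4 * p ^ 2 + 4 * q ^ 2 + 4 * r ^ 2 + 4 * s ^ 2 - (p + q + r + s) ^ 2 =
      (p - q) ^ 2 + (p - r) ^ 2 + (p - s) ^ 2 + (q - r) ^ 2 + (q - s) ^ 2 + (r - s) ^ 2 := by ring
  have h : 0 ≤ (p - q) ^ 2 + (p - r) ^ 2 + (p - s) ^ 2 + (q - r) ^ 2 + (q - s) ^ 2 + (r - s) ^ 2 := by positivity
  linarith

open Classical in
theorem BDe_one {a d x t : ℕ} {K : ℝ} (ha : 1 ≤ a) (ht : t ≤ x) (χ₁ : DirichletCharacter ℂ d)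
    (hr : χ₁ ^ 2 = 1) (hK : |Chebyshev.psi t - t| ≤ K) :
    ∑ b ∈ (range a).filter (Nat.Coprime a),
        (thetaAP a b t - t / a.totient - (if d ∣ a then BDe_g χ₁ b * (psiChi χ₁ t).re / a.totient else 0)) ^ 2 ≤
      4 * ((1 / (a.totient : ℝ)) * ∑ χ ∈ (nonPrin a).filter
        (fun χ => ∀ hd : d ∣ a, χ ≠ DirichletCharacter.changeLevel hd χ₁), ‖psiChi χ t‖ ^ 2) +
      4 * (2 * √(x : ℝ) * Real.log x) ^ 2 +
      4 * ((1 / (a.totient : ℝ)) * (2 * Real.log a * Real.log t + K) ^ 2) +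
      4 * ((1 / (a.totient : ℝ)) * (2 * Real.log a * Real.log t) ^ 2) := by
  have ha0 : a ≠ 0 := by omega
  have hφ : (0 : ℝ) < a.totient := by
    exact_mod_cast Nat.totient_pos.2 (Nat.pos_of_ne_zero ha0)
  have hla : 0 ≤ Real.log (a : ℝ) := Real.log_natCast_nonneg a
  have hlt : 0 ≤ Real.log (t : ℝ) := Real.log_natCast_nonneg t
  set S := (range a).filter (Nat.Coprime a) with hS
  have hcard : (S.card : ℝ) = a.totient := by
    rw [hS, Nat.totient_eq_card_coprime]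
  set X1 : ℕ → ℝ := fun b => psiAP a b t - psiCop a t / a.totient -
      (if hd : d ∣ a ∧ χ₁ ≠ 1 then ((DirichletCharacter.changeLevel hd.1 χ₁) (b : ZMod a)).re *
        (psiChi (DirichletCharacter.changeLevel hd.1 χ₁) t).re / a.totient else 0) with hX1
  set X4 : ℕ → ℝ := fun b =>
      (if hd : d ∣ a ∧ χ₁ ≠ 1 then ((DirichletCharacter.changeLevel hd.1 χ₁) (b : ZMod a)).re *
        (psiChi (DirichletCharacter.changeLevel hd.1 χ₁) t).re / a.totient else 0) -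
      (if d ∣ a then BDe_g χ₁ b * (psiChi χ₁ t).re / a.totient else 0) with hX4
  have hdec : ∀ b, thetaAP a b t - t / a.totient -
      (if d ∣ a then BDe_g χ₁ b * (psiChi χ₁ t).re / a.totient else 0) =
      X1 b + (-(psiAP a b t - thetaAP a b t)) + (psiCop a t - t) / a.totient + X4 b := by
    intro b
    simp only [hX1, hX4]
    ring
  have h1 := one_mod a d t ha0 χ₁ hr
  have h2 := BDe_sq_ap (a := a) ha ht
  have h3 : |psiCop a t - t| ≤ 2 * Real.log a * Real.log t + K := by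
    have h4 := BVM.abs_psiCop_sub_psi_le ha0 t
    calc |psiCop a t - t| = |(psiCop a t - Chebyshev.psi t) + (Chebyshev.psi t - t)| := by ring_nf
      _ ≤ |psiCop a t - Chebyshev.psi t| + |Chebyshev.psi t - t| := abs_add_le _ _
      _ ≤ _ := add_le_add h4 hK
  have h3' : ((psiCop a t - t) / a.totient) ^ 2 ≤ (2 * Real.log a * Real.log t + K) ^ 2 / (a.totient : ℝ) ^ 2 := by
    rw [div_pow]
    gcongr ?_ / _
    rw [← sq_abs (psiCop a t - t)]
    exact pow_le_pow_left₀ (abs_nonneg _) h3 2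
  have h4 : ∀ b ∈ S, X4 b ^ 2 ≤ (2 * Real.log a * Real.log t) ^ 2 / (a.totient : ℝ) ^ 2 := by
    intro b hb
    rw [hS, Finset.mem_filter] at hb
    have hb2 := hb.2
    have hpos : 0 ≤ (2 * Real.log a * Real.log t) ^ 2 / (a.totient : ℝ) ^ 2 := by positivity
    by_cases hda : d ∣ a
    · by_cases hχ : χ₁ = 1
      · have : X4 b = 0 := by
          simp only [hX4, BDe_g]
          rw [dif_neg (fun h => h.2 hχ), if_pos hda, if_neg (not_not.2 hχ)]
          simp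
        rw [this]
        simpa using hpos
      · have hX : X4 b = (χ₁ (b : ZMod d)).re *
            ((psiChi (DirichletCharacter.changeLevel hda χ₁) t - psiChi χ₁ t).re) / a.totient := by
          simp only [hX4, BDe_g]
          rw [dif_pos ⟨hda, hχ⟩, if_pos hda, if_pos hχ, BDe_val hda hb2 χ₁, Complex.sub_re]
          ring
        rw [hX, div_pow]
        gcongr ?_ / _
        rw [← sq_abs (_ * _)]
        refine pow_le_pow_left₀ (abs_nonneg _) ?_ 2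
        rw [abs_mul]
        have e1 : |(χ₁ (b : ZMod d)).re| ≤ 1 :=
          (Complex.abs_re_le_norm _).trans (DirichletCharacter.norm_le_one _ _)
        have e2 := (Complex.abs_re_le_norm (psiChi (DirichletCharacter.changeLevel hda χ₁) t - psiChi χ₁ t)).trans
          (BDe_diff (t := t) ha0 hda χ₁)
        calc _ ≤ 1 * (2 * Real.log a * Real.log t) :=
              mul_le_mul e1 e2 (abs_nonneg _) zero_le_one
          _ = _ := one_mul _
    · have : X4 b = 0 := by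
        simp only [hX4]
        rw [dif_neg (fun h => hda h.1), if_neg hda, sub_zero]
      rw [this]
      simpa using hpos
  have hsum : ∀ c : ℝ, ∑ _b ∈ S, c / (a.totient : ℝ) ^ 2 = (1 / (a.totient : ℝ)) * c := by
    intro c
    rw [Finset.sum_const, nsmul_eq_mul, hcard]
    field_simp
  calc ∑ b ∈ S, (thetaAP a b t - t / a.totient -
        (if d ∣ a then BDe_g χ₁ b * (psiChi χ₁ t).re / a.totient else 0)) ^ 2
      ≤ ∑ b ∈ S, (4 * X1 b ^ 2 + 4 * (psiAP a b t - thetaAP a b t) ^ 2 +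
          4 * ((2 * Real.log a * Real.log t + K) ^ 2 / (a.totient : ℝ) ^ 2) +
          4 * ((2 * Real.log a * Real.log t) ^ 2 / (a.totient : ℝ) ^ 2)) := by
        refine Finset.sum_le_sum fun b hb => ?_
        rw [hdec b]
        have e := BDe_four (X1 b) (-(psiAP a b t - thetaAP a b t)) ((psiCop a t - t) / a.totient) (X4 b)
        have e4 := h4 b hb
        rw [neg_sq] at e
        linarith
    _ = 4 * (∑ b ∈ S, X1 b ^ 2) + 4 * (∑ b ∈ S, (psiAP a b t - thetaAP a b t) ^ 2) +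
        4 * ((1 / (a.totient : ℝ)) * (2 * Real.log a * Real.log t + K) ^ 2) +
        4 * ((1 / (a.totient : ℝ)) * (2 * Real.log a * Real.log t) ^ 2) := by
        rw [Finset.sum_add_distrib, Finset.sum_add_distrib, Finset.sum_add_distrib, ← Finset.mul_sum,
          ← Finset.mul_sum, ← Finset.mul_sum, ← Finset.mul_sum, hsum, hsum]
    _ ≤ _ := by
        have e1 : ∑ b ∈ S, X1 b ^ 2 ≤ (1 / (a.totient : ℝ)) * ∑ χ ∈ (nonPrin a).filter
          (fun χ => ∀ hd : d ∣ a, χ ≠ DirichletCharacter.changeLevel hd χ₁), ‖psiChi χ t‖ ^ 2 := h1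
        linarith

open Classical in
theorem BDe_prim {d Q D1 t : ℕ} {K R : ℝ} (χ₁ : DirichletCharacter ℂ d)
    (h : ∀ q : ℕ, 1 ≤ q → q ≤ D1 → ∀ χ : DirichletCharacter ℂ q, χ.IsPrimitive → χ ≠ 1 →
      (∀ e : q = d, DirichletCharacter.changeLevel (dvd_of_eq e) χ ≠ χ₁) → ‖psiChi χ t‖ ≤ K)
    (hls : ∑ m ∈ Ioc D1 Q, (1 / (m.totient : ℝ)) * ∑ χ ∈ prim m, ‖psiChi χ t‖ ^ 2 ≤ R) :
    ∑ m ∈ Ioc 1 Q, (1 / (m.totient : ℝ)) * ∑ χ ∈ (prim m).filter
      (fun χ => ∀ e : m = d, DirichletCharacter.changeLevel (dvd_of_eq e) χ ≠ χ₁), ‖psiChi χ t‖ ^ 2 ≤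
      D1 * K ^ 2 + R := by
  have hu : ∀ m : ℕ, 0 ≤ (1 / (m.totient : ℝ)) * ∑ χ ∈ prim m, ‖psiChi χ t‖ ^ 2 := fun m => by positivity
  have hterm : ∀ m ∈ Ioc 1 Q, (1 / (m.totient : ℝ)) * ∑ χ ∈ (prim m).filter
      (fun χ => ∀ e : m = d, DirichletCharacter.changeLevel (dvd_of_eq e) χ ≠ χ₁), ‖psiChi χ t‖ ^ 2 ≤
      (if m ≤ D1 then K ^ 2 else 0) +
        (if D1 < m then (1 / (m.totient : ℝ)) * ∑ χ ∈ prim m, ‖psiChi χ t‖ ^ 2 else 0) := by
    intro m hm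
    rw [Finset.mem_Ioc] at hm
    have hm0 : m ≠ 0 := by omega
    have hφ : (0 : ℝ) < m.totient := by exact_mod_cast Nat.totient_pos.2 (Nat.pos_of_ne_zero hm0)
    by_cases hmD : m ≤ D1
    · rw [if_pos hmD, if_neg (not_lt.2 hmD), add_zero]
      have h1 : ∑ χ ∈ (prim m).filter
          (fun χ => ∀ e : m = d, DirichletCharacter.changeLevel (dvd_of_eq e) χ ≠ χ₁), ‖psiChi χ t‖ ^ 2 ≤
          ∑ _χ ∈ (prim m).filter
          (fun χ => ∀ e : m = d, DirichletCharacter.changeLevel (dvd_of_eq e) χ ≠ χ₁), K ^ 2 := by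
        refine Finset.sum_le_sum fun χ hχ => ?_
        rw [Finset.mem_filter, BVM.mem_prim hm0] at hχ
        refine pow_le_pow_left₀ (norm_nonneg _) (h m (by omega) hmD χ hχ.1 ?_ hχ.2) 2
        rintro rfl
        have : NeZero m := ⟨hm0⟩
        have h2 := hχ.1
        rw [DirichletCharacter.isPrimitive_def, DirichletCharacter.conductor_one] at h2
        omega
      rw [Finset.sum_const, nsmul_eq_mul] at h1
      have h3 : (((prim m).filter
          (fun χ => ∀ e : m = d, DirichletCharacter.changeLevel (dvd_of_eq e) χ ≠ χ₁)).card : ℝ) ≤ m.totient := by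
        exact_mod_cast (Finset.card_le_card (Finset.filter_subset _ _)).trans (BVM.card_prim_le hm0)
      calc _ ≤ (1 / (m.totient : ℝ)) * (m.totient * K ^ 2) := by
            refine mul_le_mul_of_nonneg_left (h1.trans ?_) (by positivity)
            exact mul_le_mul_of_nonneg_right h3 (sq_nonneg _)
        _ = K ^ 2 := by field_simp
    · rw [if_neg hmD, if_pos (not_le.1 hmD), zero_add]
      refine mul_le_mul_of_nonneg_left ?_ (by positivity)
      exact Finset.sum_le_sum_of_subset_of_nonneg (Finset.filter_subset _ _) fun _ _ _ => sq_nonneg _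
  refine (Finset.sum_le_sum hterm).trans ?_
  rw [Finset.sum_add_distrib]
  refine add_le_add ?_ ?_
  · rw [← Finset.sum_filter, Finset.sum_const, nsmul_eq_mul]
    refine mul_le_mul_of_nonneg_right ?_ (sq_nonneg _)
    have h1 : (Ioc 1 Q).filter (fun m => m ≤ D1) ⊆ Icc 1 D1 := by
      intro m hm
      rw [Finset.mem_filter, Finset.mem_Ioc] at hm
      rw [Finset.mem_Icc]
      omega
    have h2 := Finset.card_le_card h1
    rw [Nat.card_Icc] at h2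
    have h3 : ((Ioc 1 Q).filter (fun m => m ≤ D1)).card ≤ D1 := by omega
    exact_mod_cast h3
  · refine le_trans ?_ hls
    rw [← Finset.sum_filter]
    refine Finset.sum_le_sum_of_subset_of_nonneg ?_ fun m _ _ => hu m
    intro m hm
    rw [Finset.mem_filter, Finset.mem_Ioc] at hm
    rw [Finset.mem_Ioc]
    omega

theorem BDe_QQ {x : ℕ} (hx : 16 ≤ x) : ((QQ x : ℕ) : ℝ) ≤ 4 * √(x : ℝ) ∧ QQ x ≤ x := by
  have h1 : Nat.sqrt x * Nat.sqrt x ≤ x := Nat.sqrt_le x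
  have h4 : 4 ≤ Nat.sqrt x := by
    rw [Nat.le_sqrt]
    omega
  constructor
  · have h2 : ((Nat.sqrt x : ℕ) : ℝ) ≤ √(x : ℝ) := Real.nat_sqrt_le_real_sqrt
    have h3 : (1 : ℝ) ≤ √(x : ℝ) := by
      rw [Real.one_le_sqrt]
      exact_mod_cast (by omega : 1 ≤ x)
    unfold QQ
    push_cast
    linarith
  · unfold QQ
    calc 2 * Nat.sqrt x + 2 ≤ 4 * Nat.sqrt x := by omega
      _ ≤ Nat.sqrt x * Nat.sqrt x := Nat.mul_le_mul_right _ h4
      _ ≤ x := h1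

theorem bdh (A D : ℕ) : ∃ C : ℝ, 0 ≤ C ∧ ∃ x₀ : ℕ, ∀ x : ℕ, x₀ ≤ x →
    ∃ (d : ℕ) (g P : ℕ → ℝ), 1 ≤ d ∧ D ≤ d ∧ (∀ b, |g b| ≤ 1) ∧ (∀ t ≤ x, |P t| ≤ 2 * x) ∧
      ∀ t ≤ x, ∀ Q ≤ QQ x, ∑ a ∈ Icc 1 Q, ∑ b ∈ (range a).filter (Nat.Coprime a),
        (thetaAP a b t - t / a.totient - (if d ∣ a then g b * P t / a.totient else 0)) ^ 2 ≤
          C * (x : ℝ) ^ 2 / Real.log x ^ A := by
  classical
  obtain ⟨C1, hC1, x1, hsw⟩ := sw_exc (A + 3) (A + 4) D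
  obtain ⟨C2, hC2, hls⟩ := ls_part
  obtain ⟨C3, hC3⟩ := BVM.pnt_err (A + 1)
  obtain ⟨C5, hC5, hE⟩ := BVM.exists_log_pow_mul_rpow_le' 6 A (θ := 1 / 2) (by norm_num)
  refine ⟨64 * C1 ^ 2 + 128 * C2 + 256 * C2 * C5 + 64 * C3 ^ 2 + 576 * C5, by positivity,
    max x1 (max 16 ⌈Real.exp |C3|⌉₊), fun x hx => ?_⟩
  have hx1 : x1 ≤ x := le_trans (le_max_left _ _) hx
  have hx16 : 16 ≤ x := le_trans (le_trans (le_max_left _ _) (le_max_right _ _)) hx
  have hxe : ⌈Real.exp |C3|⌉₊ ≤ x := le_trans (le_trans (le_max_right _ _) (le_max_right _ _)) hx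
  have hxR : (16 : ℝ) ≤ x := by exact_mod_cast hx16
  have hx0 : (0 : ℝ) < x := by linarith
  have hx3 : (3 : ℝ) ≤ x := by linarith
  obtain ⟨hQ4, hQx⟩ := BDe_QQ hx16
  set L := Real.log (x : ℝ) with hL
  have hL1 : 1 ≤ L := BVM.one_le_log hx3
  have hL0 : 0 < L := by linarith
  have hC3L : |C3| ≤ L := by
    rw [hL, Real.le_log_iff_exp_le hx0]
    exact (Nat.le_ceil _).trans (by exact_mod_cast hxe)
  obtain ⟨d, χ₁, hd1, hdD, hr, hch⟩ := hsw x hx1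
  have hsq1 : 1 ≤ √(x : ℝ) := by
    rw [Real.one_le_sqrt]
    linarith
  have hss : √(x : ℝ) * √(x : ℝ) = x := Real.mul_self_sqrt hx0.le
  -- the error of the prime number theorem
  set K2 := |C3| * x / L ^ (A + 1) with hK2
  have hK20 : 0 ≤ K2 := by positivity
  have hpsi : ∀ t : ℕ, t ≤ x → |Chebyshev.psi t - t| ≤ K2 := by
    intro t ht
    refine (hC3 x hx3 t (by exact_mod_cast ht)).trans ?_
    rw [hK2]
    gcongr
    exact le_abs_self _
  have hK2x : K2 ≤ x := by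
    rw [hK2, div_le_iff₀ (by positivity)]
    have h1 : |C3| ≤ L ^ (A + 1) := by
      refine hC3L.trans ?_
      calc L = L ^ 1 := (pow_one L).symm
        _ ≤ L ^ (A + 1) := pow_le_pow_right₀ hL1 (by omega)
    rw [mul_comm]
    exact mul_le_mul_of_nonneg_left h1 hx0.le
  refine ⟨d, BDe_g χ₁, fun t => (psiChi χ₁ t).re, hd1, hdD, BDe_g_le χ₁, ?_, ?_⟩
  · intro t ht
    have h1 := hpsi t ht
    have h2 : (t : ℝ) ≤ x := by exact_mod_cast ht
    have h3 := (abs_le.1 h1).2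
    calc |(psiChi χ₁ t).re| ≤ ‖psiChi χ₁ t‖ := Complex.abs_re_le_norm _
      _ ≤ Chebyshev.psi t := BDe_norm_le χ₁
      _ ≤ 2 * x := by linarith
  intro t ht Q hQ
  have hQx' : Q ≤ x := hQ.trans hQx
  have hM0 : 0 ≤ (x : ℝ) ^ 2 / L ^ A := by positivity
  rcases Nat.eq_zero_or_pos t with rfl | ht0
  · have h0 : ∀ a b : ℕ, thetaAP a b 0 = 0 := by
      intro a b
      unfold thetaAP
      simp
    have h1 : psiChi χ₁ 0 = 0 := by
      unfold psiChi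
      simp
    have : ∑ a ∈ Icc 1 Q, ∑ b ∈ (range a).filter (Nat.Coprime a),
        (thetaAP a b 0 - ((0 : ℕ) : ℝ) / a.totient -
          (if d ∣ a then BDe_g χ₁ b * (psiChi χ₁ 0).re / a.totient else 0)) ^ 2 = 0 := by
      refine Finset.sum_eq_zero fun a _ => Finset.sum_eq_zero fun b _ => ?_
      rw [h0, h1]
      simp
    rw [this]
    positivity
  rcases Nat.eq_zero_or_pos Q with rfl | hQ0
  · simp only [Finset.Icc_eq_empty (show ¬ (1 : ℕ) ≤ 0 by omega), Finset.sum_empty]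
    positivity
  have ht0R : (0 : ℝ) < t := by exact_mod_cast ht0
  have htx : (t : ℝ) ≤ x := by exact_mod_cast ht
  have hQ0R : (0 : ℝ) < Q := by exact_mod_cast hQ0
  have hlt0 : 0 ≤ Real.log (t : ℝ) := Real.log_natCast_nonneg t
  have hlt : Real.log (t : ℝ) ≤ L := Real.log_le_log ht0R htx
  have hlQ0 : 0 ≤ Real.log (Q : ℝ) := Real.log_natCast_nonneg Q
  have hlQ : Real.log (Q : ℝ) ≤ L := Real.log_le_log hQ0R (by exact_mod_cast hQx')
  have hQ4' : (Q : ℝ) ≤ 4 * √(x : ℝ) := le_trans (by exact_mod_cast hQ) hQ4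
  -- the cut
  set D1 := ⌊L ^ (A + 4)⌋₊ with hD1
  have hLB1 : 1 ≤ L ^ (A + 4) := one_le_pow₀ hL1
  have hD1le : (D1 : ℝ) ≤ L ^ (A + 4) := Nat.floor_le (by positivity)
  have hD1one : 1 ≤ D1 := by
    rw [hD1]
    exact Nat.one_le_iff_ne_zero.2 (Nat.floor_pos.2 hLB1).ne'
  have hD1R : (1 : ℝ) ≤ D1 := by exact_mod_cast hD1one
  have hD1ge : L ^ (A + 4) / 2 ≤ D1 := by
    have h1 : L ^ (A + 4) < D1 + 1 := Nat.lt_floor_add_one _
    linarith
  set K1 := C1 * x / L ^ (A + 3) with hK1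
  set M := (x : ℝ) ^ 2 / L ^ A with hM
  set E := (x : ℝ) * (L ^ 6 * √(x : ℝ)) with hEdef
  have hEM : E ≤ C5 * M := by
    have h1 := hE x hx3
    rw [← Real.sqrt_eq_rpow] at h1
    calc E ≤ (x : ℝ) * (C5 * x / L ^ A) := mul_le_mul_of_nonneg_left h1 hx0.le
      _ = C5 * M := by
        rw [hM]
        ring
  have hL2 : (0 : ℝ) ≤ L ^ 2 := by positivity
  have hL4 : (0 : ℝ) ≤ L ^ 4 := by positivity
  have hL26 : L ^ 2 ≤ L ^ 6 := pow_le_pow_right₀ hL1 (by omega)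
  have hL46 : L ^ 4 ≤ L ^ 6 := pow_le_pow_right₀ hL1 (by omega)
  have hx1R : (1 : ℝ) ≤ x := by linarith
  -- the pieces
  have ea : L ^ 2 * (D1 * K1 ^ 2) ≤ C1 ^ 2 * M := by
    calc L ^ 2 * (D1 * K1 ^ 2) ≤ L ^ 2 * (L ^ (A + 4) * K1 ^ 2) := by gcongr
      _ = C1 ^ 2 * M := by
        rw [hK1, hM]
        field_simp
        ring
  have eb : L ^ 4 * ((x : ℝ) * (x / D1)) ≤ 2 * M := by
    have h1 : (x : ℝ) / D1 ≤ x / (L ^ (A + 4) / 2) := by gcongr
    calc L ^ 4 * ((x : ℝ) * (x / D1)) ≤ L ^ 4 * ((x : ℝ) * (x / (L ^ (A + 4) / 2))) := by gcongr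
      _ = 2 * M := by
        rw [hM]
        field_simp
        ring
  have ec : L ^ 4 * ((x : ℝ) * √(x : ℝ)) ≤ E := by
    calc L ^ 4 * ((x : ℝ) * √(x : ℝ)) ≤ L ^ 6 * ((x : ℝ) * √(x : ℝ)) := by gcongr
      _ = E := by
        rw [hEdef]
        ring
  have ed : L ^ 4 * √(x : ℝ) ≤ E := by
    refine le_trans ?_ ec
    have h1 : √(x : ℝ) ≤ (x : ℝ) * √(x : ℝ) := le_mul_of_one_le_left (Real.sqrt_nonneg _) hx1R
    gcongr
  have ee : L ^ 2 * ((x : ℝ) * √(x : ℝ)) ≤ E := by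
    calc L ^ 2 * ((x : ℝ) * √(x : ℝ)) ≤ L ^ 6 * ((x : ℝ) * √(x : ℝ)) := by gcongr
      _ = E := by
        rw [hEdef]
        ring
  have ef : L ^ 6 ≤ E := by
    have h1 : (1 : ℝ) ≤ (x : ℝ) * √(x : ℝ) := one_le_mul_of_one_le_of_one_le hx1R hsq1
    calc L ^ 6 = L ^ 6 * 1 := (mul_one _).symm
      _ ≤ L ^ 6 * ((x : ℝ) * √(x : ℝ)) := by gcongr
      _ = E := by
        rw [hEdef]
        ring
  have eg : L ^ 2 * K2 ^ 2 ≤ C3 ^ 2 * M := by
    have h1 : L ^ 2 * K2 ^ 2 = C3 ^ 2 * ((x : ℝ) ^ 2 / L ^ (A + A)) := by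
      rw [hK2, div_pow, mul_pow, sq_abs]
      field_simp
      ring
    rw [h1, hM]
    have h2 : L ^ A ≤ L ^ (A + A) := pow_le_pow_right₀ hL1 (by omega)
    gcongr
  -- assembly
  have hprim := BDe_prim (Q := Q) (D1 := D1) (t := t) (K := K1)
    (R := C2 * t * Real.log t ^ 2 * (t / D1 + Q)) χ₁ (fun q hq1 hqD χ hp hne hex =>
      hch q hq1 (le_trans (by exact_mod_cast hqD) hD1le) χ hp hne hex t ht) (hls D1 Q t hD1one ht0)
  have hsm := sum_mod Q d t ht0 χ₁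
  have hS := BVM.sum_inv_totient_le Q
  have h1Q : 0 ≤ 1 + Real.log (Q : ℝ) := by linarith
  have hlQ2 : (1 + Real.log (Q : ℝ)) ^ 2 ≤ 4 * L ^ 2 := by
    calc (1 + Real.log (Q : ℝ)) ^ 2 ≤ (2 * L) ^ 2 := pow_le_pow_left₀ h1Q (by linarith) 2
      _ = 4 * L ^ 2 := by ring
  have hP1 : ∑ a ∈ Icc 1 Q, (1 / (a.totient : ℝ)) * ∑ χ ∈ (nonPrin a).filter
        (fun χ => ∀ hd : d ∣ a, χ ≠ DirichletCharacter.changeLevel hd χ₁), ‖psiChi χ t‖ ^ 2 ≤
      16 * (C1 ^ 2 * M) + 32 * C2 * M + 64 * C2 * E + 32 * E := by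
    refine hsm.trans ?_
    have hR : C2 * t * Real.log t ^ 2 * (t / D1 + Q) ≤ C2 * x * L ^ 2 * (x / D1 + 4 * √(x : ℝ)) := by
      gcongr
    have hR0 : 0 ≤ D1 * K1 ^ 2 + C2 * x * L ^ 2 * (x / D1 + 4 * √(x : ℝ)) := by positivity
    have hI : ∑ m ∈ Ioc 1 Q, (1 / (m.totient : ℝ)) * ∑ χ ∈ (prim m).filter
      (fun χ => ∀ e : m = d, DirichletCharacter.changeLevel (dvd_of_eq e) χ ≠ χ₁), ‖psiChi χ t‖ ^ 2 ≤
      D1 * K1 ^ 2 + C2 * x * L ^ 2 * (x / D1 + 4 * √(x : ℝ)) := hprim.trans (by linarith)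
    have hF : 4 * (1 + Real.log (Q : ℝ)) ^ 2 * (∑ m ∈ Ioc 1 Q, (1 / (m.totient : ℝ)) * ∑ χ ∈ (prim m).filter
      (fun χ => ∀ e : m = d, DirichletCharacter.changeLevel (dvd_of_eq e) χ ≠ χ₁), ‖psiChi χ t‖ ^ 2) ≤
        16 * L ^ 2 * (D1 * K1 ^ 2 + C2 * x * L ^ 2 * (x / D1 + 4 * √(x : ℝ))) := by
      have h4 : 0 ≤ 4 * (1 + Real.log (Q : ℝ)) ^ 2 := by positivity
      refine (mul_le_mul_of_nonneg_left hI h4).trans ?_
      refine mul_le_mul_of_nonneg_right ?_ hR0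
      linarith
    have hG : 8 * (Q : ℝ) * (Real.log Q * Real.log t) ^ 2 ≤ 32 * (L ^ 4 * √(x : ℝ)) := by
      have h5 : Real.log (Q : ℝ) * Real.log t ≤ L * L := mul_le_mul hlQ hlt hlt0 hL0.le
      have h6 : 0 ≤ Real.log (Q : ℝ) * Real.log t := mul_nonneg hlQ0 hlt0
      calc 8 * (Q : ℝ) * (Real.log Q * Real.log t) ^ 2 ≤ 8 * (4 * √(x : ℝ)) * (L * L) ^ 2 := by gcongr
        _ = 32 * (L ^ 4 * √(x : ℝ)) := by ring
    have hexp : 16 * L ^ 2 * (D1 * K1 ^ 2 + C2 * x * L ^ 2 * (x / D1 + 4 * √(x : ℝ))) =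
        16 * (L ^ 2 * (D1 * K1 ^ 2)) + 16 * C2 * (L ^ 4 * ((x : ℝ) * (x / D1))) +
          64 * C2 * (L ^ 4 * ((x : ℝ) * √(x : ℝ))) := by ring
    have h7 : 16 * C2 * (L ^ 4 * ((x : ℝ) * (x / D1))) ≤ 16 * C2 * (2 * M) := by gcongr
    have h8 : 64 * C2 * (L ^ 4 * ((x : ℝ) * √(x : ℝ))) ≤ 64 * C2 * E := by gcongr
    linarith
  have hone : ∀ a ∈ Icc 1 Q, ∑ b ∈ (range a).filter (Nat.Coprime a),
        (thetaAP a b t - t / a.totient -
          (if d ∣ a then BDe_g χ₁ b * (psiChi χ₁ t).re / a.totient else 0)) ^ 2 ≤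
      4 * ((1 / (a.totient : ℝ)) * ∑ χ ∈ (nonPrin a).filter
        (fun χ => ∀ hd : d ∣ a, χ ≠ DirichletCharacter.changeLevel hd χ₁), ‖psiChi χ t‖ ^ 2) +
      4 * (2 * √(x : ℝ) * L) ^ 2 + (1 / (a.totient : ℝ)) * (4 * (2 * L ^ 2 + K2) ^ 2) +
      (1 / (a.totient : ℝ)) * (4 * (2 * L ^ 2) ^ 2) := by
    intro a ha
    rw [Finset.mem_Icc] at ha
    have h1 := BDe_one (K := K2) ha.1 ht χ₁ hr (hpsi t ht)
    have hla0 : 0 ≤ Real.log (a : ℝ) := Real.log_natCast_nonneg a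
    have hla : Real.log (a : ℝ) ≤ L :=
      (Real.log_le_log (by exact_mod_cast ha.1) (by exact_mod_cast ha.2)).trans hlQ
    have h2 : 2 * Real.log (a : ℝ) * Real.log t ≤ 2 * L ^ 2 := by
      calc 2 * Real.log (a : ℝ) * Real.log t = 2 * (Real.log (a : ℝ) * Real.log t) := by ring
        _ ≤ 2 * (L * L) := mul_le_mul_of_nonneg_left (mul_le_mul hla hlt hlt0 hL0.le) zero_le_two
        _ = 2 * L ^ 2 := by ring
    have h20 : 0 ≤ 2 * Real.log (a : ℝ) * Real.log t := by positivity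
    have hφ : 0 ≤ 1 / (a.totient : ℝ) := by positivity
    have h3 : 4 * ((1 / (a.totient : ℝ)) * (2 * Real.log a * Real.log t + K2) ^ 2) ≤
        (1 / (a.totient : ℝ)) * (4 * (2 * L ^ 2 + K2) ^ 2) := by
      have h5 : (2 * Real.log a * Real.log t + K2) ^ 2 ≤ (2 * L ^ 2 + K2) ^ 2 :=
        pow_le_pow_left₀ (add_nonneg h20 hK20) (add_le_add h2 le_rfl) 2
      calc _ = (1 / (a.totient : ℝ)) * (4 * (2 * Real.log a * Real.log t + K2) ^ 2) := by ring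
        _ ≤ _ := mul_le_mul_of_nonneg_left (mul_le_mul_of_nonneg_left h5 (by norm_num)) hφ
    have h4 : 4 * ((1 / (a.totient : ℝ)) * (2 * Real.log a * Real.log t) ^ 2) ≤
        (1 / (a.totient : ℝ)) * (4 * (2 * L ^ 2) ^ 2) := by
      have h5 : (2 * Real.log a * Real.log t) ^ 2 ≤ (2 * L ^ 2) ^ 2 := pow_le_pow_left₀ h20 h2 2
      calc _ = (1 / (a.totient : ℝ)) * (4 * (2 * Real.log a * Real.log t) ^ 2) := by ring
        _ ≤ _ := mul_le_mul_of_nonneg_left (mul_le_mul_of_nonneg_left h5 (by norm_num)) hφ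
    linarith
  refine (Finset.sum_le_sum hone).trans ?_
  rw [Finset.sum_add_distrib, Finset.sum_add_distrib, Finset.sum_add_distrib, ← Finset.mul_sum,
    Finset.sum_const, ← Finset.sum_mul, ← Finset.sum_mul, Nat.card_Icc, nsmul_eq_mul, Nat.add_sub_cancel]
  have hS8 : ∑ a ∈ Icc 1 Q, 1 / (a.totient : ℝ) ≤ 8 * L ^ 2 := hS.trans (by linarith)
  have t2 : (Q : ℝ) * (4 * (2 * √(x : ℝ) * L) ^ 2) ≤ 64 * E := by
    have h1 : (2 * √(x : ℝ) * L) ^ 2 = 4 * (x * L ^ 2) := by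
      rw [mul_pow, mul_pow, Real.sq_sqrt hx0.le]
      ring
    rw [h1]
    calc (Q : ℝ) * (4 * (4 * (x * L ^ 2))) ≤ (4 * √(x : ℝ)) * (4 * (4 * (x * L ^ 2))) := by gcongr
      _ = 64 * (L ^ 2 * ((x : ℝ) * √(x : ℝ))) := by ring
      _ ≤ 64 * E := by gcongr
  have t3 : (∑ a ∈ Icc 1 Q, 1 / (a.totient : ℝ)) * (4 * (2 * L ^ 2 + K2) ^ 2) ≤
      256 * E + 64 * (C3 ^ 2 * M) := by
    have h1 : (2 * L ^ 2 + K2) ^ 2 ≤ 8 * L ^ 4 + 2 * K2 ^ 2 := by
      have e : 8 * L ^ 4 + 2 * K2 ^ 2 - (2 * L ^ 2 + K2) ^ 2 = (2 * L ^ 2 - K2) ^ 2 := by ring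
      have e2 := sq_nonneg (2 * L ^ 2 - K2)
      linarith
    calc (∑ a ∈ Icc 1 Q, 1 / (a.totient : ℝ)) * (4 * (2 * L ^ 2 + K2) ^ 2)
        ≤ (8 * L ^ 2) * (4 * (8 * L ^ 4 + 2 * K2 ^ 2)) := by gcongr
      _ = 256 * L ^ 6 + 64 * (L ^ 2 * K2 ^ 2) := by ring
      _ ≤ _ := by linarith
  have t4 : (∑ a ∈ Icc 1 Q, 1 / (a.totient : ℝ)) * (4 * (2 * L ^ 2) ^ 2) ≤ 128 * E := by
    calc (∑ a ∈ Icc 1 Q, 1 / (a.totient : ℝ)) * (4 * (2 * L ^ 2) ^ 2)
        ≤ (8 * L ^ 2) * (4 * (2 * L ^ 2) ^ 2) := by gcongr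
      _ = 128 * L ^ 6 := by ring
      _ ≤ _ := by linarith
  have hCE : 256 * C2 * E ≤ 256 * C2 * (C5 * M) := by gcongr
  have hfin : (64 * C1 ^ 2 + 128 * C2 + 256 * C2 * C5 + 64 * C3 ^ 2 + 576 * C5) * (x : ℝ) ^ 2 / L ^ A =
      64 * (C1 ^ 2 * M) + 128 * C2 * M + 256 * C2 * (C5 * M) + 64 * (C3 ^ 2 * M) + 576 * (C5 * M) := by
    rw [hM]
    ring
  rw [hfin]
  linarith

end Pool.Agent.HAV
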