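import Pool.Agent.HAV.Defs

/-!
# HAV-CST: the constant

PROOF.  `ζ(2) = π²/6 = ∏_ℓ (1 - ℓ^(-2))⁻¹` (Mathlib `riemannZeta_two`, `riemannZeta_eulerProduct_tprod` or `_hasProd`), so
`π²/12 = (1/2) ∏_ℓ (1 - ℓ^(-2))⁻¹`; for `ℓ = 2` the local factors give `(1/2) · 1 · (4/3) = 2/3 = 1 - 1/3` and for odd `ℓ`
`(1 - 1/(ℓ(ℓ-1))) (1 - ℓ^(-2))⁻¹ = (ℓ² - ℓ - 1) ℓ/((ℓ-1)(ℓ²-1)) = 1 - 1/(ℓ³ - ℓ² - ℓ + 1)`.  All products converge absolutely (`Multipliable`);
move the factor `1/2` into the factor at `ℓ = 2`.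
-/

set_option autoImplicit false

open Finset Filter Topology
open BVM (psiAP psiCop thetaAP psiChi prim nonPrin)

namespace Pool.Agent.HAV

/-- the factors of `C0` -/
private noncomputable def CST_a (l : Nat.Primes) : ℝ :=
  if (l : ℕ) = 2 then (1 : ℝ) else 1 - 1 / ((l : ℝ) * ((l : ℝ) - 1))

/-- the factors of `ζ(2)` -/
private noncomputable def CST_b (l : Nat.Primes) : ℝ := (1 - ((l : ℝ) ^ 2)⁻¹)⁻¹

/-- the factor `1/2` at `ℓ = 2` -/
private noncomputable def CST_c (l : Nat.Primes) : ℝ := if l = ⟨2, Nat.prime_two⟩ then (1 / 2 : ℝ) else 1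

private theorem CST_mul (l : Nat.Primes) : CST_a l * CST_b l * CST_c l =
    1 - 1 / ((l : ℝ) ^ 3 - (l : ℝ) ^ 2 - (l : ℝ) + 1) := by
  unfold CST_a CST_b CST_c
  by_cases h : (l : ℕ) = 2
  · have h' : l = ⟨2, Nat.prime_two⟩ := Subtype.ext h
    rw [if_pos h, if_pos h', h]
    norm_num
  · have h' : ¬ l = ⟨2, Nat.prime_two⟩ := fun e => h (congrArg Subtype.val e)
    rw [if_neg h, if_neg h']
    have h2 : 2 < (l : ℕ) := lt_of_le_of_ne l.2.two_le (Ne.symm h)
    have h3 : (2 : ℝ) < (l : ℝ) := by exact_mod_cast h2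
    set x : ℝ := (l : ℝ) with hx
    have e1 : x ≠ 0 := by intro e; rw [e] at h3; norm_num at h3
    have e2 : x - 1 ≠ 0 := by intro e; have : x = 1 := by linarith
                              rw [this] at h3; norm_num at h3
    have e3 : x + 1 ≠ 0 := by intro e; have : x = -1 := by linarith
                              rw [this] at h3; norm_num at h3
    have e4 : x ^ 2 - 1 ≠ 0 := by
      have : x ^ 2 - 1 = (x - 1) * (x + 1) := by ring
      rw [this]
      exact mul_ne_zero e2 e3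
    have e5 : x ^ 3 - x ^ 2 - x + 1 ≠ 0 := by
      have : x ^ 3 - x ^ 2 - x + 1 = (x - 1) * (x - 1) * (x + 1) := by ring
      rw [this]
      exact mul_ne_zero (mul_ne_zero e2 e2) e3
    have e6 : (1 - (x ^ 2)⁻¹)⁻¹ = x ^ 2 / (x ^ 2 - 1) := by
      have : 1 - (x ^ 2)⁻¹ = (x ^ 2 - 1) / x ^ 2 := by field_simp
      rw [this, inv_div]
    have e7 : x ^ 3 - x ^ 2 - x + 1 = (x - 1) ^ 2 * (x + 1) := by ring
    have e8 : x ^ 2 - 1 = (x - 1) * (x + 1) := by ring
    rw [e6, e7, e8, mul_one]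
    field_simp
    ring

private theorem CST_hb : HasProd CST_b (Real.pi ^ 2 / 6) := by
  let f : ℕ →*₀ ℝ :=
    { toFun := fun n => ((n : ℝ) ^ 2)⁻¹
      map_zero' := by simp
      map_one' := by simp
      map_mul' := fun a b => by push_cast; rw [mul_pow, mul_inv] }
  have hf : ∀ n : ℕ, f n = ((n : ℝ) ^ 2)⁻¹ := fun n => rfl
  have h1 : HasSum (fun n : ℕ => f n) (Real.pi ^ 2 / 6) :=
    hasSum_zeta_two.congr_fun fun n => by rw [hf, one_div]
  have h2 : Summable (fun n : ℕ => ‖f n‖) := h1.summable.norm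
  have h3 := EulerProduct.eulerProduct_completely_multiplicative_hasProd h2
  rw [h1.tsum_eq] at h3
  exact h3

private theorem CST_hc : HasProd CST_c (1 / 2) :=
  hasProd_ite_eq (⟨2, Nat.prime_two⟩ : Nat.Primes) (1 / 2 : ℝ)

private theorem CST_ha : Multipliable CST_a := by
  have hs : Summable (fun l : Nat.Primes => 2 * (((l : ℕ) : ℝ) ^ 2)⁻¹) :=
    ((Real.summable_nat_pow_inv.2 (by norm_num : 1 < 2)).comp_injective
      (i := fun l : Nat.Primes => (l : ℕ)) Subtype.coe_injective).mul_left 2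
  have h1 : Summable (fun l : Nat.Primes => CST_a l - 1) := by
    refine Summable.of_norm_bounded hs fun l => ?_
    unfold CST_a
    have h2 : (2 : ℝ) ≤ (l : ℝ) := by exact_mod_cast l.2.two_le
    have h3 : (0 : ℝ) < (l : ℝ) ^ 2 := by positivity
    split_ifs with h
    · rw [sub_self, norm_zero]
      positivity
    · have h4 : 0 < (l : ℝ) * ((l : ℝ) - 1) := mul_pos (by linarith) (by linarith)
      have e : (1 - 1 / ((l : ℝ) * ((l : ℝ) - 1)) - 1 : ℝ) = - (1 / ((l : ℝ) * ((l : ℝ) - 1))) := by ring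
      rw [e, norm_neg, Real.norm_eq_abs, abs_of_pos (by positivity), ← one_div, mul_one_div,
        div_le_div_iff₀ h4 h3]
      nlinarith
  have h5 := Real.multipliable_one_add_of_summable h1
  have h6 : (fun l : Nat.Primes => 1 + (CST_a l - 1)) = CST_a := by
    funext l
    ring
  rwa [h6] at h5

theorem const_eq : C0 * (Real.pi ^ 2 / 12) = CC := by
  have ha : HasProd CST_a C0 := CST_ha.hasProd
  have h := (ha.mul CST_hb).mul CST_hc
  have h2 : HasProd (fun l : Nat.Primes => 1 - 1 / ((l : ℝ) ^ 3 - (l : ℝ) ^ 2 - (l : ℝ) + 1))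
      (C0 * (Real.pi ^ 2 / 6) * (1 / 2)) := h.congr_fun fun l => (CST_mul l).symm
  have h3 : CC = C0 * (Real.pi ^ 2 / 6) * (1 / 2) := h2.tprod_eq
  rw [h3]
  ring

end Pool.Agent.HAV
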