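import Pool.Agent.HAV.Defs

/-!
# HAV-HUR: class numbers and pairs `(a, k)`
-/

set_option autoImplicit false

open Finset Filter Topology
open BVM (psiAP psiCop thetaAP psiChi prim nonPrin)

namespace Pool.Agent.HAV

open Classical in
/-- the inner sum of `hurwitz` -/
private noncomputable def HUR_f (n : ℕ) (A B : ℤ) : ℝ :=
  ∑ C ∈ Icc (1 : ℤ) (4 * n : ℕ),
    if B ^ 2 + (4 * n : ℕ) = 4 * A * C ∧ |B| ≤ A ∧ A ≤ C ∧ (|B| = A ∨ A = C → 0 ≤ B) then
      (if A = C ∧ B = 0 then (1 / 2 : ℝ) else if A = C ∧ B = A then 1 / 3 else 1) else 0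

private theorem HUR_hur (n : ℕ) : hurwitz (4 * n) =
    ∑ A ∈ Icc (1 : ℤ) (4 * n : ℕ), ∑ B ∈ Icc (-((4 * n : ℕ) : ℤ)) (4 * n : ℕ), HUR_f n A B := rfl

/-- the condition on `(a, k)` -/
private def HUR_P (n : ℕ) (a k : ℤ) : Prop := a ∣ n + k ^ 2 ∧ a ^ 2 ≤ n + k ^ 2

private theorem HUR_f_zero {n : ℕ} {A B : ℤ} (h : HUR_f n A B ≠ 0) :
    ∃ k, B = 2 * k ∧ 2 * |k| ≤ A ∧ HUR_P n A k := by
  classical
  unfold HUR_f at h
  obtain ⟨C, hC, h1⟩ := Finset.exists_ne_zero_of_sum_ne_zero h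
  split_ifs at h1 with h2
  all_goals try exact absurd rfl h1
  all_goals
    obtain ⟨e1, e2, e3, e4⟩ := h2
    have hev : Even B := by
      have : Even (B ^ 2) := by
        refine ⟨2 * (A * C - n), ?_⟩
        push_cast at e1
        linarith
      exact (Int.even_pow' (by norm_num)).1 this
    obtain ⟨k, hk⟩ := hev
    have hB : B = 2 * k := by rw [hk]; ring
    refine ⟨k, hB, ?_, ?_, ?_⟩
    · rw [hB, abs_mul] at e2
      simpa using e2
    · refine ⟨C, ?_⟩
      rw [hB] at e1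
      push_cast at e1
      linarith [mul_comm A C]
    · rw [hB] at e1
      push_cast at e1
      have hA : 0 ≤ A := le_trans (abs_nonneg _) e2
      nlinarith [mul_le_mul_of_nonneg_left e3 hA]

private theorem HUR_f_nonneg (n : ℕ) (A B : ℤ) : 0 ≤ HUR_f n A B := by
  unfold HUR_f
  refine Finset.sum_nonneg fun C _ => ?_
  split_ifs <;> norm_num

private theorem HUR_f_le (n : ℕ) {A : ℤ} (hA : 0 < A) (B : ℤ) : HUR_f n A B ≤ 1 := by
  classical
  unfold HUR_f
  by_cases h : ∃ C ∈ Icc (1 : ℤ) (4 * n : ℕ), B ^ 2 + (4 * n : ℕ) = 4 * A * C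
  · obtain ⟨C0, hC0, h0⟩ := h
    rw [Finset.sum_eq_single_of_mem C0 hC0]
    · split_ifs <;> norm_num
    · intro C hC hne
      rw [if_neg]
      rintro ⟨e1, -⟩
      apply hne
      have : 4 * A * C = 4 * A * C0 := by rw [← e1, ← h0]
      exact mul_left_cancel₀ (by positivity) this
  · push Not at h
    rw [Finset.sum_eq_zero]
    · norm_num
    · intro C hC
      rw [if_neg]
      rintro ⟨e1, -⟩
      exact h C hC e1

private theorem HUR_bound {n : ℕ} {a k : ℤ} (hk : 2 * |k| ≤ a) (hP : HUR_P n a k) : 3 * a ^ 2 ≤ 4 * n := by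
  have h1 : (2 * |k|) ^ 2 ≤ a ^ 2 := by
    apply pow_le_pow_left₀ (by positivity) hk
  rw [mul_pow, sq_abs] at h1
  have := hP.2
  linarith

private theorem HUR_f_one {n : ℕ} {a k : ℤ} (ha : 0 < a) (hk : 2 * |k| < a) (h1 : a ∣ n + k ^ 2)
    (h2 : a ^ 2 < n + k ^ 2) : HUR_f n a (2 * k) = 1 := by
  classical
  obtain ⟨C0, hC⟩ := h1
  have hb := HUR_bound (n := n) hk.le ⟨⟨C0, hC⟩, h2.le⟩
  have hCa : a < C0 := by
    by_contra hcon
    push Not at hcon
    have : a * C0 ≤ a * a := mul_le_mul_of_nonneg_left hcon ha.le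
    nlinarith
  have hk2 : 4 * k ^ 2 ≤ a ^ 2 := by
    have h1 : (2 * |k|) ^ 2 ≤ a ^ 2 := by
      apply pow_le_pow_left₀ (by positivity) hk.le
    rw [mul_pow, sq_abs] at h1
    linarith
  have hC4 : C0 ≤ 4 * n := by
    have : C0 ≤ a * C0 := by nlinarith
    nlinarith
  unfold HUR_f
  rw [Finset.sum_eq_single_of_mem C0]
  · rw [if_pos, if_neg, if_neg]
    · rintro ⟨h, -⟩; omega
    · rintro ⟨h, -⟩; omega
    · refine ⟨?_, ?_, hCa.le, ?_⟩
      · push_cast
        rw [mul_assoc, ← hC]; ring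
      · rw [abs_mul]; simpa using hk.le
      · rintro (h | h)
        · rw [abs_mul] at h
          simp at h
          omega
        · omega
  · rw [mem_Icc]
    push_cast
    constructor <;> omega
  · intro C hC' hne
    rw [if_neg]
    rintro ⟨e1, -⟩
    apply hne
    push_cast at e1
    have : a * C = a * C0 := by
      rw [← hC]; linarith
    exact mul_left_cancel₀ ha.ne' this

open Classical in
/-- the indicator of the pairs counted by `N0` -/
private noncomputable def HUR_g (n a : ℕ) (k : ℤ) : ℝ := if HUR_P n a k then 1 else 0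

open Classical in
/-- the indicator of the boundary pairs -/
private noncomputable def HUR_b (n a : ℕ) (k : ℤ) : ℝ :=
  if HUR_P n a k ∧ (2 * |k| = a ∨ (a : ℤ) ^ 2 = n + k ^ 2) then 1 else 0

private theorem HUR_N0 (n : ℕ) : N0 n = ∑ a ∈ Icc 1 (2 * n), ∑ k ∈ ks a, HUR_g n a k := by
  classical
  unfold N0 HUR_g HUR_P
  refine Finset.sum_congr rfl fun a _ => ?_
  rw [Finset.card_filter]
  push_cast
  refine Finset.sum_congr rfl fun k _ => ?_
  congr

private theorem HUR_mem_ks {a : ℕ} {k : ℤ} : k ∈ ks a ↔ 2 * |k| ≤ a := by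
  classical
  unfold ks
  rw [mem_filter, mem_Icc]
  constructor
  · exact fun h => h.2
  · intro h
    refine ⟨?_, h⟩
    have := neg_abs_le k
    have := le_abs_self k
    have := abs_nonneg k
    constructor <;> linarith

private theorem HUR_hur2 (n : ℕ) : hurwitz (4 * n) = ∑ a ∈ Icc 1 (2 * n), ∑ k ∈ ks a, HUR_f n a (2 * k) := by
  classical
  rw [HUR_hur]
  have h1 : ∑ A ∈ Icc (1 : ℤ) (4 * n : ℕ), ∑ B ∈ Icc (-((4 * n : ℕ) : ℤ)) (4 * n : ℕ), HUR_f n A B =
      ∑ A ∈ (Icc 1 (2 * n)).image (fun a : ℕ => (a : ℤ)),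
        ∑ B ∈ Icc (-((4 * n : ℕ) : ℤ)) (4 * n : ℕ), HUR_f n A B := by
    symm
    apply Finset.sum_subset
    · intro A hA
      rw [mem_image] at hA
      obtain ⟨a, ha, rfl⟩ := hA
      rw [mem_Icc] at ha ⊢
      push_cast
      constructor <;> omega
    · intro A hA hnot
      apply Finset.sum_eq_zero
      intro B _
      by_contra hne
      obtain ⟨k, hB, hk, hP⟩ := HUR_f_zero hne
      apply hnot
      have hb := HUR_bound hk hP
      rw [mem_Icc] at hA
      rw [mem_image]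
      refine ⟨A.toNat, ?_, ?_⟩
      · rw [mem_Icc]
        have h0 : (A.toNat : ℤ) = A := Int.toNat_of_nonneg (by omega)
        constructor
        · omega
        · by_contra hcon
          push Not at hcon
          have h3 : (2 * n : ℤ) < A := by
            rw [← h0]; exact_mod_cast hcon
          have h4 : (0 : ℤ) ≤ n := by positivity
          nlinarith
      · exact Int.toNat_of_nonneg (by omega)
  rw [h1, Finset.sum_image (fun x _ y _ h => by exact_mod_cast h)]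
  refine Finset.sum_congr rfl fun a ha => ?_
  rw [mem_Icc] at ha
  have h2 : ∑ B ∈ Icc (-((4 * n : ℕ) : ℤ)) (4 * n : ℕ), HUR_f n a B =
      ∑ B ∈ (ks a).image (fun k : ℤ => 2 * k), HUR_f n a B := by
    symm
    apply Finset.sum_subset
    · intro B hB
      rw [mem_image] at hB
      obtain ⟨k, hk, rfl⟩ := hB
      rw [HUR_mem_ks] at hk
      rw [mem_Icc]
      have := neg_abs_le k
      have := le_abs_self k
      have := abs_nonneg k
      push_cast
      constructor <;> omega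
    · intro B hB hnot
      by_contra hne
      obtain ⟨k, hB, hk, hP⟩ := HUR_f_zero hne
      apply hnot
      rw [mem_image]
      exact ⟨k, HUR_mem_ks.2 hk, hB.symm⟩
  rw [h2, Finset.sum_image (fun x _ y _ h => by simpa using h)]

private theorem HUR_diff_term {n a : ℕ} (ha : 1 ≤ a) {k : ℤ} (hk : k ∈ ks a) :
    |HUR_f n a (2 * k) - HUR_g n a k| ≤ HUR_b n a k := by
  classical
  rw [HUR_mem_ks] at hk
  have ha' : (0 : ℤ) < a := by exact_mod_cast ha
  unfold HUR_g HUR_b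
  by_cases hP : HUR_P n a k
  · rw [if_pos hP]
    by_cases hb : 2 * |k| = a ∨ (a : ℤ) ^ 2 = n + k ^ 2
    · rw [if_pos ⟨hP, hb⟩, abs_le]
      have h1 := HUR_f_nonneg n a (2 * k)
      have h2 := HUR_f_le n ha' (2 * k)
      constructor <;> linarith
    · push Not at hb
      rw [if_neg (fun h => by rcases h.2 with h | h; exacts [hb.1 h, hb.2 h]),
        HUR_f_one ha' (lt_of_le_of_ne hk hb.1) hP.1 (lt_of_le_of_ne hP.2 hb.2)]
      simp
  · rw [if_neg hP, if_neg (fun h => hP h.1)]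
    have : HUR_f n a (2 * k) = 0 := by
      by_contra hne
      obtain ⟨k', hB, hk', hP'⟩ := HUR_f_zero hne
      have : k = k' := by linarith
      rw [← this] at hP'
      exact hP hP'
    rw [this]
    simp

/-- the number of boundary pairs -/
private noncomputable def HUR_bd (n : ℕ) : ℝ := ∑ a ∈ Icc 1 (2 * n), ∑ k ∈ ks a, HUR_b n a k

private theorem HUR_diff (n : ℕ) : |hurwitz (4 * n) - N0 n| ≤ HUR_bd n := by
  rw [HUR_hur2, HUR_N0, ← Finset.sum_sub_distrib]
  unfold HUR_bd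
  refine (Finset.abs_sum_le_sum_abs _ _).trans (Finset.sum_le_sum fun a ha => ?_)
  rw [← Finset.sum_sub_distrib]
  refine (Finset.abs_sum_le_sum_abs _ _).trans (Finset.sum_le_sum fun k hk => ?_)
  exact HUR_diff_term (mem_Icc.1 ha).1 hk

private theorem HUR_b_nonneg (n a : ℕ) (k : ℤ) : 0 ≤ HUR_b n a k := by
  unfold HUR_b
  split_ifs <;> norm_num

private theorem HUR_bd_nonneg (n : ℕ) : 0 ≤ HUR_bd n :=
  Finset.sum_nonneg fun _ _ => Finset.sum_nonneg fun _ _ => HUR_b_nonneg _ _ _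

private theorem HUR_count {a : ℕ} (ha : 1 ≤ a) (X : ℕ) (k : ℤ) :
    (((Icc 1 X).filter (fun n : ℕ => (a : ℤ) ∣ n + k ^ 2)).card : ℝ) ≤ (X : ℝ) / a + 1 := by
  have h1 : ((Icc 1 X).filter (fun n : ℕ => (a : ℤ) ∣ n + k ^ 2)).card ≤ (range (X / a + 1)).card := by
    apply Finset.card_le_card_of_injOn (fun n => (n - 1) / a)
    · intro n hn
      simp only [coe_filter, mem_Icc, Set.mem_setOf_eq] at hn
      simp only [coe_range, Set.mem_Iio]
      exact Nat.lt_succ_of_le (Nat.div_le_div_right (by omega))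
    · intro n hn m hm hnm
      simp only [coe_filter, mem_Icc, Set.mem_setOf_eq] at hn hm
      have h2 : (a : ℤ) ∣ (n : ℤ) - m := by
        have h := dvd_sub hn.2 hm.2
        have e : ((n : ℤ) + k ^ 2) - (m + k ^ 2) = n - m := by ring
        rwa [e] at h
      have h3 : (n - 1) % a = (m - 1) % a := by
        have h4 : (n - 1) ≡ (m - 1) [MOD a] := by
          rw [Nat.modEq_iff_dvd]
          have e1 : ((m - 1 : ℕ) : ℤ) = m - 1 := by
            rw [Nat.cast_sub hm.1.1]; simp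
          have e2 : ((n - 1 : ℕ) : ℤ) = n - 1 := by
            rw [Nat.cast_sub hn.1.1]; simp
          rw [e1, e2]
          have h := (dvd_neg.2 h2)
          have e : -((n : ℤ) - m) = (m - 1) - (n - 1) := by ring
          rwa [e] at h
        exact h4
      have h5 := Nat.div_add_mod (n - 1) a
      have h6 := Nat.div_add_mod (m - 1) a
      have hnm' : (n - 1) / a = (m - 1) / a := hnm
      rw [hnm', h3] at h5
      have : n - 1 = m - 1 := by omega
      have := hn.1.1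
      have := hm.1.1
      omega
  rw [card_range] at h1
  have h2 : ((X / a : ℕ) : ℝ) ≤ (X : ℝ) / a := Nat.cast_div_le
  have h3 : (((Icc 1 X).filter (fun n : ℕ => (a : ℤ) ∣ n + k ^ 2)).card : ℝ) ≤ ((X / a + 1 : ℕ) : ℝ) := by
    exact_mod_cast h1
  push_cast at h3
  linarith

private theorem HUR_sum_n {a : ℕ} (ha : 1 ≤ a) (X : ℕ) (k : ℤ) :
    ∑ n ∈ Icc 1 X, HUR_b n a k ≤ (if 2 * |k| = a then (X : ℝ) / a + 1 else 0) + 1 := by
  classical
  have h1 : ∀ n ∈ Icc 1 X, HUR_b n a k ≤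
      (if 2 * |k| = a then (if (a : ℤ) ∣ n + k ^ 2 then (1 : ℝ) else 0) else 0) +
        (if (a : ℤ) ^ 2 = n + k ^ 2 then (1 : ℝ) else 0) := by
    intro n _
    unfold HUR_b HUR_P
    split_ifs with h1 h2 h3 h4 h5 h6 h7 <;> first | (exfalso; tauto) | norm_num
  refine (Finset.sum_le_sum h1).trans ?_
  rw [Finset.sum_add_distrib]
  refine add_le_add ?_ ?_
  · split_ifs with h
    · rw [← Finset.sum_filter, Finset.sum_const, nsmul_eq_mul, mul_one]
      exact HUR_count ha X k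
    · simp
  · rw [← Finset.sum_filter, Finset.sum_const, nsmul_eq_mul, mul_one]
    have : ((Icc 1 X).filter (fun n : ℕ => (a : ℤ) ^ 2 = n + k ^ 2)).card ≤ 1 := by
      rw [Finset.card_le_one]
      intro n hn m hm
      rw [mem_filter] at hn hm
      have : (n : ℤ) = m := by linarith [hn.2, hm.2]
      exact_mod_cast this
    exact_mod_cast this

private theorem HUR_sum_k {a : ℕ} (ha : 1 ≤ a) (X : ℕ) :
    ∑ k ∈ ks a, ∑ n ∈ Icc 1 X, HUR_b n a k ≤ 2 * ((X : ℝ) / a + 1) + 3 * a := by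
  classical
  refine (Finset.sum_le_sum fun k _ => HUR_sum_n ha X k).trans ?_
  rw [Finset.sum_add_distrib]
  refine add_le_add ?_ ?_
  · rw [← Finset.sum_filter, Finset.sum_const, nsmul_eq_mul]
    refine mul_le_mul_of_nonneg_right ?_ (by positivity)
    have : ((ks a).filter (fun k : ℤ => 2 * |k| = a)).card ≤ 2 := by
      have hsub : (ks a).filter (fun k : ℤ => 2 * |k| = a) ⊆ {(a : ℤ) / 2, -((a : ℤ) / 2)} := by
        intro k hk
        rw [mem_filter] at hk
        rw [mem_insert, mem_singleton]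
        rcases abs_cases k with ⟨h, _⟩ | ⟨h, _⟩
        · left; omega
        · right; omega
      exact (Finset.card_le_card hsub).trans Finset.card_le_two
    exact_mod_cast this
  · rw [Finset.sum_const, nsmul_eq_mul, mul_one]
    have : (ks a).card ≤ 3 * a := by
      unfold ks
      refine (Finset.card_filter_le _ _).trans ?_
      rw [Int.card_Icc]
      omega
    exact_mod_cast this

private theorem HUR_bd_le {n X : ℕ} (hn : n ≤ X) :
    HUR_bd n ≤ ∑ a ∈ Icc 1 (Nat.sqrt (2 * X)), ∑ k ∈ ks a, HUR_b n a k := by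
  classical
  unfold HUR_bd
  rw [← Finset.sum_filter_ne_zero]
  refine Finset.sum_le_sum_of_subset_of_nonneg (fun a ha' => ?_)
    (fun a _ _ => Finset.sum_nonneg fun _ _ => HUR_b_nonneg _ _ _)
  rw [mem_filter] at ha'
  obtain ⟨ha, hne⟩ := ha'
  rw [mem_Icc] at ha ⊢
  refine ⟨ha.1, ?_⟩
  obtain ⟨k, hk, h1⟩ := Finset.exists_ne_zero_of_sum_ne_zero hne
  unfold HUR_b at h1
  split_ifs at h1 with h2
  · rw [HUR_mem_ks] at hk
    have hb := HUR_bound hk h2.1
    rw [Nat.le_sqrt]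
    have : 3 * a ^ 2 ≤ 4 * n := by exact_mod_cast hb
    nlinarith
  · exact absurd rfl h1

private theorem HUR_harm (L : ℕ) : ∑ a ∈ Icc 1 L, (1 : ℝ) / a ≤ 1 + Real.log L := by
  have h1 := harmonic_le_one_add_log L
  have h2 : ((harmonic L : ℚ) : ℝ) = ∑ a ∈ Icc 1 L, (1 : ℝ) / a := by
    rw [harmonic_eq_sum_Icc]
    push_cast
    refine Finset.sum_congr rfl fun a _ => by rw [one_div]
  rw [← h2]
  exact h1

private theorem HUR_total {X : ℕ} (hX : 1 ≤ X) :
    ∑ n ∈ Icc 1 X, HUR_bd n ≤ 14 * (X : ℝ) * (1 + Real.log X) := by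
  classical
  have hXr : (1 : ℝ) ≤ X := by exact_mod_cast hX
  have hlog : 0 ≤ Real.log X := Real.log_nonneg hXr
  set L := Nat.sqrt (2 * X) with hL
  have hL2 : L * L ≤ 2 * X := Nat.sqrt_le _
  have hLr : (L : ℝ) * L ≤ 2 * X := by exact_mod_cast hL2
  have hL1 : 1 ≤ L := by
    rw [hL, Nat.le_sqrt]; omega
  have hL1r : (1 : ℝ) ≤ L := by exact_mod_cast hL1
  have hLX : (L : ℝ) ≤ 2 * X := by nlinarith
  have h1 : ∑ n ∈ Icc 1 X, HUR_bd n ≤ ∑ n ∈ Icc 1 X, ∑ a ∈ Icc 1 L, ∑ k ∈ ks a, HUR_b n a k :=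
    Finset.sum_le_sum fun n hn => HUR_bd_le (mem_Icc.1 hn).2
  have h2 : ∑ n ∈ Icc 1 X, ∑ a ∈ Icc 1 L, ∑ k ∈ ks a, HUR_b n a k =
      ∑ a ∈ Icc 1 L, ∑ k ∈ ks a, ∑ n ∈ Icc 1 X, HUR_b n a k := by
    rw [Finset.sum_comm]
    refine Finset.sum_congr rfl fun a _ => Finset.sum_comm
  have h3 : ∑ a ∈ Icc 1 L, ∑ k ∈ ks a, ∑ n ∈ Icc 1 X, HUR_b n a k ≤
      ∑ a ∈ Icc 1 L, (2 * (X : ℝ) * (1 / a) + 2 + 3 * L) := by
    refine Finset.sum_le_sum fun a ha => ?_
    rw [mem_Icc] at ha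
    refine (HUR_sum_k ha.1 X).trans ?_
    have : (a : ℝ) ≤ L := by exact_mod_cast ha.2
    have e : 2 * ((X : ℝ) / a + 1) = 2 * (X : ℝ) * (1 / a) + 2 := by ring
    rw [e]
    linarith
  have h4 : ∑ a ∈ Icc 1 L, (2 * (X : ℝ) * (1 / a) + 2 + 3 * L) =
      2 * X * ∑ a ∈ Icc 1 L, (1 : ℝ) / a + L * (2 + 3 * L) := by
    rw [Finset.mul_sum]
    simp only [Finset.sum_add_distrib, Finset.sum_const, Nat.card_Icc, nsmul_eq_mul]
    push_cast
    ring
  have h5 := HUR_harm L
  have h6 : Real.log L ≤ 1 + Real.log X := by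
    have h7 : Real.log L ≤ Real.log (2 * X) := Real.log_le_log (by linarith) hLX
    rw [Real.log_mul (by norm_num) (by linarith)] at h7
    have := Real.log_two_lt_d9
    linarith
  rw [h2, ] at h1
  have h8 : 2 * (X : ℝ) * ∑ a ∈ Icc 1 L, (1 : ℝ) / a ≤ 2 * X * (2 + Real.log X) :=
    mul_le_mul_of_nonneg_left (by linarith) (by linarith)
  have h9 : (L : ℝ) * (2 + 3 * L) ≤ 10 * X := by nlinarith
  have h10 : 2 * (X : ℝ) * (2 + Real.log X) + 10 * X ≤ 14 * X * (1 + Real.log X) := by nlinarith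
  linarith [h1.trans (h3.trans h4.le)]

theorem T_sub_T0 : ∃ C : ℝ, 0 ≤ C ∧ ∀ X : ℕ, 1 ≤ X →
    |T X - T0 X| ≤ C * (X : ℝ) ^ (3 / 2 : ℝ) * (1 + Real.log X) := by
  classical
  refine ⟨14, by norm_num, fun X hX => ?_⟩
  have hXr : (1 : ℝ) ≤ X := by exact_mod_cast hX
  have hlog : 0 ≤ Real.log X := Real.log_nonneg hXr
  have h1 : |T X - T0 X| ≤ ∑ p ∈ pr X, ∑ q ∈ qr p, HUR_bd (p - q ^ 2) := by
    unfold T T0
    rw [← Finset.sum_sub_distrib]
    refine (Finset.abs_sum_le_sum_abs _ _).trans (Finset.sum_le_sum fun p _ => ?_)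
    rw [← Finset.sum_sub_distrib]
    exact (Finset.abs_sum_le_sum_abs _ _).trans (Finset.sum_le_sum fun q _ => HUR_diff _)
  have h2 : ∑ p ∈ pr X, ∑ q ∈ qr p, HUR_bd (p - q ^ 2) ≤
      ∑ p ∈ Icc 1 X, ∑ q ∈ Icc 1 (Nat.sqrt X), (if q ^ 2 < p then HUR_bd (p - q ^ 2) else 0) := by
    have h3 : ∀ p ∈ pr X, ∑ q ∈ qr p, HUR_bd (p - q ^ 2) ≤
        ∑ q ∈ Icc 1 (Nat.sqrt X), (if q ^ 2 < p then HUR_bd (p - q ^ 2) else 0) := by
      intro p hp
      unfold pr at hp
      rw [mem_filter, mem_Icc] at hp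
      rw [← Finset.sum_filter]
      apply Finset.sum_le_sum_of_subset_of_nonneg
      · intro q hq
        unfold qr at hq
        rw [mem_filter, mem_Icc] at hq
        rw [mem_filter, mem_Icc, Nat.le_sqrt]
        refine ⟨⟨hq.1.1, ?_⟩, hq.2.2⟩
        have := hq.2.2
        have := hp.1.2
        nlinarith
      · intro q _ _
        exact HUR_bd_nonneg _
    refine (Finset.sum_le_sum h3).trans ?_
    apply Finset.sum_le_sum_of_subset_of_nonneg
    · unfold pr
      exact Finset.filter_subset _ _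
    · intro p _ _
      refine Finset.sum_nonneg fun q _ => ?_
      split_ifs
      · exact HUR_bd_nonneg _
      · exact le_rfl
  rw [Finset.sum_comm] at h2
  have h4 : ∀ q ∈ Icc 1 (Nat.sqrt X), ∑ p ∈ Icc 1 X, (if q ^ 2 < p then HUR_bd (p - q ^ 2) else 0) ≤
      14 * (X : ℝ) * (1 + Real.log X) := by
    intro q _
    refine le_trans ?_ (HUR_total hX)
    rw [← Finset.sum_filter]
    have h5 : ∑ p ∈ (Icc 1 X).filter (fun p => q ^ 2 < p), HUR_bd (p - q ^ 2) =
        ∑ n ∈ ((Icc 1 X).filter (fun p => q ^ 2 < p)).image (fun p => p - q ^ 2), HUR_bd n := by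
      rw [Finset.sum_image]
      intro x hx y hy hxy
      simp only [coe_filter, mem_Icc, Set.mem_setOf_eq] at hx hy hxy
      omega
    rw [h5]
    apply Finset.sum_le_sum_of_subset_of_nonneg
    · intro n hn
      rw [mem_image] at hn
      obtain ⟨p, hp, rfl⟩ := hn
      rw [mem_filter, mem_Icc] at hp
      rw [mem_Icc]
      omega
    · intro n _ _
      exact HUR_bd_nonneg _
  have h6 := Finset.sum_le_sum h4
  rw [Finset.sum_const, Nat.card_Icc, nsmul_eq_mul] at h6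
  have h7 : ((Nat.sqrt X + 1 - 1 : ℕ) : ℝ) ≤ (X : ℝ) ^ (1 / 2 : ℝ) := by
    rw [Nat.add_sub_cancel, ← Real.sqrt_eq_rpow]
    exact Real.nat_sqrt_le_real_sqrt
  have h8 : (X : ℝ) ^ (3 / 2 : ℝ) = (X : ℝ) ^ (1 / 2 : ℝ) * X := by
    rw [← Real.rpow_add_one (by linarith)]
    norm_num
  rw [h8]
  refine h1.trans (h2.trans (h6.trans ?_))
  have h9 : (0 : ℝ) ≤ 14 * (X : ℝ) * (1 + Real.log X) := by positivity
  calc ((Nat.sqrt X + 1 - 1 : ℕ) : ℝ) * (14 * (X : ℝ) * (1 + Real.log X))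
      ≤ (X : ℝ) ^ (1 / 2 : ℝ) * (14 * (X : ℝ) * (1 + Real.log X)) := mul_le_mul_of_nonneg_right h7 h9
    _ = 14 * ((X : ℝ) ^ (1 / 2 : ℝ) * X) * (1 + Real.log X) := by ring

end Pool.Agent.HAV
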