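import Pool.Agent.HAV.Defs

/-!
# HAV-KS: the sum over `k` for one pair `(a, q)`

`X - min X (mm a q k) = f(k) := max 0 (Y - a² + k²)`, `Y = X + 1 - q²`, and `0 ≤ f ≤ X` for `2|k| ≤ a`; `f` is even and
nondecreasing in `|k|`.  `gcd(rr a q k, a) = 1` iff no prime `ℓ ∣ a` divides `q² - k²`; inclusion-exclusion over the subsets of the
primes dividing `a`; the number of residues `k` mod `d` with `k² = q²` is `∏_{ℓ ∣ d} rho ℓ` (Chinese remainder theorem).  For one
residue `r` mod `d`: `|∑_{2|k| ≤ a, k ≡ r (d)} f(k) - (1/d) ∫_{-a/2}^{a/2} f| ≤ 4 f(a/2)` (monotone on both halves).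
-/

set_option autoImplicit false

open Finset Filter Topology
open BVM (psiAP psiCop thetaAP psiChi prim nonPrin)

namespace Pool.Agent.HAV

theorem KS_unit (F : ℝ → ℝ) (L x : ℝ) (M : ℕ) (hL : 0 ≤ L) (hF : MonotoneOn F (Set.Icc 0 L))
    (h0 : ∀ t ∈ Set.Icc 0 L, 0 ≤ F t) (hx0 : 0 ≤ x) (hx1 : x ≤ 1) (hM : ∀ m : ℕ, m < M ↔ x + m ≤ L) :
    |∑ m ∈ range M, F (x + m) - ∫ t in (0 : ℝ)..L, F t| ≤ 2 * F L := by
  have hFL : 0 ≤ F L := h0 L ⟨hL, le_refl _⟩
  have hub : ∀ t ∈ Set.Icc 0 L, F t ≤ F L := fun t ht => hF ht ⟨hL, le_refl _⟩ ht.2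
  have hint : ∀ c d : ℝ, 0 ≤ c → c ≤ d → d ≤ L → IntervalIntegrable F MeasureTheory.volume c d := by
    intro c d hc hcd hd
    apply MonotoneOn.intervalIntegrable
    rw [Set.uIcc_of_le hcd]
    exact hF.mono (fun t ht => ⟨le_trans hc ht.1, le_trans ht.2 hd⟩)
  have hnn : ∀ c d : ℝ, 0 ≤ c → c ≤ d → d ≤ L → 0 ≤ ∫ t in c..d, F t := by
    intro c d hc hcd hd
    apply intervalIntegral.integral_nonneg hcd
    intro t ht
    exact h0 t ⟨le_trans hc ht.1, le_trans ht.2 hd⟩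
  have hupp : ∀ c d : ℝ, 0 ≤ c → c ≤ d → d ≤ L → d - c ≤ 1 → ∫ t in c..d, F t ≤ F L := by
    intro c d hc hcd hd hdc
    have h1 : ∫ t in c..d, F t ≤ ∫ t in c..d, F L := by
      apply intervalIntegral.integral_mono_on hcd (hint c d hc hcd hd) (by simp)
      intro t ht
      exact hub t ⟨le_trans hc ht.1, le_trans ht.2 hd⟩
    rw [intervalIntegral.integral_const, smul_eq_mul] at h1
    nlinarith
  rcases Nat.eq_zero_or_pos M with hM0 | hMpos
  · subst hM0
    have h1 : ¬ (x + ((0 : ℕ) : ℝ) ≤ L) := fun h => absurd ((hM 0).2 h) (lt_irrefl _)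
    rw [Nat.cast_zero, add_zero, not_le] at h1
    have h2 := hupp 0 L (le_refl _) hL (le_refl _) (by linarith)
    have h3 := hnn 0 L (le_refl _) hL (le_refl _)
    rw [Finset.sum_range_zero, zero_sub, abs_neg, abs_of_nonneg h3]
    linarith
  · obtain ⟨N, rfl⟩ : ∃ N, M = N + 1 := ⟨M - 1, by omega⟩
    have hN1 : x + (N : ℝ) ≤ L := (hM N).1 (Nat.lt_succ_self N)
    have hN2 : L < x + (N : ℝ) + 1 := by
      by_contra hcon
      push Not at hcon
      have := (hM (N + 1)).2 (by push_cast; linarith)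
      omega
    have hNn : (0 : ℝ) ≤ N := Nat.cast_nonneg N
    have hmono : MonotoneOn F (Set.Icc x (x + N)) := hF.mono (fun t ht => ⟨le_trans hx0 ht.1, le_trans ht.2 hN1⟩)
    have hA := hmono.sum_le_integral
    have hB := hmono.integral_le_sum
    have hsplit : ∫ t in (0 : ℝ)..L, F t =
        (∫ t in (0 : ℝ)..x, F t) + (∫ t in x..(x + N), F t) + ∫ t in (x + N)..L, F t := by
      rw [intervalIntegral.integral_add_adjacent_intervals (hint 0 x (le_refl _) hx0 (by linarith))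
        (hint x (x + N) hx0 (by linarith) hN1)]
      rw [intervalIntegral.integral_add_adjacent_intervals (hint 0 (x + N) (le_refl _) (by linarith) hN1)
        (hint (x + N) L (by linarith) hN1 (le_refl _))]
    have h1 := hnn 0 x (le_refl _) hx0 (by linarith)
    have h2 := hnn (x + N) L (by linarith) hN1 (le_refl _)
    have h3 := hupp 0 x (le_refl _) hx0 (by linarith) (by linarith)
    have h4 := hupp (x + N) L (by linarith) hN1 (le_refl _) (by linarith)
    have h5 : ∑ m ∈ range (N + 1), F (x + m) = ∑ m ∈ range N, F (x + m) + F (x + N) := Finset.sum_range_succ _ _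
    have h6 : ∑ m ∈ range (N + 1), F (x + m) = ∑ m ∈ range N, F (x + (m + 1 : ℕ)) + F (x + (0 : ℕ)) :=
      Finset.sum_range_succ' _ _
    have h7 : F (x + N) ≤ F L := hub _ ⟨by linarith, hN1⟩
    have h8 : 0 ≤ F (x + (0 : ℕ)) := h0 _ ⟨by push_cast; linarith, by push_cast; linarith⟩
    rw [abs_le]
    constructor
    · rw [h6, hsplit]; linarith
    · rw [h5, hsplit]; linarith

theorem KS_half (f : ℝ → ℝ) (b : ℝ) (D r M : ℕ) (hb : 0 ≤ b) (hf : MonotoneOn f (Set.Icc 0 b))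
    (h0 : ∀ t ∈ Set.Icc 0 b, 0 ≤ f t) (hD : 0 < D) (hr : r ≤ D)
    (hM : ∀ m : ℕ, m < M ↔ (r : ℝ) + D * m ≤ b) :
    |∑ m ∈ range M, f ((r : ℝ) + D * m) - (1 / (D : ℝ)) * ∫ t in (0 : ℝ)..b, f t| ≤ 2 * f b := by
  have hDr : (0 : ℝ) < D := by exact_mod_cast hD
  have key := KS_unit (fun t => f (D * t)) (b / D) (r / D) M (by positivity) ?_ ?_ (by positivity) ?_ ?_
  · have e1 : ∀ m : ℕ, (D : ℝ) * ((r : ℝ) / D + m) = (r : ℝ) + D * m := by
      intro m; field_simp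
    have e2 : (D : ℝ) * (b / D) = b := by field_simp
    simp only [e1, e2] at key
    rw [intervalIntegral.integral_comp_mul_left (fun t => f t) (ne_of_gt hDr), mul_zero, e2, smul_eq_mul] at key
    rw [one_div]
    exact key
  · intro s hs t ht hst
    have e2 : (D : ℝ) * (b / D) = b := by field_simp
    apply hf
    · exact ⟨mul_nonneg hDr.le hs.1, by rw [← e2]; exact mul_le_mul_of_nonneg_left hs.2 hDr.le⟩
    · exact ⟨mul_nonneg hDr.le ht.1, by rw [← e2]; exact mul_le_mul_of_nonneg_left ht.2 hDr.le⟩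
    · exact mul_le_mul_of_nonneg_left hst hDr.le
  · intro t ht
    have e2 : (D : ℝ) * (b / D) = b := by field_simp
    apply h0
    exact ⟨mul_nonneg hDr.le ht.1, by rw [← e2]; exact mul_le_mul_of_nonneg_left ht.2 hDr.le⟩
  · rw [div_le_one hDr]; exact_mod_cast hr
  · intro m
    rw [hM m]
    have : (r : ℝ) / D + m = ((r : ℝ) + D * m) / D := by field_simp
    rw [this, div_le_div_iff_of_pos_right hDr]

theorem KS_count (a r D : ℕ) (hD : 0 < D) : ∃ M : ℕ, ∀ m : ℕ, m < M ↔ 2 * (r + D * m) ≤ a := by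
  by_cases h : 2 * r ≤ a
  · refine ⟨(a - 2 * r) / (2 * D) + 1, fun m => ?_⟩
    rw [Nat.lt_succ_iff, Nat.le_div_iff_mul_le (by omega)]
    constructor
    · intro h1
      have : 2 * (r + D * m) = m * (2 * D) + 2 * r := by ring
      omega
    · intro h1
      have : 2 * (r + D * m) = m * (2 * D) + 2 * r := by ring
      omega
  · refine ⟨0, fun m => ?_⟩
    constructor
    · intro h1; omega
    · intro h1
      exfalso
      have : 2 * (r + D * m) = 2 * (D * m) + 2 * r := by ring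
      omega

open Classical in
theorem KS_posSum (f : ℝ → ℝ) (a D r : ℕ) (M : ℕ) (hD : 0 < D) (hr : r < D)
    (hM : ∀ m : ℕ, m < M ↔ 2 * (r + D * m) ≤ a) :
    ∑ k ∈ (ks a).filter (fun k : ℤ => 0 ≤ k ∧ (k : ZMod D) = (r : ZMod D)), f k =
      ∑ m ∈ range M, f ((r : ℝ) + D * m) := by
  symm
  refine Finset.sum_bij' (fun m _ => (r : ℤ) + D * m) (fun k _ => ((k - r) / D).toNat) ?_ ?_ ?_ ?_ ?_
  · intro m hm
    have h1 := (hM m).1 (Finset.mem_range.1 hm)
    have h2 : (2 * ((r : ℤ) + D * m)) ≤ a := by exact_mod_cast h1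
    have h3 : (0 : ℤ) ≤ (r : ℤ) + D * m := by positivity
    simp only [ks, Finset.mem_filter, Finset.mem_Icc]
    refine ⟨⟨⟨by linarith, by linarith⟩, by rw [abs_of_nonneg h3]; exact h2⟩, h3, ?_⟩
    push_cast
    simp
  · intro k hk
    simp only [ks, Finset.mem_filter, Finset.mem_Icc] at hk
    obtain ⟨⟨_, h2⟩, h3, h4⟩ := hk
    have h5 : (D : ℤ) ∣ k - r := by
      rw [← ZMod.intCast_eq_intCast_iff_dvd_sub (r : ℤ) k D]
      rw [h4]; simp
    obtain ⟨c, hc⟩ := h5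
    have hDz : (0 : ℤ) < D := by exact_mod_cast hD
    have hc0 : 0 ≤ c := by
      by_contra hcon
      push Not at hcon
      have : (D : ℤ) * c ≤ (D : ℤ) * (-1) := by
        apply mul_le_mul_of_nonneg_left _ hDz.le
        omega
      have hr' : (r : ℤ) < D := by exact_mod_cast hr
      linarith
    have hdiv : (k - r) / (D : ℤ) = c := by rw [hc]; exact Int.mul_ediv_cancel_left c (ne_of_gt hDz)
    rw [Finset.mem_range, hM, hdiv]
    rw [abs_of_nonneg h3] at h2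
    have : (c.toNat : ℤ) = c := Int.toNat_of_nonneg hc0
    zify
    rw [this]
    linarith
  · intro m hm
    have hDz : (0 : ℤ) < D := by exact_mod_cast hD
    have : ((r : ℤ) + D * m - r) = D * m := by ring
    simp only [this]
    rw [Int.mul_ediv_cancel_left _ (ne_of_gt hDz)]
    simp
  · intro k hk
    simp only [ks, Finset.mem_filter, Finset.mem_Icc] at hk
    obtain ⟨⟨_, h2⟩, h3, h4⟩ := hk
    have h5 : (D : ℤ) ∣ k - r := by
      rw [← ZMod.intCast_eq_intCast_iff_dvd_sub (r : ℤ) k D]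
      rw [h4]; simp
    obtain ⟨c, hc⟩ := h5
    have hDz : (0 : ℤ) < D := by exact_mod_cast hD
    have hc0 : 0 ≤ c := by
      by_contra hcon
      push Not at hcon
      have : (D : ℤ) * c ≤ (D : ℤ) * (-1) := by
        apply mul_le_mul_of_nonneg_left _ hDz.le
        omega
      have hr' : (r : ℤ) < D := by exact_mod_cast hr
      linarith
    have hdiv : (k - r) / (D : ℤ) = c := by rw [hc]; exact Int.mul_ediv_cancel_left c (ne_of_gt hDz)
    have : (c.toNat : ℤ) = c := Int.toNat_of_nonneg hc0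
    simp only [hdiv]
    rw [this]
    linarith
  · intro m hm
    push_cast
    rfl

open Classical in
theorem KS_negSum (f : ℝ → ℝ) (a D r : ℕ) (M : ℕ) (hD : 0 < D) (hr0 : 0 < r) (hr : r ≤ D)
    (hM : ∀ m : ℕ, m < M ↔ 2 * (r + D * m) ≤ a) :
    ∑ k ∈ (ks a).filter (fun k : ℤ => k < 0 ∧ (k : ZMod D) = -(r : ZMod D)), f k =
      ∑ m ∈ range M, f (-((r : ℝ) + D * m)) := by
  symm
  refine Finset.sum_bij' (fun m _ => -((r : ℤ) + D * m)) (fun k _ => ((-k - r) / D).toNat) ?_ ?_ ?_ ?_ ?_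
  · intro m hm
    have h1 := (hM m).1 (Finset.mem_range.1 hm)
    have h2 : (2 * ((r : ℤ) + D * m)) ≤ a := by exact_mod_cast h1
    have h3' : (0 : ℤ) < r := by exact_mod_cast hr0
    have h3 : (0 : ℤ) < (r : ℤ) + D * m := by positivity
    simp only [ks, Finset.mem_filter, Finset.mem_Icc]
    refine ⟨⟨⟨by linarith, by linarith⟩, by rw [abs_neg, abs_of_pos h3]; exact h2⟩, by linarith, ?_⟩
    push_cast
    simp
  · intro k hk
    simp only [ks, Finset.mem_filter, Finset.mem_Icc] at hk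
    obtain ⟨⟨_, h2⟩, h3, h4⟩ := hk
    have h5 : (D : ℤ) ∣ -k - r := by
      rw [← ZMod.intCast_eq_intCast_iff_dvd_sub (r : ℤ) (-k) D]
      push_cast
      rw [h4]; simp
    obtain ⟨c, hc⟩ := h5
    have hDz : (0 : ℤ) < D := by exact_mod_cast hD
    have hc0 : 0 ≤ c := by
      by_contra hcon
      push Not at hcon
      have : (D : ℤ) * c ≤ (D : ℤ) * (-1) := by
        apply mul_le_mul_of_nonneg_left _ hDz.le
        omega
      have hr' : (r : ℤ) ≤ D := by exact_mod_cast hr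
      linarith
    have hdiv : (-k - r) / (D : ℤ) = c := by rw [hc]; exact Int.mul_ediv_cancel_left c (ne_of_gt hDz)
    rw [Finset.mem_range, hM, hdiv]
    rw [abs_of_neg h3] at h2
    have : (c.toNat : ℤ) = c := Int.toNat_of_nonneg hc0
    zify
    rw [this]
    linarith
  · intro m hm
    have hDz : (0 : ℤ) < D := by exact_mod_cast hD
    have : (-(-((r : ℤ) + D * m)) - r) = D * m := by ring
    simp only [this]
    rw [Int.mul_ediv_cancel_left _ (ne_of_gt hDz)]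
    simp
  · intro k hk
    simp only [ks, Finset.mem_filter, Finset.mem_Icc] at hk
    obtain ⟨⟨_, h2⟩, h3, h4⟩ := hk
    have h5 : (D : ℤ) ∣ -k - r := by
      rw [← ZMod.intCast_eq_intCast_iff_dvd_sub (r : ℤ) (-k) D]
      push_cast
      rw [h4]; simp
    obtain ⟨c, hc⟩ := h5
    have hDz : (0 : ℤ) < D := by exact_mod_cast hD
    have hc0 : 0 ≤ c := by
      by_contra hcon
      push Not at hcon
      have : (D : ℤ) * c ≤ (D : ℤ) * (-1) := by
        apply mul_le_mul_of_nonneg_left _ hDz.le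
        omega
      have hr' : (r : ℤ) ≤ D := by exact_mod_cast hr
      linarith
    have hdiv : (-k - r) / (D : ℤ) = c := by rw [hc]; exact Int.mul_ediv_cancel_left c (ne_of_gt hDz)
    have : (c.toNat : ℤ) = c := Int.toNat_of_nonneg hc0
    simp only [hdiv]
    rw [this]
    linarith
  · intro m hm
    push_cast
    rfl

open Classical in
theorem KS_class (f : ℝ → ℝ) (a D : ℕ) (hD : 0 < D) (hfc : Continuous f) (hev : ∀ t, f (-t) = f t)
    (hf : MonotoneOn f (Set.Icc 0 ((a : ℝ) / 2))) (h0 : ∀ t, 0 ≤ f t) (x : ZMod D) :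
    |∑ k ∈ (ks a).filter (fun k : ℤ => (k : ZMod D) = x), f k -
      (1 / (D : ℝ)) * ∫ t in (-((a : ℝ) / 2))..((a : ℝ) / 2), f t| ≤ 4 * f ((a : ℝ) / 2) := by
  have : NeZero D := ⟨by omega⟩
  have hr : x.val < D := ZMod.val_lt x
  obtain ⟨M, hM⟩ := KS_count a x.val D hD
  obtain ⟨M', hM'⟩ := KS_count a (D - x.val) D hD
  have hval : ((x.val : ℕ) : ZMod D) = x := ZMod.natCast_zmod_val x
  have hb : (0 : ℝ) ≤ (a : ℝ) / 2 := by positivity
  have hconv : ∀ (r M : ℕ), (∀ m : ℕ, m < M ↔ 2 * (r + D * m) ≤ a) →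
      ∀ m : ℕ, m < M ↔ (r : ℝ) + D * m ≤ (a : ℝ) / 2 := by
    intro r M h m
    rw [h m, le_div_iff₀ (by norm_num : (0 : ℝ) < 2)]
    constructor
    · intro h1
      have : ((2 * (r + D * m) : ℕ) : ℝ) ≤ a := by exact_mod_cast h1
      push_cast at this
      linarith
    · intro h1
      have : ((2 * (r + D * m) : ℕ) : ℝ) ≤ a := by push_cast; linarith
      exact_mod_cast this
  have h1 := KS_posSum f a D x.val M hD hr hM
  have h2 := KS_negSum f a D (D - x.val) M' hD (by omega) (by omega) hM'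
  have h3 := KS_half f ((a : ℝ) / 2) D x.val M hb hf (fun t _ => h0 t) hD hr.le (hconv _ _ hM)
  have h4 := KS_half f ((a : ℝ) / 2) D (D - x.val) M' hb hf (fun t _ => h0 t) hD (by omega) (hconv _ _ hM')
  have hneg : -(((D - x.val : ℕ)) : ZMod D) = x := by
    rw [Nat.cast_sub hr.le, hval]
    simp
  rw [hval] at h1
  rw [hneg] at h2
  simp only [hev] at h2
  have hsplit : ∑ k ∈ (ks a).filter (fun k : ℤ => (k : ZMod D) = x), f k =
      ∑ k ∈ (ks a).filter (fun k : ℤ => 0 ≤ k ∧ (k : ZMod D) = x), f k +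
      ∑ k ∈ (ks a).filter (fun k : ℤ => k < 0 ∧ (k : ZMod D) = x), f k := by
    rw [← Finset.sum_filter_add_sum_filter_not ((ks a).filter (fun k : ℤ => (k : ZMod D) = x)) (fun k => 0 ≤ k)]
    rw [Finset.filter_filter, Finset.filter_filter]
    congr 1
    · apply Finset.sum_congr _ (fun _ _ => rfl)
      apply Finset.filter_congr
      intro k _
      exact and_comm
    · apply Finset.sum_congr _ (fun _ _ => rfl)
      apply Finset.filter_congr
      intro k _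
      rw [not_le]
      exact and_comm
  have hI : ∫ t in (-((a : ℝ) / 2))..((a : ℝ) / 2), f t = 2 * ∫ t in (0 : ℝ)..((a : ℝ) / 2), f t := by
    rw [← intervalIntegral.integral_add_adjacent_intervals (hfc.intervalIntegrable _ 0) (hfc.intervalIntegrable 0 _)]
    have h5 : ∫ t in (-((a : ℝ) / 2))..0, f t = ∫ t in (0 : ℝ)..((a : ℝ) / 2), f t := by
      have := intervalIntegral.integral_comp_neg (a := -((a : ℝ) / 2)) (b := 0) (fun t => f t)
      simp only [hev, neg_neg, neg_zero] at this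
      exact this
    rw [h5]; ring
  rw [hsplit, h1, h2, hI]
  rw [abs_le] at h3 h4 ⊢
  constructor
  · linarith [h3.1, h4.1]
  · linarith [h3.2, h4.2]

/-- The number of square roots of `q²` modulo `D`. -/
noncomputable def KS_N (D q : ℕ) : ℕ := Nat.card {x : ZMod D // x ^ 2 = (q : ZMod D) ^ 2}

theorem KS_N_one (q : ℕ) : KS_N 1 q = 1 := by
  unfold KS_N
  have : Subsingleton (ZMod 1) := by
    change Subsingleton (Fin 1)
    infer_instance
  have : Unique {x : ZMod 1 // x ^ 2 = (q : ZMod 1) ^ 2} :=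
    ⟨⟨⟨0, Subsingleton.elim _ _⟩⟩, fun y => Subtype.ext (Subsingleton.elim _ _)⟩
  exact Nat.card_unique

theorem KS_N_mul (m n q : ℕ) (h : m.Coprime n) : KS_N (m * n) q = KS_N m q * KS_N n q := by
  unfold KS_N
  rw [← Nat.card_prod]
  apply Nat.card_congr
  refine Equiv.trans (Equiv.subtypeEquiv (ZMod.chineseRemainder h).toEquiv
    (q := fun y : ZMod m × ZMod n => y.1 ^ 2 = (q : ZMod m) ^ 2 ∧ y.2 ^ 2 = (q : ZMod n) ^ 2) ?_)
    (Equiv.subtypeProdEquivProd (p := fun x : ZMod m => x ^ 2 = (q : ZMod m) ^ 2)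
      (q := fun x : ZMod n => x ^ 2 = (q : ZMod n) ^ 2))
  intro x
  constructor
  · intro hx
    have h1 : (ZMod.chineseRemainder h) (x ^ 2) = (ZMod.chineseRemainder h) ((q : ZMod (m * n)) ^ 2) := by rw [hx]
    rw [map_pow, map_pow, map_natCast] at h1
    exact ⟨congrArg Prod.fst h1, congrArg Prod.snd h1⟩
  · rintro ⟨h1, h2⟩
    apply (ZMod.chineseRemainder h).injective
    rw [map_pow, map_pow, map_natCast]
    exact Prod.ext h1 h2

theorem KS_neg_two : ∀ x : ZMod 2, -x = x := by decide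

theorem KS_N_prime (l q : ℕ) (hl : l.Prime) (hq : ¬ l ∣ q) : KS_N l q = rho l := by
  have : Fact l.Prime := ⟨hl⟩
  unfold KS_N rho
  have hq0 : (q : ZMod l) ≠ 0 := by
    intro h
    exact hq ((ZMod.natCast_eq_zero_iff q l).1 h)
  have e : {x : ZMod l // x ^ 2 = (q : ZMod l) ^ 2} ≃ (({(q : ZMod l), -(q : ZMod l)} : Finset (ZMod l)) : Type) := by
    apply Equiv.subtypeEquivRight
    intro x
    rw [sq_eq_sq_iff_eq_or_eq_neg]
    simp
  rw [Nat.card_congr e, Nat.card_eq_fintype_card, Fintype.card_coe]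
  split_ifs with h2
  · subst h2
    have : -(q : ZMod 2) = (q : ZMod 2) := KS_neg_two _
    rw [this]
    simp
  · rw [Finset.card_pair]
    intro h3
    have h4 : (2 : ZMod l) * q = 0 := by
      linear_combination h3
    rcases mul_eq_zero.1 h4 with h5 | h5
    · have h6 : ((2 : ℕ) : ZMod l) = 0 := by exact_mod_cast h5
      rw [ZMod.natCast_eq_zero_iff] at h6
      exact h2 ((Nat.prime_dvd_prime_iff_eq hl Nat.prime_two).1 h6)
    · exact hq0 h5

theorem KS_N_prod (t : Finset ℕ) (q : ℕ) (ht : ∀ l ∈ t, l.Prime) (hq : ∀ l ∈ t, ¬ l ∣ q) :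
    KS_N (∏ l ∈ t, l) q = ∏ l ∈ t, rho l := by
  classical
  induction t using Finset.induction_on with
  | empty => simpa using KS_N_one q
  | insert l t hlt ih =>
    rw [Finset.prod_insert hlt, Finset.prod_insert hlt]
    rw [KS_N_mul]
    · rw [KS_N_prime l q (ht l (Finset.mem_insert_self _ _)) (hq l (Finset.mem_insert_self _ _))]
      rw [ih (fun x hx => ht x (Finset.mem_insert_of_mem hx)) (fun x hx => hq x (Finset.mem_insert_of_mem hx))]
    · apply Nat.Coprime.prod_right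
      intro x hx
      rw [Nat.coprime_primes (ht l (Finset.mem_insert_self _ _)) (ht x (Finset.mem_insert_of_mem hx))]
      rintro rfl
      exact hlt hx

open Classical in
theorem KS_div (f : ℝ → ℝ) (a D q : ℕ) (hD : 0 < D) (hfc : Continuous f) (hev : ∀ t, f (-t) = f t)
    (hf : MonotoneOn f (Set.Icc 0 ((a : ℝ) / 2))) (h0 : ∀ t, 0 ≤ f t) :
    |∑ k ∈ (ks a).filter (fun k : ℤ => (D : ℤ) ∣ (q : ℤ) ^ 2 - k ^ 2), f k -
      (KS_N D q : ℝ) * ((1 / (D : ℝ)) * ∫ t in (-((a : ℝ) / 2))..((a : ℝ) / 2), f t)| ≤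
      (KS_N D q : ℝ) * (4 * f ((a : ℝ) / 2)) := by
  have : NeZero D := ⟨by omega⟩
  obtain ⟨S, hS⟩ : ∃ S : Finset (ZMod D), S = Finset.univ.filter (fun x : ZMod D => x ^ 2 = (q : ZMod D) ^ 2) := ⟨_, rfl⟩
  have hcard : KS_N D q = S.card := by
    unfold KS_N
    rw [Nat.card_eq_fintype_card, Fintype.card_subtype, hS]
  have hmaps : ∀ k ∈ (ks a).filter (fun k : ℤ => (D : ℤ) ∣ (q : ℤ) ^ 2 - k ^ 2), (k : ZMod D) ∈ S := by
    intro k hk
    rw [hS, Finset.mem_filter]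
    refine ⟨Finset.mem_univ _, ?_⟩
    have h1 := (Finset.mem_filter.1 hk).2
    have h2 := (ZMod.intCast_eq_intCast_iff_dvd_sub (k ^ 2) ((q : ℤ) ^ 2) D).2 h1
    push_cast at h2
    exact h2
  rw [← Finset.sum_fiberwise_of_maps_to hmaps, hcard]
  have hfib : ∀ x ∈ S, ∑ k ∈ ((ks a).filter (fun k : ℤ => (D : ℤ) ∣ (q : ℤ) ^ 2 - k ^ 2)).filter
      (fun k : ℤ => (k : ZMod D) = x), f k = ∑ k ∈ (ks a).filter (fun k : ℤ => (k : ZMod D) = x), f k := by
    intro x hx
    rw [Finset.filter_filter]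
    apply Finset.sum_congr _ (fun _ _ => rfl)
    apply Finset.filter_congr
    intro k _
    constructor
    · exact fun h => h.2
    · intro h
      refine ⟨?_, h⟩
      rw [← ZMod.intCast_eq_intCast_iff_dvd_sub (k ^ 2) ((q : ℤ) ^ 2) D]
      push_cast
      rw [h]
      rw [hS, Finset.mem_filter] at hx
      exact hx.2
  rw [Finset.sum_congr rfl hfib]
  rw [← nsmul_eq_mul S.card ((1 / (D : ℝ)) * ∫ t in (-((a : ℝ) / 2))..((a : ℝ) / 2), f t), ← Finset.sum_const,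
    ← Finset.sum_sub_distrib]
  refine le_trans (Finset.abs_sum_le_sum_abs _ _) ?_
  rw [← nsmul_eq_mul S.card (4 * f ((a : ℝ) / 2)), ← Finset.sum_const]
  apply Finset.sum_le_sum
  intro x _
  exact KS_class f a D hD hfc hev hf h0 x

theorem KS_coprime (a q : ℕ) (k : ℤ) (ha : 1 ≤ a) :
    (rr a q k).Coprime a ↔ ∀ l ∈ a.primeFactors, ¬ ((l : ℤ) ∣ (q : ℤ) ^ 2 - k ^ 2) := by
  have haz : (0 : ℤ) < a := by exact_mod_cast ha
  have hrr : ((rr a q k : ℕ) : ℤ) = ((q : ℤ) ^ 2 - k ^ 2) % a :=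
    Int.toNat_of_nonneg (Int.emod_nonneg _ (ne_of_gt haz))
  have hdvd : ∀ l : ℕ, l ∣ a → (l ∣ rr a q k ↔ (l : ℤ) ∣ (q : ℤ) ^ 2 - k ^ 2) := by
    intro l hl
    rw [← Int.natCast_dvd_natCast, hrr]
    have hlz : (l : ℤ) ∣ a := by exact_mod_cast hl
    rw [Int.dvd_iff_emod_eq_zero, Int.emod_emod_of_dvd _ hlz, ← Int.dvd_iff_emod_eq_zero]
  constructor
  · intro h l hl hd
    have hl' := Nat.mem_primeFactors.1 hl
    have h1 := Nat.dvd_gcd ((hdvd l hl'.2.1).2 hd) hl'.2.1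
    have h2 : (rr a q k).gcd a = 1 := h
    rw [h2] at h1
    exact hl'.1.one_lt.ne' (Nat.dvd_one.1 h1)
  · intro h
    by_contra hcon
    obtain ⟨l, hlp, hl1, hl2⟩ := Nat.Prime.not_coprime_iff_dvd.1 hcon
    exact h l (Nat.mem_primeFactors.2 ⟨hlp, hl2, by omega⟩) ((hdvd l hl2).1 hl1)

open Classical in
theorem KS_incl (P : Finset ℕ) (hP : ∀ l ∈ P, l.Prime) (n : ℤ) :
    (if ∀ l ∈ P, ¬ ((l : ℤ) ∣ n) then (1 : ℝ) else 0) =
      ∑ t ∈ P.powerset, (-1 : ℝ) ^ t.card * (if ((∏ l ∈ t, l : ℕ) : ℤ) ∣ n then 1 else 0) := by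
  have h1 : (if ∀ l ∈ P, ¬ ((l : ℤ) ∣ n) then (1 : ℝ) else 0) =
      ∏ l ∈ P, (1 + (if (l : ℤ) ∣ n then (-1 : ℝ) else 0)) := by
    split_ifs with h
    · symm
      apply Finset.prod_eq_one
      intro l hl
      rw [if_neg (h l hl)]
      simp
    · push Not at h
      obtain ⟨l, hl, hd⟩ := h
      symm
      apply Finset.prod_eq_zero hl
      rw [if_pos hd]
      ring
  rw [h1, Finset.prod_one_add]
  apply Finset.sum_congr rfl
  intro t ht
  have ht' := Finset.mem_powerset.1 ht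
  split_ifs with h
  · rw [mul_one, ← Finset.prod_const]
    apply Finset.prod_congr rfl
    intro l hl
    rw [if_pos]
    refine dvd_trans ?_ h
    exact_mod_cast Finset.dvd_prod_of_mem (fun l : ℕ => l) hl
  · rw [mul_zero]
    have : ∃ l ∈ t, ¬ ((l : ℤ) ∣ n) := by
      by_contra hcon
      push Not at hcon
      apply h
      rw [Int.natCast_dvd]
      apply Finset.prod_primes_dvd
      · intro l hl
        exact (hP l (ht' hl)).prime
      · intro l hl
        exact Int.natCast_dvd.1 (hcon l hl)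
    obtain ⟨l, hl, hd⟩ := this
    apply Finset.prod_eq_zero hl
    rw [if_neg hd]

theorem KS_G (a q : ℕ) (hq : q.Prime) (hqa : ¬ q ∣ a) :
    G a = ∑ t ∈ a.primeFactors.powerset, (-1 : ℝ) ^ t.card *
      ((KS_N (∏ l ∈ t, l) q : ℝ) * (1 / ((∏ l ∈ t, l : ℕ) : ℝ))) := by
  unfold G
  have h1 : ∀ l ∈ a.primeFactors, (1 - (rho l : ℝ) / l) = 1 + (-((rho l : ℝ) / l)) := fun l _ => by ring
  rw [Finset.prod_congr rfl h1, Finset.prod_one_add]
  apply Finset.sum_congr rfl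
  intro t ht
  have ht' := Finset.mem_powerset.1 ht
  rw [KS_N_prod t q (fun l hl => (Nat.mem_primeFactors.1 (ht' hl)).1)]
  · rw [Finset.prod_neg, Finset.prod_div_distrib]
    push_cast
    ring
  · intro l hl hd
    have h2 := Nat.mem_primeFactors.1 (ht' hl)
    rw [Nat.prime_dvd_prime_iff_eq h2.1 hq] at hd
    rw [hd] at h2
    exact hqa h2.2.1

theorem KS_N_le (a q : ℕ) (hq : q.Prime) (hqa : ¬ q ∣ a) (t : Finset ℕ) (ht' : t ⊆ a.primeFactors) :
    KS_N (∏ l ∈ t, l) q ≤ 2 ^ a.primeFactors.card := by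
  rw [KS_N_prod t q (fun l hl => (Nat.mem_primeFactors.1 (ht' hl)).1)]
  · calc ∏ l ∈ t, rho l ≤ ∏ l ∈ t, 2 := by
          apply Finset.prod_le_prod'
          intro l _
          unfold rho
          split_ifs <;> omega
      _ = 2 ^ t.card := by rw [Finset.prod_const]
      _ ≤ 2 ^ a.primeFactors.card := Nat.pow_le_pow_right (by norm_num) (Finset.card_le_card ht')
  · intro l hl hd
    have h2 := Nat.mem_primeFactors.1 (ht' hl)
    rw [Nat.prime_dvd_prime_iff_eq h2.1 hq] at hd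
    rw [hd] at h2
    exact hqa h2.2.1

theorem KS_tau (a : ℕ) (ha : 1 ≤ a) : 2 ^ a.primeFactors.card ≤ a.divisors.card := by
  rw [Nat.card_divisors (by omega), ← Finset.prod_const]
  apply Finset.prod_le_prod'
  intro l hl
  have h2 := Nat.mem_primeFactors.1 hl
  have : 0 < a.factorization l := h2.1.factorization_pos_of_dvd h2.2.2 h2.2.1
  omega

open Classical in
theorem ksum : ∃ C : ℝ, 0 ≤ C ∧ ∀ X a q : ℕ, 1 ≤ a → q.Prime → ¬ q ∣ a → q ^ 2 ≤ X →
    |∑ k ∈ (ks a).filter (fun k => (rr a q k).Coprime a), ((X : ℝ) - (min X (mm a q k) : ℕ)) -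
      G a * (a * II ((X : ℝ) + 1 - (q : ℝ) ^ 2) a)| ≤ C * X * (a.divisors.card : ℝ) ^ 2 := by
  refine ⟨4, by norm_num, ?_⟩
  intro X a q ha hq hqa hqX
  obtain ⟨f, hf⟩ : ∃ f : ℝ → ℝ, f = fun x => max 0 ((X : ℝ) + 1 - (q : ℝ) ^ 2 - (a : ℝ) ^ 2 + x ^ 2) := ⟨_, rfl⟩
  have hfc : Continuous f := by rw [hf]; fun_prop
  have hev : ∀ t, f (-t) = f t := by intro t; rw [hf]; simp
  have h0 : ∀ t, 0 ≤ f t := by intro t; rw [hf]; exact le_max_left _ _
  have har : (0 : ℝ) < a := by exact_mod_cast ha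
  have hq2 : (2 : ℝ) ≤ q := by exact_mod_cast hq.two_le
  have hmono : MonotoneOn f (Set.Icc 0 ((a : ℝ) / 2)) := by
    intro s hs t ht hst
    rw [hf]
    apply max_le_max (le_refl _)
    have : s ^ 2 ≤ t ^ 2 := by nlinarith [hs.1, ht.1]
    linarith
  have hval : ∀ k ∈ ks a, ((X : ℝ) - (min X (mm a q k) : ℕ)) = f k := by
    intro k hk
    have hk2 := (Finset.mem_filter.1 hk).2
    have hksq : 4 * k ^ 2 ≤ (a : ℤ) ^ 2 := by
      have h1 := abs_nonneg k
      have h2 : k ^ 2 = |k| ^ 2 := (sq_abs k).symm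
      rw [h2]
      nlinarith
    have hqz : (2 : ℤ) ≤ q := by exact_mod_cast hq.two_le
    have hn : 0 ≤ (a : ℤ) ^ 2 + q ^ 2 - k ^ 2 - 1 := by nlinarith [sq_nonneg k]
    have hmm : ((mm a q k : ℕ) : ℤ) = (a : ℤ) ^ 2 + q ^ 2 - k ^ 2 - 1 := Int.toNat_of_nonneg hn
    have hmmr : ((mm a q k : ℕ) : ℝ) = (a : ℝ) ^ 2 + (q : ℝ) ^ 2 - (k : ℝ) ^ 2 - 1 := by
      have := congrArg (fun z : ℤ => (z : ℝ)) hmm
      push_cast at this
      exact this
    rw [Nat.cast_min, hf]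
    simp only
    rcases le_total (X : ℝ) ((mm a q k : ℕ) : ℝ) with h | h
    · rw [min_eq_left h, max_eq_left (by rw [hmmr] at h; linarith)]
      ring
    · rw [min_eq_right h, max_eq_right (by rw [hmmr] at h; linarith), hmmr]
      ring
  have hfa : f ((a : ℝ) / 2) ≤ X := by
    rw [hf]
    simp only
    apply max_le (Nat.cast_nonneg X)
    nlinarith
  have hII : (a : ℝ) * II ((X : ℝ) + 1 - (q : ℝ) ^ 2) a = ∫ t in (-((a : ℝ) / 2))..((a : ℝ) / 2), f t := by
    unfold II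
    have h1 : ∀ s : ℝ, max 0 ((X : ℝ) + 1 - (q : ℝ) ^ 2 - (a : ℝ) ^ 2 * (1 - s ^ 2)) = f ((a : ℝ) * s) := by
      intro s
      rw [hf]
      simp only
      congr 1
      ring
    simp only [h1]
    rw [intervalIntegral.integral_comp_mul_left (fun t => f t) (ne_of_gt har), smul_eq_mul, ← mul_assoc,
      mul_inv_cancel₀ (ne_of_gt har), one_mul]
    congr 1
    · ring
    · ring
  obtain ⟨I, hI⟩ : ∃ I : ℝ, I = ∫ t in (-((a : ℝ) / 2))..((a : ℝ) / 2), f t := ⟨_, rfl⟩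
  have hsum : ∑ k ∈ (ks a).filter (fun k => (rr a q k).Coprime a), ((X : ℝ) - (min X (mm a q k) : ℕ)) =
      ∑ t ∈ a.primeFactors.powerset, (-1 : ℝ) ^ t.card *
        ∑ k ∈ (ks a).filter (fun k : ℤ => ((∏ l ∈ t, l : ℕ) : ℤ) ∣ (q : ℤ) ^ 2 - k ^ 2), f k := by
    have h1 : ∑ k ∈ (ks a).filter (fun k => (rr a q k).Coprime a), ((X : ℝ) - (min X (mm a q k) : ℕ)) =
        ∑ k ∈ ks a, (if ∀ l ∈ a.primeFactors, ¬ ((l : ℤ) ∣ (q : ℤ) ^ 2 - k ^ 2) then (1 : ℝ) else 0) * f k := by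
      rw [Finset.sum_filter]
      apply Finset.sum_congr rfl
      intro k hk
      rw [hval k hk]
      by_cases h : (rr a q k).Coprime a
      · rw [if_pos h, if_pos ((KS_coprime a q k ha).1 h), one_mul]
      · rw [if_neg h, if_neg (fun h' => h ((KS_coprime a q k ha).2 h')), zero_mul]
    rw [h1]
    have h2 : ∀ k ∈ ks a, (if ∀ l ∈ a.primeFactors, ¬ ((l : ℤ) ∣ (q : ℤ) ^ 2 - k ^ 2) then (1 : ℝ) else 0) * f k =
        ∑ t ∈ a.primeFactors.powerset, (-1 : ℝ) ^ t.card *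
          (if ((∏ l ∈ t, l : ℕ) : ℤ) ∣ (q : ℤ) ^ 2 - k ^ 2 then f k else 0) := by
      intro k _
      rw [KS_incl a.primeFactors (fun l hl => (Nat.mem_primeFactors.1 hl).1), Finset.sum_mul]
      apply Finset.sum_congr rfl
      intro t _
      split_ifs <;> ring
    rw [Finset.sum_congr rfl h2, Finset.sum_comm]
    apply Finset.sum_congr rfl
    intro t _
    rw [← Finset.mul_sum, Finset.sum_filter]
  rw [hsum, hII, ← hI, KS_G a q hq hqa, Finset.sum_mul, ← Finset.sum_sub_distrib]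
  have hbound : ∀ t ∈ a.primeFactors.powerset,
      |(-1 : ℝ) ^ t.card * ∑ k ∈ (ks a).filter (fun k : ℤ => ((∏ l ∈ t, l : ℕ) : ℤ) ∣ (q : ℤ) ^ 2 - k ^ 2), f k -
        (-1 : ℝ) ^ t.card * ((KS_N (∏ l ∈ t, l) q : ℝ) * (1 / ((∏ l ∈ t, l : ℕ) : ℝ))) * I| ≤
      (2 : ℝ) ^ a.primeFactors.card * (4 * X) := by
    intro t ht
    have ht' := Finset.mem_powerset.1 ht
    have hD : 0 < ∏ l ∈ t, l := Finset.prod_pos (fun l hl => (Nat.mem_primeFactors.1 (ht' hl)).1.pos)
    have h1 := KS_div f a (∏ l ∈ t, l) q hD hfc hev hmono h0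
    rw [← hI] at h1
    have h2 : ((KS_N (∏ l ∈ t, l) q : ℕ) : ℝ) ≤ (2 : ℝ) ^ a.primeFactors.card := by
      exact_mod_cast KS_N_le a q hq hqa t ht'
    have h3 : (-1 : ℝ) ^ t.card * ∑ k ∈ (ks a).filter (fun k : ℤ => ((∏ l ∈ t, l : ℕ) : ℤ) ∣ (q : ℤ) ^ 2 - k ^ 2), f k -
        (-1 : ℝ) ^ t.card * ((KS_N (∏ l ∈ t, l) q : ℝ) * (1 / ((∏ l ∈ t, l : ℕ) : ℝ))) * I =
        (-1 : ℝ) ^ t.card * (∑ k ∈ (ks a).filter (fun k : ℤ => ((∏ l ∈ t, l : ℕ) : ℤ) ∣ (q : ℤ) ^ 2 - k ^ 2), f k -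
          (KS_N (∏ l ∈ t, l) q : ℝ) * (1 / ((∏ l ∈ t, l : ℕ) : ℝ) * I)) := by ring
    rw [h3, abs_mul, abs_pow, abs_neg, abs_one, one_pow, one_mul]
    refine le_trans h1 ?_
    apply mul_le_mul h2 (by linarith) (by have := h0 ((a : ℝ) / 2); linarith) (by positivity)
  refine le_trans (Finset.abs_sum_le_sum_abs _ _) ?_
  refine le_trans (Finset.sum_le_sum hbound) ?_
  rw [Finset.sum_const, Finset.card_powerset, nsmul_eq_mul]
  have h4 : (2 : ℝ) ^ a.primeFactors.card ≤ (a.divisors.card : ℝ) := by exact_mod_cast KS_tau a ha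
  have h5 : (0 : ℝ) ≤ (2 : ℝ) ^ a.primeFactors.card := by positivity
  have h6 : ((2 : ℝ) ^ a.primeFactors.card) ^ 2 ≤ (a.divisors.card : ℝ) ^ 2 := by gcongr
  push_cast
  have h7 : (0 : ℝ) ≤ (X : ℝ) := Nat.cast_nonneg X
  calc (2 : ℝ) ^ a.primeFactors.card * ((2 : ℝ) ^ a.primeFactors.card * (4 * (X : ℝ)))
      = 4 * X * ((2 : ℝ) ^ a.primeFactors.card) ^ 2 := by ring
    _ ≤ 4 * X * (a.divisors.card : ℝ) ^ 2 := by gcongr

end Pool.Agent.HAV
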