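import Pool.Agent.HAV.AS
import Pool.Agent.HAV.KS
import Pool.Agent.helper73.BV.Coef

/-!
# HAV-MAIN: the main term as a sum over the primes `q`

PROOF.  For `q ∤ a`: `(1/φ(a)) ∑_k (..) = h(a) II Y a + O(X τ(a)²/φ(a))` (`ksum`), and `∑_{a ≤ Q} τ(a)²/a ≤ (1 + log Q)^4`,
`1/φ(a) ≤ (1 + 2 log a)/a`.  For `q ∣ a` both sides are trivially `≤ 2 (1 + 2 log a) X` and `≤ X + 1`, and
`∑_{a ≤ Q, q ∣ a} 1 ≤ Q/q`.  Then `sum_a` with `Y = X + 1 - q²`, `Q = QQ X`.  Sum over `q ≤ √X` with weight `log q ≤ log X`: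
total error `C X^(3/2) (log X)^6`.
-/

set_option autoImplicit false

open Finset Filter Topology
open BVM (psiAP psiCop thetaAP psiChi prim nonPrin)

namespace Pool.Agent.HAV

open Classical in
/-- The sum over `k` for one pair `(a, q)`. -/
private noncomputable def MAIN_S (X a q : ℕ) : ℝ :=
  ∑ k ∈ (ks a).filter (fun k => (rr a q k).Coprime a), ((X : ℝ) - (min X (mm a q k) : ℕ))

private theorem MAIN_card_ks (a : ℕ) : ((ks a).card : ℝ) ≤ a + 1 := by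
  have h1 : ks a ⊆ Icc (-((a / 2 : ℕ) : ℤ)) ((a / 2 : ℕ) : ℤ) := by
    intro k hk
    unfold ks at hk
    rw [Finset.mem_filter] at hk
    have h2 := hk.2
    rw [Finset.mem_Icc]
    have h3 := abs_le.1 (show |k| ≤ ((a / 2 : ℕ) : ℤ) by omega)
    exact h3
  have h2 := Finset.card_le_card h1
  rw [Int.card_Icc] at h2
  have h3 : (ks a).card ≤ a + 1 := by omega
  exact_mod_cast h3

private theorem MAIN_S_nonneg (X a q : ℕ) : 0 ≤ MAIN_S X a q := by
  unfold MAIN_S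
  apply Finset.sum_nonneg
  intro k _
  have : ((min X (mm a q k) : ℕ) : ℝ) ≤ X := by exact_mod_cast min_le_left _ _
  linarith

private theorem MAIN_S_le (X a q : ℕ) : MAIN_S X a q ≤ (a + 1) * X := by
  classical
  unfold MAIN_S
  calc _ ≤ ∑ _k ∈ (ks a).filter (fun k => (rr a q k).Coprime a), (X : ℝ) := by
        apply Finset.sum_le_sum
        intro k _
        have : (0 : ℝ) ≤ ((min X (mm a q k) : ℕ) : ℝ) := Nat.cast_nonneg _
        linarith
    _ = (((ks a).filter (fun k => (rr a q k).Coprime a)).card : ℝ) * X := by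
        rw [Finset.sum_const, nsmul_eq_mul]
    _ ≤ (a + 1) * X := by
        apply mul_le_mul_of_nonneg_right _ (Nat.cast_nonneg _)
        refine le_trans ?_ (MAIN_card_ks a)
        exact_mod_cast Finset.card_le_card (Finset.filter_subset _ _)

private theorem MAIN_QQ_le {X : ℕ} (hX : 3 ≤ X) : QQ X ≤ X ^ 2 := by
  unfold QQ
  have h := Nat.sqrt_le_self X
  nlinarith

private theorem MAIN_logX {X : ℕ} (hX : 3 ≤ X) : 1 ≤ Real.log X := by
  have h3 : (3 : ℝ) ≤ X := by exact_mod_cast hX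
  rw [Real.le_log_iff_exp_le (by linarith)]
  linarith [Real.exp_one_lt_d9]

private theorem MAIN_logQ {X : ℕ} (hX : 3 ≤ X) : Real.log (QQ X) ≤ 2 * Real.log X := by
  have h1 : (QQ X : ℝ) ≤ (X : ℝ) ^ 2 := by exact_mod_cast MAIN_QQ_le hX
  have h2 : (0 : ℝ) < QQ X := by unfold QQ; positivity
  have h3 := Real.log_le_log h2 h1
  rw [Real.log_pow] at h3
  simpa using h3

private theorem MAIN_logQ0 (X : ℕ) : 0 ≤ Real.log (QQ X) := Real.log_natCast_nonneg _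

private theorem MAIN_phi {X a : ℕ} (hX : 3 ≤ X) (ha : 1 ≤ a) (haQ : a ≤ QQ X) :
    1 / (a.totient : ℝ) ≤ 5 * Real.log X * (1 / a) := by
  have h1 := BVM.div_totient_le (m := a) (by omega)
  have h2 := MAIN_logQ hX
  have h3 := MAIN_logX hX
  have ha' : (0 : ℝ) < a := by exact_mod_cast ha
  have h4 : Real.log a ≤ Real.log (QQ X) := Real.log_le_log ha' (by exact_mod_cast haQ)
  have h5 : (a : ℝ) / a.totient ≤ 5 * Real.log X := by linarith
  have h6 : (1 : ℝ) / a.totient = (a : ℝ) / a.totient * (1 / a) := by field_simp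
  rw [h6]
  exact mul_le_mul_of_nonneg_right h5 (by positivity)

/-- One pair `(a, q)`. -/
private theorem MAIN_one {C : ℝ} (hK : ∀ X a q : ℕ, 1 ≤ a → q.Prime → ¬ q ∣ a → q ^ 2 ≤ X →
    |MAIN_S X a q - G a * (a * II ((X : ℝ) + 1 - (q : ℝ) ^ 2) a)| ≤ C * X * (a.divisors.card : ℝ) ^ 2)
    {X a q : ℕ} (hX : 3 ≤ X) (ha : 1 ≤ a) (haQ : a ≤ QQ X) (hq : q.Prime) (hqX : q ^ 2 ≤ X) :
    |(1 / (a.totient : ℝ)) * MAIN_S X a q - h a * II ((X : ℝ) + 1 - (q : ℝ) ^ 2) a| ≤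
      |C| * X * (5 * Real.log X) * ((a.divisors.card : ℝ) ^ 2 / a) +
        (if q ∣ a then 11 * Real.log X * X else 0) := by
  have hphi := MAIN_phi hX ha haQ
  have hL := MAIN_logX hX
  have hphi0 : (0 : ℝ) ≤ 1 / (a.totient : ℝ) := by positivity
  have ha' : (1 : ℝ) ≤ a := by exact_mod_cast ha
  have hX' : (3 : ℝ) ≤ X := by exact_mod_cast hX
  by_cases hd : q ∣ a
  · rw [if_pos hd]
    have s0 := MAIN_S_nonneg X a q
    have s1 := MAIN_S_le X a q
    have b1 : (1 / (a.totient : ℝ)) * MAIN_S X a q ≤ 10 * Real.log X * X := by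
      calc (1 / (a.totient : ℝ)) * MAIN_S X a q ≤ (5 * Real.log X * (1 / a)) * ((a + 1) * X) :=
            mul_le_mul hphi s1 s0 (by positivity)
        _ = 5 * Real.log X * X * ((a + 1) / a) := by field_simp
        _ ≤ 5 * Real.log X * X * 2 := by
            apply mul_le_mul_of_nonneg_left _ (by positivity)
            rw [div_le_iff₀ (by linarith)]; linarith
        _ = 10 * Real.log X * X := by ring
    have b0 : 0 ≤ (1 / (a.totient : ℝ)) * MAIN_S X a q := mul_nonneg hphi0 s0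
    have hq2 : (2 : ℝ) ≤ q := by exact_mod_cast hq.two_le
    have hqX' : (q : ℝ) ^ 2 ≤ X := by exact_mod_cast hqX
    have c0 : 0 ≤ II ((X : ℝ) + 1 - (q : ℝ) ^ 2) a := II_nonneg _ _
    have c1 : II ((X : ℝ) + 1 - (q : ℝ) ^ 2) a ≤ X :=
      (II_le _ _ (by linarith)).trans (by nlinarith)
    have d0 := h_nonneg a ha
    have d1 := h_le_one a ha
    have e0 : 0 ≤ h a * II ((X : ℝ) + 1 - (q : ℝ) ^ 2) a := mul_nonneg d0 c0
    have e1 : h a * II ((X : ℝ) + 1 - (q : ℝ) ^ 2) a ≤ X := by nlinarith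
    have f0 : 0 ≤ |C| * X * (5 * Real.log X) * ((a.divisors.card : ℝ) ^ 2 / a) := by positivity
    have f1 : (X : ℝ) ≤ Real.log X * X := by nlinarith
    rw [abs_le]
    constructor <;> nlinarith
  · rw [if_neg hd, add_zero]
    have k1 := hK X a q ha hq hd hqX
    have e1 : (1 / (a.totient : ℝ)) * MAIN_S X a q - h a * II ((X : ℝ) + 1 - (q : ℝ) ^ 2) a =
        (1 / (a.totient : ℝ)) * (MAIN_S X a q - G a * (a * II ((X : ℝ) + 1 - (q : ℝ) ^ 2) a)) := by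
      unfold h; ring
    rw [e1, abs_mul, abs_of_nonneg hphi0]
    calc (1 / (a.totient : ℝ)) * |MAIN_S X a q - G a * (a * II ((X : ℝ) + 1 - (q : ℝ) ^ 2) a)|
        ≤ (5 * Real.log X * (1 / a)) * (|C| * X * (a.divisors.card : ℝ) ^ 2) := by
          apply mul_le_mul hphi _ (abs_nonneg _) (by positivity)
          refine k1.trans ?_
          have := le_abs_self C
          gcongr
      _ = |C| * X * (5 * Real.log X) * ((a.divisors.card : ℝ) ^ 2 / a) := by ring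

private theorem MAIN_mult {X q : ℕ} (hq : q.Prime) :
    ∑ a ∈ Icc 1 (QQ X), (if q ∣ a then 11 * Real.log X * X else 0) ≤
      11 * Real.log X * X * (QQ X * (1 / q)) := by
  have h1 : ∑ a ∈ Icc 1 (QQ X), (if q ∣ a then 11 * Real.log X * X else 0) =
      ((QQ X / q : ℕ) : ℝ) * (11 * Real.log X * X) := by
    rw [← Finset.sum_filter, Finset.sum_const, nsmul_eq_mul]
    congr 2
    rw [← Nat.Ioc_filter_dvd_card_eq_div]
    congr 1
  rw [h1]
  have h2 : ((QQ X / q : ℕ) : ℝ) ≤ (QQ X : ℝ) * (1 / q) := by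
    rw [mul_one_div]; exact Nat.cast_div_le
  have h3 : 0 ≤ 11 * Real.log X * (X : ℝ) := by
    have := Real.log_natCast_nonneg X
    positivity
  calc ((QQ X / q : ℕ) : ℝ) * (11 * Real.log X * X) ≤ ((QQ X : ℝ) * (1 / q)) * (11 * Real.log X * X) :=
        mul_le_mul_of_nonneg_right h2 h3
    _ = _ := by ring

theorem main_term : ∃ (C : ℝ) (k : ℕ), 0 ≤ C ∧ ∀ X : ℕ, 3 ≤ X →
    |M X - C0 * (2 * Real.pi / 9) * ∑ q ∈ pr (Nat.sqrt X), Real.log q * ((X : ℝ) + 1 - (q : ℝ) ^ 2) ^ (3 / 2 : ℝ)| ≤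
      C * (X : ℝ) ^ (7 / 4 : ℝ) * Real.log X ^ k := by
  obtain ⟨C1, hC1, hK⟩ := ksum
  obtain ⟨C2, hC2, hA⟩ := sum_a
  have hK' : ∀ X a q : ℕ, 1 ≤ a → q.Prime → ¬ q ∣ a → q ^ 2 ≤ X →
      |MAIN_S X a q - G a * (a * II ((X : ℝ) + 1 - (q : ℝ) ^ 2) a)| ≤
        C1 * X * (a.divisors.card : ℝ) ^ 2 := by
    intro X a q h1 h2 h3 h4
    exact hK X a q h1 h2 h3 h4
  refine ⟨405 * C1 + 4 * C2 + 88, 6, by positivity, ?_⟩
  intro X hX
  have hL := MAIN_logX hX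
  set L := Real.log X with hLdef
  have hX' : (3 : ℝ) ≤ X := by exact_mod_cast hX
  set n := Nat.sqrt X with hn
  have hn2 : n ^ 2 ≤ X := by rw [sq]; exact Nat.sqrt_le X
  have hn1 : 1 ≤ n := by
    rw [hn]; exact Nat.sqrt_pos.2 (by omega)
  have hnX : (n : ℝ) ≤ X := by exact_mod_cast (Nat.sqrt_le_self X)
  have hlogn : Real.log n ≤ L := Real.log_le_log (by exact_mod_cast hn1) hnX
  have hmem : ∀ q ∈ pr n, q.Prime ∧ 1 ≤ q ∧ q ≤ n ∧ q ^ 2 ≤ X := by
    intro q hq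
    unfold pr at hq
    rw [Finset.mem_filter, Finset.mem_Icc] at hq
    refine ⟨hq.2, hq.1.1, hq.1.2, ?_⟩
    calc q ^ 2 ≤ n ^ 2 := Nat.pow_le_pow_left hq.1.2 2
      _ ≤ X := hn2
  have hlogq : ∀ q ∈ pr n, 0 ≤ Real.log q ∧ Real.log q ≤ L := by
    intro q hq
    obtain ⟨-, q1, q2, -⟩ := hmem q hq
    refine ⟨Real.log_natCast_nonneg q, ?_⟩
    exact (Real.log_le_log (by exact_mod_cast q1) (by exact_mod_cast q2)).trans hlogn
  -- the inner sum for one `q`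
  have hinner : ∀ q ∈ pr n, |∑ a ∈ Icc 1 (QQ X), (1 / (a.totient : ℝ)) * MAIN_S X a q -
      C0 * (2 * Real.pi / 9) * ((X : ℝ) + 1 - (q : ℝ) ^ 2) ^ (3 / 2 : ℝ)| ≤
        405 * C1 * X * L ^ 5 + 4 * C2 * X * L ^ 2 + 11 * L * X * (QQ X * (1 / q)) := by
    intro q hq
    obtain ⟨qp, q1, q2, q3⟩ := hmem q hq
    have hq1 : (1 : ℝ) ≤ q := by exact_mod_cast q1
    have hq3 : (q : ℝ) ^ 2 ≤ X := by exact_mod_cast q3
    have hY1 : (1 : ℝ) ≤ (X : ℝ) + 1 - (q : ℝ) ^ 2 := by linarith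
    have hYX : (X : ℝ) + 1 - (q : ℝ) ^ 2 ≤ X := by nlinarith
    have hQY : 4 * ((X : ℝ) + 1 - (q : ℝ) ^ 2) ≤ 3 * (QQ X : ℝ) ^ 2 := by
      have h1 : X < (n + 1) * (n + 1) := Nat.lt_succ_sqrt X
      have h2 : (X : ℝ) < ((n : ℝ) + 1) * ((n : ℝ) + 1) := by exact_mod_cast h1
      have h3 : (QQ X : ℝ) = 2 * (n : ℝ) + 2 := by unfold QQ; push_cast; ring
      rw [h3]; nlinarith
    have a1 := hA _ (QQ X) hY1 hQY
    have a2 : C2 * ((X : ℝ) + 1 - (q : ℝ) ^ 2) * (1 + Real.log ((X : ℝ) + 1 - (q : ℝ) ^ 2)) ^ 2 ≤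
        4 * C2 * X * L ^ 2 := by
      have l1 : Real.log ((X : ℝ) + 1 - (q : ℝ) ^ 2) ≤ L := Real.log_le_log (by linarith) hYX
      have l0 : 0 ≤ Real.log ((X : ℝ) + 1 - (q : ℝ) ^ 2) := Real.log_nonneg hY1
      have l2 : (1 + Real.log ((X : ℝ) + 1 - (q : ℝ) ^ 2)) ^ 2 ≤ (2 * L) ^ 2 :=
        pow_le_pow_left₀ (by linarith) (by linarith) 2
      calc C2 * ((X : ℝ) + 1 - (q : ℝ) ^ 2) * (1 + Real.log ((X : ℝ) + 1 - (q : ℝ) ^ 2)) ^ 2
          ≤ C2 * X * (2 * L) ^ 2 := by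
            apply mul_le_mul (mul_le_mul_of_nonneg_left hYX hC2) l2 (by positivity) (by positivity)
        _ = 4 * C2 * X * L ^ 2 := by ring
    have b1 : |∑ a ∈ Icc 1 (QQ X), ((1 / (a.totient : ℝ)) * MAIN_S X a q -
        h a * II ((X : ℝ) + 1 - (q : ℝ) ^ 2) a)| ≤
          405 * C1 * X * L ^ 5 + 11 * L * X * (QQ X * (1 / q)) := by
      calc |∑ a ∈ Icc 1 (QQ X), ((1 / (a.totient : ℝ)) * MAIN_S X a q -
            h a * II ((X : ℝ) + 1 - (q : ℝ) ^ 2) a)|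
          ≤ ∑ a ∈ Icc 1 (QQ X), |(1 / (a.totient : ℝ)) * MAIN_S X a q -
              h a * II ((X : ℝ) + 1 - (q : ℝ) ^ 2) a| := Finset.abs_sum_le_sum_abs _ _
        _ ≤ ∑ a ∈ Icc 1 (QQ X), (|C1| * X * (5 * L) * ((a.divisors.card : ℝ) ^ 2 / a) +
              (if q ∣ a then 11 * L * X else 0)) := by
            apply Finset.sum_le_sum
            intro a ha
            rw [Finset.mem_Icc] at ha
            exact MAIN_one hK' hX ha.1 ha.2 qp q3
        _ = |C1| * X * (5 * L) * ∑ a ∈ Icc 1 (QQ X), ((a.divisors.card : ℝ) ^ 2 / a) +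
              ∑ a ∈ Icc 1 (QQ X), (if q ∣ a then 11 * L * X else 0) := by
            rw [Finset.sum_add_distrib, Finset.mul_sum]
        _ ≤ |C1| * X * (5 * L) * (3 * L) ^ 4 + 11 * L * X * (QQ X * (1 / q)) := by
            apply add_le_add
            · apply mul_le_mul_of_nonneg_left _ (by positivity)
              refine (BVM.sum_tau_sq_div (QQ X)).trans ?_
              have m0 := MAIN_logQ0 X
              have m1 := MAIN_logQ hX
              exact pow_le_pow_left₀ (by linarith) (by linarith) 4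
            · exact MAIN_mult qp
        _ = 405 * C1 * X * L ^ 5 + 11 * L * X * (QQ X * (1 / q)) := by
            rw [abs_of_nonneg hC1]; ring
    have c1 : ∑ a ∈ Icc 1 (QQ X), (1 / (a.totient : ℝ)) * MAIN_S X a q -
        C0 * (2 * Real.pi / 9) * ((X : ℝ) + 1 - (q : ℝ) ^ 2) ^ (3 / 2 : ℝ) =
        ∑ a ∈ Icc 1 (QQ X), ((1 / (a.totient : ℝ)) * MAIN_S X a q -
          h a * II ((X : ℝ) + 1 - (q : ℝ) ^ 2) a) +
        (∑ a ∈ Icc 1 (QQ X), h a * II ((X : ℝ) + 1 - (q : ℝ) ^ 2) a -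
          C0 * (2 * Real.pi / 9) * ((X : ℝ) + 1 - (q : ℝ) ^ 2) ^ (3 / 2 : ℝ)) := by
      rw [Finset.sum_sub_distrib]; ring
    rw [c1]
    refine (abs_add_le _ _).trans ?_
    linarith [b1, a1.trans a2]
  -- rewrite `M`
  have hM : M X = ∑ q ∈ pr n, Real.log q * ∑ a ∈ Icc 1 (QQ X), (1 / (a.totient : ℝ)) * MAIN_S X a q := by
    unfold M MAIN_S
    apply Finset.sum_congr rfl
    intro q _
    congr 1
    apply Finset.sum_congr rfl
    intro a _
    rw [Finset.mul_sum]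
  have hdiff : M X - C0 * (2 * Real.pi / 9) * ∑ q ∈ pr n, Real.log q * ((X : ℝ) + 1 - (q : ℝ) ^ 2) ^ (3 / 2 : ℝ) =
      ∑ q ∈ pr n, Real.log q * (∑ a ∈ Icc 1 (QQ X), (1 / (a.totient : ℝ)) * MAIN_S X a q -
        C0 * (2 * Real.pi / 9) * ((X : ℝ) + 1 - (q : ℝ) ^ 2) ^ (3 / 2 : ℝ)) := by
    rw [hM, Finset.mul_sum, ← Finset.sum_sub_distrib]
    exact Finset.sum_congr rfl (fun q _ => by ring)
  rw [hdiff]
  have hcard : ((pr n).card : ℝ) ≤ n := by
    unfold pr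
    have h1 := Finset.card_filter_le (Icc 1 n) Nat.Prime
    rw [Nat.card_Icc] at h1
    exact_mod_cast (by simpa using h1)
  have hharm : ∑ q ∈ pr n, (1 / (q : ℝ)) ≤ 2 * L := by
    have h1 : ∑ q ∈ pr n, (1 / (q : ℝ)) ≤ ∑ q ∈ Icc 1 n, (1 / (q : ℝ)) := by
      apply Finset.sum_le_sum_of_subset_of_nonneg
      · unfold pr; exact Finset.filter_subset _ _
      · intro q _ _; positivity
    have h2 := harmonic_le_one_add_log n
    rw [harmonic_eq_sum_Icc] at h2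
    push_cast at h2
    have h3 : ∑ q ∈ Icc 1 n, (1 / (q : ℝ)) = ∑ q ∈ Icc 1 n, ((q : ℝ))⁻¹ :=
      Finset.sum_congr rfl (fun q _ => one_div _)
    rw [h3] at h1
    linarith
  have hsq : (n : ℝ) ≤ √X := by
    apply Real.le_sqrt_of_sq_le
    exact_mod_cast hn2
  have hsX0 : 0 ≤ √(X : ℝ) := Real.sqrt_nonneg _
  have hsX1 : 1 ≤ √(X : ℝ) := Real.one_le_sqrt.2 (by linarith)
  have hQ4 : (QQ X : ℝ) ≤ 4 * √X := by
    have h3 : (QQ X : ℝ) = 2 * (n : ℝ) + 2 := by unfold QQ; push_cast; ring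
    rw [h3]; linarith
  calc |∑ q ∈ pr n, Real.log q * (∑ a ∈ Icc 1 (QQ X), (1 / (a.totient : ℝ)) * MAIN_S X a q -
        C0 * (2 * Real.pi / 9) * ((X : ℝ) + 1 - (q : ℝ) ^ 2) ^ (3 / 2 : ℝ))|
      ≤ ∑ q ∈ pr n, |Real.log q * (∑ a ∈ Icc 1 (QQ X), (1 / (a.totient : ℝ)) * MAIN_S X a q -
        C0 * (2 * Real.pi / 9) * ((X : ℝ) + 1 - (q : ℝ) ^ 2) ^ (3 / 2 : ℝ))| :=
        Finset.abs_sum_le_sum_abs _ _
    _ ≤ ∑ q ∈ pr n, L * (405 * C1 * X * L ^ 5 + 4 * C2 * X * L ^ 2 + 11 * L * X * (QQ X * (1 / q))) := by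
        apply Finset.sum_le_sum
        intro q hq
        obtain ⟨l0, l1⟩ := hlogq q hq
        rw [abs_mul, abs_of_nonneg l0]
        exact mul_le_mul l1 (hinner q hq) (abs_nonneg _) (by linarith)
    _ = ((pr n).card : ℝ) * (L * (405 * C1 * X * L ^ 5 + 4 * C2 * X * L ^ 2)) +
          11 * L ^ 2 * X * QQ X * ∑ q ∈ pr n, (1 / (q : ℝ)) := by
        rw [Finset.mul_sum, ← nsmul_eq_mul, ← Finset.sum_const, ← Finset.sum_add_distrib]
        exact Finset.sum_congr rfl (fun q _ => by ring)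
    _ ≤ √X * (L * (405 * C1 * X * L ^ 5 + 4 * C2 * X * L ^ 2)) +
          11 * L ^ 2 * X * (4 * √X) * (2 * L) := by
        apply add_le_add
        · apply mul_le_mul_of_nonneg_right (hcard.trans hsq)
          positivity
        · apply mul_le_mul _ hharm (Finset.sum_nonneg (fun q _ => by positivity)) (by positivity)
          apply mul_le_mul_of_nonneg_left hQ4 (by positivity)
    _ = (405 * C1 * L ^ 6 + 4 * C2 * L ^ 3 + 88 * L ^ 3) * (X * √X) := by ring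
    _ ≤ (405 * C1 * L ^ 6 + 4 * C2 * L ^ 6 + 88 * L ^ 6) * ((X : ℝ) ^ (7 / 4 : ℝ)) := by
        have p1 : L ^ 3 ≤ L ^ 6 := pow_le_pow_right₀ hL (by norm_num)
        have p2 : X * √(X : ℝ) ≤ (X : ℝ) ^ (7 / 4 : ℝ) := by
          have : X * √(X : ℝ) = (X : ℝ) ^ (3 / 2 : ℝ) := by
            rw [Real.sqrt_eq_rpow, show (3 / 2 : ℝ) = 1 + 1 / 2 by norm_num,
              Real.rpow_add (by linarith), Real.rpow_one]
          rw [this]
          exact Real.rpow_le_rpow_of_exponent_le (by linarith) (by norm_num)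
        apply mul_le_mul _ p2 (by positivity) (by positivity)
        have q1 := mul_le_mul_of_nonneg_left p1 (show 0 ≤ 4 * C2 by positivity)
        linarith
    _ = (405 * C1 + 4 * C2 + 88) * (X : ℝ) ^ (7 / 4 : ℝ) * L ^ 6 := by ring

end Pool.Agent.HAV
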