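import Pool.Agent.helper24.BV.PNTerr
import Pool.Agent.helper10.BV.D16
import Pool.Agent.HAV.Defs

/-!
# HAV-QS: the sum over the primes `q ≤ √X` (prime number theorem)

PROOF.  With `Y = X + 1`, `R = √Y`, `g(t) = (Y - t²)^(3/2)` and `Z = ⌊√X⌋`: by the prime number theorem
`|∑_{k ≤ n} (c_k - 1)| ≤ ε n + C` (`c_k = log k` for a prime `k`), `g` is decreasing on `[0, Z]`, so by summation by
parts `|∑_{n ≤ Z} (c_n - 1) g(n)| ≤ (ε Z + C) g(0)`; `∑_{n ≤ Z} g(n) = ∫_0^Z g + O(g(0))`, and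
`∫_0^Z g = Y² Φ(Z/R)` with `Φ(v) = ∫_0^v (1 - u²)^(3/2) du`, `Φ(1) = 3π/16`.
-/

set_option autoImplicit false

open Finset Filter Topology
open BVM (psiAP psiCop thetaAP psiChi prim nonPrin)

namespace Pool.Agent.HAV

/-- summation by parts -/
private theorem QS_abel (a g : ℕ → ℝ) (Z : ℕ) : ∑ n ∈ Icc 1 Z, a n * g n =
    (∑ k ∈ Icc 1 Z, a k) * g Z + ∑ n ∈ range Z, (∑ k ∈ Icc 1 n, a k) * (g n - g (n + 1)) := by
  induction Z with
  | zero => simp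
  | succ Z ih =>
    rw [Finset.sum_Icc_succ_top (by omega), ih, Finset.sum_Icc_succ_top (by omega),
      Finset.sum_range_succ]
    ring

private theorem QS_bound (a g : ℕ → ℝ) (Z : ℕ) (B : ℝ)
    (hB : ∀ n ≤ Z, |∑ k ∈ Icc 1 n, a k| ≤ B) (hg : ∀ n < Z, g (n + 1) ≤ g n) (hgZ : 0 ≤ g Z) :
    |∑ n ∈ Icc 1 Z, a n * g n| ≤ B * g 0 := by
  rw [QS_abel]
  have h1 : |(∑ k ∈ Icc 1 Z, a k) * g Z| ≤ B * g Z := by
    rw [abs_mul, abs_of_nonneg hgZ]
    exact mul_le_mul_of_nonneg_right (hB Z le_rfl) hgZ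
  have h2 : |∑ n ∈ range Z, (∑ k ∈ Icc 1 n, a k) * (g n - g (n + 1))| ≤
      ∑ n ∈ range Z, B * (g n - g (n + 1)) := by
    refine (Finset.abs_sum_le_sum_abs _ _).trans (Finset.sum_le_sum fun n hn => ?_)
    have hn' := Finset.mem_range.1 hn
    have h3 : 0 ≤ g n - g (n + 1) := by linarith [hg n hn']
    rw [abs_mul, abs_of_nonneg h3]
    exact mul_le_mul_of_nonneg_right (hB n hn'.le) h3
  have h3 : ∑ n ∈ range Z, B * (g n - g (n + 1)) = B * (g 0 - g Z) := by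
    rw [← Finset.mul_sum, Finset.sum_range_sub']
  rw [h3] at h2
  calc |(∑ k ∈ Icc 1 Z, a k) * g Z + ∑ n ∈ range Z, (∑ k ∈ Icc 1 n, a k) * (g n - g (n + 1))|
      ≤ B * g Z + B * (g 0 - g Z) := (abs_add_le _ _).trans (add_le_add h1 h2)
    _ = B * g 0 := by ring

open Classical in
/-- the prime number theorem -/
private theorem QS_theta (ε : ℝ) (hε : 0 < ε) : ∃ C : ℝ, 0 ≤ C ∧ ∀ n : ℕ,
    |∑ k ∈ Icc 1 n, ((if k.Prime then Real.log k else 0) - 1)| ≤ ε * n + C := by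
  obtain ⟨C0, hC0⟩ := BVM.pnt_err 1
  set A : ℕ → ℝ := fun n => ∑ k ∈ Icc 1 n, ((if k.Prime then Real.log k else 0) - 1) with hA
  have hA1 : ∀ n : ℕ, A n = Chebyshev.theta (n : ℝ) - n := by
    intro n
    have h1 : Chebyshev.theta (n : ℝ) = ∑ k ∈ Icc 1 n, (if k.Prime then Real.log k else 0) := by
      unfold Chebyshev.theta
      rw [Nat.floor_natCast, Finset.sum_filter]
      refine Finset.sum_congr ?_ fun _ _ => ?_
      · ext x
        simp only [Finset.mem_Ioc, Finset.mem_Icc]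
        omega
      · congr
    rw [hA, h1]
    simp only [Finset.sum_sub_distrib, Finset.sum_const, Nat.card_Icc, nsmul_eq_mul, mul_one]
    simp
  have hb : ∀ n : ℕ, 3 ≤ n → |A n| ≤ (C0 / Real.log n + 2 * (Real.log n / √(n : ℝ))) * n := by
    intro n hn
    have hn3 : (3 : ℝ) ≤ n := by exact_mod_cast hn
    have h1 := hC0 n hn3 n le_rfl
    rw [pow_one] at h1
    have h2 := Chebyshev.psi_sub_theta_le (x := (n : ℝ)) (by linarith)
    have h3 := Chebyshev.theta_le_psi (n : ℝ)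
    have h4 : |A n| ≤ C0 * n / Real.log n + 2 * √(n : ℝ) * Real.log n := by
      rw [hA1]
      have h5 : Chebyshev.theta (n : ℝ) - n =
          (Chebyshev.psi (n : ℝ) - n) - (Chebyshev.psi (n : ℝ) - Chebyshev.theta (n : ℝ)) := by ring
      rw [h5]
      refine (abs_sub _ _).trans (add_le_add h1 ?_)
      rw [abs_of_nonneg (by linarith)]
      exact h2
    have hs : √(n : ℝ) ≠ 0 := by
      have : 0 < √(n : ℝ) := Real.sqrt_pos.2 (by linarith)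
      exact this.ne'
    have h6 : (n : ℝ) = √(n : ℝ) * √(n : ℝ) := (Real.mul_self_sqrt (by linarith)).symm
    have h7 : Real.log n / √(n : ℝ) * n = √(n : ℝ) * Real.log n := by
      rw [div_mul_eq_mul_div, div_eq_iff hs]
      calc Real.log n * (n : ℝ) = Real.log n * (√(n : ℝ) * √(n : ℝ)) :=
            congrArg (fun t => Real.log (n : ℝ) * t) h6
        _ = √(n : ℝ) * Real.log n * √(n : ℝ) := by ring
    calc |A n| ≤ C0 * n / Real.log n + 2 * √(n : ℝ) * Real.log n := h4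
      _ = (C0 / Real.log n + 2 * (Real.log n / √(n : ℝ))) * n := by
        rw [add_mul, mul_assoc 2 (Real.log (n : ℝ) / √(n : ℝ)) (n : ℝ), h7]
        ring
  have hlog : Tendsto (fun n : ℕ => Real.log (n : ℝ)) atTop atTop :=
    Real.tendsto_log_atTop.comp tendsto_natCast_atTop_atTop
  have ht1 : Tendsto (fun n : ℕ => C0 / Real.log (n : ℝ)) atTop (𝓝 0) :=
    Tendsto.div_atTop tendsto_const_nhds hlog
  have ht2 : Tendsto (fun n : ℕ => Real.log (n : ℝ) / √(n : ℝ)) atTop (𝓝 0) := by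
    have h1 := (isLittleO_log_rpow_atTop (show (0 : ℝ) < 1 / 2 by norm_num)).tendsto_div_nhds_zero
    have h2 := h1.comp tendsto_natCast_atTop_atTop
    refine h2.congr fun n => ?_
    show Real.log (n : ℝ) / (n : ℝ) ^ (1 / 2 : ℝ) = _
    rw [← Real.sqrt_eq_rpow]
  have ht3 : Tendsto (fun n : ℕ => C0 / Real.log (n : ℝ) + 2 * (Real.log (n : ℝ) / √(n : ℝ)))
      atTop (𝓝 0) := by
    have := ht1.add (ht2.const_mul 2)
    simpa using this
  obtain ⟨N1, hN1⟩ := Filter.eventually_atTop.1 (ht3.eventually (ge_mem_nhds hε))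
  refine ⟨∑ k ∈ range (max N1 3), |A k|, Finset.sum_nonneg fun _ _ => abs_nonneg _, fun n => ?_⟩
  have hs0 : 0 ≤ ∑ k ∈ range (max N1 3), |A k| := Finset.sum_nonneg fun _ _ => abs_nonneg _
  by_cases hn : n < max N1 3
  · have h1 : |A n| ≤ ∑ k ∈ range (max N1 3), |A k| :=
      Finset.single_le_sum (f := fun k => |A k|) (fun _ _ => abs_nonneg _) (Finset.mem_range.2 hn)
    have h2 : 0 ≤ ε * (n : ℝ) := by positivity
    linarith
  · push Not at hn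
    have h1 := hb n ((le_max_right _ _).trans hn)
    have h2 := hN1 n ((le_max_left _ _).trans hn)
    have h3 : |A n| ≤ ε * n :=
      h1.trans (mul_le_mul_of_nonneg_right h2 (Nat.cast_nonneg n))
    linarith

/-- the integrand -/
private noncomputable def QS_F (u : ℝ) : ℝ := (1 - u ^ 2) ^ (3 / 2 : ℝ)

private theorem QS_F_cont : Continuous QS_F := by
  unfold QS_F
  refine Continuous.rpow_const (by fun_prop) fun x => Or.inr (by norm_num)

private theorem QS_int : ∫ u in (0 : ℝ)..1, QS_F u = 3 * Real.pi / 16 := by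
  have h1 : ∫ x in (0 : ℝ)..(Real.pi / 2), (QS_F ∘ Real.sin) x * Real.cos x =
      ∫ u in Real.sin 0..Real.sin (Real.pi / 2), QS_F u :=
    intervalIntegral.integral_comp_mul_deriv (fun x _ => Real.hasDerivAt_sin x)
      Real.continuous_cos.continuousOn QS_F_cont
  rw [Real.sin_zero, Real.sin_pi_div_two] at h1
  rw [← h1]
  have h2 : ∫ x in (0 : ℝ)..(Real.pi / 2), (QS_F ∘ Real.sin) x * Real.cos x =
      ∫ x in (0 : ℝ)..(Real.pi / 2), Real.cos x ^ (2 + 2) := by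
    refine intervalIntegral.integral_congr fun x hx => ?_
    rw [Set.uIcc_of_le (by positivity)] at hx
    have hc : 0 ≤ Real.cos x := Real.cos_nonneg_of_mem_Icc ⟨by linarith [hx.1, Real.pi_pos], hx.2⟩
    show (1 - Real.sin x ^ 2) ^ (3 / 2 : ℝ) * Real.cos x = Real.cos x ^ (2 + 2)
    have h3 : 1 - Real.sin x ^ 2 = Real.cos x ^ 2 := by
      have := Real.sin_sq_add_cos_sq x
      linarith
    rw [h3, ← Real.rpow_natCast (Real.cos x) 2, ← Real.rpow_mul hc]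
    have h4 : ((2 : ℕ) : ℝ) * (3 / 2) = ((3 : ℕ) : ℝ) := by norm_num
    rw [h4, Real.rpow_natCast]
    ring
  rw [h2, integral_cos_pow, integral_cos_sq]
  simp
  ring

private theorem QS_scale (Y v : ℝ) (hY : 0 < Y) (hv0 : 0 ≤ v) (hv : v ≤ √Y) :
    ∫ t in (0 : ℝ)..v, (Y - t ^ 2) ^ (3 / 2 : ℝ) = Y ^ 2 * ∫ u in (0 : ℝ)..(v / √Y), QS_F u := by
  have hR : 0 < √Y := Real.sqrt_pos.2 hY
  have h1 : ∫ t in (0 : ℝ)..v, (Y - t ^ 2) ^ (3 / 2 : ℝ) =
      ∫ t in (0 : ℝ)..v, Y ^ (3 / 2 : ℝ) * QS_F (t / √Y) := by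
    refine intervalIntegral.integral_congr fun t ht => ?_
    rw [Set.uIcc_of_le hv0] at ht
    show (Y - t ^ 2) ^ (3 / 2 : ℝ) = Y ^ (3 / 2 : ℝ) * (1 - (t / √Y) ^ 2) ^ (3 / 2 : ℝ)
    have h2 : (t / √Y) ^ 2 = t ^ 2 / Y := by
      rw [div_pow, Real.sq_sqrt hY.le]
    have h3 : t ^ 2 ≤ Y := by
      have h4 : t ≤ √Y := ht.2.trans hv
      calc t ^ 2 ≤ √Y ^ 2 := pow_le_pow_left₀ ht.1 h4 2
        _ = Y := Real.sq_sqrt hY.le
    have h5 : 0 ≤ 1 - t ^ 2 / Y := by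
      rw [sub_nonneg, div_le_one hY]
      exact h3
    rw [h2, ← Real.mul_rpow hY.le h5]
    congr 1
    field_simp
  rw [h1, intervalIntegral.integral_const_mul, intervalIntegral.integral_comp_div _ hR.ne',
    zero_div, smul_eq_mul, ← mul_assoc]
  congr 1
  rw [Real.sqrt_eq_rpow, ← Real.rpow_add hY, ← Real.rpow_natCast Y 2]
  norm_num

/-- the main estimate -/
private theorem QS_main (ε C : ℝ) (hC : ∀ n : ℕ,
    |∑ k ∈ Icc 1 n, ((if k.Prime then Real.log k else 0) - 1)| ≤ ε * n + C) (hε : 0 ≤ ε)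
    (X : ℕ) :
    |∑ q ∈ pr (Nat.sqrt X), Real.log q * ((X : ℝ) + 1 - (q : ℝ) ^ 2) ^ (3 / 2 : ℝ) -
      ((X : ℝ) + 1) ^ 2 * ∫ u in (0 : ℝ)..((Nat.sqrt X : ℝ) / √((X : ℝ) + 1)), QS_F u| ≤
      (1 + (ε * √((X : ℝ) + 1) + C)) * ((X : ℝ) + 1) ^ (3 / 2 : ℝ) := by
  classical
  set Y : ℝ := (X : ℝ) + 1 with hY
  set Z := Nat.sqrt X with hZ
  have hY0 : 0 < Y := by positivity
  have hZX : ((Z : ℝ)) ^ 2 ≤ X := by
    have := Nat.sqrt_le' X
    exact_mod_cast this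
  have hZR : (Z : ℝ) ≤ √Y := by
    refine Real.le_sqrt_of_sq_le ?_
    linarith
  have hsc := QS_scale Y Z hY0 (Nat.cast_nonneg Z) hZR
  set g : ℝ → ℝ := fun t => (Y - t ^ 2) ^ (3 / 2 : ℝ) with hg
  have hbase : ∀ t : ℝ, 0 ≤ t → t ≤ Z → 0 ≤ Y - t ^ 2 := by
    intro t h0 h1
    have : t ^ 2 ≤ (Z : ℝ) ^ 2 := pow_le_pow_left₀ h0 h1 2
    linarith
  have hanti : ∀ s t : ℝ, 0 ≤ s → s ≤ t → t ≤ Z → g t ≤ g s := by
    intro s t hs hst ht
    have h1 : s ^ 2 ≤ t ^ 2 := pow_le_pow_left₀ hs hst 2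
    exact Real.rpow_le_rpow (hbase t (hs.trans hst) ht) (by linarith) (by norm_num)
  have hgnn : ∀ t : ℝ, 0 ≤ t → t ≤ Z → 0 ≤ g t := fun t h0 h1 =>
    Real.rpow_nonneg (hbase t h0 h1) _
  have hg0 : g 0 = Y ^ (3 / 2 : ℝ) := by
    simp only [hg]
    norm_num
  -- the sum over the primes as a sum over the integers
  have hS : ∑ q ∈ pr Z, Real.log q * (Y - (q : ℝ) ^ 2) ^ (3 / 2 : ℝ) =
      ∑ n ∈ Icc 1 Z, ((if n.Prime then Real.log n else 0) - 1) * g n + ∑ n ∈ Icc 1 Z, g n := by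
    rw [← Finset.sum_add_distrib, pr, Finset.sum_filter]
    refine Finset.sum_congr rfl fun n _ => ?_
    by_cases h : n.Prime
    · simp only [h, if_true, hg]
      ring
    · simp only [h, if_false]
      ring
  have hE : |∑ n ∈ Icc 1 Z, ((if n.Prime then Real.log n else 0) - 1) * g n| ≤
      (ε * √Y + C) * g 0 := by
    have := QS_bound (fun n => (if n.Prime then Real.log n else 0) - 1) (fun n => g n) Z
      (ε * √Y + C) (fun n hn => (hC n).trans ?_) (fun n hn => ?_) (hgnn _ (Nat.cast_nonneg Z) le_rfl)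
    · simpa using this
    · have h1 : (n : ℝ) ≤ √Y := by
        have : (n : ℝ) ≤ Z := by exact_mod_cast hn
        linarith
      have := mul_le_mul_of_nonneg_left h1 hε
      linarith
    · have h1 : ((n + 1 : ℕ) : ℝ) ≤ Z := by exact_mod_cast hn
      refine hanti _ _ (Nat.cast_nonneg n) ?_ h1
      push_cast
      linarith
  -- comparison with the integral
  have hanti' : AntitoneOn g (Set.Icc (0 : ℝ) (0 + (Z : ℕ))) := by
    intro s hs t ht hst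
    refine hanti s t hs.1 hst ?_
    have := ht.2
    linarith
  have hI1 := AntitoneOn.integral_le_sum hanti'
  have hI2 := AntitoneOn.sum_le_integral hanti'
  simp only [zero_add] at hI1 hI2
  have hr : ∑ n ∈ Icc 1 Z, g n = ∑ i ∈ range Z, g ((i + 1 : ℕ) : ℝ) := by
    rw [Finset.range_eq_Ico, Finset.sum_Ico_add' (fun n : ℕ => g (n : ℝ)) 0 Z 1]
    refine Finset.sum_congr ?_ fun _ _ => rfl
    ext x
    simp only [Finset.mem_Icc, Finset.mem_Ico]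
    omega
  have hr2 : ∑ i ∈ range Z, g (i : ℝ) ≤ ∑ i ∈ range Z, g ((i + 1 : ℕ) : ℝ) + g 0 := by
    have h1 : ∑ i ∈ range (Z + 1), g (i : ℝ) =
        ∑ i ∈ range Z, g ((i + 1 : ℕ) : ℝ) + g ((0 : ℕ) : ℝ) :=
      Finset.sum_range_succ' (fun i : ℕ => g (i : ℝ)) Z
    rw [Finset.sum_range_succ, Nat.cast_zero] at h1
    have h2 := hgnn Z (Nat.cast_nonneg Z) le_rfl
    linarith
  have hI : |∑ n ∈ Icc 1 Z, g n - ∫ t in (0 : ℝ)..Z, g t| ≤ g 0 := by
    rw [hr, abs_le]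
    constructor
    · linarith
    · have : 0 ≤ g 0 := hgnn 0 le_rfl (Nat.cast_nonneg Z)
      linarith
  rw [hS, ← hsc, ← hg0]
  calc |∑ n ∈ Icc 1 Z, ((if n.Prime then Real.log n else 0) - 1) * g n + ∑ n ∈ Icc 1 Z, g n -
        ∫ t in (0 : ℝ)..Z, g t|
      = |(∑ n ∈ Icc 1 Z, ((if n.Prime then Real.log n else 0) - 1) * g n) +
        (∑ n ∈ Icc 1 Z, g n - ∫ t in (0 : ℝ)..Z, g t)| := by
          congr 1
          ring
    _ ≤ (ε * √Y + C) * g 0 + g 0 := (abs_add_le _ _).trans (add_le_add hE hI)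
    _ = (1 + (ε * √Y + C)) * g 0 := by ring

theorem sum_q : Tendsto (fun X : ℕ => (∑ q ∈ pr (Nat.sqrt X), Real.log q *
    ((X : ℝ) + 1 - (q : ℝ) ^ 2) ^ (3 / 2 : ℝ)) / (X : ℝ) ^ 2) atTop (𝓝 (3 * Real.pi / 16)) := by
  classical
  have hXt : Tendsto (fun X : ℕ => (X : ℝ)) atTop atTop := tendsto_natCast_atTop_atTop
  have hYt : Tendsto (fun X : ℕ => (X : ℝ) + 1) atTop atTop :=
    tendsto_atTop_add_const_right _ _ hXt
  have hRt : Tendsto (fun X : ℕ => √((X : ℝ) + 1)) atTop atTop :=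
    Real.tendsto_sqrt_atTop.comp hYt
  -- `Z / R → 1`
  have hv : Tendsto (fun X : ℕ => (Nat.sqrt X : ℝ) / √((X : ℝ) + 1)) atTop (𝓝 1) := by
    have h1 : Tendsto (fun X : ℕ => 1 - 1 / √((X : ℝ) + 1)) atTop (𝓝 1) := by
      have := (Tendsto.div_atTop (tendsto_const_nhds (x := (1 : ℝ))) hRt).const_sub 1
      simpa using this
    refine tendsto_of_tendsto_of_tendsto_of_le_of_le h1 tendsto_const_nhds (fun X => ?_)
      (fun X => ?_)
    · have hR : 0 < √((X : ℝ) + 1) := Real.sqrt_pos.2 (by positivity)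
      have h2 : √((X : ℝ) + 1) ≤ (Nat.sqrt X : ℝ) + 1 := by
        refine Real.sqrt_le_iff.2 ⟨by positivity, ?_⟩
        have := Nat.succ_le_succ_sqrt' X
        have h3 : X + 1 ≤ (Nat.sqrt X + 1) ^ 2 := by
          have := Nat.lt_succ_sqrt' X
          simpa [Nat.succ_eq_add_one] using this
        exact_mod_cast h3
      show 1 - 1 / √((X : ℝ) + 1) ≤ (Nat.sqrt X : ℝ) / √((X : ℝ) + 1)
      rw [le_div_iff₀ hR, sub_mul, div_mul_cancel₀ _ hR.ne']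
      linarith
    · have hR : 0 < √((X : ℝ) + 1) := Real.sqrt_pos.2 (by positivity)
      show (Nat.sqrt X : ℝ) / √((X : ℝ) + 1) ≤ 1
      rw [div_le_one hR]
      refine Real.le_sqrt_of_sq_le ?_
      have h2 : ((Nat.sqrt X : ℕ) : ℝ) ^ 2 ≤ X := by
        have := Nat.sqrt_le' X
        exact_mod_cast this
      linarith
  have hΦc : Continuous fun v : ℝ => ∫ u in (0 : ℝ)..v, QS_F u :=
    intervalIntegral.continuous_primitive (fun a b => QS_F_cont.intervalIntegrable a b) 0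
  have hΦ : Tendsto (fun X : ℕ => ∫ u in (0 : ℝ)..((Nat.sqrt X : ℝ) / √((X : ℝ) + 1)), QS_F u)
      atTop (𝓝 (3 * Real.pi / 16)) := by
    have := (hΦc.tendsto 1).comp hv
    rw [QS_int] at this
    exact this
  -- `Y² / X² → 1`, `Y^(3/2) / X² → 0`
  have hq : Tendsto (fun X : ℕ => ((X : ℝ) + 1) / (X : ℝ)) atTop (𝓝 1) := by
    have h1 : Tendsto (fun X : ℕ => 1 + 1 / (X : ℝ)) atTop (𝓝 1) := by
      have := (Tendsto.div_atTop (tendsto_const_nhds (x := (1 : ℝ))) hXt).const_add 1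
      simpa using this
    refine h1.congr' ?_
    filter_upwards [eventually_gt_atTop 0] with X hX
    have : (X : ℝ) ≠ 0 := by positivity
    field_simp
  have hq2 : Tendsto (fun X : ℕ => ((X : ℝ) + 1) ^ 2 / (X : ℝ) ^ 2) atTop (𝓝 1) := by
    have := hq.pow 2
    simpa [div_pow] using this
  have hq3 : Tendsto (fun X : ℕ => ((X : ℝ) + 1) ^ (3 / 2 : ℝ) / (X : ℝ) ^ 2) atTop (𝓝 0) := by
    have h1 : Tendsto (fun X : ℕ => ((X : ℝ) + 1) ^ 2 / (X : ℝ) ^ 2 * (1 / √((X : ℝ) + 1)))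
        atTop (𝓝 (1 * 0)) :=
      hq2.mul (Tendsto.div_atTop tendsto_const_nhds hRt)
    rw [mul_zero] at h1
    refine h1.congr fun X => ?_
    have hY : (0 : ℝ) < (X : ℝ) + 1 := by positivity
    have h2 : ((X : ℝ) + 1) ^ (3 / 2 : ℝ) * √((X : ℝ) + 1) = ((X : ℝ) + 1) ^ 2 := by
      rw [Real.sqrt_eq_rpow, ← Real.rpow_add hY, ← Real.rpow_natCast ((X : ℝ) + 1) 2]
      norm_num
    have hR : √((X : ℝ) + 1) ≠ 0 := (Real.sqrt_pos.2 hY).ne'
    rw [← h2]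
    field_simp
  -- the difference tends to zero
  have hdiff : Tendsto (fun X : ℕ => (∑ q ∈ pr (Nat.sqrt X), Real.log q *
      ((X : ℝ) + 1 - (q : ℝ) ^ 2) ^ (3 / 2 : ℝ)) / (X : ℝ) ^ 2 -
      ((X : ℝ) + 1) ^ 2 / (X : ℝ) ^ 2 *
        ∫ u in (0 : ℝ)..((Nat.sqrt X : ℝ) / √((X : ℝ) + 1)), QS_F u) atTop (𝓝 0) := by
    rw [Metric.tendsto_atTop']
    intro δ hδ
    obtain ⟨C, hC0, hC⟩ := QS_theta (δ / 4) (by positivity)
    have hlim : Tendsto (fun X : ℕ => (1 + C) * (((X : ℝ) + 1) ^ (3 / 2 : ℝ) / (X : ℝ) ^ 2) +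
        δ / 4 * (((X : ℝ) + 1) ^ 2 / (X : ℝ) ^ 2)) atTop (𝓝 ((1 + C) * 0 + δ / 4 * 1)) :=
      (hq3.const_mul _).add (hq2.const_mul _)
    have hlt : (1 + C) * 0 + δ / 4 * 1 < δ := by linarith
    obtain ⟨N, hN⟩ := Filter.eventually_atTop.1
      ((hlim.eventually (gt_mem_nhds hlt)).and (eventually_gt_atTop 0))
    refine ⟨N, fun X hX => ?_⟩
    obtain ⟨h1, hX0⟩ := hN X hX.le
    rw [Real.dist_eq, sub_zero]
    have hX2 : (0 : ℝ) < (X : ℝ) ^ 2 := by positivity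
    have hm := QS_main (δ / 4) C (fun n => by convert hC n) (by positivity) X
    have hY : (0 : ℝ) < (X : ℝ) + 1 := by positivity
    have h2 : ((X : ℝ) + 1) ^ (3 / 2 : ℝ) * √((X : ℝ) + 1) = ((X : ℝ) + 1) ^ 2 := by
      rw [Real.sqrt_eq_rpow, ← Real.rpow_add hY, ← Real.rpow_natCast ((X : ℝ) + 1) 2]
      norm_num
    have h3 : (∑ q ∈ pr (Nat.sqrt X), Real.log q *
        ((X : ℝ) + 1 - (q : ℝ) ^ 2) ^ (3 / 2 : ℝ)) / (X : ℝ) ^ 2 -
        ((X : ℝ) + 1) ^ 2 / (X : ℝ) ^ 2 *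
          ∫ u in (0 : ℝ)..((Nat.sqrt X : ℝ) / √((X : ℝ) + 1)), QS_F u =
        (∑ q ∈ pr (Nat.sqrt X), Real.log q * ((X : ℝ) + 1 - (q : ℝ) ^ 2) ^ (3 / 2 : ℝ) -
        ((X : ℝ) + 1) ^ 2 *
          ∫ u in (0 : ℝ)..((Nat.sqrt X : ℝ) / √((X : ℝ) + 1)), QS_F u) / (X : ℝ) ^ 2 := by
      ring
    rw [h3, abs_div, abs_of_pos hX2]
    refine lt_of_le_of_lt ?_ h1
    calc |∑ q ∈ pr (Nat.sqrt X), Real.log q * ((X : ℝ) + 1 - (q : ℝ) ^ 2) ^ (3 / 2 : ℝ) -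
        ((X : ℝ) + 1) ^ 2 *
          ∫ u in (0 : ℝ)..((Nat.sqrt X : ℝ) / √((X : ℝ) + 1)), QS_F u| / (X : ℝ) ^ 2
        ≤ (1 + (δ / 4 * √((X : ℝ) + 1) + C)) * ((X : ℝ) + 1) ^ (3 / 2 : ℝ) / (X : ℝ) ^ 2 :=
          div_le_div_of_nonneg_right hm hX2.le
      _ = (1 + C) * (((X : ℝ) + 1) ^ (3 / 2 : ℝ) / (X : ℝ) ^ 2) +
        δ / 4 * (((X : ℝ) + 1) ^ 2 / (X : ℝ) ^ 2) := by
          rw [← h2]
          ring
  have hprod : Tendsto (fun X : ℕ => ((X : ℝ) + 1) ^ 2 / (X : ℝ) ^ 2 *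
        ∫ u in (0 : ℝ)..((Nat.sqrt X : ℝ) / √((X : ℝ) + 1)), QS_F u) atTop
        (𝓝 (1 * (3 * Real.pi / 16))) := hq2.mul hΦ
  have hfin := hdiff.add hprod
  rw [zero_add, one_mul] at hfin
  refine hfin.congr fun X => ?_
  ring

end Pool.Agent.HAV
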