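import Pool.Agent.HAV.Defs

/-!
# HAV-UNW: removing the weights `log p log q`

PROOF.  (1) `∑_{1 ≤ n ≤ X} N0 n ≤ C X^(3/2)`: for `a` and `k ∈ ks a` the number of `n ≤ X` with `a ∣ n + k²`, `a² ≤ n + k²` is `0` unless
`3a² ≤ 4X`, and `≤ X/a + 2`; `|ks a| ≤ a + 1`.  (2) `T0 X ≥ W X/(log X · (1/2) log X)`.  (3) `L = log X`, terms with `p ≤ X/L^4` or
`q ≤ √X/L^4`: `≤ ∑_{q ≤ √X} ∑_{n ≤ X/L^4} N0 n + (√X/L^4) ∑_{n ≤ X} N0 n ≤ C X²/L^4` (replace `p` by the integer `n = p - q²`).  For the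
other terms `log p ≥ L - 4 log L`, `log q ≥ L/2 - 4 log L`, so they are `≤ W X/((L - 4 log L)(L/2 - 4 log L))`.  Squeeze.
-/

set_option autoImplicit false

open Finset Filter Topology
open BVM (psiAP psiCop thetaAP psiChi prim nonPrin)

namespace Pool.Agent.HAV

theorem UNW_N0_nonneg (n : ℕ) : 0 ≤ N0 n := by
  unfold N0
  exact Finset.sum_nonneg (fun _ _ => Nat.cast_nonneg _)

theorem UNW_ks_card (a : ℕ) (ha : 1 ≤ a) : (((ks a).card : ℕ) : ℝ) ≤ 2 * a := by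
  have h1 : ks a ⊆ Icc (-((a / 2 : ℕ) : ℤ)) ((a / 2 : ℕ) : ℤ) := by
    intro k hk
    unfold ks at hk
    rw [mem_filter, mem_Icc] at hk
    rw [mem_Icc]
    have h2 := hk.2
    have h3 : |k| ≤ (a : ℤ) / 2 := by omega
    have h4 := abs_le.mp h3
    push_cast
    exact ⟨h4.1, h4.2⟩
  have h2 := Finset.card_le_card h1
  rw [Int.card_Icc] at h2
  have h3 : (ks a).card ≤ 2 * a := by omega
  exact_mod_cast h3

theorem UNW_cnt (a : ℕ) (ha : 1 ≤ a) (k : ℤ) (Y : ℕ) :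
    (((Icc 1 Y).filter (fun n : ℕ => (a : ℤ) ∣ (n : ℤ) + k ^ 2)).card : ℝ) ≤ (Y : ℝ) / a + 1 := by
  classical
  have ha0 : 0 < a := ha
  have hz : (0 : ℤ) < a := by exact_mod_cast ha0
  obtain ⟨v, hv⟩ : ∃ v : ℕ, (v : ℤ) = (-k ^ 2) % (a : ℤ) :=
    ⟨((-k ^ 2) % (a : ℤ)).toNat, Int.toNat_of_nonneg (Int.emod_nonneg _ hz.ne')⟩
  have h1 : (Icc 1 Y).filter (fun n : ℕ => (a : ℤ) ∣ (n : ℤ) + k ^ 2) = (Ioc 0 Y).filter (fun n : ℕ => n ≡ v [MOD a]) := by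
    ext n
    simp only [mem_filter, mem_Icc, mem_Ioc]
    have h2 : (a : ℤ) ∣ (n : ℤ) + k ^ 2 ↔ n ≡ v [MOD a] := by
      rw [← Int.natCast_modEq_iff, Int.modEq_iff_dvd, hv]
      have h3 : (a : ℤ) ∣ (-k ^ 2) % (a : ℤ) - (-k ^ 2) := by
        rw [← Int.modEq_iff_dvd]
        exact (Int.mod_modEq _ _).symm
      constructor
      · intro h
        have h4 := dvd_sub h3 h
        have h5 : (-k ^ 2) % (a : ℤ) - (-k ^ 2) - ((n : ℤ) + k ^ 2) = (-k ^ 2) % (a : ℤ) - n := by ring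
        rwa [h5] at h4
      · intro h
        have h4 := dvd_sub h3 h
        have h5 : (-k ^ 2) % (a : ℤ) - (-k ^ 2) - ((-k ^ 2) % (a : ℤ) - n) = (n : ℤ) + k ^ 2 := by ring
        rwa [h5] at h4
    rw [h2]
    constructor
    · rintro ⟨⟨h3, h4⟩, h5⟩
      exact ⟨⟨by omega, h4⟩, h5⟩
    · rintro ⟨⟨h3, h4⟩, h5⟩
      exact ⟨⟨by omega, h4⟩, h5⟩
  rw [h1]
  have h2 := Nat.Ioc_filter_modEq_card 0 Y ha0 v
  have h3 : (((Ioc 0 Y).filter (fun n : ℕ => n ≡ v [MOD a])).card : ℤ) ≤ ⌊(Y : ℚ) / a⌋ + 1 := by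
    rw [h2]
    apply max_le
    · have h4 : ⌊((Y : ℚ) - v) / (a : ℚ)⌋ - ⌊(((0 : ℕ) : ℚ) - v) / (a : ℚ)⌋ ≤ ⌊(Y : ℚ) / a⌋ + 1 := by
        have h5 : ((Y : ℚ) - v) / (a : ℚ) = (Y : ℚ) / a + (((0 : ℕ) : ℚ) - v) / (a : ℚ) := by
          push_cast
          ring
        rw [h5]
        have h6 := Int.le_floor_add_floor ((Y : ℚ) / a) ((((0 : ℕ) : ℚ) - v) / (a : ℚ))
        linarith
      exact h4
    · have h4 : (0 : ℤ) ≤ ⌊(Y : ℚ) / a⌋ := Int.floor_nonneg.mpr (by positivity)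
      linarith
  have h4 : (((Ioc 0 Y).filter (fun n : ℕ => n ≡ v [MOD a])).card : ℚ) ≤ (Y : ℚ) / a + 1 := by
    have h5 : ((((Ioc 0 Y).filter (fun n : ℕ => n ≡ v [MOD a])).card : ℤ) : ℚ) ≤ ((⌊(Y : ℚ) / a⌋ + 1 : ℤ) : ℚ) := by
      exact_mod_cast h3
    push_cast at h5
    have h6 := Int.floor_le ((Y : ℚ) / a)
    linarith
  have h5 : ((((Ioc 0 Y).filter (fun n : ℕ => n ≡ v [MOD a])).card : ℚ) : ℝ) ≤ (((Y : ℚ) / a + 1 : ℚ) : ℝ) := by
    exact_mod_cast h4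
  push_cast at h5
  exact h5

theorem UNW_N0_le (Y n : ℕ) (hn : n ≤ Y) : N0 n ≤ ∑ a ∈ Icc 1 (Nat.sqrt (2 * Y)), ∑ k ∈ ks a,
    (if (a : ℤ) ∣ (n : ℤ) + k ^ 2 then (1 : ℝ) else 0) := by
  classical
  have h1 : N0 n = ((∑ a ∈ Icc 1 (2 * n),
      ((ks a).filter (fun k => (a : ℤ) ∣ n + k ^ 2 ∧ (a : ℤ) ^ 2 ≤ n + k ^ 2)).card : ℕ) : ℝ) := by
    unfold N0
    push_cast
    apply Finset.sum_congr rfl
    intro a _
    congr!
  have h2 : (∑ a ∈ Icc 1 (2 * n), ((ks a).filter (fun k => (a : ℤ) ∣ n + k ^ 2 ∧ (a : ℤ) ^ 2 ≤ n + k ^ 2)).card) ≤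
      ∑ a ∈ Icc 1 (Nat.sqrt (2 * Y)), ((ks a).filter (fun k => (a : ℤ) ∣ n + k ^ 2 ∧ (a : ℤ) ^ 2 ≤ n + k ^ 2)).card := by
    apply Finset.sum_le_sum_of_ne_zero
    intro a ha h3
    rw [mem_Icc] at ha ⊢
    refine ⟨ha.1, ?_⟩
    obtain ⟨k, hk⟩ := Finset.card_pos.mp (Nat.pos_of_ne_zero h3)
    rw [mem_filter] at hk
    obtain ⟨hk1, -, hk2⟩ := hk
    unfold ks at hk1
    rw [mem_filter] at hk1
    have h4 : 2 * |k| ≤ (a : ℤ) := hk1.2
    have h5 : 4 * k ^ 2 ≤ (a : ℤ) ^ 2 := by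
      have h6 : (2 * |k|) ^ 2 ≤ (a : ℤ) ^ 2 := by
        apply pow_le_pow_left₀ (by positivity) h4
      have h7 : (2 * |k|) ^ 2 = 4 * k ^ 2 := by
        rw [mul_pow, sq_abs]
        ring
      rw [h7] at h6
      exact h6
    rw [Nat.le_sqrt']
    have h6 : (n : ℤ) ≤ Y := by exact_mod_cast hn
    have h7 : (a : ℤ) ^ 2 ≤ 2 * Y := by nlinarith
    exact_mod_cast h7
  rw [h1]
  have h3 : (∑ a ∈ Icc 1 (Nat.sqrt (2 * Y)), ((ks a).filter (fun k => (a : ℤ) ∣ n + k ^ 2 ∧ (a : ℤ) ^ 2 ≤ n + k ^ 2)).card) ≤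
      ∑ a ∈ Icc 1 (Nat.sqrt (2 * Y)), ((ks a).filter (fun k => (a : ℤ) ∣ n + k ^ 2)).card := by
    apply Finset.sum_le_sum
    intro a _
    apply Finset.card_le_card
    intro k hk
    rw [mem_filter] at hk ⊢
    exact ⟨hk.1, hk.2.1⟩
  have h4 : ((∑ a ∈ Icc 1 (2 * n),
      ((ks a).filter (fun k => (a : ℤ) ∣ n + k ^ 2 ∧ (a : ℤ) ^ 2 ≤ n + k ^ 2)).card : ℕ) : ℝ) ≤
      ((∑ a ∈ Icc 1 (Nat.sqrt (2 * Y)), ((ks a).filter (fun k => (a : ℤ) ∣ n + k ^ 2)).card : ℕ) : ℝ) := by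
    exact_mod_cast h2.trans h3
  refine h4.trans (le_of_eq ?_)
  push_cast
  apply Finset.sum_congr rfl
  intro a _
  rw [Finset.card_filter]
  push_cast
  rfl

theorem UNW_sum (Y : ℕ) : ∑ n ∈ Icc 1 Y, N0 n ≤ 9 * Y * Real.sqrt Y := by
  classical
  set A := Nat.sqrt (2 * Y) with hA
  have h1 : ∑ n ∈ Icc 1 Y, N0 n ≤ ∑ n ∈ Icc 1 Y, ∑ a ∈ Icc 1 A, ∑ k ∈ ks a,
      (if (a : ℤ) ∣ (n : ℤ) + k ^ 2 then (1 : ℝ) else 0) := by
    apply Finset.sum_le_sum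
    intro n hn
    rw [mem_Icc] at hn
    exact UNW_N0_le Y n hn.2
  have h2 : ∑ n ∈ Icc 1 Y, ∑ a ∈ Icc 1 A, ∑ k ∈ ks a, (if (a : ℤ) ∣ (n : ℤ) + k ^ 2 then (1 : ℝ) else 0) =
      ∑ a ∈ Icc 1 A, ∑ k ∈ ks a, (((Icc 1 Y).filter (fun n : ℕ => (a : ℤ) ∣ (n : ℤ) + k ^ 2)).card : ℝ) := by
    rw [Finset.sum_comm]
    apply Finset.sum_congr rfl
    intro a _
    rw [Finset.sum_comm]
    apply Finset.sum_congr rfl
    intro k _
    rw [Finset.card_filter]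
    push_cast
    rfl
  have hAA : (A : ℝ) ^ 2 ≤ 2 * Y := by
    have h3 : A ^ 2 ≤ 2 * Y := by
      rw [hA]
      exact Nat.sqrt_le' _
    exact_mod_cast h3
  have h3 : ∑ a ∈ Icc 1 A, ∑ k ∈ ks a, (((Icc 1 Y).filter (fun n : ℕ => (a : ℤ) ∣ (n : ℤ) + k ^ 2)).card : ℝ) ≤
      ∑ a ∈ Icc 1 A, (6 * (Y : ℝ)) := by
    apply Finset.sum_le_sum
    intro a ha
    rw [mem_Icc] at ha
    have ha1 : (1 : ℝ) ≤ a := by exact_mod_cast ha.1
    have ha2 : (a : ℝ) ≤ A := by exact_mod_cast ha.2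
    have h4 : ∑ k ∈ ks a, (((Icc 1 Y).filter (fun n : ℕ => (a : ℤ) ∣ (n : ℤ) + k ^ 2)).card : ℝ) ≤
        ∑ k ∈ ks a, ((Y : ℝ) / a + 1) := by
      apply Finset.sum_le_sum
      intro k _
      exact UNW_cnt a ha.1 k Y
    rw [Finset.sum_const, nsmul_eq_mul] at h4
    have h5 := UNW_ks_card a ha.1
    have h6 : (0 : ℝ) ≤ (Y : ℝ) / a + 1 := by positivity
    have h7 := mul_le_mul_of_nonneg_right h5 h6
    have h8 : 2 * (a : ℝ) * ((Y : ℝ) / a + 1) = 2 * Y + 2 * a := by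
      field_simp
    have h9 : (a : ℝ) ≤ a ^ 2 := by nlinarith
    have h10 : (a : ℝ) ^ 2 ≤ (A : ℝ) ^ 2 := by nlinarith
    linarith
  have h4 : ∑ a ∈ Icc 1 A, (6 * (Y : ℝ)) = A * (6 * Y) := by
    rw [Finset.sum_const, nsmul_eq_mul, Nat.card_Icc]
    simp
  have h5 : (A : ℝ) ≤ 3 / 2 * Real.sqrt Y := by
    have h6 : (A : ℝ) ≤ Real.sqrt (2 * Y) := Real.le_sqrt_of_sq_le hAA
    have h7 : Real.sqrt (2 * (Y : ℝ)) ≤ 3 / 2 * Real.sqrt Y := by
      rw [show (3 / 2 : ℝ) * Real.sqrt Y = Real.sqrt ((3 / 2) ^ 2 * Y) by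
        rw [Real.sqrt_mul (by positivity), Real.sqrt_sq (by norm_num)]]
      apply Real.sqrt_le_sqrt
      have : (0 : ℝ) ≤ Y := Nat.cast_nonneg _
      nlinarith
    exact h6.trans h7
  have h6 : (A : ℝ) * (6 * Y) ≤ 3 / 2 * Real.sqrt Y * (6 * Y) :=
    mul_le_mul_of_nonneg_right h5 (by positivity)
  rw [h2] at h1
  rw [h4] at h3
  nlinarith

/-- replace `p` by `p - q²` -/
theorem UNW_shift (Y q : ℕ) : ∑ p ∈ (Icc 1 Y).filter (fun p => q ^ 2 < p), N0 (p - q ^ 2) ≤ ∑ n ∈ Icc 1 Y, N0 n := by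
  classical
  have h1 : ∑ p ∈ (Icc 1 Y).filter (fun p => q ^ 2 < p), N0 (p - q ^ 2) =
      ∑ n ∈ ((Icc 1 Y).filter (fun p => q ^ 2 < p)).image (fun p => p - q ^ 2), N0 n := by
    rw [Finset.sum_image]
    intro x hx y hy hxy
    simp only [coe_filter, Set.mem_ofPred_eq] at hx hy
    have h2 := hx.2
    have h3 := hy.2
    simp only at hxy
    omega
  rw [h1]
  apply Finset.sum_le_sum_of_subset_of_nonneg
  · intro n hn
    rw [mem_image] at hn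
    obtain ⟨p, hp, rfl⟩ := hn
    rw [mem_filter, mem_Icc] at hp
    rw [mem_Icc]
    constructor
    · have := hp.2
      omega
    · have := hp.1.2
      omega
  · intro n _ _
    exact UNW_N0_nonneg n

/-- the part of the sum with `p ≤ Y`, `q ≤ Z` -/
theorem UNW_part (Y Z : ℕ) (S : Finset ℕ) (P : ℕ → Finset ℕ)
    (hP : ∀ p ∈ S, P p ⊆ (Icc 1 Z).filter (fun q => q ^ 2 < p)) (hS : S ⊆ Icc 1 Y) :
    ∑ p ∈ S, ∑ q ∈ P p, N0 (p - q ^ 2) ≤ Z * (9 * Y * Real.sqrt Y) := by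
  classical
  have h1 : ∑ p ∈ S, ∑ q ∈ P p, N0 (p - q ^ 2) ≤
      ∑ p ∈ Icc 1 Y, ∑ q ∈ (Icc 1 Z).filter (fun q => q ^ 2 < p), N0 (p - q ^ 2) := by
    calc ∑ p ∈ S, ∑ q ∈ P p, N0 (p - q ^ 2)
        ≤ ∑ p ∈ S, ∑ q ∈ (Icc 1 Z).filter (fun q => q ^ 2 < p), N0 (p - q ^ 2) := by
          apply Finset.sum_le_sum
          intro p hp
          exact Finset.sum_le_sum_of_subset_of_nonneg (hP p hp) (fun _ _ _ => UNW_N0_nonneg _)
      _ ≤ _ := Finset.sum_le_sum_of_subset_of_nonneg hS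
          (fun _ _ _ => Finset.sum_nonneg (fun _ _ => UNW_N0_nonneg _))
  have h2 : ∑ p ∈ Icc 1 Y, ∑ q ∈ (Icc 1 Z).filter (fun q => q ^ 2 < p), N0 (p - q ^ 2) =
      ∑ q ∈ Icc 1 Z, ∑ p ∈ (Icc 1 Y).filter (fun p => q ^ 2 < p), N0 (p - q ^ 2) := by
    simp only [Finset.sum_filter]
    rw [Finset.sum_comm]
  rw [h2] at h1
  have h3 : ∑ q ∈ Icc 1 Z, ∑ p ∈ (Icc 1 Y).filter (fun p => q ^ 2 < p), N0 (p - q ^ 2) ≤
      ∑ q ∈ Icc 1 Z, (9 * (Y : ℝ) * Real.sqrt Y) := by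
    apply Finset.sum_le_sum
    intro q _
    exact (UNW_shift Y q).trans (UNW_sum Y)
  rw [Finset.sum_const, nsmul_eq_mul, Nat.card_Icc] at h3
  simp only [Nat.add_sub_cancel] at h3
  exact h1.trans h3

theorem UNW_lower (X : ℕ) : W X ≤ Real.log X ^ 2 / 2 * T0 X := by
  unfold W T0
  rw [Finset.mul_sum]
  apply Finset.sum_le_sum
  intro p hp
  rw [Finset.mul_sum]
  apply Finset.sum_le_sum
  intro q hq
  unfold pr at hp
  unfold qr at hq
  rw [mem_filter, mem_Icc] at hp hq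
  have hp1 : (1 : ℝ) ≤ p := by exact_mod_cast hp.1.1
  have hpX : (p : ℝ) ≤ X := by exact_mod_cast hp.1.2
  have hq1 : (1 : ℝ) ≤ q := by exact_mod_cast hq.1.1
  have hqX : (q : ℝ) ^ 2 ≤ X := by
    have h1 : q ^ 2 ≤ X := hq.2.2.le.trans hp.1.2
    exact_mod_cast h1
  have h1 : Real.log p ≤ Real.log X := Real.log_le_log (by linarith) hpX
  have h2 : 2 * Real.log q ≤ Real.log X := by
    have h3 : Real.log ((q : ℝ) ^ 2) ≤ Real.log X := Real.log_le_log (by positivity) hqX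
    rw [Real.log_pow] at h3
    exact_mod_cast h3
  have h3 : 0 ≤ Real.log p := Real.log_nonneg hp1
  have h4 : 0 ≤ Real.log q := Real.log_nonneg hq1
  have h5 : Real.log p * Real.log q ≤ Real.log X ^ 2 / 2 := by nlinarith
  exact mul_le_mul_of_nonneg_right h5 (UNW_N0_nonneg _)

theorem UNW_upper (X : ℕ) (L P R : ℝ) (hL : L = Real.log X) (hL1 : 1 ≤ L) (hP : P = L - 4 * Real.log L)
    (hR : R = L / 2 - 4 * Real.log L) (hP0 : 0 < P) (hR0 : 0 < R) :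
    T0 X ≤ W X / (P * R) + 18 * (X : ℝ) ^ 2 / L ^ 4 := by
  classical
  have hX0 : (0 : ℝ) < X := by
    rcases Nat.eq_zero_or_pos X with h | h
    · subst h
      simp at hL
      linarith
    · exact_mod_cast h
  have hL0 : 0 < L := by linarith
  have hsX : 0 < Real.sqrt X := Real.sqrt_pos.mpr hX0
  set Y := ⌊(X : ℝ) / L ^ 4⌋₊ with hY
  set Z := ⌊Real.sqrt X / L ^ 4⌋₊ with hZ
  have hYle : (Y : ℝ) ≤ (X : ℝ) / L ^ 4 := Nat.floor_le (by positivity)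
  have hZle : (Z : ℝ) ≤ Real.sqrt X / L ^ 4 := Nat.floor_le (by positivity)
  have hL4 : (1 : ℝ) ≤ L ^ 4 := one_le_pow₀ hL1
  have hYX : (Y : ℝ) ≤ X := hYle.trans (div_le_self hX0.le hL4)
  have h1 : T0 X ≤ ∑ p ∈ pr X, ∑ q ∈ qr p, (Real.log p * Real.log q * N0 (p - q ^ 2) / (P * R) +
      (if p ≤ Y then N0 (p - q ^ 2) else 0) + (if q ≤ Z then N0 (p - q ^ 2) else 0)) := by
    unfold T0
    apply Finset.sum_le_sum
    intro p hp
    apply Finset.sum_le_sum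
    intro q hq
    unfold pr at hp
    unfold qr at hq
    rw [mem_filter, mem_Icc] at hp hq
    have hp1 : (1 : ℝ) ≤ p := by exact_mod_cast hp.1.1
    have hq1 : (1 : ℝ) ≤ q := by exact_mod_cast hq.1.1
    have hN := UNW_N0_nonneg (p - q ^ 2)
    have hlp : 0 ≤ Real.log p := Real.log_nonneg hp1
    have hlq : 0 ≤ Real.log q := Real.log_nonneg hq1
    have hPR : 0 < P * R := mul_pos hP0 hR0
    have hmain : 0 ≤ Real.log p * Real.log q * N0 (p - q ^ 2) / (P * R) := by positivity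
    by_cases h2 : p ≤ Y
    · rw [if_pos h2]
      split_ifs <;> linarith
    · by_cases h3 : q ≤ Z
      · rw [if_neg h2, if_pos h3]
        linarith
      · rw [if_neg h2, if_neg h3]
        push Not at h2 h3
        have h4 : (X : ℝ) / L ^ 4 < p := Nat.lt_of_floor_lt h2
        have h5 : Real.sqrt X / L ^ 4 < q := Nat.lt_of_floor_lt h3
        have h6 : P ≤ Real.log p := by
          have h7 : Real.log ((X : ℝ) / L ^ 4) ≤ Real.log p := Real.log_le_log (by positivity) h4.le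
          rw [Real.log_div hX0.ne' (by positivity), Real.log_pow] at h7
          rw [hP, hL]
          rw [hL] at h7
          exact_mod_cast h7
        have h7 : R ≤ Real.log q := by
          have h8 : Real.log (Real.sqrt X / L ^ 4) ≤ Real.log q := Real.log_le_log (by positivity) h5.le
          rw [Real.log_div hsX.ne' (by positivity), Real.log_pow, Real.log_sqrt hX0.le] at h8
          rw [hR, hL]
          rw [hL] at h8
          exact_mod_cast h8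
        have h8 : P * R ≤ Real.log p * Real.log q := mul_le_mul h6 h7 hR0.le hlp
        rw [add_zero, add_zero, le_div_iff₀ hPR]
        nlinarith
  have h2 : ∑ p ∈ pr X, ∑ q ∈ qr p, (Real.log p * Real.log q * N0 (p - q ^ 2) / (P * R) +
      (if p ≤ Y then N0 (p - q ^ 2) else 0) + (if q ≤ Z then N0 (p - q ^ 2) else 0)) =
      W X / (P * R) + ∑ p ∈ (pr X).filter (fun p => p ≤ Y), ∑ q ∈ qr p, N0 (p - q ^ 2) +
      ∑ p ∈ pr X, ∑ q ∈ (qr p).filter (fun q => q ≤ Z), N0 (p - q ^ 2) := by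
    unfold W
    rw [Finset.sum_div]
    simp only [Finset.sum_add_distrib]
    congr 1
    · congr 1
      · apply Finset.sum_congr rfl
        intro p _
        rw [Finset.sum_div]
      · rw [Finset.sum_filter]
        apply Finset.sum_congr rfl
        intro p _
        by_cases h : p ≤ Y
        · simp only [if_pos h]
        · simp only [if_neg h, Finset.sum_const_zero]
    · apply Finset.sum_congr rfl
      intro p _
      rw [Finset.sum_filter]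
  have h3 : ∑ p ∈ (pr X).filter (fun p => p ≤ Y), ∑ q ∈ qr p, N0 (p - q ^ 2) ≤
      (Nat.sqrt X : ℝ) * (9 * Y * Real.sqrt Y) := by
    apply UNW_part Y (Nat.sqrt X) _ qr
    · intro p hp q hq
      unfold pr at hp
      unfold qr at hq
      rw [mem_filter, mem_filter, mem_Icc] at hp
      rw [mem_filter, mem_Icc] at hq ⊢
      refine ⟨⟨hq.1.1, ?_⟩, hq.2.2⟩
      rw [Nat.le_sqrt']
      exact hq.2.2.le.trans hp.1.1.2
    · intro p hp
      unfold pr at hp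
      rw [mem_filter, mem_filter, mem_Icc] at hp
      rw [mem_Icc]
      exact ⟨hp.1.1.1, hp.2⟩
  have h4 : ∑ p ∈ pr X, ∑ q ∈ (qr p).filter (fun q => q ≤ Z), N0 (p - q ^ 2) ≤
      (Z : ℝ) * (9 * X * Real.sqrt X) := by
    apply UNW_part X Z _ (fun p => (qr p).filter (fun q => q ≤ Z))
    · intro p hp q hq
      unfold qr at hq
      rw [mem_filter, mem_filter, mem_Icc] at hq
      rw [mem_filter, mem_Icc]
      exact ⟨⟨hq.1.1.1, hq.2⟩, hq.1.2.2⟩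
    · intro p hp
      unfold pr at hp
      rw [mem_filter] at hp
      exact hp.1
  have hss : Real.sqrt X * Real.sqrt X = X := Real.mul_self_sqrt hX0.le
  have h5 : (Nat.sqrt X : ℝ) * (9 * Y * Real.sqrt Y) ≤ 9 * (X : ℝ) ^ 2 / L ^ 4 := by
    have h6 : (Nat.sqrt X : ℝ) ≤ Real.sqrt X := Real.nat_sqrt_le_real_sqrt
    have h7 : Real.sqrt Y ≤ Real.sqrt X := Real.sqrt_le_sqrt hYX
    calc (Nat.sqrt X : ℝ) * (9 * Y * Real.sqrt Y) ≤ Real.sqrt X * (9 * ((X : ℝ) / L ^ 4) * Real.sqrt X) := by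
          apply mul_le_mul h6 _ (by positivity) hsX.le
          apply mul_le_mul _ h7 (Real.sqrt_nonneg _) (by positivity)
          linarith
      _ = 9 * ((X : ℝ) / L ^ 4) * (Real.sqrt X * Real.sqrt X) := by ring
      _ = 9 * (X : ℝ) ^ 2 / L ^ 4 := by
          rw [hss]
          ring
  have h6 : (Z : ℝ) * (9 * X * Real.sqrt X) ≤ 9 * (X : ℝ) ^ 2 / L ^ 4 := by
    calc (Z : ℝ) * (9 * X * Real.sqrt X) ≤ (Real.sqrt X / L ^ 4) * (9 * X * Real.sqrt X) :=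
          mul_le_mul_of_nonneg_right hZle (by positivity)
      _ = 9 * (X : ℝ) / L ^ 4 * (Real.sqrt X * Real.sqrt X) := by ring
      _ = 9 * (X : ℝ) ^ 2 / L ^ 4 := by
          rw [hss]
          ring
  rw [h2] at h1
  have h7 : 18 * (X : ℝ) ^ 2 / L ^ 4 = 9 * (X : ℝ) ^ 2 / L ^ 4 + 9 * (X : ℝ) ^ 2 / L ^ 4 := by ring
  rw [h7]
  linarith

theorem UNW_loglim : Tendsto (fun L : ℝ => L ^ 2 / ((L - 4 * Real.log L) * (L / 2 - 4 * Real.log L))) atTop (𝓝 2) := by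
  have h1 : Tendsto (fun L : ℝ => Real.log L / L) atTop (𝓝 0) := by
    have h2 := Real.isLittleO_log_id_atTop.tendsto_div_nhds_zero
    exact h2
  have h2 : Tendsto (fun L : ℝ => 1 / ((1 - 4 * (Real.log L / L)) * (1 / 2 - 4 * (Real.log L / L)))) atTop
      (𝓝 (1 / ((1 - 4 * 0) * (1 / 2 - 4 * 0)))) := by
    apply Tendsto.div tendsto_const_nhds
    · exact (tendsto_const_nhds.sub (h1.const_mul 4)).mul (tendsto_const_nhds.sub (h1.const_mul 4))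
    · norm_num
  have h3 : (1 / ((1 - 4 * 0) * (1 / 2 - 4 * 0)) : ℝ) = 2 := by norm_num
  rw [h3] at h2
  refine h2.congr' ?_
  filter_upwards [eventually_gt_atTop (0 : ℝ)] with L hL
  have h4 : (1 - 4 * (Real.log L / L)) * (1 / 2 - 4 * (Real.log L / L)) =
      ((L - 4 * Real.log L) * (L / 2 - 4 * Real.log L)) / L ^ 2 := by
    field_simp
  rw [h4, one_div_div]

theorem unweight (κ : ℝ) (hW : Tendsto (fun X : ℕ => W X / (X : ℝ) ^ 2) atTop (𝓝 κ)) :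
    Tendsto (fun X : ℕ => T0 X * Real.log X ^ 2 / (X : ℝ) ^ 2) atTop (𝓝 (2 * κ)) := by
  have hlog : Tendsto (fun X : ℕ => Real.log (X : ℝ)) atTop atTop :=
    Real.tendsto_log_atTop.comp tendsto_natCast_atTop_atTop
  have hlow : Tendsto (fun X : ℕ => 2 * (W X / (X : ℝ) ^ 2)) atTop (𝓝 (2 * κ)) := hW.const_mul 2
  have hg : Tendsto (fun X : ℕ => Real.log (X : ℝ) ^ 2 / ((Real.log (X : ℝ) - 4 * Real.log (Real.log X)) *
      (Real.log (X : ℝ) / 2 - 4 * Real.log (Real.log X)))) atTop (𝓝 2) := UNW_loglim.comp hlog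
  have hinv : Tendsto (fun X : ℕ => 18 / Real.log (X : ℝ) ^ 2) atTop (𝓝 0) := by
    have h1 : Tendsto (fun X : ℕ => Real.log (X : ℝ) ^ 2) atTop atTop := (tendsto_pow_atTop (by norm_num)).comp hlog
    exact tendsto_const_nhds.div_atTop h1
  have hup : Tendsto (fun X : ℕ => W X / (X : ℝ) ^ 2 * (Real.log (X : ℝ) ^ 2 /
      ((Real.log (X : ℝ) - 4 * Real.log (Real.log X)) * (Real.log (X : ℝ) / 2 - 4 * Real.log (Real.log X)))) +
      18 / Real.log (X : ℝ) ^ 2) atTop (𝓝 (2 * κ)) := by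
    have h1 := (hW.mul hg).add hinv
    have h2 : κ * 2 + 0 = 2 * κ := by ring
    rw [h2] at h1
    exact h1
  have hll : Tendsto (fun L : ℝ => Real.log L / L) atTop (𝓝 0) := Real.isLittleO_log_id_atTop.tendsto_div_nhds_zero
  have hsmall : ∀ᶠ L : ℝ in atTop, Real.log L / L < 1 / 16 := hll.eventually_lt_const (by norm_num)
  refine tendsto_of_tendsto_of_tendsto_of_le_of_le' hlow hup ?_ ?_
  · filter_upwards [eventually_ge_atTop 1] with X hX
    have hX0 : (0 : ℝ) < X := by exact_mod_cast hX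
    have h1 := UNW_lower X
    rw [← mul_div_assoc, div_le_div_iff_of_pos_right (by positivity)]
    linarith
  · filter_upwards [eventually_ge_atTop 1, hlog.eventually (eventually_ge_atTop 1), hlog.eventually hsmall] with X hX hL1 hL2
    have hX0 : (0 : ℝ) < X := by exact_mod_cast hX
    have hL0 : 0 < Real.log (X : ℝ) := by linarith
    rw [div_lt_iff₀ hL0] at hL2
    have hP0 : 0 < Real.log (X : ℝ) - 4 * Real.log (Real.log X) := by linarith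
    have hR0 : 0 < Real.log (X : ℝ) / 2 - 4 * Real.log (Real.log X) := by linarith
    have h1 := UNW_upper X (Real.log X) _ _ rfl hL1 rfl rfl hP0 hR0
    set L := Real.log (X : ℝ) with hL
    set P := L - 4 * Real.log L with hP
    set R := L / 2 - 4 * Real.log L with hR
    have h2 : T0 X * L ^ 2 / (X : ℝ) ^ 2 ≤ (W X / (P * R) + 18 * (X : ℝ) ^ 2 / L ^ 4) * L ^ 2 / (X : ℝ) ^ 2 := by
      apply div_le_div_of_nonneg_right _ (by positivity)
      exact mul_le_mul_of_nonneg_right h1 (by positivity)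
    refine h2.trans (le_of_eq ?_)
    have hPn : P ≠ 0 := hP0.ne'
    have hRn : R ≠ 0 := hR0.ne'
    have hLn : L ≠ 0 := hL0.ne'
    field_simp

end Pool.Agent.HAV
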