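import Pool.Agent.HAV.RED2
import Pool.Agent.HAV.MAIN
import Pool.Agent.HAV.QS
import Pool.Agent.HAV.UNW
import Pool.Agent.HAV.HUR
import Pool.Agent.HAV.CST

/-!
# HAV-FIN: the assembly
-/

set_option autoImplicit false

open Finset Filter Topology

namespace Pool.Agent.HAV

private theorem FIN_log (k : ℕ) {r : ℝ} (hr : 0 < r) :
    Tendsto (fun X : ℕ => Real.log X ^ k / (X : ℝ) ^ r) atTop (𝓝 0) := by
  have h1 : Tendsto (fun x : ℝ => Real.log x ^ (k : ℝ) / x ^ r) atTop (𝓝 0) :=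
    (isLittleO_log_rpow_rpow_atTop (k : ℝ) hr).tendsto_div_nhds_zero
  have h2 := h1.comp tendsto_natCast_atTop_atTop
  refine h2.congr fun X => ?_
  simp only [Function.comp_apply, Real.rpow_natCast]

theorem FIN_M : Tendsto (fun X : ℕ => M X / (X : ℝ) ^ 2) atTop
    (𝓝 (C0 * (2 * Real.pi / 9) * (3 * Real.pi / 16))) := by
  obtain ⟨C, k, hC, hM⟩ := main_term
  have h1 := sum_q.const_mul (C0 * (2 * Real.pi / 9))
  have h2 : Tendsto (fun X : ℕ => C * (Real.log X ^ k / (X : ℝ) ^ (1 / 4 : ℝ))) atTop (𝓝 0) := by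
    have := (FIN_log k (r := 1 / 4) (by norm_num)).const_mul C
    rwa [mul_zero] at this
  have h3 : Tendsto (fun X : ℕ => M X / (X : ℝ) ^ 2 - C0 * (2 * Real.pi / 9) *
      ((∑ q ∈ pr (Nat.sqrt X), Real.log q * ((X : ℝ) + 1 - (q : ℝ) ^ 2) ^ (3 / 2 : ℝ)) / (X : ℝ) ^ 2))
      atTop (𝓝 0) := by
    apply squeeze_zero_norm' _ h2
    filter_upwards [eventually_ge_atTop 3] with X hX
    have hX0 : (0 : ℝ) < X := by
      have : (3 : ℝ) ≤ X := by exact_mod_cast hX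
      linarith
    have e1 : M X / (X : ℝ) ^ 2 - C0 * (2 * Real.pi / 9) *
      ((∑ q ∈ pr (Nat.sqrt X), Real.log q * ((X : ℝ) + 1 - (q : ℝ) ^ 2) ^ (3 / 2 : ℝ)) / (X : ℝ) ^ 2) =
      (M X - C0 * (2 * Real.pi / 9) *
      ∑ q ∈ pr (Nat.sqrt X), Real.log q * ((X : ℝ) + 1 - (q : ℝ) ^ 2) ^ (3 / 2 : ℝ)) / (X : ℝ) ^ 2 := by
      ring
    rw [e1, Real.norm_eq_abs, abs_div, abs_of_pos (by positivity : (0 : ℝ) < (X : ℝ) ^ 2),
      div_le_iff₀ (by positivity)]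
    refine (hM X hX).trans (le_of_eq ?_)
    have e2 : (X : ℝ) ^ (7 / 4 : ℝ) * (X : ℝ) ^ (1 / 4 : ℝ) = (X : ℝ) ^ 2 := by
      rw [← Real.rpow_add hX0, ← Real.rpow_natCast]
      norm_num
    have h5 : (0 : ℝ) < (X : ℝ) ^ (1 / 4 : ℝ) := by positivity
    rw [← e2]
    field_simp
  have h4 := h3.add h1
  rw [zero_add] at h4
  refine h4.congr fun X => ?_
  ring

theorem FIN_W : Tendsto (fun X : ℕ => W X / (X : ℝ) ^ 2) atTop
    (𝓝 (C0 * (2 * Real.pi / 9) * (3 * Real.pi / 16))) := by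
  have h1 : Tendsto (fun X : ℕ => W X / (X : ℝ) ^ 2 - M X / (X : ℝ) ^ 2) atTop (𝓝 0) := by
    rw [Metric.tendsto_atTop]
    intro ε hε
    obtain ⟨X₀, hX₀⟩ := red2 (ε / 2) (by positivity)
    refine ⟨max X₀ 1, fun X hX => ?_⟩
    have h2 := hX₀ X ((le_max_left _ _).trans hX)
    have hX1 : 1 ≤ X := (le_max_right _ _).trans hX
    have hX0 : (0 : ℝ) < X := by exact_mod_cast hX1
    rw [Real.dist_eq, sub_zero, ← sub_div, abs_div, abs_of_pos (by positivity : (0 : ℝ) < (X : ℝ) ^ 2),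
      div_lt_iff₀ (by positivity)]
    have h3 : 0 < (X : ℝ) ^ 2 := by positivity
    nlinarith
  have h2 := h1.add FIN_M
  rw [zero_add] at h2
  refine h2.congr fun X => ?_
  ring

theorem fin : Tendsto (fun X : ℕ => T X * Real.log X ^ 2 / (X : ℝ) ^ 2) atTop (𝓝 CC) := by
  obtain ⟨C, hC, hT⟩ := T_sub_T0
  have h1 := unweight _ FIN_W
  have e0 : 2 * (C0 * (2 * Real.pi / 9) * (3 * Real.pi / 16)) = CC := by
    rw [← const_eq]
    ring
  rw [e0] at h1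
  have h2 : Tendsto (fun X : ℕ => C * (Real.log X ^ 2 / (X : ℝ) ^ (1 / 2 : ℝ) +
      Real.log X ^ 3 / (X : ℝ) ^ (1 / 2 : ℝ))) atTop (𝓝 0) := by
    have := ((FIN_log 2 (r := 1 / 2) (by norm_num)).add (FIN_log 3 (r := 1 / 2) (by norm_num))).const_mul C
    rwa [zero_add, mul_zero] at this
  have h3 : Tendsto (fun X : ℕ => T X * Real.log X ^ 2 / (X : ℝ) ^ 2 -
      T0 X * Real.log X ^ 2 / (X : ℝ) ^ 2) atTop (𝓝 0) := by
    apply squeeze_zero_norm' _ h2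
    filter_upwards [eventually_ge_atTop 3] with X hX
    have hX3 : (3 : ℝ) ≤ X := by exact_mod_cast hX
    have hX0 : (0 : ℝ) < X := by linarith
    have hlog : 0 ≤ Real.log X := Real.log_nonneg (by linarith)
    rw [← sub_div, ← sub_mul, Real.norm_eq_abs, abs_div, abs_mul, abs_of_pos (by positivity : (0 : ℝ) < (X : ℝ) ^ 2),
      abs_of_nonneg (by positivity : 0 ≤ Real.log (X : ℝ) ^ 2), div_le_iff₀ (by positivity)]
    have h4 := mul_le_mul_of_nonneg_right (hT X (by omega)) (by positivity : 0 ≤ Real.log (X : ℝ) ^ 2)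
    refine h4.trans (le_of_eq ?_)
    have e2 : (X : ℝ) ^ (3 / 2 : ℝ) * (X : ℝ) ^ (1 / 2 : ℝ) = (X : ℝ) ^ 2 := by
      rw [← Real.rpow_add hX0, ← Real.rpow_natCast]
      norm_num
    have h5 : (0 : ℝ) < (X : ℝ) ^ (1 / 2 : ℝ) := by positivity
    rw [← e2]
    field_simp
  have h4 := h3.add h1
  rw [zero_add] at h4
  refine h4.congr fun X => ?_
  ring

end Pool.Agent.HAV
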