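import Mathlib

/-!
# HAV-FIN2: partial summation: from `∑ t_n ∼ c X²/(log X)²` to `∑ t_n/n ∼ 2c X/(log X)²`
-/

set_option autoImplicit false

open Finset Filter Topology Asymptotics

namespace Pool.Agent.HAV

/-- `g_n = 1/(log (n+2))²` -/
private noncomputable def gg (n : ℕ) : ℝ := 1 / Real.log ((n : ℝ) + 2) ^ 2

private theorem logpos (n : ℕ) : 0 < Real.log ((n : ℝ) + 2) :=
  Real.log_pos (by have : (0 : ℝ) ≤ n := Nat.cast_nonneg n; linarith)

private theorem gg_pos (n : ℕ) : 0 < gg n := by
  unfold gg
  have := logpos n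
  positivity

private theorem log_atTop : Tendsto (fun n : ℕ => Real.log ((n : ℝ) + 2)) atTop atTop :=
  Real.tendsto_log_atTop.comp (tendsto_atTop_add_const_right _ _ tendsto_natCast_atTop_atTop)

private theorem log_ratio (a b : ℝ) (ha : 0 ≤ a) (hb : 0 ≤ b) :
    Tendsto (fun n : ℕ => Real.log ((n : ℝ) + a) / Real.log ((n : ℝ) + b)) atTop (𝓝 1) := by
  have hlb : Tendsto (fun n : ℕ => Real.log ((n : ℝ) + b)) atTop atTop :=
    Real.tendsto_log_atTop.comp (tendsto_atTop_add_const_right _ _ tendsto_natCast_atTop_atTop)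
  have h2 : Tendsto (fun n : ℕ => 1 + Real.log (((n : ℝ) + a) / ((n : ℝ) + b)) / Real.log ((n : ℝ) + b))
      atTop (𝓝 (1 + 0)) := by
    apply Tendsto.const_add
    have h3 : Tendsto (fun n : ℕ => Real.log (((n : ℝ) + a) / ((n : ℝ) + b))) atTop (𝓝 0) := by
      have h4 : Tendsto (fun n : ℕ => ((n : ℝ) + a) / ((n : ℝ) + b)) atTop (𝓝 1) := by
        have h5 : Tendsto (fun n : ℕ => 1 + (a - b) / ((n : ℝ) + b)) atTop (𝓝 (1 + 0)) := by
          apply Tendsto.const_add
          exact Tendsto.const_div_atTop
            (tendsto_atTop_add_const_right _ _ tendsto_natCast_atTop_atTop) _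
        rw [add_zero] at h5
        refine h5.congr' ?_
        filter_upwards [eventually_ge_atTop 1] with n hn
        have hn1 : (1 : ℝ) ≤ n := by exact_mod_cast hn
        have : (n : ℝ) + b ≠ 0 := by linarith
        field_simp
        ring
      have h5 := h4.log one_ne_zero
      rwa [Real.log_one] at h5
    exact h3.div_atTop hlb
  rw [add_zero] at h2
  refine h2.congr' ?_
  filter_upwards [eventually_ge_atTop 2] with n hn
  have hn1 : (2 : ℝ) ≤ n := by exact_mod_cast hn
  have h5 : 0 < Real.log ((n : ℝ) + b) := Real.log_pos (by linarith)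
  rw [Real.log_div (by linarith) (by linarith)]
  field_simp
  ring

/-- `∑_{n < X} 1/(log (n+2))² ∼ X/(log X)²` -/
private theorem sum_gg : Tendsto (fun X : ℕ => (∑ n ∈ range X, gg n) * Real.log ((X : ℝ) + 2) ^ 2 / X) atTop
    (𝓝 1) := by
  let F : ℕ → ℝ := fun n => n * gg n
  have hF : ∀ X : ℕ, ∑ n ∈ range X, (F (n + 1) - F n) = F X := by
    intro X
    rw [Finset.sum_range_sub]
    simp [F]
  have hFpos : Tendsto F atTop atTop := by
    have h1 : Tendsto (fun n : ℕ => ((n : ℝ) + 2) / Real.log ((n : ℝ) + 2) ^ 2) atTop atTop := by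
      have h2 : Tendsto (fun x : ℝ => x / Real.log x ^ 2) atTop atTop := by
        have h3 : Tendsto (fun x : ℝ => Real.log x ^ 2 / x) atTop (𝓝[>] 0) := by
          rw [tendsto_nhdsWithin_iff]
          refine ⟨?_, ?_⟩
          · have := (Real.isLittleO_pow_log_id_atTop (n := 2)).tendsto_div_nhds_zero
            exact this
          · filter_upwards [eventually_gt_atTop 1] with x hx
            have : 0 < Real.log x := Real.log_pos hx
            show 0 < Real.log x ^ 2 / x
            positivity
        refine h3.inv_tendsto_nhdsGT_zero.congr fun x => ?_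
        rw [Pi.inv_apply, inv_div]
      exact h2.comp (tendsto_atTop_add_const_right _ _ tendsto_natCast_atTop_atTop)
    have h4 : Tendsto (fun n : ℕ => (n : ℝ) / ((n : ℝ) + 2)) atTop (𝓝 1) := by
      have h5 : Tendsto (fun n : ℕ => 1 - 2 / ((n : ℝ) + 2)) atTop (𝓝 (1 - 0)) := by
        apply Tendsto.const_sub
        exact Tendsto.const_div_atTop
          (tendsto_atTop_add_const_right _ _ tendsto_natCast_atTop_atTop) _
      rw [sub_zero] at h5
      refine h5.congr fun n => ?_
      have : (n : ℝ) + 2 ≠ 0 := by positivity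
      field_simp
      ring
    have h6 := h1.atTop_mul_pos one_pos h4
    refine h6.congr fun n => ?_
    have : (n : ℝ) + 2 ≠ 0 := by positivity
    have h7 := (logpos n).ne'
    simp only [F, gg]
    field_simp
  -- the increments
  have hinc : (fun n => (F (n + 1) - F n) - gg n) =o[atTop] gg := by
    rw [isLittleO_iff_tendsto' (Eventually.of_forall fun n h => absurd h (gg_pos n).ne')]
    have h1 : Tendsto (fun n : ℕ => (Real.log ((n : ℝ) + 2) / Real.log ((n : ℝ) + 3)) ^ 2 - 1) atTop (𝓝 0) := by
      have := ((log_ratio 2 3 (by norm_num) (by norm_num)).pow 2).sub_const 1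
      simpa using this
    have h2 : Tendsto (fun n : ℕ => (n : ℝ) * ((Real.log ((n : ℝ) + 2) / Real.log ((n : ℝ) + 3)) ^ 2 - 1))
        atTop (𝓝 0) := by
      have h3 : Tendsto (fun n : ℕ => 2 / Real.log ((n : ℝ) + 2)) atTop (𝓝 0) :=
        Tendsto.const_div_atTop log_atTop _
      apply squeeze_zero_norm' _ h3
      filter_upwards with n
      have hn0 : (0 : ℝ) ≤ n := Nat.cast_nonneg n
      set A := Real.log ((n : ℝ) + 2) with hA
      set B := Real.log ((n : ℝ) + 3) with hB
      have hA0 : 0 < A := logpos n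
      have hAB : A ≤ B := Real.log_le_log (by linarith) (by linarith)
      have hB0 : 0 < B := lt_of_lt_of_le hA0 hAB
      have hd : B - A ≤ 1 / ((n : ℝ) + 2) := by
        rw [hA, hB, ← Real.log_div (by linarith) (by linarith)]
        have h4 : ((n : ℝ) + 3) / ((n : ℝ) + 2) = 1 + 1 / ((n : ℝ) + 2) := by
          have : (n : ℝ) + 2 ≠ 0 := by positivity
          field_simp
          ring
        rw [h4]
        have h5 := Real.log_le_sub_one_of_pos (x := 1 + 1 / ((n : ℝ) + 2)) (by positivity)
        linarith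
      rw [Real.norm_eq_abs, abs_mul, abs_of_nonneg hn0]
      have h6 : (A / B) ^ 2 - 1 = -((B - A) * (B + A) / B ^ 2) := by
        field_simp
        ring
      rw [h6, abs_neg, abs_of_nonneg (by
        have : 0 ≤ B - A := by linarith
        positivity)]
      have h7 : (B - A) * (B + A) / B ^ 2 ≤ (1 / ((n : ℝ) + 2)) * (2 / A) := by
        have h8 : (B + A) / B ^ 2 ≤ 2 / A := by
          rw [div_le_div_iff₀ (by positivity) hA0]
          nlinarith
        calc (B - A) * (B + A) / B ^ 2 = (B - A) * ((B + A) / B ^ 2) := by ring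
          _ ≤ (1 / ((n : ℝ) + 2)) * (2 / A) :=
            mul_le_mul hd h8 (by positivity) (by positivity)
      calc (n : ℝ) * ((B - A) * (B + A) / B ^ 2) ≤ (n : ℝ) * ((1 / ((n : ℝ) + 2)) * (2 / A)) :=
            mul_le_mul_of_nonneg_left h7 hn0
        _ = ((n : ℝ) / ((n : ℝ) + 2)) * (2 / A) := by ring
        _ ≤ 1 * (2 / A) := by
            apply mul_le_mul_of_nonneg_right _ (by positivity)
            rw [div_le_one (by positivity)]
            linarith
        _ = 2 / A := one_mul _
    have h3 := h2.add h1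
    rw [add_zero] at h3
    refine h3.congr fun n => ?_
    have h4 := (logpos n).ne'
    have h5 : Real.log ((n : ℝ) + 3) ≠ 0 :=
      (Real.log_pos (by have : (0 : ℝ) ≤ n := Nat.cast_nonneg n; linarith)).ne'
    have h6 : ((n + 1 : ℕ) : ℝ) + 2 = (n : ℝ) + 3 := by push_cast; ring
    simp only [F, gg]
    rw [h6]
    push_cast
    field_simp
    ring
  have hGG : Tendsto (fun n => ∑ i ∈ range n, gg i) atTop atTop := by
    have h1 : ∀ n : ℕ, F n ≤ ∑ i ∈ range n, gg i := by
      intro n
      simp only [F]
      have h2 : ∑ i ∈ range n, gg n ≤ ∑ i ∈ range n, gg i := by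
        apply Finset.sum_le_sum
        intro i hi
        have hi' : (i : ℝ) ≤ n := by
          have := Finset.mem_range.1 hi
          exact_mod_cast this.le
        unfold gg
        have h3 := logpos i
        apply one_div_le_one_div_of_le (by positivity)
        apply pow_le_pow_left₀ h3.le
        have : (0 : ℝ) ≤ i := Nat.cast_nonneg i
        exact Real.log_le_log (by linarith) (by linarith)
      rw [Finset.sum_const, card_range, nsmul_eq_mul] at h2
      exact h2
    exact tendsto_atTop_mono h1 hFpos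
  have hsum := IsLittleO.sum_range hinc (fun n => (gg_pos n).le) hGG
  have h1 : (fun n => F n - ∑ i ∈ range n, gg i) =o[atTop] (fun n => ∑ i ∈ range n, gg i) := by
    refine hsum.congr' (Eventually.of_forall fun n => ?_) (Eventually.of_forall fun n => rfl)
    simp only
    rw [Finset.sum_sub_distrib, hF]
  have h2 : IsEquivalent atTop F (fun n => ∑ i ∈ range n, gg i) := h1
  have hne : ∀ᶠ n : ℕ in atTop, F n ≠ 0 := by
    filter_upwards [hFpos.eventually_gt_atTop 0] with n hn
    exact hn.ne'
  have h3 := (isEquivalent_iff_tendsto_one hne).1 h2.symm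
  refine h3.congr' ?_
  filter_upwards [eventually_ge_atTop 1] with n hn
  have hn0 : (n : ℝ) ≠ 0 := by
    have : (1 : ℝ) ≤ n := by exact_mod_cast hn
    linarith
  have h4 := (logpos n).ne'
  simp only [Pi.div_apply, F, gg]
  field_simp

theorem partial_sum (t : ℕ → ℝ) (c : ℝ)
    (h : Tendsto (fun X : ℕ => (∑ n ∈ Icc 1 X, t n) * Real.log X ^ 2 / (X : ℝ) ^ 2) atTop (𝓝 c)) :
    Tendsto (fun X : ℕ => (∑ n ∈ Icc 1 X, t n / n) * Real.log X ^ 2 / X) atTop (𝓝 (2 * c)) := by
  set T : ℕ → ℝ := fun X => ∑ n ∈ Icc 1 X, t n with hT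
  have habel : ∀ X : ℕ, ∑ n ∈ Icc 1 (X + 1), t n / n =
      T (X + 1) / (X + 1) + ∑ m ∈ range X, T (m + 1) / (((m : ℝ) + 1) * ((m : ℝ) + 2)) := by
    intro X
    induction X with
    | zero => simp [hT]
    | succ X ih =>
      rw [Finset.sum_Icc_succ_top (by omega), ih, Finset.sum_range_succ]
      have e : T (X + 1 + 1) = T (X + 1) + t (X + 1 + 1) := by
        simp only [hT]
        rw [Finset.sum_Icc_succ_top (by omega)]
      rw [e]
      push_cast
      field_simp
      ring
  -- the terms
  have hterm : (fun m : ℕ => T (m + 1) / (((m : ℝ) + 1) * ((m : ℝ) + 2)) - c * gg m) =o[atTop] gg := by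
    rw [isLittleO_iff_tendsto' (Eventually.of_forall fun n h => absurd h (gg_pos n).ne')]
    have h1 := (tendsto_add_atTop_iff_nat 1).2 h
    have h2 := ((log_ratio 2 1 (by norm_num) (by norm_num)).pow 2)
    have h3 : Tendsto (fun n : ℕ => ((n : ℝ) + 1) / ((n : ℝ) + 2)) atTop (𝓝 1) := by
      have h5 : Tendsto (fun n : ℕ => 1 - 1 / ((n : ℝ) + 2)) atTop (𝓝 (1 - 0)) := by
        apply Tendsto.const_sub
        exact Tendsto.const_div_atTop
          (tendsto_atTop_add_const_right _ _ tendsto_natCast_atTop_atTop) _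
      rw [sub_zero] at h5
      refine h5.congr fun n => ?_
      have : (n : ℝ) + 2 ≠ 0 := by positivity
      field_simp
      ring
    have h4 := ((h1.mul h2).mul h3).sub_const c
    rw [one_pow, mul_one, mul_one, sub_self] at h4
    refine h4.congr' ?_
    filter_upwards [eventually_ge_atTop 1] with n hn
    have hn1 : (1 : ℝ) ≤ n := by exact_mod_cast hn
    have h5 := (logpos n).ne'
    have h6 : Real.log ((n : ℝ) + 1) ≠ 0 := (Real.log_pos (by linarith)).ne'
    have h7 : (n : ℝ) + 1 ≠ 0 := by positivity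
    have h8 : (n : ℝ) + 2 ≠ 0 := by positivity
    simp only [gg, hT]
    push_cast
    field_simp
  have hGG : Tendsto (fun n => ∑ i ∈ range n, gg i) atTop atTop := by
    have h1 := sum_gg
    have h2 : Tendsto (fun X : ℕ => ((X : ℝ) / Real.log ((X : ℝ) + 2) ^ 2)) atTop atTop := by
      have h3 : Tendsto (fun n : ℕ => ((n : ℝ) + 2) / Real.log ((n : ℝ) + 2) ^ 2) atTop atTop := by
        have h2 : Tendsto (fun x : ℝ => x / Real.log x ^ 2) atTop atTop := by
          have h3 : Tendsto (fun x : ℝ => Real.log x ^ 2 / x) atTop (𝓝[>] 0) := by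
            rw [tendsto_nhdsWithin_iff]
            refine ⟨?_, ?_⟩
            · have := (Real.isLittleO_pow_log_id_atTop (n := 2)).tendsto_div_nhds_zero
              exact this
            · filter_upwards [eventually_gt_atTop 1] with x hx
              have : 0 < Real.log x := Real.log_pos hx
              show 0 < Real.log x ^ 2 / x
              positivity
          refine h3.inv_tendsto_nhdsGT_zero.congr fun x => ?_
          rw [Pi.inv_apply, inv_div]
        exact h2.comp (tendsto_atTop_add_const_right _ _ tendsto_natCast_atTop_atTop)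
      have h4 : Tendsto (fun n : ℕ => (n : ℝ) / ((n : ℝ) + 2)) atTop (𝓝 1) := by
        have h5 : Tendsto (fun n : ℕ => 1 - 2 / ((n : ℝ) + 2)) atTop (𝓝 (1 - 0)) := by
          apply Tendsto.const_sub
          exact Tendsto.const_div_atTop
            (tendsto_atTop_add_const_right _ _ tendsto_natCast_atTop_atTop) _
        rw [sub_zero] at h5
        refine h5.congr fun n => ?_
        have : (n : ℝ) + 2 ≠ 0 := by positivity
        field_simp
        ring
      have h6 := h3.atTop_mul_pos one_pos h4
      refine h6.congr fun n => ?_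
      have : (n : ℝ) + 2 ≠ 0 := by positivity
      have h7 := (logpos n).ne'
      field_simp
    have h3 := h2.atTop_mul_pos one_pos h1
    refine h3.congr' ?_
    filter_upwards [eventually_ge_atTop 1] with n hn
    have hn0 : (n : ℝ) ≠ 0 := by
      have : (1 : ℝ) ≤ n := by exact_mod_cast hn
      linarith
    have h4 := (logpos n).ne'
    field_simp
  have hsum := IsLittleO.sum_range hterm (fun n => (gg_pos n).le) hGG
  have h1 : Tendsto (fun n : ℕ => (∑ m ∈ range n, T (m + 1) / (((m : ℝ) + 1) * ((m : ℝ) + 2))) /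
      (∑ i ∈ range n, gg i)) atTop (𝓝 c) := by
    have h2 := hsum.tendsto_div_nhds_zero.add_const c
    rw [zero_add] at h2
    refine h2.congr' ?_
    filter_upwards [hGG.eventually_gt_atTop 0] with n hn
    rw [Finset.sum_sub_distrib, ← Finset.mul_sum]
    field_simp
    ring
  -- conclusion, at `X + 1`
  rw [← tendsto_add_atTop_iff_nat 1]
  have hmain : Tendsto (fun X : ℕ => (∑ m ∈ range X, T (m + 1) / (((m : ℝ) + 1) * ((m : ℝ) + 2))) *
      Real.log ((X : ℝ) + 1) ^ 2 / ((X : ℝ) + 1)) atTop (𝓝 c) := by
    have h2 := (log_ratio 1 2 (by norm_num) (by norm_num)).pow 2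
    have h3 : Tendsto (fun n : ℕ => (n : ℝ) / ((n : ℝ) + 1)) atTop (𝓝 1) := by
      have h5 : Tendsto (fun n : ℕ => 1 - 1 / ((n : ℝ) + 1)) atTop (𝓝 (1 - 0)) := by
        apply Tendsto.const_sub
        exact Tendsto.const_div_atTop
          (tendsto_atTop_add_const_right _ _ tendsto_natCast_atTop_atTop) _
      rw [sub_zero] at h5
      refine h5.congr fun n => ?_
      have : (n : ℝ) + 1 ≠ 0 := by positivity
      field_simp
      ring
    have h4 := ((h1.mul sum_gg).mul h2).mul h3
    rw [one_pow, mul_one, mul_one, mul_one] at h4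
    refine h4.congr' ?_
    filter_upwards [eventually_ge_atTop 1, hGG.eventually_gt_atTop 0] with n hn hg
    have hn1 : (1 : ℝ) ≤ n := by exact_mod_cast hn
    have h5 := (logpos n).ne'
    have h6 : Real.log ((n : ℝ) + 1) ≠ 0 := (Real.log_pos (by linarith)).ne'
    have h7 : (n : ℝ) + 1 ≠ 0 := by positivity
    have h8 : (n : ℝ) ≠ 0 := by linarith
    field_simp
  have h0 := (tendsto_add_atTop_iff_nat 1).2 h
  have hfin := h0.add hmain
  have e : c + c = 2 * c := by ring
  rw [e] at hfin
  refine hfin.congr fun X => ?_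
  rw [habel X]
  push_cast
  simp only [hT]
  have h7 : (X : ℝ) + 1 ≠ 0 := by positivity
  field_simp

end Pool.Agent.HAV
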