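import Pool.Agent.helper10.BV.D8
import Pool.Agent.HAV.Defs

/-!
# HAV-HA: the mean value of `h(a) = ∏_{ℓ ∣ a, ℓ odd} (1 - 1/(ℓ - 1))`

PROOF.  `a/φ(a) = ∏_{ℓ ∣ a} ℓ/(ℓ-1)`, so `h(a) = ∏_{ℓ ∣ a} (1 if ℓ = 2, (ℓ-2)/(ℓ-1) otherwise) = ∑_{d ∣ a} g(d)`, `g(d) = μ(d)/φ(d)` for
odd `d` (`g(d) = ∏_{ℓ ∣ d} (-1/(ℓ-1))`, `d` squarefree odd), `0` otherwise; `|g(d)| ≤ 1/φ(d)`.  `∑_{a ≤ t} h(a) = ∑_{d ≤ t} g(d) ⌊t/d⌋ =
t ∑_{d ≤ t} g(d)/d + O(∑_{d ≤ t} 1/φ(d))`, `∑_{d ≤ t} 1/φ(d) ≤ 2 (1 + log t)²` (`BVM.sum_inv_totient_le`), and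
`t ∑_{d > t} 1/(d φ(d)) ≤ C (1 + log t)` (`div_totient_le`: `1/φ(d) ≤ (1 + 2 log d)/d`).  `∑_d g(d)/d = ∏_ℓ (1 - 1/(ℓ(ℓ-1))) = C0`
(Mathlib: Euler product of a summable multiplicative function, `EulerProduct`).  Also `0 ≤ h ≤ 1`.
-/

set_option autoImplicit false

open Finset Filter Topology
open BVM (psiAP psiCop thetaAP psiChi prim nonPrin)

namespace Pool.Agent.HAV

/-- `g` at primes -/
private noncomputable def HA_gp (l : ℕ) : ℝ := if l = 2 then 0 else -(1 / ((l : ℝ) - 1))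

open Classical in
/-- the multiplicative function `g` -/
private noncomputable def HA_g (d : ℕ) : ℝ :=
  if Squarefree d then ∏ l ∈ d.primeFactors, HA_gp l else 0

private theorem HA_two_le {l : ℕ} (hl : l.Prime) : (2 : ℝ) ≤ l := by exact_mod_cast hl.two_le

private theorem HA_gp_abs {l : ℕ} (hl : l.Prime) : |HA_gp l| ≤ 1 / ((l : ℝ) - 1) := by
  have h2 := HA_two_le hl
  unfold HA_gp
  split_ifs with h
  · rw [abs_zero]
    apply div_nonneg zero_le_one
    linarith
  · rw [abs_neg, abs_of_nonneg]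
    apply div_nonneg zero_le_one
    linarith

private theorem HA_fac {l : ℕ} (hl : l.Prime) :
    (1 - (rho l : ℝ) / l) = (1 - (l : ℝ)⁻¹) * (1 + HA_gp l) := by
  have h2 := HA_two_le hl
  unfold HA_gp rho
  split_ifs with h
  · subst h
    norm_num
  · have h3 : (l : ℝ) - 1 ≠ 0 := by intro h0; linarith
    have h4 : (l : ℝ) ≠ 0 := by intro h0; linarith
    field_simp
    push_cast
    ring

private theorem HA_h_eq {a : ℕ} (ha : 1 ≤ a) : h a = ∏ l ∈ a.primeFactors, (1 + HA_gp l) := by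
  have ha0 : (a : ℝ) ≠ 0 := by
    have : (0 : ℝ) < a := by exact_mod_cast ha
    exact this.ne'
  have h1 : (a.totient : ℝ) = a * ∏ p ∈ a.primeFactors, (1 - (p : ℝ)⁻¹) := by
    have := Nat.totient_eq_mul_prod_factors a
    have h' : ((a.totient : ℚ) : ℝ) = ((a * ∏ p ∈ a.primeFactors, (1 - (p : ℚ)⁻¹) : ℚ) : ℝ) := by
      rw [this]
    push_cast at h'
    exact h'
  have h2 : G a = (∏ p ∈ a.primeFactors, (1 - (p : ℝ)⁻¹)) * ∏ l ∈ a.primeFactors, (1 + HA_gp l) := by
    unfold G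
    rw [← Finset.prod_mul_distrib]
    exact Finset.prod_congr rfl fun l hl => HA_fac (Nat.prime_of_mem_primeFactors hl)
  have h3 : ∏ p ∈ a.primeFactors, (1 - (p : ℝ)⁻¹) ≠ 0 := by
    rw [Finset.prod_ne_zero_iff]
    intro p hp
    have h2 := HA_two_le (Nat.prime_of_mem_primeFactors hp)
    have : (p : ℝ)⁻¹ ≤ 2⁻¹ := inv_anti₀ (by norm_num) h2
    intro h0
    norm_num at this
    linarith
  unfold h
  rw [h2, h1]
  generalize ∏ p ∈ a.primeFactors, (1 - (p : ℝ)⁻¹) = P at h3 ⊢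
  field_simp

theorem h_nonneg (a : ℕ) (ha : 1 ≤ a) : 0 ≤ h a := by
  rw [HA_h_eq ha]
  apply Finset.prod_nonneg
  intro l hl
  have hp := Nat.prime_of_mem_primeFactors hl
  have h2 := HA_two_le hp
  unfold HA_gp
  split_ifs with h
  · norm_num
  · have h3 : (3 : ℝ) ≤ l := by
      have : 3 ≤ l := by
        have := hp.two_le
        omega
      exact_mod_cast this
    have h4 : 1 / ((l : ℝ) - 1) ≤ 1 := by
      rw [div_le_one (by linarith)]
      linarith
    linarith

theorem h_le_one (a : ℕ) (ha : 1 ≤ a) : h a ≤ 1 := by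
  rw [HA_h_eq ha]
  apply Finset.prod_le_one
  · intro l hl
    have hp := Nat.prime_of_mem_primeFactors hl
    have h1 := HA_gp_abs hp
    have h2 := HA_two_le hp
    have h4 : 1 / ((l : ℝ) - 1) ≤ 1 := by
      rw [div_le_one (by linarith)]
      linarith
    have := neg_abs_le (HA_gp l)
    linarith
  · intro l hl
    have hp := Nat.prime_of_mem_primeFactors hl
    have h2 := HA_two_le hp
    unfold HA_gp
    split_ifs with h
    · norm_num
    · have : 0 ≤ 1 / ((l : ℝ) - 1) := div_nonneg zero_le_one (by linarith)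
      linarith

private theorem HA_g_zero : HA_g 0 = 0 := by
  unfold HA_g
  rw [if_neg not_squarefree_zero]

private theorem HA_g_one : HA_g 1 = 1 := by
  unfold HA_g
  rw [if_pos squarefree_one]
  simp

private theorem HA_g_mul {m n : ℕ} (hmn : m.Coprime n) : HA_g (m * n) = HA_g m * HA_g n := by
  unfold HA_g
  by_cases hm : Squarefree m
  · by_cases hn : Squarefree n
    · rw [if_pos hm, if_pos hn, if_pos ((Nat.squarefree_mul hmn).mpr ⟨hm, hn⟩),
        hmn.primeFactors_mul, Finset.prod_union hmn.disjoint_primeFactors]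
    · rw [if_neg hn, if_neg, mul_zero]
      intro h
      exact hn ((Nat.squarefree_mul hmn).mp h).2
  · rw [if_neg hm, if_neg, zero_mul]
    intro h
    exact hm ((Nat.squarefree_mul hmn).mp h).1

private theorem HA_g_abs {d : ℕ} (hd : d ≠ 0) : |HA_g d| ≤ 1 / (d.totient : ℝ) := by
  have hφ : (0 : ℝ) < d.totient := by
    exact_mod_cast Nat.totient_pos.mpr (Nat.pos_of_ne_zero hd)
  unfold HA_g
  by_cases hs : Squarefree d
  · rw [if_pos hs, Finset.abs_prod]
    have h1 : (d.totient : ℝ) = ∏ p ∈ d.primeFactors, ((p : ℝ) - 1) := by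
      have := Nat.totient_mul_prod_primeFactors d
      rw [Nat.prod_primeFactors_of_squarefree hs, mul_comm] at this
      have h2 : d.totient = ∏ p ∈ d.primeFactors, (p - 1) :=
        Nat.eq_of_mul_eq_mul_left (Nat.pos_of_ne_zero hd) this
      rw [h2]
      push_cast
      apply Finset.prod_congr rfl
      intro p hp
      have := (Nat.prime_of_mem_primeFactors hp).one_le
      push_cast [Nat.cast_sub this]
      ring
    rw [h1, one_div, ← Finset.prod_inv_distrib]
    apply Finset.prod_le_prod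
    · intro i _; exact abs_nonneg _
    · intro i hi
      have := HA_gp_abs (Nat.prime_of_mem_primeFactors hi)
      rwa [one_div] at this
  · rw [if_neg hs, abs_zero]
    positivity

private theorem HA_h_sum {a : ℕ} (ha : 1 ≤ a) : h a = ∑ d ∈ a.divisors, HA_g d := by
  classical
  have ha0 : a ≠ 0 := by omega
  rw [HA_h_eq ha]
  have h1 : ∑ d ∈ a.divisors, HA_g d = ∑ d ∈ a.divisors with Squarefree d, HA_g d := by
    rw [Finset.sum_filter]
    apply Finset.sum_congr rfl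
    intro d _
    split_ifs with h
    · rfl
    · unfold HA_g
      rw [if_neg h]
  rw [h1, Nat.sum_divisors_filter_squarefree ha0, Nat.factors_eq]
  have h2 : ((a.primeFactorsList : Multiset ℕ)).toFinset = a.primeFactors := rfl
  rw [h2, Finset.prod_one_add]
  apply Finset.sum_congr rfl
  intro s hs
  rw [Finset.mem_powerset] at hs
  have hp : ∀ p ∈ s, p.Prime := fun p hp => Nat.prime_of_mem_primeFactors (hs hp)
  have e1 : s.val.prod = ∏ p ∈ s, p := Finset.prod_val s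
  have e2 : (∏ p ∈ s, p).primeFactors = s := Nat.primeFactors_prod hp
  have e3 : Squarefree (∏ p ∈ s, p) := by
    refine Finset.squarefree_prod_of_pairwise_isCoprime (fun p hps q hqs hpq => ?_)
      fun p hps => (hp p hps).squarefree
    have h3 : p.Coprime q := (Nat.coprime_primes (hp p hps) (hp q hqs)).mpr hpq
    exact Nat.coprime_iff_isRelPrime.mp h3
  rw [e1]
  unfold HA_g
  rw [if_pos e3, e2]

/-- exchange of the sums -/
private theorem HA_swap (t : ℕ) :
    ∑ a ∈ Icc 1 t, h a = ∑ d ∈ Icc 1 t, HA_g d * ((t / d : ℕ) : ℝ) := by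
  classical
  have h1 : ∀ a ∈ Icc 1 t, h a = ∑ d ∈ Icc 1 t, if d ∣ a then HA_g d else 0 := by
    intro a ha
    rw [Finset.mem_Icc] at ha
    rw [HA_h_sum ha.1, ← Finset.sum_filter]
    apply Finset.sum_congr _ fun _ _ => rfl
    ext d
    rw [Nat.mem_divisors, Finset.mem_filter, Finset.mem_Icc]
    constructor
    · rintro ⟨h, h'⟩
      exact ⟨⟨Nat.pos_of_dvd_of_pos h (by omega), le_trans (Nat.le_of_dvd (by omega) h) ha.2⟩, h⟩
    · rintro ⟨_, h⟩
      exact ⟨h, by omega⟩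
  rw [Finset.sum_congr rfl h1, Finset.sum_comm]
  apply Finset.sum_congr rfl
  intro d _
  rw [← Finset.sum_filter, Finset.sum_const, nsmul_eq_mul, mul_comm]
  congr 2
  have h2 : Icc 1 t = Ioc 0 t := by
    ext x
    rw [Finset.mem_Icc, Finset.mem_Ioc]
    omega
  rw [h2]
  exact Nat.Ioc_filter_dvd_card_eq_div t d

/-- the majorant of the tails -/
private noncomputable def HA_F (x : ℕ) : ℝ := (7 + 2 * Real.log x) / x

private theorem HA_step {d : ℕ} (hd : 1 ≤ d) :
    |HA_g (d + 1) / ((d + 1 : ℕ) : ℝ)| ≤ HA_F d - HA_F (d + 1) := by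
  have hd1 : (1 : ℝ) ≤ d := by exact_mod_cast hd
  set x : ℝ := (d : ℝ) with hx
  have hcast : ((d + 1 : ℕ) : ℝ) = x + 1 := by push_cast; rfl
  have hx1 : (0 : ℝ) < x + 1 := by linarith
  have hx0 : (0 : ℝ) < x := by linarith
  set L := Real.log (x + 1) with hL
  have hL0 : 0 ≤ L := Real.log_nonneg (by linarith)
  -- bound of the term
  have hφ : (0 : ℝ) < (d + 1).totient := by
    exact_mod_cast Nat.totient_pos.mpr (Nat.succ_pos d)
  have h1 : |HA_g (d + 1)| ≤ (1 + 2 * L) / (x + 1) := by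
    have h2 := HA_g_abs (d := d + 1) (by omega)
    have h3 := BVM.div_totient_le (m := d + 1) (by omega)
    rw [hcast] at h3
    have h4 : 1 / ((d + 1).totient : ℝ) = ((x + 1) / (d + 1).totient) / (x + 1) := by
      field_simp
    calc |HA_g (d + 1)| ≤ 1 / ((d + 1).totient : ℝ) := h2
      _ = ((x + 1) / (d + 1).totient) / (x + 1) := h4
      _ ≤ (1 + 2 * L) / (x + 1) := by
        apply div_le_div_of_nonneg_right h3 hx1.le
  have h5 : |HA_g (d + 1) / ((d + 1 : ℕ) : ℝ)| ≤ (1 + 2 * L) / (x + 1) ^ 2 := by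
    rw [hcast, abs_div, abs_of_pos hx1, pow_two, ← div_div]
    exact div_le_div_of_nonneg_right h1 hx1.le
  -- the difference
  have h6 : L - 1 / x ≤ Real.log x := by
    have h7 : Real.log ((x + 1) / x) ≤ (x + 1) / x - 1 :=
      Real.log_le_sub_one_of_pos (by positivity)
    rw [Real.log_div hx1.ne' hx0.ne'] at h7
    have h8 : (x + 1) / x - 1 = 1 / x := by field_simp; ring
    rw [h8] at h7
    linarith
  have h9 : (7 + 2 * L - 2 / x) / x ≤ HA_F d := by
    unfold HA_F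
    apply div_le_div_of_nonneg_right _ hx0.le
    have : 2 / x = 2 * (1 / x) := by ring
    rw [this]
    linarith
  have h10 : HA_F (d + 1) = (7 + 2 * L) / (x + 1) := by
    unfold HA_F
    rw [hcast]
  rw [h10]
  refine le_trans h5 (le_trans ?_ (sub_le_sub_right h9 _))
  have e : (7 + 2 * L - 2 / x) / x - (7 + 2 * L) / (x + 1) - (1 + 2 * L) / (x + 1) ^ 2 =
      ((7 + 2 * L) * x * (x + 1) - 2 * (x + 1) ^ 2 - (1 + 2 * L) * x ^ 2) /
        (x ^ 2 * (x + 1) ^ 2) := by
    field_simp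
    ring
  have h11 : 0 ≤ ((7 + 2 * L) * x * (x + 1) - 2 * (x + 1) ^ 2 - (1 + 2 * L) * x ^ 2) /
        (x ^ 2 * (x + 1) ^ 2) := by
    apply div_nonneg
    · nlinarith [mul_nonneg hL0 hx0.le]
    · positivity
  linarith

private theorem HA_F_nonneg (d : ℕ) : 0 ≤ HA_F d := by
  unfold HA_F
  have := Real.log_natCast_nonneg d
  positivity

/-- partial sums of the absolute values -/
private theorem HA_abs_sum {t : ℕ} (ht : 1 ≤ t) (n : ℕ) :
    ∑ i ∈ range n, |HA_g (t + i + 1) / ((t + i + 1 : ℕ) : ℝ)| ≤ HA_F t - HA_F (t + n) := by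
  induction n with
  | zero => simp
  | succ n ih =>
    rw [Finset.sum_range_succ]
    have := HA_step (d := t + n) (by omega)
    have e : t + (n + 1) = t + n + 1 := by ring
    rw [e]
    linarith

private theorem HA_summable : Summable fun d : ℕ => |HA_g d / (d : ℝ)| := by
  have h1 : Summable fun i : ℕ => |HA_g (i + 2) / ((i + 2 : ℕ) : ℝ)| := by
    apply summable_of_sum_range_le (c := HA_F 1) (fun _ => abs_nonneg _)
    intro n
    have h2 := HA_abs_sum (t := 1) le_rfl n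
    have h3 := HA_F_nonneg (1 + n)
    have e : ∀ i, 1 + i + 1 = i + 2 := fun i => by ring
    simp only [e] at h2
    linarith
  exact (summable_nat_add_iff 2).mp h1

private theorem HA_tsum : ∑' d : ℕ, HA_g d / (d : ℝ) = C0 := by
  have hs : Summable fun d : ℕ => ‖HA_g d / (d : ℝ)‖ := by
    simpa only [Real.norm_eq_abs] using HA_summable
  have h0 : HA_g 0 / ((0 : ℕ) : ℝ) = 0 := by simp
  have h1 : HA_g 1 / ((1 : ℕ) : ℝ) = 1 := by simp [HA_g_one]
  have hp := EulerProduct.eulerProduct_hasProd (f := fun d : ℕ => HA_g d / (d : ℝ)) h1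
    (fun {m n} hmn => by
      rw [HA_g_mul hmn]
      push_cast
      rw [mul_div_mul_comm]) hs h0
  rw [← hp.tprod_eq]
  unfold C0
  apply tprod_congr
  intro p
  have hpp := p.prop
  have h2 : ∀ e ∉ range 2, HA_g ((p : ℕ) ^ e) / (((p : ℕ) ^ e : ℕ) : ℝ) = 0 := by
    intro e he
    rw [Finset.mem_range, not_lt] at he
    have : ¬ Squarefree ((p : ℕ) ^ e) := by
      intro hsq
      have h3 : (p : ℕ) * p ∣ (p : ℕ) ^ e := by
        rw [← pow_two]
        exact pow_dvd_pow _ he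
      exact hpp.one_lt.ne' (Nat.isUnit_iff.mp (hsq _ h3))
    unfold HA_g
    rw [if_neg this, zero_div]
  rw [tsum_eq_sum h2, Finset.sum_range_succ, Finset.sum_range_one, pow_zero, pow_one, HA_g_one]
  have h3 : HA_g (p : ℕ) = HA_gp p := by
    unfold HA_g
    rw [if_pos hpp.squarefree, hpp.primeFactors, Finset.prod_singleton]
  rw [h3]
  have h4 := HA_two_le hpp
  unfold HA_gp
  split_ifs with h
  · simp
  · have h5 : ((p : ℕ) : ℝ) - 1 ≠ 0 := by intro h0; linarith
    have h6 : ((p : ℕ) : ℝ) ≠ 0 := by intro h0; linarith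
    field_simp
    push_cast
    ring

private theorem HA_tail {t : ℕ} (ht : 1 ≤ t) :
    |∑ d ∈ Icc 1 t, HA_g d / (d : ℝ) - C0| ≤ HA_F t := by
  have hs : Summable fun d : ℕ => HA_g d / (d : ℝ) := HA_summable.of_abs
  have h1 := hs.sum_add_tsum_nat_add (t + 1)
  have h2 : ∑ d ∈ range (t + 1), HA_g d / (d : ℝ) = ∑ d ∈ Icc 1 t, HA_g d / (d : ℝ) := by
    rw [Finset.range_eq_Ico, Finset.sum_eq_sum_Ico_succ_bot (by omega)]
    have : HA_g 0 / ((0 : ℕ) : ℝ) = 0 := by simp
    rw [this, zero_add]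
    apply Finset.sum_congr _ fun _ _ => rfl
    ext x
    rw [Finset.mem_Ico, Finset.mem_Icc]
    omega
  rw [h2, HA_tsum] at h1
  have h3 : ∑ d ∈ Icc 1 t, HA_g d / (d : ℝ) - C0 =
      -∑' i : ℕ, HA_g (i + (t + 1)) / ((i + (t + 1) : ℕ) : ℝ) := by linarith
  rw [h3, abs_neg]
  have hs' : Summable fun i : ℕ => |HA_g (i + (t + 1)) / ((i + (t + 1) : ℕ) : ℝ)| :=
    (summable_nat_add_iff (f := fun d : ℕ => |HA_g d / (d : ℝ)|) (t + 1)).mpr HA_summable
  have h6 : |∑' i : ℕ, HA_g (i + (t + 1)) / ((i + (t + 1) : ℕ) : ℝ)| ≤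
      ∑' i : ℕ, |HA_g (i + (t + 1)) / ((i + (t + 1) : ℕ) : ℝ)| := by
    have := norm_tsum_le_tsum_norm (f := fun i : ℕ => HA_g (i + (t + 1)) / ((i + (t + 1) : ℕ) : ℝ)) hs'
    simpa only [Real.norm_eq_abs] using this
  refine le_trans h6 ?_
  apply hs'.tsum_le_of_sum_range_le
  intro n
  have h4 := HA_abs_sum ht n
  have h5 := HA_F_nonneg (t + n)
  have e : ∀ i, t + i + 1 = i + (t + 1) := fun i => by ring
  simp only [e] at h4
  linarith

theorem sum_h : ∃ C : ℝ, 0 ≤ C ∧ ∀ t : ℕ, 1 ≤ t →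
    |∑ a ∈ Icc 1 t, h a - C0 * t| ≤ C * (1 + Real.log t) ^ 2 := by
  refine ⟨9, by norm_num, fun t ht => ?_⟩
  have ht0 : (0 : ℝ) < t := by exact_mod_cast ht
  have hL : 0 ≤ Real.log t := Real.log_natCast_nonneg t
  have h1 : ∑ a ∈ Icc 1 t, h a - C0 * t =
      ∑ d ∈ Icc 1 t, HA_g d * (((t / d : ℕ) : ℝ) - (t : ℝ) / d) +
        t * (∑ d ∈ Icc 1 t, HA_g d / (d : ℝ) - C0) := by
    rw [HA_swap, mul_sub, Finset.mul_sum]
    have : ∀ d ∈ Icc 1 t, HA_g d * (((t / d : ℕ) : ℝ) - (t : ℝ) / d) =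
        HA_g d * ((t / d : ℕ) : ℝ) - t * (HA_g d / d) := fun d _ => by ring
    rw [Finset.sum_congr rfl this, Finset.sum_sub_distrib]
    ring
  have h2 : |∑ d ∈ Icc 1 t, HA_g d * (((t / d : ℕ) : ℝ) - (t : ℝ) / d)| ≤
      2 * (1 + Real.log t) ^ 2 := by
    refine le_trans (Finset.abs_sum_le_sum_abs _ _) (le_trans ?_ (BVM.sum_inv_totient_le t))
    apply Finset.sum_le_sum
    intro d hd
    rw [Finset.mem_Icc] at hd
    have hd0 : (0 : ℝ) < d := by exact_mod_cast hd.1
    rw [abs_mul]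
    have h3 : |((t / d : ℕ) : ℝ) - (t : ℝ) / d| ≤ 1 := by
      rw [abs_le]
      constructor
      · have h4 : (t : ℝ) < (((t / d : ℕ) : ℝ) + 1) * d := by
          have : t < (t / d + 1) * d := by
            rw [mul_comm]
            exact Nat.lt_mul_div_succ t hd.1
          exact_mod_cast this
        have h5 : (t : ℝ) / d < ((t / d : ℕ) : ℝ) + 1 := by
          rw [div_lt_iff₀ hd0]; exact h4
        linarith
      · have := Nat.cast_div_le (α := ℝ) (m := t) (n := d)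
        linarith
    calc |HA_g d| * |((t / d : ℕ) : ℝ) - (t : ℝ) / d| ≤ |HA_g d| * 1 :=
          mul_le_mul_of_nonneg_left h3 (abs_nonneg _)
      _ ≤ 1 / (d.totient : ℝ) := by
          rw [mul_one]
          exact HA_g_abs (by omega)
  have h3 : |(t : ℝ) * (∑ d ∈ Icc 1 t, HA_g d / (d : ℝ) - C0)| ≤ 7 + 2 * Real.log t := by
    rw [abs_mul, abs_of_pos ht0]
    have h4 := mul_le_mul_of_nonneg_left (HA_tail ht) ht0.le
    have h5 : (t : ℝ) * HA_F t = 7 + 2 * Real.log t := by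
      unfold HA_F
      field_simp
    rwa [h5] at h4
  rw [h1]
  refine le_trans (abs_add_le _ _) ?_
  nlinarith [h2, h3, hL, mul_nonneg hL hL]

end Pool.Agent.HAV
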