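import Pool.Agent.HAV.Defs

/-!
# HAV-RED1: the weighted sum in terms of primes in arithmetic progressions (exact identity)

PROOF.  Exchange the sums.  For `q` prime, `a ≥ 1`, `k` with `2|k| ≤ a`: the primes `p ≤ X` with `q² < p`, `a ∣ p - q² + k²`,
`a² ≤ p - q² + k²` are the primes `p ≤ X`, `p ≡ rr a q k [MOD a]`, `p > mm a q k` (`a² - k² ≥ 1`, so `mm a q k ≥ q²` and
`p > mm` is `p ≥ a² + q² - k²`, which implies `q² < p`).  Ranges: `a² ≤ n + k² ≤ n + a²/4` gives `a ≤ 2n` and, for `n ≤ X`, `a ≤ QQ X`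
(`3a² ≤ 4X`); `q² < p ≤ X` gives `q ≤ √X`.  `thetaAP a r X - thetaAP a r (min X m)` is the sum of `log p` over `m < p ≤ X`.
-/

set_option autoImplicit false

open Finset Filter Topology
open BVM (psiAP psiCop thetaAP psiChi prim nonPrin)

namespace Pool.Agent.HAV

open Classical in
/-- the indicator of the pairs -/
noncomputable def RED1_ind (p q a : ℕ) (k : ℤ) : ℝ :=
  if (a : ℤ) ∣ (p : ℤ) - (q : ℤ) ^ 2 + k ^ 2 ∧ (a : ℤ) ^ 2 ≤ (p : ℤ) - (q : ℤ) ^ 2 + k ^ 2 then 1 else 0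

theorem RED1_ks {a : ℕ} {k : ℤ} (hk : k ∈ ks a) : 4 * k ^ 2 ≤ (a : ℤ) ^ 2 := by
  unfold ks at hk
  have h := (mem_filter.mp hk).2
  have h0 : (0 : ℤ) ≤ |k| := abs_nonneg k
  have h1 : (2 * |k|) ^ 2 ≤ (a : ℤ) ^ 2 := by
    apply pow_le_pow_left₀ (by positivity) h
  have h2 : (2 * |k|) ^ 2 = 4 * k ^ 2 := by rw [mul_pow, sq_abs]; norm_num
  linarith

theorem RED1_theta_le (a r X t : ℕ) (ht : t ≤ X) :
    thetaAP a r t = ∑ p ∈ pr X, if p ≡ r [MOD a] ∧ p ≤ t then Real.log p else 0 := by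
  classical
  unfold thetaAP pr
  rw [← sum_filter, filter_filter]
  apply sum_congr _ fun _ _ => rfl
  ext p
  simp only [mem_filter, mem_Icc]
  constructor
  · rintro ⟨⟨h1, h2⟩, h3, h4⟩
    exact ⟨⟨h1, h2.trans ht⟩, h3, h4, h2⟩
  · rintro ⟨⟨h1, _⟩, h3, h4, h5⟩
    exact ⟨⟨h1, h5⟩, h3, h4⟩

theorem RED1_theta (a r X m : ℕ) :
    thetaAP a r X - thetaAP a r (min X m) =
      ∑ p ∈ pr X, if p ≡ r [MOD a] ∧ m < p then Real.log p else 0 := by
  classical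
  rw [RED1_theta_le a r X X le_rfl, RED1_theta_le a r X (min X m) (min_le_left _ _),
    ← sum_sub_distrib]
  apply sum_congr rfl
  intro p hp
  have hpX : p ≤ X := by
    unfold pr at hp
    exact (mem_Icc.mp (mem_filter.mp hp).1).2
  by_cases h1 : p ≡ r [MOD a]
  · by_cases h2 : m < p
    · have h3 : ¬ (p ≤ min X m) := fun h => absurd (h.trans (min_le_right _ _)) (not_le.mpr h2)
      simp [h1, h2, h3, hpX]
    · have h3 : p ≤ min X m := le_min hpX (not_lt.mp h2)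
      simp [h1, h2, h3, hpX]
  · simp [h1]

theorem RED1_cond {a : ℕ} (ha : 1 ≤ a) (p q : ℕ) {k : ℤ} (hk : k ∈ ks a) :
    (p ≡ rr a q k [MOD a] ∧ mm a q k < p) ↔
      ((a : ℤ) ∣ (p : ℤ) - (q : ℤ) ^ 2 + k ^ 2 ∧ (a : ℤ) ^ 2 ≤ (p : ℤ) - (q : ℤ) ^ 2 + k ^ 2) := by
  have ha' : (1 : ℤ) ≤ a := by exact_mod_cast ha
  have hk4 := RED1_ks hk
  have ha2 : (1 : ℤ) ≤ (a : ℤ) ^ 2 := by nlinarith
  have hq2 : (0 : ℤ) ≤ (q : ℤ) ^ 2 := by positivity
  have hk2 : (0 : ℤ) ≤ k ^ 2 := by positivity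
  apply and_congr
  · rw [Nat.modEq_iff_dvd]
    have h1 : ((rr a q k : ℕ) : ℤ) = ((q : ℤ) ^ 2 - k ^ 2) % a := by
      unfold rr
      exact Int.toNat_of_nonneg (Int.emod_nonneg _ (by omega))
    rw [h1, Int.emod_def]
    have h2 : (q : ℤ) ^ 2 - k ^ 2 - a * (((q : ℤ) ^ 2 - k ^ 2) / a) - p =
      -((p : ℤ) - (q : ℤ) ^ 2 + k ^ 2) + a * (-(((q : ℤ) ^ 2 - k ^ 2) / a)) := by ring
    rw [h2, dvd_add_left (dvd_mul_right _ _), dvd_neg]
  · unfold mm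
    rw [Int.toNat_lt (by nlinarith)]
    constructor <;> intro h <;> linarith

theorem RED1_range {X p q a : ℕ} {k : ℤ} (hpX : p ≤ X) (hqp : q ^ 2 < p) (hk : k ∈ ks a)
    (h : (a : ℤ) ^ 2 ≤ (p : ℤ) - (q : ℤ) ^ 2 + k ^ 2) : a ≤ QQ X ∧ a ≤ 2 * (p - q ^ 2) := by
  have hk4 := RED1_ks hk
  have hn : (((p - q ^ 2 : ℕ) : ℕ) : ℤ) = (p : ℤ) - (q : ℤ) ^ 2 := by
    rw [Nat.cast_sub hqp.le, Nat.cast_pow]
  have hn1 : 1 ≤ p - q ^ 2 := by omega
  set n : ℕ := p - q ^ 2 with hndef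
  have h3 : 3 * (a : ℤ) ^ 2 ≤ 4 * n := by rw [hn]; linarith
  have h3' : 3 * a ^ 2 ≤ 4 * n := by exact_mod_cast h3
  have hnX : n ≤ X := (Nat.sub_le _ _).trans hpX
  constructor
  · unfold QQ
    by_contra hcon
    have h4 : X < (Nat.sqrt X + 1) ^ 2 := by
      have := Nat.lt_succ_sqrt X
      rw [sq]; exact this
    have h5 : 2 * (Nat.sqrt X + 1) ≤ a := by omega
    have h6 : (2 * (Nat.sqrt X + 1)) ^ 2 ≤ a ^ 2 := Nat.pow_le_pow_left h5 2
    rw [mul_pow] at h6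
    omega
  · by_contra hcon
    have h5 : 2 * n ≤ a := by omega
    have h6 : (2 * n) ^ 2 ≤ a ^ 2 := Nat.pow_le_pow_left h5 2
    have h7 : n ≤ n ^ 2 := by nlinarith
    rw [mul_pow] at h6
    omega

theorem RED1_N0 {X p q : ℕ} (hpX : p ≤ X) (hqp : q ^ 2 < p) :
    N0 (p - q ^ 2) = ∑ a ∈ Icc 1 (QQ X), ∑ k ∈ ks a, RED1_ind p q a k := by
  classical
  have hn : (((p - q ^ 2 : ℕ) : ℕ) : ℤ) = (p : ℤ) - (q : ℤ) ^ 2 := by
    rw [Nat.cast_sub hqp.le, Nat.cast_pow]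
  have h1 : ∀ a : ℕ, (((ks a).filter (fun k => (a : ℤ) ∣ ((p - q ^ 2 : ℕ) : ℤ) + k ^ 2 ∧
      (a : ℤ) ^ 2 ≤ ((p - q ^ 2 : ℕ) : ℤ) + k ^ 2)).card : ℝ) = ∑ k ∈ ks a, RED1_ind p q a k := by
    intro a
    rw [card_filter, Nat.cast_sum]
    apply sum_congr rfl
    intro k _
    unfold RED1_ind
    rw [hn]
    split_ifs <;> simp
  unfold N0
  have h2 : ∑ a ∈ Icc 1 (2 * (p - q ^ 2)), (((ks a).filter (fun k => (a : ℤ) ∣ ((p - q ^ 2 : ℕ) : ℤ) + k ^ 2 ∧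
      (a : ℤ) ^ 2 ≤ ((p - q ^ 2 : ℕ) : ℤ) + k ^ 2)).card : ℝ) =
      ∑ a ∈ Icc 1 (2 * (p - q ^ 2)), ∑ k ∈ ks a, RED1_ind p q a k := sum_congr rfl fun a _ => h1 a
  have h3 : ∀ a : ℕ, ¬ (a ≤ QQ X ∧ a ≤ 2 * (p - q ^ 2)) → ∑ k ∈ ks a, RED1_ind p q a k = 0 := by
    intro a ha
    apply sum_eq_zero
    intro k hk
    unfold RED1_ind
    rw [if_neg]
    rintro ⟨_, h5⟩
    exact ha (RED1_range hpX hqp hk h5)
  have h4 : ∀ B : ℕ, (B = QQ X ∨ B = 2 * (p - q ^ 2)) →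
      ∑ a ∈ Icc 1 B, ∑ k ∈ ks a, RED1_ind p q a k =
      ∑ a ∈ Icc 1 (min (QQ X) (2 * (p - q ^ 2))), ∑ k ∈ ks a, RED1_ind p q a k := by
    intro B hB
    symm
    apply sum_subset
    · apply Icc_subset_Icc le_rfl
      rcases hB with rfl | rfl
      · exact min_le_left _ _
      · exact min_le_right _ _
    · intro a ha hna
      apply h3 a
      rintro ⟨h5, h6⟩
      exact hna (mem_Icc.mpr ⟨(mem_Icc.mp ha).1, le_min h5 h6⟩)
  have h5 := h4 _ (Or.inl rfl)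
  have h6 := h4 _ (Or.inr rfl)
  exact h2.trans (h6.trans h5.symm)

theorem W_eq (X : ℕ) : W X = ∑ q ∈ pr (Nat.sqrt X), Real.log q * ∑ a ∈ Icc 1 (QQ X), ∑ k ∈ ks a,
    (thetaAP a (rr a q k) X - thetaAP a (rr a q k) (min X (mm a q k))) := by
  classical
  -- the left side
  have hL : W X = ∑ p ∈ pr X, ∑ q ∈ pr (Nat.sqrt X), ∑ a ∈ Icc 1 (QQ X), ∑ k ∈ ks a,
      Real.log p * Real.log q * RED1_ind p q a k := by
    unfold W
    apply sum_congr rfl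
    intro p hp
    have hpX : p ≤ X := by
      unfold pr at hp
      exact (mem_Icc.mp (mem_filter.mp hp).1).2
    have h1 : ∀ q ∈ qr p, Real.log p * Real.log q * N0 (p - q ^ 2) =
        ∑ a ∈ Icc 1 (QQ X), ∑ k ∈ ks a, Real.log p * Real.log q * RED1_ind p q a k := by
      intro q hq
      unfold qr at hq
      have hqp : q ^ 2 < p := (mem_filter.mp hq).2.2
      rw [RED1_N0 hpX hqp, mul_sum]
      apply sum_congr rfl
      intro a _
      rw [mul_sum]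
    rw [sum_congr rfl h1]
    apply sum_subset
    · intro q hq
      unfold qr at hq
      have h2 := mem_filter.mp hq
      have h3 := mem_Icc.mp h2.1
      unfold pr
      refine mem_filter.mpr ⟨mem_Icc.mpr ⟨h3.1, ?_⟩, h2.2.1⟩
      apply Nat.le_sqrt.mpr
      have := h2.2.2
      rw [sq] at this
      omega
    · intro q hq hnq
      have h2 := hq
      unfold pr at h2
      have h3 := mem_filter.mp h2
      have h4 := mem_Icc.mp h3.1
      have hpq : p ≤ q ^ 2 := by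
        by_contra hcon
        apply hnq
        unfold qr
        refine mem_filter.mpr ⟨mem_Icc.mpr ⟨h4.1, ?_⟩, h3.2, not_le.mp hcon⟩
        have := not_le.mp hcon
        nlinarith [h4.1]
      apply sum_eq_zero
      intro a ha
      apply sum_eq_zero
      intro k hk
      have hk4 := RED1_ks hk
      have ha1 : (1 : ℤ) ≤ a := by exact_mod_cast (mem_Icc.mp ha).1
      have hpq' : (p : ℤ) ≤ (q : ℤ) ^ 2 := by exact_mod_cast hpq
      have h5 : RED1_ind p q a k = 0 := by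
        unfold RED1_ind
        rw [if_neg]
        rintro ⟨_, h6⟩
        nlinarith
      rw [h5, mul_zero]
  rw [hL, sum_comm]
  apply sum_congr rfl
  intro q _
  rw [sum_comm, mul_sum]
  apply sum_congr rfl
  intro a ha
  rw [sum_comm, mul_sum]
  apply sum_congr rfl
  intro k hk
  rw [RED1_theta, mul_sum]
  apply sum_congr rfl
  intro p _
  have h1 := RED1_cond (mem_Icc.mp ha).1 p q hk
  unfold RED1_ind
  by_cases h2 : p ≡ rr a q k [MOD a] ∧ mm a q k < p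
  · rw [if_pos h2, if_pos (h1.mp h2)]
    ring
  · rw [if_neg h2, if_neg (fun h => h2 (h1.mpr h))]
    ring

end Pool.Agent.HAV
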