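import Pool.Agent.HAV.Defs

/-!
# HAV-WSQ: the second moment of the number of `(q,k)` with `q² - k² = b` modulo `a`

PROOF.  `∑_b w(b)²` is the number of `(q,k,q',k')` with `q² - k² = q'² - k'²` in `ZMod a` (`b = rr a q k < a`).  For fixed
`q, q'` put `n = q² - q'²`; the map `(k, k') ↦ (k - k', k + k')` into `(ZMod a)²` is at most 9-to-1 (every class has at
most three elements in `[-a, a]`), so the number of `(k, k')` is `≤ 9 #{(y,z) : y z = n} ≤ 9 #{(y,z) : y z = 0}`
`≤ 9 ∑_{g ∣ a} (a/g) g = 9 a τ(a)`.  Finally `∑_{a ≤ Q} a τ(a) ≤ Q ∑_{a ≤ Q} τ(a) ≤ Q² (1 + log Q)`.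
-/

set_option autoImplicit false

open Finset Filter Topology
open BVM (psiAP psiCop thetaAP psiChi prim nonPrin)

namespace Pool.Agent.HAV

/-- a class modulo `a` has at most three elements in `[-a, a]` -/
private theorem WSQ_three {a : ℕ} (ha : 0 < a) (c : ZMod a) (s : Finset ℤ)
    (hs : ∀ x ∈ s, -(a : ℤ) ≤ x ∧ x ≤ a ∧ (x : ZMod a) = c) : s.card ≤ 3 := by
  have : NeZero a := ⟨ha.ne'⟩
  have hsub : s ⊆ {(c.val : ℤ) - a, (c.val : ℤ), (c.val : ℤ) + a} := by
    intro x hx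
    obtain ⟨h1, h2, h3⟩ := hs x hx
    have h4 : ((x - (c.val : ℤ) : ℤ) : ZMod a) = 0 := by
      push_cast
      rw [h3, ZMod.natCast_zmod_val, sub_self]
    rw [ZMod.intCast_zmod_eq_zero_iff_dvd] at h4
    obtain ⟨t, ht⟩ := h4
    have h5 : (c.val : ℤ) < a := by exact_mod_cast ZMod.val_lt c
    have h6 : (0 : ℤ) ≤ c.val := by positivity
    have ha' : (0 : ℤ) < a := by exact_mod_cast ha
    have ht1 : -2 < t := by nlinarith
    have ht2 : t < 2 := by nlinarith
    simp only [mem_insert, mem_singleton]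
    have h7 : t = -1 ∨ t = 0 ∨ t = 1 := by omega
    rcases h7 with rfl | rfl | rfl
    · left; linarith
    · right; left; linarith
    · right; right; linarith
  exact (card_le_card hsub).trans card_le_three

private theorem WSQ_mult {a d : ℕ} (hd : d ∣ a) (ha : 0 < a) :
    ((range a).filter (fun x => d ∣ x)).card ≤ a / d := by
  have hd0 : 0 < d := Nat.pos_of_dvd_of_pos hd ha
  have h : ((range a).filter (fun x => d ∣ x)).card ≤ (range (a / d)).card := by
    refine card_le_card_of_injOn (fun x => x / d) ?_ ?_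
    · intro x hx
      rw [mem_coe, mem_filter, mem_range] at hx
      show x / d ∈ range (a / d)
      rw [mem_range]
      exact Nat.div_lt_div_of_lt_of_dvd hd hx.1
    · intro x hx y hy hxy
      rw [mem_coe, mem_filter] at hx hy
      have hxy' : x / d = y / d := hxy
      rw [← Nat.div_mul_cancel hx.2, ← Nat.div_mul_cancel hy.2, hxy']
  rwa [card_range] at h

/-- the zero products -/
private theorem WSQ_zero {a : ℕ} (ha : 0 < a) :
    (((range a) ×ˢ (range a)).filter (fun p : ℕ × ℕ => a ∣ p.1 * p.2)).card ≤ a * a.divisors.card := by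
  have hsub : ((range a) ×ˢ (range a)).filter (fun p : ℕ × ℕ => a ∣ p.1 * p.2) ⊆
      a.divisors.biUnion (fun g => ((range a).filter (fun x => g ∣ x)) ×ˢ
        ((range a).filter (fun x => (a / g) ∣ x))) := by
    rintro ⟨y, z⟩ hp
    rw [mem_filter, mem_product] at hp
    obtain ⟨⟨hy, hz⟩, hd⟩ := hp
    rw [mem_biUnion]
    refine ⟨Nat.gcd y a, Nat.mem_divisors.2 ⟨Nat.gcd_dvd_right _ _, ha.ne'⟩, ?_⟩
    rw [mem_product, mem_filter, mem_filter]
    refine ⟨⟨hy, Nat.gcd_dvd_left _ _⟩, hz, ?_⟩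
    have hg : 0 < Nat.gcd y a := Nat.gcd_pos_of_pos_right _ ha
    have h1 : (a / Nat.gcd y a).Coprime (y / Nat.gcd y a) := (Nat.coprime_div_gcd_div_gcd hg).symm
    have h2 : a / Nat.gcd y a ∣ (y / Nat.gcd y a) * z := by
      obtain ⟨t, ht⟩ := hd
      refine ⟨t, ?_⟩
      have h3 : Nat.gcd y a * ((y / Nat.gcd y a) * z) = Nat.gcd y a * (a / Nat.gcd y a * t) := by
        rw [← mul_assoc, ← mul_assoc, Nat.mul_div_cancel' (Nat.gcd_dvd_left y a),
          Nat.mul_div_cancel' (Nat.gcd_dvd_right y a)]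
        exact ht
      exact Nat.eq_of_mul_eq_mul_left hg h3
    exact h1.dvd_of_dvd_mul_left h2
  refine (card_le_card hsub).trans (card_biUnion_le.trans ?_)
  calc ∑ g ∈ a.divisors, (((range a).filter (fun x => g ∣ x)) ×ˢ ((range a).filter (fun x => (a / g) ∣ x))).card
      ≤ ∑ _g ∈ a.divisors, a := by
        refine sum_le_sum fun g hg => ?_
        have hga : g ∣ a := Nat.dvd_of_mem_divisors hg
        rw [card_product]
        refine (Nat.mul_le_mul (WSQ_mult hga ha) (WSQ_mult (Nat.div_dvd_of_dvd hga) ha)).trans ?_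
        rw [Nat.div_div_self hga ha.ne', Nat.div_mul_cancel hga]
    _ = a * a.divisors.card := by rw [sum_const, smul_eq_mul, mul_comm]

/-- products in `ZMod a` -/
private theorem WSQ_prod {a : ℕ} (ha : 0 < a) [NeZero a] (n : ZMod a) :
    ((univ : Finset (ZMod a × ZMod a)).filter (fun p => p.1 * p.2 = n)).card ≤ a * a.divisors.card := by
  classical
  have h1 : ∀ n : ZMod a, ((univ : Finset (ZMod a × ZMod a)).filter (fun p => p.1 * p.2 = n)).card =
      ∑ y : ZMod a, ((univ : Finset (ZMod a)).filter (fun z => y * z = n)).card := by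
    intro n
    rw [card_filter, Fintype.sum_prod_type]
    refine sum_congr rfl fun y _ => ?_
    rw [card_filter]
  have h2 : ((univ : Finset (ZMod a × ZMod a)).filter (fun p => p.1 * p.2 = n)).card ≤
      ((univ : Finset (ZMod a × ZMod a)).filter (fun p => p.1 * p.2 = 0)).card := by
    rw [h1, h1]
    refine sum_le_sum fun y _ => ?_
    rcases ((univ : Finset (ZMod a)).filter (fun z => y * z = n)).eq_empty_or_nonempty with h0 | ⟨z0, hz0⟩
    · rw [h0]; simp
    · rw [mem_filter] at hz0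
      refine card_le_card_of_injOn (fun z => z - z0) ?_ ?_
      · intro z hz
        rw [mem_coe, mem_filter] at hz
        show z - z0 ∈ _
        rw [mem_coe, mem_filter]
        refine ⟨mem_univ _, ?_⟩
        rw [mul_sub, hz.2, hz0.2, sub_self]
      · intro z _ z' _ hzz
        exact sub_left_injective hzz
  refine h2.trans (le_trans ?_ (WSQ_zero ha))
  refine card_le_card_of_injOn (fun p => (p.1.val, p.2.val)) ?_ ?_
  · rintro ⟨y, z⟩ hp
    rw [mem_coe, mem_filter] at hp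
    show (y.val, z.val) ∈ _
    rw [mem_coe, mem_filter, mem_product, mem_range, mem_range]
    refine ⟨⟨ZMod.val_lt y, ZMod.val_lt z⟩, ?_⟩
    have h3 : ((y.val * z.val : ℕ) : ZMod a) = 0 := by
      push_cast
      rw [ZMod.natCast_zmod_val, ZMod.natCast_zmod_val]
      exact hp.2
    exact (ZMod.natCast_eq_zero_iff _ _).1 h3
  · rintro ⟨y, z⟩ _ ⟨y', z'⟩ _ h
    have h' : (y.val, z.val) = (y'.val, z'.val) := h
    rw [Prod.mk.injEq] at h'
    exact Prod.ext (ZMod.val_injective a h'.1) (ZMod.val_injective a h'.2)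

/-- the pairs `(k, k')` for fixed `(q, q')` -/
private theorem WSQ_pairs {a : ℕ} (ha : 0 < a) (q q' : ℕ) :
    (((ks a) ×ˢ (ks a)).filter (fun p : ℤ × ℤ => rr a q' p.2 = rr a q p.1)).card ≤ 9 * (a * a.divisors.card) := by
  classical
  have : NeZero a := ⟨ha.ne'⟩
  have ha' : (a : ℤ) ≠ 0 := by exact_mod_cast ha.ne'
  set n : ZMod a := (q : ZMod a) ^ 2 - (q' : ZMod a) ^ 2 with hn
  have key : (((ks a) ×ˢ (ks a)).filter (fun p : ℤ × ℤ => rr a q' p.2 = rr a q p.1)).card ≤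
      9 * ((univ : Finset (ZMod a × ZMod a)).filter (fun p => p.1 * p.2 = n)).card := by
    refine card_le_mul_card_image_of_maps_to
      (f := fun p : ℤ × ℤ => (((p.1 - p.2 : ℤ) : ZMod a), ((p.1 + p.2 : ℤ) : ZMod a))) ?_ 9 ?_
    · rintro ⟨k, k'⟩ hp
      rw [mem_filter] at hp
      rw [mem_filter]
      refine ⟨mem_univ _, ?_⟩
      have h1 : rr a q' k' = rr a q k := hp.2
      unfold rr at h1
      have h2 : ((q' : ℤ) ^ 2 - k' ^ 2) % a = ((q : ℤ) ^ 2 - k ^ 2) % a := by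
        have e1 := Int.toNat_of_nonneg (Int.emod_nonneg ((q' : ℤ) ^ 2 - k' ^ 2) ha')
        have e2 := Int.toNat_of_nonneg (Int.emod_nonneg ((q : ℤ) ^ 2 - k ^ 2) ha')
        rw [← e1, ← e2, h1]
      have h3 : (((q' : ℤ) ^ 2 - k' ^ 2 : ℤ) : ZMod a) = (((q : ℤ) ^ 2 - k ^ 2 : ℤ) : ZMod a) :=
        (ZMod.intCast_eq_intCast_iff _ _ _).2 h2
      push_cast at h3
      show ((k - k' : ℤ) : ZMod a) * ((k + k' : ℤ) : ZMod a) = n
      push_cast
      rw [hn]
      linear_combination h3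
    · rintro ⟨y, z⟩ _
      have h4 : ((((ks a) ×ˢ (ks a)).filter (fun p : ℤ × ℤ => rr a q' p.2 = rr a q p.1)).filter
          (fun p : ℤ × ℤ => (((p.1 - p.2 : ℤ) : ZMod a), ((p.1 + p.2 : ℤ) : ZMod a)) = (y, z))).card ≤
          (((Icc (-(a : ℤ)) a).filter (fun x : ℤ => (x : ZMod a) = y)) ×ˢ
            ((Icc (-(a : ℤ)) a).filter (fun x : ℤ => (x : ZMod a) = z))).card := by
        refine card_le_card_of_injOn (fun p => (p.1 - p.2, p.1 + p.2)) ?_ ?_
        · rintro ⟨k, k'⟩ hp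
          rw [mem_coe, mem_filter, mem_filter, mem_product] at hp
          obtain ⟨⟨⟨hk, hk'⟩, _⟩, he⟩ := hp
          have hk1 : 2 * |k| ≤ a := by
            unfold ks at hk
            exact (mem_filter.1 hk).2
          have hk2 : 2 * |k'| ≤ a := by
            unfold ks at hk'
            exact (mem_filter.1 hk').2
          rw [Prod.mk.injEq] at he
          show (k - k', k + k') ∈ _
          rw [mem_coe, mem_product, mem_filter, mem_filter, mem_Icc, mem_Icc]
          have b1 := abs_le.1 (show |k| ≤ |k| from le_rfl)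
          have b2 := abs_le.1 (show |k'| ≤ |k'| from le_rfl)
          refine ⟨⟨⟨?_, ?_⟩, he.1⟩, ⟨?_, ?_⟩, he.2⟩
          · show -(a : ℤ) ≤ k - k'
            linarith [b1.1, b2.2]
          · show k - k' ≤ a
            linarith [b1.2, b2.1]
          · show -(a : ℤ) ≤ k + k'
            linarith [b1.1, b2.1]
          · show k + k' ≤ a
            linarith [b1.2, b2.2]
        · rintro ⟨k, k'⟩ _ ⟨l, l'⟩ _ h
          have h' : (k - k', k + k') = (l - l', l + l') := h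
          rw [Prod.mk.injEq] at h'
          exact Prod.ext (by show k = l; omega) (by show k' = l'; omega)
      refine h4.trans ?_
      rw [card_product]
      have h5 := WSQ_three ha y ((Icc (-(a : ℤ)) a).filter (fun x : ℤ => (x : ZMod a) = y)) (fun x hx => by
        rw [mem_filter, mem_Icc] at hx
        exact ⟨hx.1.1, hx.1.2, hx.2⟩)
      have h6 := WSQ_three ha z ((Icc (-(a : ℤ)) a).filter (fun x : ℤ => (x : ZMod a) = z)) (fun x hx => by
        rw [mem_filter, mem_Icc] at hx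
        exact ⟨hx.1.1, hx.1.2, hx.2⟩)
      calc _ ≤ 3 * 3 := Nat.mul_le_mul h5 h6
        _ = 9 := rfl
  exact key.trans (Nat.mul_le_mul_left _ (WSQ_prod ha n))

private theorem WSQ_one {a : ℕ} (ha : 0 < a) (Z : ℕ) :
    ∑ b ∈ range a, w Z a b ^ 2 ≤ 9 * (Z : ℝ) ^ 2 * (a * a.divisors.card) := by
  classical
  have ha' : (a : ℤ) ≠ 0 := by exact_mod_cast ha.ne'
  have hapos : (0 : ℤ) < a := by exact_mod_cast ha
  obtain ⟨S, hS⟩ : ∃ S, S = (Icc 1 Z) ×ˢ (ks a) := ⟨_, rfl⟩
  have hmap : ∀ p ∈ S, rr a p.1 p.2 ∈ range a := by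
    intro p _
    rw [mem_range]
    unfold rr
    have h1 := Int.emod_nonneg (((p.1 : ℤ)) ^ 2 - p.2 ^ 2) ha'
    have h2 := Int.emod_lt_of_pos (((p.1 : ℤ)) ^ 2 - p.2 ^ 2) hapos
    omega
  have hnat : ∑ b ∈ range a, (S.filter (fun p => rr a p.1 p.2 = b)).card ^ 2 ≤
      9 * Z ^ 2 * (a * a.divisors.card) := by
    have e1 : ∑ b ∈ range a, (S.filter (fun p => rr a p.1 p.2 = b)).card ^ 2 =
        ∑ p ∈ S, (S.filter (fun p' => rr a p'.1 p'.2 = rr a p.1 p.2)).card := by
      rw [← sum_fiberwise_of_maps_to hmap]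
      refine sum_congr rfl fun b _ => ?_
      rw [sum_congr rfl (g := fun _ => (S.filter (fun p => rr a p.1 p.2 = b)).card) (fun p hp => by
        rw [mem_filter] at hp
        rw [hp.2])]
      rw [sum_const, smul_eq_mul, pow_two]
    rw [e1]
    have e2 : ∑ p ∈ S, (S.filter (fun p' => rr a p'.1 p'.2 = rr a p.1 p.2)).card =
        ∑ q ∈ Icc 1 Z, ∑ q' ∈ Icc 1 Z,
          (((ks a) ×ˢ (ks a)).filter (fun p : ℤ × ℤ => rr a q' p.2 = rr a q p.1)).card := by
      rw [hS, sum_product]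
      refine sum_congr rfl fun q _ => ?_
      have e3 : ∀ k : ℤ, (((Icc 1 Z) ×ˢ (ks a)).filter (fun p' : ℕ × ℤ => rr a p'.1 p'.2 = rr a q k)).card =
          ∑ q' ∈ Icc 1 Z, ∑ k' ∈ ks a, if rr a q' k' = rr a q k then 1 else 0 := by
        intro k
        rw [card_filter, sum_product]
      have e4 : ∀ q' : ℕ, (((ks a) ×ˢ (ks a)).filter (fun p : ℤ × ℤ => rr a q' p.2 = rr a q p.1)).card =
          ∑ k ∈ ks a, ∑ k' ∈ ks a, if rr a q' k' = rr a q k then 1 else 0 := by
        intro q'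
        rw [card_filter, sum_product]
      rw [sum_congr rfl fun k _ => e3 k, sum_comm, sum_congr rfl fun q' _ => e4 q']
    rw [e2]
    calc ∑ q ∈ Icc 1 Z, ∑ q' ∈ Icc 1 Z,
          (((ks a) ×ˢ (ks a)).filter (fun p : ℤ × ℤ => rr a q' p.2 = rr a q p.1)).card
        ≤ ∑ _q ∈ Icc 1 Z, ∑ _q' ∈ Icc 1 Z, 9 * (a * a.divisors.card) :=
          sum_le_sum fun q _ => sum_le_sum fun q' _ => WSQ_pairs ha q q'
      _ = 9 * Z ^ 2 * (a * a.divisors.card) := by
          rw [sum_const, sum_const, Nat.card_Icc, smul_eq_mul, smul_eq_mul]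
          simp only [Nat.add_sub_cancel]
          ring
  have hcast : ∑ b ∈ range a, w Z a b ^ 2 =
      ((∑ b ∈ range a, (S.filter (fun p => rr a p.1 p.2 = b)).card ^ 2 : ℕ) : ℝ) := by
    push_cast
    refine sum_congr rfl fun b _ => ?_
    unfold w
    rw [hS]
  rw [hcast]
  calc ((∑ b ∈ range a, (S.filter (fun p => rr a p.1 p.2 = b)).card ^ 2 : ℕ) : ℝ)
      ≤ ((9 * Z ^ 2 * (a * a.divisors.card) : ℕ) : ℝ) := by exact_mod_cast hnat
    _ = 9 * (Z : ℝ) ^ 2 * (a * a.divisors.card) := by push_cast; ring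

private theorem WSQ_tau (Q : ℕ) : ∑ a ∈ Icc 1 Q, ((a.divisors.card : ℕ) : ℝ) ≤ Q * (1 + Real.log Q) := by
  have h1 : ∑ a ∈ Icc 1 Q, a.divisors.card = ∑ d ∈ Icc 1 Q, Q / d := by
    have e1 : ∀ a ∈ Icc 1 Q, a.divisors.card = ∑ d ∈ Icc 1 Q, if d ∣ a then 1 else 0 := by
      intro a ha
      rw [mem_Icc] at ha
      rw [← card_filter]
      congr 1
      ext d
      rw [Nat.mem_divisors, mem_filter, mem_Icc]
      constructor
      · rintro ⟨h1, h2⟩
        exact ⟨⟨Nat.pos_of_dvd_of_pos h1 (by omega), (Nat.le_of_dvd (by omega) h1).trans ha.2⟩, h1⟩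
      · rintro ⟨_, h1⟩
        exact ⟨h1, by omega⟩
    rw [sum_congr rfl e1, sum_comm]
    refine sum_congr rfl fun d _ => ?_
    rw [← card_filter]
    have e2 : (Icc 1 Q).filter (fun a => d ∣ a) = (Ioc 0 Q).filter (fun a => d ∣ a) := by
      congr 1
    rw [e2, Nat.Ioc_filter_dvd_card_eq_div]
  have h2 : ∑ a ∈ Icc 1 Q, ((a.divisors.card : ℕ) : ℝ) = ((∑ d ∈ Icc 1 Q, Q / d : ℕ) : ℝ) := by
    rw [← h1]
    push_cast
    rfl
  rw [h2]
  push_cast
  calc ∑ d ∈ Icc 1 Q, ((Q / d : ℕ) : ℝ) ≤ ∑ d ∈ Icc 1 Q, (Q : ℝ) * (d : ℝ)⁻¹ := by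
        refine sum_le_sum fun d _ => ?_
        rw [← div_eq_mul_inv]
        exact Nat.cast_div_le
    _ = Q * ∑ d ∈ Icc 1 Q, (d : ℝ)⁻¹ := by rw [mul_sum]
    _ ≤ Q * (1 + Real.log Q) := by
        refine mul_le_mul_of_nonneg_left ?_ (by positivity)
        have h3 := harmonic_le_one_add_log Q
        rw [harmonic_eq_sum_Icc] at h3
        push_cast at h3
        exact h3

theorem wsq (Z Q : ℕ) : ∑ a ∈ Icc 1 Q, ∑ b ∈ range a, w Z a b ^ 2 ≤
    16 * (Z : ℝ) ^ 2 * (Q : ℝ) ^ 2 * (1 + Real.log Q) := by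
  have hlog : 0 ≤ 1 + Real.log Q := by
    have := Real.log_natCast_nonneg Q
    linarith
  calc ∑ a ∈ Icc 1 Q, ∑ b ∈ range a, w Z a b ^ 2
      ≤ ∑ a ∈ Icc 1 Q, 9 * (Z : ℝ) ^ 2 * (Q * a.divisors.card) := by
        refine sum_le_sum fun a ha => ?_
        rw [mem_Icc] at ha
        refine (WSQ_one (by omega) Z).trans ?_
        have h1 : (a : ℝ) ≤ Q := by exact_mod_cast ha.2
        gcongr
    _ = 9 * (Z : ℝ) ^ 2 * (Q * ∑ a ∈ Icc 1 Q, ((a.divisors.card : ℕ) : ℝ)) := by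
        rw [mul_sum, mul_sum]
    _ ≤ 9 * (Z : ℝ) ^ 2 * (Q * (Q * (1 + Real.log Q))) := by
        have := WSQ_tau Q
        gcongr
    _ = 9 * ((Z : ℝ) ^ 2 * (Q : ℝ) ^ 2 * (1 + Real.log Q)) := by ring
    _ ≤ 16 * ((Z : ℝ) ^ 2 * (Q : ℝ) ^ 2 * (1 + Real.log Q)) := by
        have : 0 ≤ (Z : ℝ) ^ 2 * (Q : ℝ) ^ 2 * (1 + Real.log Q) := by positivity
        linarith
    _ = _ := by ring

end Pool.Agent.HAV
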