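import Pool.Agent.HAV.RED1
import Pool.Agent.HAV.BDe
import Pool.Agent.HAV.WSQ
import Pool.Agent.helper10.BV.D8

/-!
# HAV-RED2: the weighted sum equals the main term up to `o(X²)`

PROOF.  `L = log X`, `Z = √X`, `Q = QQ X`.  By `W_eq`, `W - M = ∑_q log q ∑_a ∑_k (..)`.
(1) Terms with `gcd(rr, a) > 1`: a prime `p ≡ rr mod a` divides `a`, so each term is `≤ ∑_{p ∣ a} log p ≤ log a`; total `≤ Z L (Q+1)² L`.
(2) Coprime terms: `E(X) - E(min X m)`, `E(t) = θ(t;a,r) - t/φ(a)`.  Write `E = E' + [d ∣ a] g P/φ(a)` as in `bdh A D`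
(`A = 40`).  The exceptional part is `≤ ∑_q log q ∑_{a ≤ Q, d ∣ a} (a+1) 4X/φ(a) ≤ C X² (d/φ(d))/d ≤ C X²/√D`-small
(`∑_{m ≤ y} m/φ(m) ≤ C y`, `φ(d) → ∞`): less than `ε X²/2` for `D = D(ε)`.
(3) `∑_{q,a,k} log q |E'(X)|`: group by `b = rr a q k`: `≤ L ∑_a ∑_b w(b) |E'(b)| ≤ L (∑ w²)^(1/2) (∑ E'²)^(1/2)`, `wsq` and `bdh`:
`≤ L (C X² L)^(1/2) (C X²/L^A)^(1/2)`.
(4) `E'(min X m)`: grid `t_j = j H`, `H = ⌊X/L^8⌋ + 1`, `j ≤ X/H ≤ L^8`: replace `min X m` by the grid point below; the error for each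
`(q,a,k)` is `≤ L (H/a + 1) + H/φ(a) + 2·2X..`: NOTE the exceptional part must not be moved: use `E(t) - E(t_j)` with the full `E`
(`|θ(t) - θ(t_j)| ≤ L (H/a + 1)`), total `≤ Z L ∑_a (a+1) (2 L H/φ(a) + L) ≤ C Z L² (H Q L + Q²)`.  Then at the grid points
`∑_j ∑_{q,a,k} log q |E(t_j)|` with (2) and (3): for (2) do NOT sum over `j` (each `(q,a,k)` uses one `j`, and `|P t| ≤ 2x` for all `t`), for
(3) sum over all `j ≤ L^8` (nonnegative terms).
-/

set_option autoImplicit false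

open Finset Filter Topology
open BVM (psiAP psiCop thetaAP psiChi prim nonPrin)

namespace Pool.Agent.HAV

/-! ### Sums of `m/φ(m)` -/

private noncomputable def red2Phinv : ArithmeticFunction ℝ := ⟨fun n => 1 / (n.totient : ℝ), by simp⟩

private theorem red2Phinv_apply (n : ℕ) : red2Phinv n = 1 / (n.totient : ℝ) := rfl

private theorem red2Phinv_mult : red2Phinv.IsMultiplicative := by
  refine ⟨by simp [red2Phinv_apply], fun {m n} h => ?_⟩
  rw [red2Phinv_apply, red2Phinv_apply, red2Phinv_apply, Nat.totient_mul h]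
  push_cast
  rw [one_div, mul_inv, one_div, one_div]

private theorem red2_div_totient_le_sum (m : ℕ) (hm : 0 < m) :
    (m : ℝ) / m.totient ≤ ∑ d ∈ m.divisors, 1 / (d.totient : ℝ) := by
  have key : ∀ m : ℕ, 0 < m → (m : ℝ) / m.totient ≤ (red2Phinv * ArithmeticFunction.zeta) m := by
    intro m
    have hmul : (red2Phinv * (ArithmeticFunction.zeta : ArithmeticFunction ℝ)).IsMultiplicative :=
      red2Phinv_mult.mul ArithmeticFunction.isMultiplicative_zeta.natCast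
    induction m using Nat.recOnPosPrimePosCoprime with
    | prime_pow p n hp hn =>
      intro _
      rw [ArithmeticFunction.coe_mul_zeta_apply]
      have hsub : ({1, p} : Finset ℕ) ⊆ (p ^ n).divisors := by
        intro x hx
        rw [Nat.mem_divisors]
        refine ⟨?_, pow_ne_zero _ hp.ne_zero⟩
        rcases Finset.mem_insert.1 hx with rfl | hx
        · exact one_dvd _
        · rw [Finset.mem_singleton.1 hx]
          exact dvd_pow_self p hn.ne'
      have h1 : ∑ d ∈ ({1, p} : Finset ℕ), red2Phinv d ≤ ∑ d ∈ (p ^ n).divisors, red2Phinv d :=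
        Finset.sum_le_sum_of_subset_of_nonneg hsub fun d _ _ => by
          rw [red2Phinv_apply]
          positivity
      refine le_trans (le_of_eq ?_) h1
      rw [Finset.sum_pair hp.one_lt.ne, red2Phinv_apply, red2Phinv_apply, Nat.totient_one,
        Nat.totient_prime hp, Nat.totient_prime_pow hp hn]
      have h2 : (2 : ℝ) ≤ p := by exact_mod_cast hp.two_le
      have h3 : ((p - 1 : ℕ) : ℝ) = (p : ℝ) - 1 := by
        rw [Nat.cast_sub hp.one_le]
        simp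
      have h4 : (p : ℝ) - 1 ≠ 0 := by linarith
      have h5 : (p : ℝ) ≠ 0 := by linarith
      obtain ⟨k, rfl⟩ : ∃ k, n = k + 1 := ⟨n - 1, by omega⟩
      rw [Nat.add_sub_cancel]
      push_cast
      rw [h3]
      field_simp
      ring
    | zero => intro h; exact absurd h (lt_irrefl _)
    | one =>
      intro _
      rw [hmul.map_one]
      simp
    | coprime a b ha hb hab iha ihb =>
      intro _
      rw [hmul.map_mul_of_coprime hab, Nat.totient_mul hab]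
      have h1 := iha (by omega)
      have h2 := ihb (by omega)
      have h3 : ((a * b : ℕ) : ℝ) / ((a.totient * b.totient : ℕ) : ℝ) =
          ((a : ℝ) / a.totient) * ((b : ℝ) / b.totient) := by
        push_cast
        rw [mul_div_mul_comm]
      rw [h3]
      have h4 : (0 : ℝ) ≤ (a : ℝ) / a.totient := by positivity
      exact mul_le_mul h1 h2 (by positivity) (h4.trans h1)
  have h := key m hm
  rw [ArithmeticFunction.coe_mul_zeta_apply] at h
  exact h

private theorem red2_sum_C : ∃ C : ℝ, 0 ≤ C ∧ ∀ M : ℕ,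
    ∑ d ∈ Icc 1 M, 1 / (d.totient : ℝ) * (1 / (d : ℝ)) ≤ C := by
  have hsum : Summable fun d : ℕ => 9 * (1 / (d : ℝ) ^ ((3 : ℝ) / 2)) :=
    (Real.summable_one_div_nat_rpow.2 (by norm_num)).mul_left 9
  refine ⟨∑' d : ℕ, 9 * (1 / (d : ℝ) ^ ((3 : ℝ) / 2)), tsum_nonneg fun d => by positivity, ?_⟩
  intro M
  refine le_trans (Finset.sum_le_sum (fun d hd => ?_))
    (hsum.sum_le_tsum (Icc 1 M) (fun d _ => by positivity))
  rw [Finset.mem_Icc] at hd
  have hd0 : (0 : ℝ) < d := by exact_mod_cast hd.1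
  have hd1 : (1 : ℝ) ≤ d := by exact_mod_cast hd.1
  have h1 := BVM.div_totient_le (m := d) (by omega)
  have h2 : Real.log d ≤ 4 * (d : ℝ) ^ ((1 : ℝ) / 4) := by
    have := Real.log_le_rpow_div hd0.le (show (0 : ℝ) < 1 / 4 by norm_num)
    linarith
  have h3 : (d : ℝ) ^ ((1 : ℝ) / 4) ≤ (d : ℝ) ^ ((1 : ℝ) / 2) :=
    Real.rpow_le_rpow_of_exponent_le hd1 (by norm_num)
  have h4 : (1 : ℝ) ≤ (d : ℝ) ^ ((1 : ℝ) / 2) := Real.one_le_rpow hd1 (by norm_num)
  have h5 : (d : ℝ) / d.totient ≤ 9 * (d : ℝ) ^ ((1 : ℝ) / 2) := by linarith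
  have h6 : (d : ℝ) ^ ((3 : ℝ) / 2) * (d : ℝ) ^ ((1 : ℝ) / 2) = (d : ℝ) * d := by
    rw [← Real.rpow_add hd0]
    norm_num
    rw [sq]
  have hφ : (0 : ℝ) < d.totient := by exact_mod_cast Nat.totient_pos.2 hd.1
  have hr : (0 : ℝ) < (d : ℝ) ^ ((3 : ℝ) / 2) := Real.rpow_pos_of_pos hd0 _
  calc 1 / (d.totient : ℝ) * (1 / (d : ℝ)) = ((d : ℝ) / d.totient) / (d * d) := by
        field_simp
    _ ≤ (9 * (d : ℝ) ^ ((1 : ℝ) / 2)) / (d * d) := by gcongr
    _ = 9 * (1 / (d : ℝ) ^ ((3 : ℝ) / 2)) := by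
        rw [← h6]
        have : (0 : ℝ) < (d : ℝ) ^ ((1 : ℝ) / 2) := by linarith
        field_simp

/-- `∑_{m ≤ y} m/φ(m) ≤ C y`. -/
private theorem red2_sum_div : ∃ C : ℝ, 0 ≤ C ∧ ∀ y : ℕ,
    ∑ m ∈ Icc 1 y, (m : ℝ) / m.totient ≤ C * y := by
  obtain ⟨C, hC, hC1⟩ := red2_sum_C
  refine ⟨C, hC, fun y => ?_⟩
  have h1 : ∑ m ∈ Icc 1 y, (m : ℝ) / m.totient ≤
      ∑ m ∈ Icc 1 y, ∑ e ∈ Icc 1 y, (if e ∣ m then 1 / (e.totient : ℝ) else 0) := by
    refine Finset.sum_le_sum (fun m hm => ?_)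
    rw [Finset.mem_Icc] at hm
    refine (red2_div_totient_le_sum m (by omega)).trans ?_
    rw [← Finset.sum_filter]
    refine Finset.sum_le_sum_of_subset_of_nonneg ?_ (fun _ _ _ => by positivity)
    intro e he
    rw [Nat.mem_divisors] at he
    have h4 := Nat.le_of_dvd (by omega) he.1
    have h5 := Nat.pos_of_dvd_of_pos he.1 (by omega : 0 < m)
    rw [Finset.mem_filter, Finset.mem_Icc]
    exact ⟨⟨h5, by omega⟩, he.1⟩
  rw [Finset.sum_comm] at h1
  refine h1.trans ?_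
  have h2 : ∀ e ∈ Icc 1 y, ∑ m ∈ Icc 1 y, (if e ∣ m then 1 / (e.totient : ℝ) else 0) ≤
      (1 / (e.totient : ℝ) * (1 / (e : ℝ))) * y := by
    intro e he
    rw [Finset.mem_Icc] at he
    have he0 : (0 : ℝ) < e := by exact_mod_cast he.1
    rw [← Finset.sum_filter, Finset.sum_const, nsmul_eq_mul]
    have h3 : ((Icc 1 y).filter (fun m => e ∣ m)).card = y / e := by
      rw [← Nat.Ioc_filter_dvd_card_eq_div y e]
      congr 1
    rw [h3]
    have h4 : ((y / e : ℕ) : ℝ) ≤ (y : ℝ) / e := Nat.cast_div_le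
    have h5 : (0 : ℝ) ≤ 1 / (e.totient : ℝ) := by positivity
    calc ((y / e : ℕ) : ℝ) * (1 / (e.totient : ℝ)) ≤ ((y : ℝ) / e) * (1 / (e.totient : ℝ)) := by gcongr
      _ = _ := by ring
  refine (Finset.sum_le_sum h2).trans ?_
  rw [← Finset.sum_mul]
  exact mul_le_mul_of_nonneg_right (hC1 y) (Nat.cast_nonneg y)

/-- `∑_{a ≤ Q, d ∣ a} a/φ(a) ≤ C Q/φ(d)`. -/
private theorem red2_sum_div_dvd : ∃ C : ℝ, 0 ≤ C ∧ ∀ d Q : ℕ, 1 ≤ d →
    ∑ a ∈ Icc 1 Q, (if d ∣ a then (a : ℝ) / a.totient else 0) ≤ C * Q / d.totient := by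
  obtain ⟨C, hC, hC1⟩ := red2_sum_div
  refine ⟨C, hC, fun d Q hd => ?_⟩
  have hd0 : (0 : ℝ) < d := by exact_mod_cast hd
  have hφd : (0 : ℝ) < d.totient := by exact_mod_cast Nat.totient_pos.2 hd
  rw [← Finset.sum_filter]
  have hsub : (Icc 1 Q).filter (fun a => d ∣ a) ⊆ (Icc 1 (Q / d)).image (fun m => d * m) := by
    intro a ha
    rw [Finset.mem_filter, Finset.mem_Icc] at ha
    obtain ⟨⟨h1, h2⟩, m, rfl⟩ := ha
    rw [Finset.mem_image]
    refine ⟨m, ?_, rfl⟩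
    rw [Finset.mem_Icc]
    refine ⟨Nat.pos_of_ne_zero (by rintro rfl; simp at h1), ?_⟩
    rw [Nat.le_div_iff_mul_le (by omega)]
    rw [mul_comm]
    exact h2
  refine (Finset.sum_le_sum_of_subset_of_nonneg hsub (fun _ _ _ => by positivity)).trans ?_
  rw [Finset.sum_image (fun a _ b _ h => Nat.eq_of_mul_eq_mul_left (by omega) h)]
  have h3 : ∀ m ∈ Icc 1 (Q / d), ((d * m : ℕ) : ℝ) / ((d * m).totient : ℝ) ≤
      ((d : ℝ) / d.totient) * ((m : ℝ) / m.totient) := by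
    intro m hm
    rw [Finset.mem_Icc] at hm
    have hφm : (0 : ℝ) < m.totient := by exact_mod_cast Nat.totient_pos.2 hm.1
    have h4 : (d.totient : ℝ) * m.totient ≤ ((d * m).totient : ℝ) := by
      exact_mod_cast Nat.totient_super_multiplicative d m
    rw [div_mul_div_comm]
    push_cast
    gcongr
  refine (Finset.sum_le_sum h3).trans ?_
  rw [← Finset.mul_sum]
  have h5 : ((Q / d : ℕ) : ℝ) ≤ (Q : ℝ) / d := Nat.cast_div_le
  calc ((d : ℝ) / d.totient) * ∑ m ∈ Icc 1 (Q / d), (m : ℝ) / m.totient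
      ≤ ((d : ℝ) / d.totient) * (C * ((Q / d : ℕ) : ℝ)) := by
        gcongr
        exact hC1 _
    _ ≤ ((d : ℝ) / d.totient) * (C * ((Q : ℝ) / d)) := by gcongr
    _ = C * Q / d.totient := by
        field_simp

/-- `φ(d) → ∞`. -/
private theorem red2_phi_large (K : ℝ) : ∃ D : ℕ, ∀ d : ℕ, 1 ≤ d → D ≤ d → K ≤ d.totient := by
  refine ⟨⌈(5 * K) ^ 2⌉₊, fun d hd hD => ?_⟩
  rcases le_or_gt K 0 with hK | hK
  · exact hK.trans (Nat.cast_nonneg _)
  have hd0 : (0 : ℝ) < d := by exact_mod_cast hd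
  have hd1 : (1 : ℝ) ≤ d := by exact_mod_cast hd
  have hφd : (0 : ℝ) < d.totient := by exact_mod_cast Nat.totient_pos.2 hd
  have h1 := BVM.div_totient_le (m := d) (by omega)
  have h2 : Real.log d ≤ 2 * Real.sqrt d := by
    have := Real.log_le_rpow_div hd0.le (show (0 : ℝ) < 1 / 2 by norm_num)
    rw [Real.sqrt_eq_rpow]
    linarith
  have h3 : (1 : ℝ) ≤ Real.sqrt d := Real.one_le_sqrt.2 hd1
  have h4 : (d : ℝ) / d.totient ≤ 5 * Real.sqrt d := by linarith
  rw [div_le_iff₀ hφd] at h4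
  have h5 : (d : ℝ) = Real.sqrt d * Real.sqrt d := (Real.mul_self_sqrt hd0.le).symm
  have h6 : Real.sqrt d ≤ 5 * d.totient := by
    have h7 : Real.sqrt d * Real.sqrt d ≤ Real.sqrt d * (5 * d.totient) := by
      rw [← h5]
      linarith
    exact le_of_mul_le_mul_left h7 (by linarith)
  have h8 : 5 * K ≤ Real.sqrt d := by
    apply Real.le_sqrt_of_sq_le
    exact (Nat.le_ceil _).trans (by exact_mod_cast hD)
  linarith

/-! ### The function `θ(t; a, r)` -/

private theorem red2_card_ks (a : ℕ) : ((ks a).card : ℝ) ≤ a + 1 := by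
  classical
  have h : ks a ⊆ Icc (-((a / 2 : ℕ) : ℤ)) ((a / 2 : ℕ) : ℤ) := by
    intro k hk
    rw [ks, mem_filter] at hk
    have h2 := hk.2
    rw [mem_Icc]
    rcases abs_cases k with h3 | h3 <;> omega
  have h2 := card_le_card h
  rw [Int.card_Icc] at h2
  have h3 : (ks a).card ≤ a + 1 := by omega
  exact_mod_cast h3

private theorem red2_theta_nonneg (a r t : ℕ) : 0 ≤ thetaAP a r t := by
  unfold thetaAP
  refine Finset.sum_nonneg (fun p _ => Real.log_natCast_nonneg p)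

private theorem red2_theta_mono {a r s t : ℕ} (h : s ≤ t) : thetaAP a r s ≤ thetaAP a r t := by
  unfold thetaAP
  refine Finset.sum_le_sum_of_subset_of_nonneg ?_ (fun p _ _ => Real.log_natCast_nonneg p)
  intro p hp
  rw [mem_filter, mem_Icc] at hp ⊢
  exact ⟨⟨hp.1.1, hp.1.2.trans h⟩, hp.2⟩

open Classical in
private theorem red2_count {q a s t : ℕ} (hq : q ≠ 0) (hst : s ≤ t) :
    (((Ioc s t).filter (fun n => n ≡ a [MOD q])).card : ℝ) ≤ ((t : ℝ) - s) / q + 1 := by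
  have hq' : 0 < q := Nat.pos_of_ne_zero hq
  have h1 : ((((Ioc s t).filter (fun n => n ≡ a [MOD q])).card : ℕ) : ℤ) =
      max (⌊((t : ℚ) - a) / (q : ℚ)⌋ - ⌊((s : ℚ) - a) / (q : ℚ)⌋) 0 := by
    rw [← Nat.Ioc_filter_modEq_card s t hq' a]
  have hq0 : (0 : ℚ) < (q : ℚ) := by exact_mod_cast hq'
  have hst' : (s : ℚ) ≤ (t : ℚ) := by exact_mod_cast hst
  have h2 : ((((Ioc s t).filter (fun n => n ≡ a [MOD q])).card : ℕ) : ℚ) ≤
      ((t : ℚ) - s) / q + 1 := by
    have h3 : ((((Ioc s t).filter (fun n => n ≡ a [MOD q])).card : ℕ) : ℚ) =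
        ((max (⌊((t : ℚ) - a) / (q : ℚ)⌋ - ⌊((s : ℚ) - a) / (q : ℚ)⌋) 0 : ℤ) : ℚ) := by
      rw [← h1]
      push_cast
      rfl
    rw [h3, Int.cast_max]
    apply max_le
    · push_cast
      have h4 := Int.floor_le (((t : ℚ) - a) / (q : ℚ))
      have h5 := (Int.sub_one_lt_floor (((s : ℚ) - a) / (q : ℚ))).le
      have h6 : ((t : ℚ) - s) / q = ((t : ℚ) - a) / q - ((s : ℚ) - a) / q := by ring
      rw [h6]
      linarith
    · push_cast
      have : 0 ≤ ((t : ℚ) - s) / q := div_nonneg (by linarith) hq0.le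
      linarith
  have h7 : (((((Ioc s t).filter (fun n => n ≡ a [MOD q])).card : ℕ) : ℚ) : ℝ) ≤
      ((((t : ℚ) - s) / q + 1 : ℚ) : ℝ) := by exact_mod_cast h2
  push_cast at h7
  exact h7

private theorem red2_theta_sub {a r s t x H : ℕ} (ha : 1 ≤ a) (hst : s ≤ t) (htx : t ≤ x)
    (hH : t ≤ s + H) :
    thetaAP a r t - thetaAP a r s ≤ Real.log x * ((H : ℝ) / a + 1) := by
  classical
  have ha0 : (0 : ℝ) < a := by exact_mod_cast ha
  have h1 : thetaAP a r t ≤ thetaAP a r s +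
      ∑ p ∈ (Ioc s t).filter (fun p => p.Prime ∧ p ≡ r [MOD a]), Real.log p := by
    unfold thetaAP
    rw [← Finset.sum_union]
    · refine Finset.sum_le_sum_of_subset_of_nonneg ?_ (fun p _ _ => Real.log_natCast_nonneg p)
      intro p hp
      rw [mem_filter, mem_Icc] at hp
      rw [mem_union, mem_filter, mem_filter, mem_Icc, mem_Ioc]
      rcases le_or_gt p s with h | h
      · exact Or.inl ⟨⟨hp.1.1, h⟩, hp.2⟩
      · exact Or.inr ⟨⟨h, hp.1.2⟩, hp.2⟩
    · rw [Finset.disjoint_left]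
      intro p hp hp'
      rw [mem_filter, mem_Icc] at hp
      rw [mem_filter, mem_Ioc] at hp'
      omega
  have h2 : ∑ p ∈ (Ioc s t).filter (fun p => p.Prime ∧ p ≡ r [MOD a]), Real.log p ≤
      ∑ p ∈ (Ioc s t).filter (fun p => p ≡ r [MOD a]), Real.log x := by
    refine (Finset.sum_le_sum (fun p hp => ?_)).trans
      (Finset.sum_le_sum_of_subset_of_nonneg (f := fun _ => Real.log x) ?_ (fun p _ _ => Real.log_natCast_nonneg x))
    · rw [mem_filter, mem_Ioc] at hp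
      exact Real.log_le_log (by exact_mod_cast hp.2.1.pos) (by exact_mod_cast hp.1.2.trans htx)
    · intro p hp
      rw [mem_filter] at hp ⊢
      exact ⟨hp.1, hp.2.2⟩
  rw [Finset.sum_const, nsmul_eq_mul] at h2
  have h3 := red2_count (q := a) (a := r) (by omega) hst
  have h4 : ((t : ℝ) - s) / a ≤ (H : ℝ) / a := by
    have : (t : ℝ) ≤ s + H := by exact_mod_cast hH
    gcongr
    linarith
  have h5 : 0 ≤ Real.log (x : ℝ) := Real.log_natCast_nonneg x
  have h6 : (((Ioc s t).filter (fun n => n ≡ r [MOD a])).card : ℝ) * Real.log x ≤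
      ((H : ℝ) / a + 1) * Real.log x := by
    refine mul_le_mul_of_nonneg_right ?_ h5
    have h7 : (((Ioc s t).filter (fun n => n ≡ r [MOD a])).card : ℝ) ≤ ((t : ℝ) - s) / a + 1 := by
      convert h3
    linarith
  linarith

private theorem red2_theta_nc {a r : ℕ} (t : ℕ) (ha : 1 ≤ a) (h : ¬ r.Coprime a) :
    thetaAP a r t ≤ Real.log a := by
  classical
  have hsub : (Icc 1 t).filter (fun p => p.Prime ∧ p ≡ r [MOD a]) ⊆ a.primeFactors := by
    intro p hp
    rw [mem_filter] at hp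
    obtain ⟨_, hp1, hp2⟩ := hp
    rw [Nat.mem_primeFactors]
    refine ⟨hp1, ?_, by omega⟩
    by_contra hnd
    apply h
    have h1 : Nat.gcd p a = 1 := (Nat.Prime.coprime_iff_not_dvd hp1).2 hnd
    have h2 := hp2.gcd_eq
    rw [Nat.Coprime, ← h2]
    exact h1
  have hpos : 0 < ∏ p ∈ a.primeFactors, p :=
    Finset.prod_pos (fun p hp => (Nat.prime_of_mem_primeFactors hp).pos)
  calc thetaAP a r t ≤ ∑ p ∈ a.primeFactors, Real.log p := by
        unfold thetaAP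
        refine Finset.sum_le_sum_of_subset_of_nonneg ?_ (fun p _ _ => Real.log_natCast_nonneg p)
        intro p hp
        apply hsub
        rw [mem_filter] at hp ⊢
        exact hp
    _ = Real.log ((∏ p ∈ a.primeFactors, p : ℕ) : ℝ) := by
        push_cast
        rw [Real.log_prod]
        intro p hp
        exact_mod_cast (Nat.prime_of_mem_primeFactors hp).ne_zero
    _ ≤ Real.log a := by
        refine Real.log_le_log (by exact_mod_cast hpos) ?_
        exact_mod_cast Nat.le_of_dvd (by omega) (Nat.prod_primeFactors_dvd a)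

/-- Chebyshev's bound for the weights `log q`. -/
private theorem red2_cheb (Z : ℕ) : ∑ q ∈ pr Z, Real.log q ≤ 2 * (Z : ℝ) := by
  classical
  have h1 : ∑ q ∈ pr Z, Real.log q = Chebyshev.theta (Z : ℝ) := by
    unfold pr Chebyshev.theta
    rw [Nat.floor_natCast]
    refine Finset.sum_congr ?_ (fun _ _ => rfl)
    ext p
    simp only [mem_filter, mem_Icc, mem_Ioc]
    constructor
    · rintro ⟨⟨h2, h3⟩, h4⟩
      exact ⟨⟨by omega, h3⟩, h4⟩
    · rintro ⟨⟨h2, h3⟩, h4⟩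
      exact ⟨⟨by omega, h3⟩, h4⟩
  rw [h1]
  have h2 := Chebyshev.theta_le_log4_mul_x (x := (Z : ℝ)) (Nat.cast_nonneg Z)
  have h3 : Real.log 4 ≤ 2 := by
    have : Real.log 4 = 2 * Real.log 2 := by
      rw [show (4 : ℝ) = 2 ^ 2 by norm_num, Real.log_pow]
      norm_num
    have h5 := Real.log_two_lt_d9
    linarith
  have h4 : (0 : ℝ) ≤ Z := Nat.cast_nonneg Z
  nlinarith

/-! ### The bound for one term -/

open Classical in
/-- `E'(t; a, b)`. -/
private noncomputable def red2F (d : ℕ) (g P : ℕ → ℝ) (a b t : ℕ) : ℝ :=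
  thetaAP a b t - t / a.totient - (if d ∣ a then g b * P t / a.totient else 0)

private theorem red2_point {X H d a r m : ℕ} {g P : ℕ → ℝ} (ha : 1 ≤ a) (hH : 1 ≤ H)
    (hg : ∀ b, |g b| ≤ 1) (hP : ∀ t ≤ X, |P t| ≤ 2 * X) :
    |(thetaAP a r X - thetaAP a r (min X m)) - 1 / (a.totient : ℝ) * ((X : ℝ) - (min X m : ℕ))| ≤
      |red2F d g P a r X| + ∑ j ∈ range (X / H + 1), |red2F d g P a r (j * H)| +
      (if d ∣ a then 4 * (X : ℝ) / a.totient else 0) +
      (Real.log X * ((H : ℝ) / a + 1) + (H : ℝ) / a.totient) := by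
  classical
  have hφ : (0 : ℝ) < a.totient := by exact_mod_cast Nat.totient_pos.2 ha
  set t : ℕ := min X m with ht
  have htX : t ≤ X := min_le_left _ _
  set j : ℕ := t / H with hj
  set s : ℕ := j * H with hs
  have hst : s ≤ t := Nat.div_mul_le_self t H
  have hts : t ≤ s + H := by
    have h1 := Nat.div_add_mod t H
    have h2 := Nat.mod_lt t (show 0 < H by omega)
    have h3 : s = H * (t / H) := by rw [hs, hj, mul_comm]
    omega
  have hsX : s ≤ X := hst.trans htX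
  have hjJ : j ∈ range (X / H + 1) := by
    rw [mem_range]
    exact Nat.lt_succ_of_le (Nat.div_le_div_right htX)
  have hF : |red2F d g P a r s| ≤ ∑ j ∈ range (X / H + 1), |red2F d g P a r (j * H)| := by
    rw [hs]
    exact Finset.single_le_sum (f := fun j => |red2F d g P a r (j * H)|) (fun _ _ => abs_nonneg _) hjJ
  -- exceptional parts
  have hexc : ∀ u ≤ X, |(if d ∣ a then g r * P u / a.totient else 0 : ℝ)| ≤
      (if d ∣ a then 2 * (X : ℝ) / a.totient else 0) := by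
    intro u hu
    split_ifs with h
    · rw [abs_div, abs_mul, abs_of_pos hφ]
      have hm : |g r| * |P u| ≤ 2 * (X : ℝ) := by
        calc |g r| * |P u| ≤ 1 * (2 * X) := mul_le_mul (hg r) (hP u hu) (abs_nonneg _) (by norm_num)
          _ = 2 * X := one_mul _
      exact div_le_div_of_nonneg_right hm hφ.le
    · simp
  have h1 := hexc X le_rfl
  have h2 := hexc s hsX
  have hdbl : (if d ∣ a then 4 * (X : ℝ) / a.totient else 0 : ℝ) =
      (if d ∣ a then 2 * (X : ℝ) / a.totient else 0) + (if d ∣ a then 2 * (X : ℝ) / a.totient else 0) := by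
    split_ifs
    · ring
    · ring
  -- oscillation
  have h3 := red2_theta_sub (r := r) ha hst htX hts
  have h4 : 0 ≤ thetaAP a r t - thetaAP a r s := sub_nonneg.2 (red2_theta_mono hst)
  have h5 : 0 ≤ ((t : ℝ) - s) / a.totient := by
    have : (s : ℝ) ≤ t := by exact_mod_cast hst
    apply div_nonneg (by linarith) hφ.le
  have h6 : ((t : ℝ) - s) / a.totient ≤ (H : ℝ) / a.totient := by
    have : (t : ℝ) ≤ s + H := by exact_mod_cast hts
    gcongr
    linarith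
  have h7 : |(thetaAP a r t - thetaAP a r s) - ((t : ℝ) - s) / a.totient| ≤
      Real.log X * ((H : ℝ) / a + 1) + (H : ℝ) / a.totient := by
    rw [abs_le]
    constructor <;> linarith
  have hid : (thetaAP a r X - thetaAP a r t) - 1 / (a.totient : ℝ) * ((X : ℝ) - (t : ℕ)) =
      red2F d g P a r X + (if d ∣ a then g r * P X / a.totient else 0) -
      (red2F d g P a r s + (if d ∣ a then g r * P s / a.totient else 0)) -
      ((thetaAP a r t - thetaAP a r s) - ((t : ℝ) - s) / a.totient) := by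
    unfold red2F
    ring
  rw [hid, hdbl]
  have h8 := abs_sub (red2F d g P a r X + (if d ∣ a then g r * P X / a.totient else 0) -
      (red2F d g P a r s + (if d ∣ a then g r * P s / a.totient else 0)))
      ((thetaAP a r t - thetaAP a r s) - ((t : ℝ) - s) / a.totient)
  have h9 := abs_sub (red2F d g P a r X + (if d ∣ a then g r * P X / a.totient else 0))
      (red2F d g P a r s + (if d ∣ a then g r * P s / a.totient else 0))
  have h10 := abs_add_le (red2F d g P a r X) (if d ∣ a then g r * P X / a.totient else 0)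
  have h11 := abs_add_le (red2F d g P a r s) (if d ∣ a then g r * P s / a.totient else 0)
  linarith

/-! ### The sum of `|E'|` -/

private theorem red2_rr_lt {a q : ℕ} {k : ℤ} (ha : 1 ≤ a) : rr a q k < a := by
  have ha0 : (0 : ℤ) < a := by exact_mod_cast ha
  have h1 := Int.emod_lt_of_pos ((q : ℤ) ^ 2 - k ^ 2) ha0
  have h2 := Int.emod_nonneg ((q : ℤ) ^ 2 - k ^ 2) ha0.ne'
  unfold rr
  omega

open Classical in
private theorem red2_group {Z a : ℕ} {X : ℕ} (ha : 1 ≤ a) (hZX : Z ≤ X) (f : ℕ → ℝ) (hf : ∀ b, 0 ≤ f b) :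
    ∑ q ∈ pr Z, Real.log q * ∑ k ∈ (ks a).filter (fun k => (rr a q k).Coprime a), f (rr a q k) ≤
      Real.log X * ∑ b ∈ (range a).filter (Nat.Coprime a), w Z a b * f b := by
  have hL : 0 ≤ Real.log (X : ℝ) := Real.log_natCast_nonneg X
  set f' : ℕ → ℝ := fun b => if Nat.Coprime a b then f b else 0 with hf'
  have hf'0 : ∀ b, 0 ≤ f' b := by
    intro b
    rw [hf']
    dsimp only
    split_ifs
    · exact hf b
    · exact le_rfl
  have h1 : ∀ q ∈ pr Z, Real.log q * ∑ k ∈ (ks a).filter (fun k => (rr a q k).Coprime a), f (rr a q k) ≤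
      Real.log X * ∑ k ∈ ks a, f' (rr a q k) := by
    intro q hq
    rw [pr, mem_filter, mem_Icc] at hq
    have h2 : ∑ k ∈ (ks a).filter (fun k => (rr a q k).Coprime a), f (rr a q k) =
        ∑ k ∈ ks a, f' (rr a q k) := by
      rw [Finset.sum_filter]
      refine Finset.sum_congr rfl (fun k _ => ?_)
      rw [hf']
      dsimp only
      simp only [Nat.coprime_comm]
    rw [h2]
    refine mul_le_mul_of_nonneg_right ?_ (Finset.sum_nonneg (fun k _ => hf'0 _))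
    exact Real.log_le_log (by exact_mod_cast hq.1.1) (by exact_mod_cast hq.1.2.trans hZX)
  refine (Finset.sum_le_sum h1).trans ?_
  rw [← Finset.mul_sum]
  refine mul_le_mul_of_nonneg_left ?_ hL
  have h3 : ∑ q ∈ pr Z, ∑ k ∈ ks a, f' (rr a q k) ≤ ∑ q ∈ Icc 1 Z, ∑ k ∈ ks a, f' (rr a q k) := by
    refine Finset.sum_le_sum_of_subset_of_nonneg ?_ (fun q _ _ => Finset.sum_nonneg (fun k _ => hf'0 _))
    unfold pr
    exact Finset.filter_subset _ _
  refine h3.trans (le_of_eq ?_)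
  rw [← Finset.sum_product' (Icc 1 Z) (ks a) (fun q k => f' (rr a q k))]
  rw [← Finset.sum_fiberwise_of_maps_to (t := range a) (g := fun p : ℕ × ℤ => rr a p.1 p.2)
    (fun p _ => mem_range.2 (red2_rr_lt ha))]
  rw [Finset.sum_filter]
  refine Finset.sum_congr rfl (fun b _ => ?_)
  have h4 : ∑ p ∈ ((Icc 1 Z) ×ˢ (ks a)).filter (fun p : ℕ × ℤ => rr a p.1 p.2 = b), f' (rr a p.1 p.2) =
      ∑ p ∈ ((Icc 1 Z) ×ˢ (ks a)).filter (fun p : ℕ × ℤ => rr a p.1 p.2 = b), f' b := by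
    refine Finset.sum_congr rfl (fun p hp => ?_)
    rw [mem_filter] at hp
    rw [hp.2]
  rw [h4, Finset.sum_const, nsmul_eq_mul]
  unfold w
  rw [hf']
  dsimp only
  split_ifs
  · rfl
  · rw [mul_zero]

private theorem red2_CS {Z Q : ℕ} (f : ℕ → ℕ → ℝ) {B : ℝ}
    (hB : ∑ a ∈ Icc 1 Q, ∑ b ∈ (range a).filter (Nat.Coprime a), f a b ^ 2 ≤ B) :
    (∑ a ∈ Icc 1 Q, ∑ b ∈ (range a).filter (Nat.Coprime a), w Z a b * |f a b|) ^ 2 ≤
      (16 * (Z : ℝ) ^ 2 * (Q : ℝ) ^ 2 * (1 + Real.log Q)) * B := by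
  have h1 := wsq Z Q
  have h2 : ∑ a ∈ Icc 1 Q, ∑ b ∈ (range a).filter (Nat.Coprime a), w Z a b ^ 2 ≤
      16 * (Z : ℝ) ^ 2 * (Q : ℝ) ^ 2 * (1 + Real.log Q) := by
    refine le_trans (Finset.sum_le_sum (fun a _ => ?_)) h1
    exact Finset.sum_le_sum_of_subset_of_nonneg (Finset.filter_subset _ _) (fun _ _ _ => sq_nonneg _)
  have h3 : (∑ a ∈ Icc 1 Q, ∑ b ∈ (range a).filter (Nat.Coprime a), w Z a b * |f a b|) ^ 2 ≤
      (∑ a ∈ Icc 1 Q, ∑ b ∈ (range a).filter (Nat.Coprime a), w Z a b ^ 2) *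
      (∑ a ∈ Icc 1 Q, ∑ b ∈ (range a).filter (Nat.Coprime a), f a b ^ 2) := by
    rw [Finset.sum_sigma', Finset.sum_sigma', Finset.sum_sigma']
    have h4 := Finset.sum_mul_sq_le_sq_mul_sq
      ((Icc 1 Q).sigma (fun a => (range a).filter (Nat.Coprime a)))
      (fun p => w Z p.1 p.2) (fun p => |f p.1 p.2|)
    simp only [sq_abs] at h4
    exact h4
  refine h3.trans ?_
  have h5 : 0 ≤ ∑ a ∈ Icc 1 Q, ∑ b ∈ (range a).filter (Nat.Coprime a), f a b ^ 2 :=
    Finset.sum_nonneg (fun _ _ => Finset.sum_nonneg (fun _ _ => sq_nonneg _))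
  have h6 : 0 ≤ 16 * (Z : ℝ) ^ 2 * (Q : ℝ) ^ 2 * (1 + Real.log Q) := by
    have := Real.log_natCast_nonneg Q
    positivity
  exact mul_le_mul h2 hB h5 h6

open Classical in
/-- `V(t)`. -/
private noncomputable def red2V (Z Q d : ℕ) (g P : ℕ → ℝ) (t : ℕ) : ℝ :=
  ∑ a ∈ Icc 1 Q, ∑ q ∈ pr Z, Real.log q *
    ∑ k ∈ (ks a).filter (fun k => (rr a q k).Coprime a), |red2F d g P a (rr a q k) t|

open Classical in
/-- `U(a)`. -/
private noncomputable def red2U (X H d a : ℕ) : ℝ :=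
  Real.log X + (if d ∣ a then 4 * (X : ℝ) / a.totient else 0) +
    (Real.log X * ((H : ℝ) / a + 1) + (H : ℝ) / a.totient)

private theorem red2U_nonneg (X H d a : ℕ) : 0 ≤ red2U X H d a := by
  have := Real.log_natCast_nonneg X
  unfold red2U
  split_ifs <;> positivity

open Classical in
private theorem red2_inner {X H d a q : ℕ} {g P : ℕ → ℝ} (ha : 1 ≤ a) (haX : a ≤ X) (hH : 1 ≤ H)
    (hg : ∀ b, |g b| ≤ 1) (hP : ∀ t ≤ X, |P t| ≤ 2 * X) :
    |(∑ k ∈ ks a, (thetaAP a (rr a q k) X - thetaAP a (rr a q k) (min X (mm a q k)))) -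
      ∑ k ∈ (ks a).filter (fun k => (rr a q k).Coprime a),
        (1 / (a.totient : ℝ)) * ((X : ℝ) - (min X (mm a q k) : ℕ))| ≤
      (∑ k ∈ (ks a).filter (fun k => (rr a q k).Coprime a), |red2F d g P a (rr a q k) X|) +
      (∑ j ∈ range (X / H + 1),
        ∑ k ∈ (ks a).filter (fun k => (rr a q k).Coprime a), |red2F d g P a (rr a q k) (j * H)|) +
      ((a : ℝ) + 1) * red2U X H d a := by
  have hL : 0 ≤ Real.log (X : ℝ) := Real.log_natCast_nonneg X
  rw [Finset.sum_comm (s := range (X / H + 1))]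
  rw [Finset.sum_filter, Finset.sum_filter, Finset.sum_filter, ← Finset.sum_sub_distrib]
  have h1 : ∀ k ∈ ks a, |(thetaAP a (rr a q k) X - thetaAP a (rr a q k) (min X (mm a q k))) -
      (if (rr a q k).Coprime a then (1 / (a.totient : ℝ)) * ((X : ℝ) - (min X (mm a q k) : ℕ)) else 0)| ≤
      (if (rr a q k).Coprime a then |red2F d g P a (rr a q k) X| else 0) +
      (if (rr a q k).Coprime a then ∑ j ∈ range (X / H + 1), |red2F d g P a (rr a q k) (j * H)| else 0) +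
      red2U X H d a := by
    intro k _
    have hU2 : (0 : ℝ) ≤ (if d ∣ a then 4 * (X : ℝ) / a.totient else 0) := by
      split_ifs <;> positivity
    have hU3 : (0 : ℝ) ≤ Real.log X * ((H : ℝ) / a + 1) + (H : ℝ) / a.totient := by positivity
    by_cases hc : (rr a q k).Coprime a
    · rw [if_pos hc, if_pos hc, if_pos hc]
      have h2 := red2_point (r := rr a q k) (m := mm a q k) (d := d) ha hH hg hP
      unfold red2U
      linarith
    · rw [if_neg hc, if_neg hc, if_neg hc, sub_zero, zero_add, zero_add]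
      have h3 := red2_theta_nc X ha hc
      have h4 := red2_theta_nonneg a (rr a q k) (min X (mm a q k))
      have h5 : thetaAP a (rr a q k) (min X (mm a q k)) ≤ thetaAP a (rr a q k) X :=
        red2_theta_mono (min_le_left _ _)
      have h6 : Real.log (a : ℝ) ≤ Real.log X :=
        Real.log_le_log (by exact_mod_cast ha) (by exact_mod_cast haX)
      rw [abs_of_nonneg (by linarith)]
      unfold red2U
      linarith
  refine (Finset.abs_sum_le_sum_abs _ _).trans ?_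
  refine (Finset.sum_le_sum h1).trans ?_
  rw [Finset.sum_add_distrib, Finset.sum_add_distrib, Finset.sum_const, nsmul_eq_mul]
  have h7 := mul_le_mul_of_nonneg_right (red2_card_ks a) (red2U_nonneg X H d a)
  linarith

open Classical in
private theorem red2_main {X H d : ℕ} {g P : ℕ → ℝ} (hQX : QQ X ≤ X) (hH : 1 ≤ H)
    (hg : ∀ b, |g b| ≤ 1) (hP : ∀ t ≤ X, |P t| ≤ 2 * X) :
    |W X - M X| ≤ red2V (Nat.sqrt X) (QQ X) d g P X +
      (∑ j ∈ range (X / H + 1), red2V (Nat.sqrt X) (QQ X) d g P (j * H)) +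
      (∑ q ∈ pr (Nat.sqrt X), Real.log q) * ∑ a ∈ Icc 1 (QQ X), ((a : ℝ) + 1) * red2U X H d a := by
  rw [W_eq, M, ← Finset.sum_sub_distrib]
  have h1 : ∀ q ∈ pr (Nat.sqrt X), |Real.log q * (∑ a ∈ Icc 1 (QQ X), ∑ k ∈ ks a,
      (thetaAP a (rr a q k) X - thetaAP a (rr a q k) (min X (mm a q k)))) -
      Real.log q * ∑ a ∈ Icc 1 (QQ X), ∑ k ∈ (ks a).filter (fun k => (rr a q k).Coprime a),
        (1 / (a.totient : ℝ)) * ((X : ℝ) - (min X (mm a q k) : ℕ))| ≤
      (∑ a ∈ Icc 1 (QQ X), Real.log q *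
        ∑ k ∈ (ks a).filter (fun k => (rr a q k).Coprime a), |red2F d g P a (rr a q k) X|) +
      (∑ j ∈ range (X / H + 1), ∑ a ∈ Icc 1 (QQ X), Real.log q *
        ∑ k ∈ (ks a).filter (fun k => (rr a q k).Coprime a), |red2F d g P a (rr a q k) (j * H)|) +
      Real.log q * ∑ a ∈ Icc 1 (QQ X), ((a : ℝ) + 1) * red2U X H d a := by
    intro q _
    have hq : 0 ≤ Real.log (q : ℝ) := Real.log_natCast_nonneg q
    rw [← mul_sub, abs_mul, abs_of_nonneg hq, ← Finset.sum_sub_distrib]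
    have h2 : |∑ a ∈ Icc 1 (QQ X), ((∑ k ∈ ks a,
      (thetaAP a (rr a q k) X - thetaAP a (rr a q k) (min X (mm a q k)))) -
      ∑ k ∈ (ks a).filter (fun k => (rr a q k).Coprime a),
        (1 / (a.totient : ℝ)) * ((X : ℝ) - (min X (mm a q k) : ℕ)))| ≤
      ∑ a ∈ Icc 1 (QQ X), ((∑ k ∈ (ks a).filter (fun k => (rr a q k).Coprime a), |red2F d g P a (rr a q k) X|) +
        (∑ j ∈ range (X / H + 1),
          ∑ k ∈ (ks a).filter (fun k => (rr a q k).Coprime a), |red2F d g P a (rr a q k) (j * H)|) +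
        ((a : ℝ) + 1) * red2U X H d a) := by
      refine (Finset.abs_sum_le_sum_abs _ _).trans (Finset.sum_le_sum (fun a ha => ?_))
      rw [mem_Icc] at ha
      exact red2_inner ha.1 (ha.2.trans hQX) hH hg hP
    refine (mul_le_mul_of_nonneg_left h2 hq).trans (le_of_eq ?_)
    rw [Finset.sum_add_distrib, Finset.sum_add_distrib, mul_add, mul_add, Finset.mul_sum, Finset.mul_sum,
      Finset.sum_comm (s := range (X / H + 1))]
    congr 2
    refine Finset.sum_congr rfl (fun a _ => ?_)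
    rw [Finset.mul_sum]
  refine (Finset.abs_sum_le_sum_abs _ _).trans ((Finset.sum_le_sum h1).trans (le_of_eq ?_))
  rw [Finset.sum_add_distrib, Finset.sum_add_distrib, Finset.sum_comm, Finset.sum_mul]
  congr 2
  rw [Finset.sum_comm]
  refine Finset.sum_congr rfl (fun j _ => ?_)
  rw [Finset.sum_comm]
  rfl

/-! ### Numerics -/

private theorem red2_bounds {X : ℕ} (hX : 16 ≤ X) :
    ((Nat.sqrt X : ℕ) : ℝ) ≤ √(X : ℝ) ∧ (QQ X : ℝ) ≤ 4 * √(X : ℝ) ∧ QQ X ≤ X ∧ 4 ≤ √(X : ℝ) ∧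
      1 ≤ Real.log X := by
  have hX' : (16 : ℝ) ≤ X := by exact_mod_cast hX
  have h1 : ((Nat.sqrt X : ℕ) : ℝ) ≤ √(X : ℝ) := Real.nat_sqrt_le_real_sqrt
  have h4 : 4 ≤ √(X : ℝ) := by
    apply Real.le_sqrt_of_sq_le
    norm_num
    exact hX
  have h2 : (QQ X : ℝ) ≤ 4 * √(X : ℝ) := by
    unfold QQ
    push_cast
    linarith
  have h3 : QQ X ≤ X := by
    have h5 : (QQ X : ℝ) ≤ X := by
      have h6 : √(X : ℝ) * √(X : ℝ) = X := Real.mul_self_sqrt (by linarith)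
      nlinarith
    exact_mod_cast h5
  exact ⟨h1, h2, h3, h4, BVM.one_le_log (by linarith)⟩

open Classical in
private theorem red2_V_le {X d t : ℕ} {g P : ℕ → ℝ} {C : ℝ} (hX : 16 ≤ X) (hC : 0 ≤ C)
    (hB : ∑ a ∈ Icc 1 (QQ X), ∑ b ∈ (range a).filter (Nat.Coprime a),
      (thetaAP a b t - t / a.totient - (if d ∣ a then g b * P t / a.totient else 0)) ^ 2 ≤
        C * (X : ℝ) ^ 2 / Real.log X ^ 40) :
    red2V (Nat.sqrt X) (QQ X) d g P t ≤ √(512 * C) * (X : ℝ) ^ 2 / Real.log X ^ 18 := by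
  obtain ⟨hZ, hQ, hQX, hs4, hL1⟩ := red2_bounds hX
  have hX' : (16 : ℝ) ≤ X := by exact_mod_cast hX
  set L : ℝ := Real.log X with hL
  have hL0 : 0 < L := by linarith
  set S : ℝ := ∑ a ∈ Icc 1 (QQ X), ∑ b ∈ (range a).filter (Nat.Coprime a),
    w (Nat.sqrt X) a b * |red2F d g P a b t| with hS
  have hV : red2V (Nat.sqrt X) (QQ X) d g P t ≤ L * S := by
    unfold red2V
    rw [hS, Finset.mul_sum]
    refine Finset.sum_le_sum (fun a ha => ?_)
    rw [mem_Icc] at ha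
    have h1 := red2_group (Z := Nat.sqrt X) (a := a) (X := X) ha.1 (Nat.sqrt_le_self X)
      (fun b => |red2F d g P a b t|) (fun _ => abs_nonneg _)
    exact h1
  have hS2 := red2_CS (Z := Nat.sqrt X) (Q := QQ X) (fun a b => red2F d g P a b t) hB
  rw [← hS] at hS2
  have hZ0 : (0 : ℝ) ≤ (Nat.sqrt X : ℕ) := Nat.cast_nonneg _
  have hQ0 : (0 : ℝ) ≤ (QQ X : ℕ) := Nat.cast_nonneg _
  have hss : √(X : ℝ) ^ 2 = X := Real.sq_sqrt (by linarith)
  have hZ2 : ((Nat.sqrt X : ℕ) : ℝ) ^ 2 ≤ X := by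
    calc ((Nat.sqrt X : ℕ) : ℝ) ^ 2 ≤ √(X : ℝ) ^ 2 := by gcongr
      _ = (X : ℝ) := hss
  have hQ2 : ((QQ X : ℕ) : ℝ) ^ 2 ≤ 16 * X := by
    calc ((QQ X : ℕ) : ℝ) ^ 2 ≤ (4 * √(X : ℝ)) ^ 2 := by gcongr
      _ = 16 * (X : ℝ) := by rw [mul_pow, hss]; norm_num
  have hlogQ : Real.log (QQ X : ℕ) ≤ L := by
    refine Real.log_le_log ?_ (by exact_mod_cast hQX)
    have : 1 ≤ QQ X := by unfold QQ; omega
    exact_mod_cast this
  have h2 : 16 * ((Nat.sqrt X : ℕ) : ℝ) ^ 2 * ((QQ X : ℕ) : ℝ) ^ 2 * (1 + Real.log (QQ X : ℕ)) ≤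
      512 * (X : ℝ) ^ 2 * L := by
    have h3 : 1 + Real.log (QQ X : ℕ) ≤ 2 * L := by linarith
    have h4 : 0 ≤ 1 + Real.log (QQ X : ℕ) := by
      have := Real.log_natCast_nonneg (QQ X)
      linarith
    calc 16 * ((Nat.sqrt X : ℕ) : ℝ) ^ 2 * ((QQ X : ℕ) : ℝ) ^ 2 * (1 + Real.log (QQ X : ℕ))
        ≤ 16 * (X : ℝ) * (16 * X) * (2 * L) := by gcongr
      _ = 512 * (X : ℝ) ^ 2 * L := by ring
  have h5 : S ^ 2 ≤ (√(512 * C) * (X : ℝ) ^ 2 / L ^ 19) ^ 2 := by
    refine hS2.trans ?_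
    have h6 : 0 ≤ C * (X : ℝ) ^ 2 / L ^ 40 := by positivity
    calc (16 * ((Nat.sqrt X : ℕ) : ℝ) ^ 2 * ((QQ X : ℕ) : ℝ) ^ 2 * (1 + Real.log (QQ X : ℕ))) *
          (C * (X : ℝ) ^ 2 / L ^ 40) ≤ (512 * (X : ℝ) ^ 2 * L) * (C * (X : ℝ) ^ 2 / L ^ 40) := by gcongr
      _ = 512 * C * (X : ℝ) ^ 4 / L ^ 39 := by
          field_simp
      _ ≤ 512 * C * (X : ℝ) ^ 4 / L ^ 38 := by
          have : L ^ 38 ≤ L ^ 39 := pow_le_pow_right₀ hL1 (by norm_num)
          gcongr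
      _ = (√(512 * C) * (X : ℝ) ^ 2 / L ^ 19) ^ 2 := by
          rw [div_pow, mul_pow, Real.sq_sqrt (by positivity)]
          ring
  have h7 : S ≤ √(512 * C) * (X : ℝ) ^ 2 / L ^ 19 := by
    refine le_of_sq_le_sq h5 (by positivity)
  calc red2V (Nat.sqrt X) (QQ X) d g P t ≤ L * S := hV
    _ ≤ L * (√(512 * C) * (X : ℝ) ^ 2 / L ^ 19) := by gcongr
    _ = √(512 * C) * (X : ℝ) ^ 2 / L ^ 18 := by
        field_simp

open Classical in
private theorem red2_U_le {X H d : ℕ} {C : ℝ} (hX : 16 ≤ X) (hC : 0 ≤ C) (hd : 1 ≤ d)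
    (hdiv : ∑ a ∈ Icc 1 (QQ X), (if d ∣ a then (a : ℝ) / a.totient else 0) ≤ C * (QQ X : ℕ) / d.totient) :
    (∑ q ∈ pr (Nat.sqrt X), Real.log q) * ∑ a ∈ Icc 1 (QQ X), ((a : ℝ) + 1) * red2U X H d a ≤
      64 * C * (X : ℝ) ^ 2 / d.totient + 64 * X * Real.log X * H + 80 * X * √(X : ℝ) * Real.log X := by
  obtain ⟨hZ, hQ, hQX, hs4, hL1⟩ := red2_bounds hX
  have hX' : (16 : ℝ) ≤ X := by exact_mod_cast hX
  set L : ℝ := Real.log X with hL
  set s : ℝ := √(X : ℝ) with hs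
  have hL0 : 0 < L := by linarith
  have hss : s * s = X := Real.mul_self_sqrt (by linarith)
  have hφd : (0 : ℝ) < d.totient := by exact_mod_cast Nat.totient_pos.2 hd
  have hH0 : (0 : ℝ) ≤ H := Nat.cast_nonneg _
  have h1 : ∀ a ∈ Icc 1 (QQ X), ((a : ℝ) + 1) * red2U X H d a ≤
      8 * X * (if d ∣ a then (a : ℝ) / a.totient else 0) + L * (8 * H + 10 * s) := by
    intro a ha
    rw [mem_Icc] at ha
    have ha1 : (1 : ℝ) ≤ a := by exact_mod_cast ha.1
    have ha0 : (0 : ℝ) < a := by linarith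
    have haQ : (a : ℝ) ≤ QQ X := by exact_mod_cast ha.2
    have haX : (a : ℝ) ≤ X := by exact_mod_cast ha.2.trans hQX
    have hφ : (0 : ℝ) < a.totient := by exact_mod_cast Nat.totient_pos.2 ha.1
    have h2 := BVM.div_totient_le (m := a) (by omega)
    have h3 : Real.log (a : ℝ) ≤ L := Real.log_le_log ha0 haX
    have h4 : (a : ℝ) / a.totient ≤ 3 * L := by linarith
    have h5 : (a : ℝ) + 1 ≤ 5 * s := by linarith
    have h6 : ((a : ℝ) + 1) * ((H : ℝ) / a) ≤ 2 * H := by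
      calc ((a : ℝ) + 1) * ((H : ℝ) / a) ≤ (2 * a) * ((H : ℝ) / a) := by
            gcongr
            linarith
        _ = 2 * H := by field_simp
    have h7 : ((a : ℝ) + 1) * ((H : ℝ) / a.totient) ≤ 6 * L * H := by
      calc ((a : ℝ) + 1) * ((H : ℝ) / a.totient) ≤ (2 * a) * ((H : ℝ) / a.totient) := by
            gcongr
            linarith
        _ = 2 * H * ((a : ℝ) / a.totient) := by ring
        _ ≤ 2 * H * (3 * L) := by gcongr
        _ = 6 * L * H := by ring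
    have h8 : ((a : ℝ) + 1) * (if d ∣ a then 4 * (X : ℝ) / a.totient else 0) ≤
        8 * X * (if d ∣ a then (a : ℝ) / a.totient else 0) := by
      split_ifs with h
      · calc ((a : ℝ) + 1) * (4 * (X : ℝ) / a.totient) ≤ (2 * a) * (4 * (X : ℝ) / a.totient) := by
              gcongr
              linarith
          _ = 8 * X * ((a : ℝ) / a.totient) := by ring
      · simp
    have h9 : ((a : ℝ) + 1) * L ≤ 5 * s * L := by gcongr
    have h10 : ((a : ℝ) + 1) * ((H : ℝ) / a) * L ≤ 2 * H * L := by gcongr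
    have h11 : ((a : ℝ) + 1) * red2U X H d a = ((a : ℝ) + 1) * L +
        ((a : ℝ) + 1) * (if d ∣ a then 4 * (X : ℝ) / a.totient else 0) +
        (((a : ℝ) + 1) * ((H : ℝ) / a) * L + ((a : ℝ) + 1) * L + ((a : ℝ) + 1) * ((H : ℝ) / a.totient)) := by
      unfold red2U
      rw [← hL]
      ring
    rw [h11]
    have h12 : L * (8 * H + 10 * s) = 2 * H * L + 6 * L * H + 5 * s * L + 5 * s * L := by ring
    rw [h12]
    linarith
  have h2 : ∑ a ∈ Icc 1 (QQ X), ((a : ℝ) + 1) * red2U X H d a ≤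
      32 * C * X * s / d.totient + 4 * s * (L * (8 * H + 10 * s)) := by
    refine (Finset.sum_le_sum h1).trans ?_
    rw [Finset.sum_add_distrib, ← Finset.mul_sum, Finset.sum_const, nsmul_eq_mul, Nat.card_Icc,
      Nat.add_sub_cancel]
    have h3 : 8 * (X : ℝ) * ∑ a ∈ Icc 1 (QQ X), (if d ∣ a then (a : ℝ) / a.totient else 0) ≤
        32 * C * X * s / d.totient := by
      calc 8 * (X : ℝ) * ∑ a ∈ Icc 1 (QQ X), (if d ∣ a then (a : ℝ) / a.totient else 0)
          ≤ 8 * (X : ℝ) * (C * (QQ X : ℕ) / d.totient) := by gcongr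
        _ ≤ 8 * (X : ℝ) * (C * (4 * s) / d.totient) := by gcongr
        _ = 32 * C * X * s / d.totient := by ring
    have h4 : ((QQ X : ℕ) : ℝ) * (L * (8 * H + 10 * s)) ≤ 4 * s * (L * (8 * H + 10 * s)) := by
      have : 0 ≤ L * (8 * H + 10 * s) := by positivity
      gcongr
    linarith
  have h3 := red2_cheb (Nat.sqrt X)
  have h4 : ∑ q ∈ pr (Nat.sqrt X), Real.log q ≤ 2 * s := by linarith
  have h5 : 0 ≤ ∑ a ∈ Icc 1 (QQ X), ((a : ℝ) + 1) * red2U X H d a :=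
    Finset.sum_nonneg (fun a _ => mul_nonneg (by positivity) (red2U_nonneg X H d a))
  have h6 : 0 ≤ 2 * s := by positivity
  calc (∑ q ∈ pr (Nat.sqrt X), Real.log q) * ∑ a ∈ Icc 1 (QQ X), ((a : ℝ) + 1) * red2U X H d a
      ≤ (2 * s) * (32 * C * X * s / d.totient + 4 * s * (L * (8 * H + 10 * s))) :=
        mul_le_mul h4 h2 h5 h6
    _ = 64 * C * X * (s * s) / d.totient + 64 * (s * s) * L * H + 80 * (s * s) * s * L := by ring
    _ = 64 * C * (X : ℝ) ^ 2 / d.totient + 64 * X * L * H + 80 * X * s * L := by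
        rw [hss]
        ring

theorem red2 : ∀ ε : ℝ, 0 < ε → ∃ X₀ : ℕ, ∀ X : ℕ, X₀ ≤ X → |W X - M X| ≤ ε * (X : ℝ) ^ 2 := by
  classical
  intro ε hε
  obtain ⟨C2, hC2, hdiv⟩ := red2_sum_div_dvd
  obtain ⟨D, hD⟩ := red2_phi_large (128 * C2 / ε)
  obtain ⟨Cb, hCb, x0, hb⟩ := bdh 40 D
  obtain ⟨C1, hC1, hC1'⟩ := BVM.exists_log_pow_mul_rpow_le' 2 1 (θ := 1 / 2) (by norm_num)
  set K : ℝ := 64 + 144 * C1 + 3 * √(512 * Cb) with hK
  have hK0 : 0 ≤ K := by positivity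
  have hev : ∀ᶠ X : ℕ in atTop, 2 * K / ε ≤ Real.log X :=
    (Real.tendsto_log_atTop.comp tendsto_natCast_atTop_atTop).eventually_ge_atTop _
  obtain ⟨x1, hx1⟩ := eventually_atTop.1 hev
  refine ⟨max x0 (max x1 16), fun X hX => ?_⟩
  have hX0 : x0 ≤ X := (le_max_left _ _).trans hX
  have hX1 : x1 ≤ X := (le_max_left _ _).trans ((le_max_right _ _).trans hX)
  have hX16 : 16 ≤ X := (le_max_right _ _).trans ((le_max_right _ _).trans hX)
  obtain ⟨hZ, hQ, hQX, hs4, hL1⟩ := red2_bounds hX16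
  have hX' : (16 : ℝ) ≤ X := by exact_mod_cast hX16
  have hLK := hx1 X hX1
  obtain ⟨d, g, P, hd1, hdD, hg, hP, hbd⟩ := hb X hX0
  set L : ℝ := Real.log X with hL
  have hL0 : 0 < L := by linarith
  set s : ℝ := √(X : ℝ) with hs
  set H : ℕ := ⌊(X : ℝ) / L ^ 8⌋₊ + 1 with hH
  have hH1 : 1 ≤ H := by omega
  have hHle : (H : ℝ) ≤ X / L ^ 8 + 1 := by
    rw [hH]
    push_cast
    have := Nat.floor_le (show 0 ≤ (X : ℝ) / L ^ 8 by positivity)
    linarith
  have hHge : (X : ℝ) / L ^ 8 < H := by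
    rw [hH]
    push_cast
    exact Nat.lt_floor_add_one _
  have hJ : ((X / H : ℕ) : ℝ) ≤ L ^ 8 := by
    refine (Nat.cast_div_le).trans ?_
    have hH0 : (0 : ℝ) < H := by exact_mod_cast hH1
    rw [div_le_iff₀ hH0]
    rw [div_lt_iff₀ (by positivity)] at hHge
    linarith
  have hmain := red2_main (d := d) (g := g) (P := P) hQX hH1 hg hP
  have hV : ∀ t ≤ X, red2V (Nat.sqrt X) (QQ X) d g P t ≤ √(512 * Cb) * (X : ℝ) ^ 2 / L ^ 18 := by
    intro t ht
    exact red2_V_le hX16 hCb (hbd t ht (QQ X) le_rfl)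
  have hV1 := hV X le_rfl
  have hV2 : ∑ j ∈ range (X / H + 1), red2V (Nat.sqrt X) (QQ X) d g P (j * H) ≤
      (L ^ 8 + 1) * (√(512 * Cb) * (X : ℝ) ^ 2 / L ^ 18) := by
    have h1 : ∀ j ∈ range (X / H + 1), red2V (Nat.sqrt X) (QQ X) d g P (j * H) ≤
        √(512 * Cb) * (X : ℝ) ^ 2 / L ^ 18 := by
      intro j hj
      rw [mem_range] at hj
      apply hV
      exact (Nat.mul_le_mul_right H (by omega : j ≤ X / H)).trans (Nat.div_mul_le_self X H)
    refine (Finset.sum_le_sum h1).trans ?_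
    rw [Finset.sum_const, nsmul_eq_mul, card_range]
    push_cast
    gcongr
  have hU := red2_U_le (H := H) hX16 hC2 hd1 (hdiv d (QQ X) hd1)
  have hLs : L ^ 2 * s ≤ C1 * X / L := by
    have h1 := hC1' (X : ℝ) (by linarith)
    rw [pow_one] at h1
    rw [hs, Real.sqrt_eq_rpow]
    exact h1
  -- the pieces
  have hp1 : (1 + (L ^ 8 + 1)) * (√(512 * Cb) * (X : ℝ) ^ 2 / L ^ 18) ≤ 3 * √(512 * Cb) * (X : ℝ) ^ 2 / L := by
    have h1 : (1 : ℝ) ≤ L ^ 8 := one_le_pow₀ hL1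
    have h2 : L ^ 8 / L ^ 18 ≤ 1 / L := by
      rw [div_le_div_iff₀ (by positivity) hL0]
      calc L ^ 8 * L = L ^ 9 := by ring
        _ ≤ L ^ 18 := pow_le_pow_right₀ hL1 (by norm_num)
        _ = 1 * L ^ 18 := by ring
    calc (1 + (L ^ 8 + 1)) * (√(512 * Cb) * (X : ℝ) ^ 2 / L ^ 18)
        ≤ (3 * L ^ 8) * (√(512 * Cb) * (X : ℝ) ^ 2 / L ^ 18) := by
          gcongr
          linarith
      _ = 3 * √(512 * Cb) * (X : ℝ) ^ 2 * (L ^ 8 / L ^ 18) := by ring
      _ ≤ 3 * √(512 * Cb) * (X : ℝ) ^ 2 * (1 / L) := by gcongr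
      _ = _ := by ring
  have hs1 : 1 ≤ s := by linarith
  have hLL : L ≤ L ^ 2 * s := by
    calc L = L * 1 * 1 := by ring
      _ ≤ L * L * s := by gcongr
      _ = L ^ 2 * s := by ring
  have hsL : s * L ≤ L ^ 2 * s := by
    calc s * L = L * 1 * s := by ring
      _ ≤ L * L * s := by gcongr
      _ = L ^ 2 * s := by ring
  have hp2 : 64 * X * L * H ≤ 64 * (X : ℝ) ^ 2 / L + 64 * C1 * (X : ℝ) ^ 2 / L := by
    have h1 : L / L ^ 8 ≤ 1 / L := by
      rw [div_le_div_iff₀ (by positivity) hL0]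
      calc L * L = L ^ 2 := by ring
        _ ≤ L ^ 8 := pow_le_pow_right₀ hL1 (by norm_num)
        _ = 1 * L ^ 8 := by ring
    calc 64 * (X : ℝ) * L * H ≤ 64 * X * L * (X / L ^ 8 + 1) := by gcongr
      _ = 64 * (X : ℝ) ^ 2 * (L / L ^ 8) + 64 * X * L := by ring
      _ ≤ 64 * (X : ℝ) ^ 2 * (1 / L) + 64 * X * (C1 * X / L) := by
          gcongr
          exact hLL.trans hLs
      _ = _ := by ring
  have hp3 : 80 * X * s * L ≤ 80 * C1 * (X : ℝ) ^ 2 / L := by
    calc 80 * X * s * L = 80 * X * (s * L) := by ring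
      _ ≤ 80 * X * (C1 * X / L) := by
          gcongr
          exact hsL.trans hLs
      _ = _ := by ring
  have hp4 : 64 * C2 * (X : ℝ) ^ 2 / d.totient ≤ ε / 2 * (X : ℝ) ^ 2 := by
    have hφd : (0 : ℝ) < d.totient := by exact_mod_cast Nat.totient_pos.2 hd1
    have h1 := hD d hd1 hdD
    rw [div_le_iff₀ hε] at h1
    rw [div_le_iff₀ hφd]
    have h2 : (0 : ℝ) ≤ (X : ℝ) ^ 2 := by positivity
    nlinarith
  have hp5 : K * (X : ℝ) ^ 2 / L ≤ ε / 2 * (X : ℝ) ^ 2 := by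
    rw [div_le_iff₀ hε] at hLK
    rw [div_le_iff₀ hL0]
    have h2 : (0 : ℝ) ≤ (X : ℝ) ^ 2 := by positivity
    nlinarith
  have hKe : K * (X : ℝ) ^ 2 / L = 64 * (X : ℝ) ^ 2 / L + 64 * C1 * (X : ℝ) ^ 2 / L +
      80 * C1 * (X : ℝ) ^ 2 / L + 3 * √(512 * Cb) * (X : ℝ) ^ 2 / L := by
    rw [hK]
    ring
  have hsum : (1 + (L ^ 8 + 1)) * (√(512 * Cb) * (X : ℝ) ^ 2 / L ^ 18) =
      √(512 * Cb) * (X : ℝ) ^ 2 / L ^ 18 + (L ^ 8 + 1) * (√(512 * Cb) * (X : ℝ) ^ 2 / L ^ 18) := by ring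
  linarith

end Pool.Agent.HAV
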