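import Pool.Agent.HAV.Defs
import Pool.Agent.helper10.BV.D8

/-!
# HAV-RED2x: two self-contained estimates for RED2

`RED2x_mean`: `∑_{m ≤ N} m/φ(m) ≤ 3 N`.  `exc_part`: the contribution of the multiples of one large modulus `d`.
`noncop`: the contribution of the residue classes which are not coprime to the modulus.
-/

set_option autoImplicit false

open Finset Filter Topology
open BVM (psiAP psiCop thetaAP psiChi prim nonPrin)

namespace Pool.Agent.HAV

theorem RED2x_ratio {m : ℕ} (hm : m ≠ 0) :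
    (m : ℝ) / m.totient = ∏ p ∈ m.primeFactors, (1 + 1 / ((p : ℝ) - 1)) := by
  have hphi0 : (0 : ℝ) < m.totient := by
    exact_mod_cast Nat.totient_pos.mpr (Nat.pos_of_ne_zero hm)
  have hpr : ∀ p ∈ m.primeFactors, 2 ≤ p := fun p hp => (Nat.prime_of_mem_primeFactors hp).two_le
  have h1 : (m.totient : ℝ) = m * ∏ p ∈ m.primeFactors, (1 - (p : ℝ)⁻¹) := by
    have h := Nat.totient_eq_mul_prod_factors m
    have h' : ((m.totient : ℚ) : ℝ) = ((m * ∏ p ∈ m.primeFactors, (1 - (p : ℚ)⁻¹) : ℚ) : ℝ) := by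
      rw [h]
    push_cast at h'
    exact h'
  have h3 : (∏ p ∈ m.primeFactors, (1 - (p : ℝ)⁻¹)) *
      (∏ p ∈ m.primeFactors, (1 + 1 / ((p : ℝ) - 1))) = 1 := by
    rw [← Finset.prod_mul_distrib]
    apply Finset.prod_eq_one
    intro p hp
    have hp2 : (2 : ℝ) ≤ p := by exact_mod_cast hpr p hp
    have hp0 : (p : ℝ) ≠ 0 := by linarith
    have hp1 : (p : ℝ) - 1 ≠ 0 := by
      intro h
      linarith
    field_simp
    ring
  rw [div_eq_iff hphi0.ne', h1]
  calc (m : ℝ) = m * ((∏ p ∈ m.primeFactors, (1 - (p : ℝ)⁻¹)) *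
      (∏ p ∈ m.primeFactors, (1 + 1 / ((p : ℝ) - 1)))) := by rw [h3, mul_one]
    _ = _ := by ring

private theorem tele (N : ℕ) : ∑ n ∈ Icc 2 N, 1 / ((n : ℝ) * ((n : ℝ) - 1)) ≤ 1 := by
  have h : ∀ N : ℕ, 1 ≤ N → ∑ n ∈ Icc 2 N, 1 / ((n : ℝ) * ((n : ℝ) - 1)) = 1 - 1 / (N : ℝ) := by
    intro N hN
    induction N, hN using Nat.le_induction with
    | base => simp
    | succ k hk ih =>
      rw [Finset.sum_Icc_succ_top (by omega), ih]
      have hk0 : (k : ℝ) ≠ 0 := by
        have : k ≠ 0 := by omega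
        exact_mod_cast this
      have hk1 : ((k : ℝ) + 1) ≠ 0 := by positivity
      push_cast
      have : (k : ℝ) + 1 - 1 = k := by ring
      rw [this]
      field_simp
      ring
  rcases Nat.eq_zero_or_pos N with rfl | hN
  · simp
  · rw [h N hN]
    have : (0 : ℝ) ≤ 1 / (N : ℝ) := by positivity
    linarith

theorem RED2x_mean (N : ℕ) : ∑ m ∈ Icc 1 N, (m : ℝ) / m.totient ≤ 3 * N := by
  classical
  set P : Finset ℕ := (Icc 2 N).filter Nat.Prime with hP
  have hP2 : ∀ p ∈ P, (2 : ℝ) ≤ p := by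
    intro p hp
    rw [hP, Finset.mem_filter, Finset.mem_Icc] at hp
    exact_mod_cast hp.1.1
  have hPp : ∀ p ∈ P, p.Prime := by
    intro p hp
    rw [hP, Finset.mem_filter] at hp
    exact hp.2
  have h1 : ∑ m ∈ Icc 1 N, (m : ℝ) / m.totient =
      ∑ m ∈ Icc 1 N, ∑ t ∈ m.primeFactors.powerset, ∏ p ∈ t, (1 / ((p : ℝ) - 1)) := by
    refine Finset.sum_congr rfl fun m hm => ?_
    rw [Finset.mem_Icc] at hm
    rw [RED2x_ratio (by omega), Finset.prod_one_add]
  rw [h1, Finset.sum_comm' (t' := P.powerset)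
    (s' := fun t => (Icc 1 N).filter (fun m => t ⊆ m.primeFactors))]
  swap
  · intro m t
    rw [Finset.mem_powerset, Finset.mem_powerset, Finset.mem_filter]
    constructor
    · rintro ⟨hm, ht⟩
      refine ⟨⟨hm, ht⟩, fun p hp => ?_⟩
      have h2 := ht hp
      rw [Nat.mem_primeFactors] at h2
      rw [Finset.mem_Icc] at hm
      rw [hP, Finset.mem_filter, Finset.mem_Icc]
      exact ⟨⟨h2.1.two_le, (Nat.le_of_dvd (by omega) h2.2.1).trans hm.2⟩, h2.1⟩
    · rintro ⟨⟨hm, ht⟩, _⟩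
      exact ⟨hm, ht⟩
  have h2 : ∀ t ∈ P.powerset, ∑ _m ∈ (Icc 1 N).filter (fun m => t ⊆ m.primeFactors),
      ∏ p ∈ t, (1 / ((p : ℝ) - 1)) ≤ N * ∏ p ∈ t, (1 / ((p : ℝ) * ((p : ℝ) - 1))) := by
    intro t ht
    rw [Finset.mem_powerset] at ht
    rw [Finset.sum_const, nsmul_eq_mul]
    have hsub : (Icc 1 N).filter (fun m => t ⊆ m.primeFactors) ⊆
        (Ioc 0 N).filter (fun m => (∏ p ∈ t, p) ∣ m) := by
      intro m hm
      rw [Finset.mem_filter, Finset.mem_Icc] at hm
      rw [Finset.mem_filter, Finset.mem_Ioc]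
      refine ⟨⟨by omega, hm.1.2⟩, ?_⟩
      apply Finset.prod_primes_dvd
      · intro p hp
        exact (hPp p (ht hp)).prime
      · intro p hp
        exact Nat.dvd_of_mem_primeFactors (hm.2 hp)
    have hcard : (((Icc 1 N).filter (fun m => t ⊆ m.primeFactors)).card : ℝ) ≤
        N / ∏ p ∈ t, (p : ℝ) := by
      have h3 := Finset.card_le_card hsub
      rw [Nat.Ioc_filter_dvd_card_eq_div] at h3
      have h4 : ((N / ∏ p ∈ t, p : ℕ) : ℝ) ≤ (N : ℝ) / ((∏ p ∈ t, p : ℕ) : ℝ) := Nat.cast_div_le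
      have h5 : ((∏ p ∈ t, p : ℕ) : ℝ) = ∏ p ∈ t, (p : ℝ) := by push_cast; rfl
      rw [h5] at h4
      exact (by exact_mod_cast h3 : (((Icc 1 N).filter (fun m => t ⊆ m.primeFactors)).card : ℝ) ≤
        ((N / ∏ p ∈ t, p : ℕ) : ℝ)).trans h4
    have hnn : 0 ≤ ∏ p ∈ t, (1 / ((p : ℝ) - 1)) := by
      apply Finset.prod_nonneg
      intro p hp
      have := hP2 p (ht hp)
      have : 0 < (p : ℝ) - 1 := by linarith
      positivity
    have hpos : (0 : ℝ) < ∏ p ∈ t, (p : ℝ) := by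
      apply Finset.prod_pos
      intro p hp
      have := hP2 p (ht hp)
      linarith
    calc (((Icc 1 N).filter (fun m => t ⊆ m.primeFactors)).card : ℝ) * ∏ p ∈ t, (1 / ((p : ℝ) - 1))
        ≤ (N / ∏ p ∈ t, (p : ℝ)) * ∏ p ∈ t, (1 / ((p : ℝ) - 1)) :=
          mul_le_mul_of_nonneg_right hcard hnn
      _ = N * ((∏ p ∈ t, (p : ℝ))⁻¹ * ∏ p ∈ t, (1 / ((p : ℝ) - 1))) := by
          rw [div_eq_mul_inv]; ring
      _ = N * ∏ p ∈ t, (1 / ((p : ℝ) * ((p : ℝ) - 1))) := by
          congr 1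
          rw [← Finset.prod_inv_distrib, ← Finset.prod_mul_distrib]
          refine Finset.prod_congr rfl fun p hp => ?_
          rw [one_div, one_div, mul_inv]
  refine (Finset.sum_le_sum h2).trans ?_
  rw [← Finset.mul_sum, ← Finset.prod_one_add]
  have h3 : ∏ p ∈ P, (1 + 1 / ((p : ℝ) * ((p : ℝ) - 1))) ≤ Real.exp 1 := by
    calc ∏ p ∈ P, (1 + 1 / ((p : ℝ) * ((p : ℝ) - 1)))
        ≤ ∏ p ∈ P, Real.exp (1 / ((p : ℝ) * ((p : ℝ) - 1))) := by
          apply Finset.prod_le_prod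
          · intro p hp
            have := hP2 p hp
            have : 0 < (p : ℝ) - 1 := by linarith
            positivity
          · intro p hp
            rw [add_comm]
            exact Real.add_one_le_exp _
      _ = Real.exp (∑ p ∈ P, 1 / ((p : ℝ) * ((p : ℝ) - 1))) := by rw [Real.exp_sum]
      _ ≤ Real.exp 1 := by
          apply Real.exp_le_exp.2
          refine le_trans ?_ (tele N)
          apply Finset.sum_le_sum_of_subset_of_nonneg (Finset.filter_subset _ _)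
          intro p hp _
          rw [Finset.mem_Icc] at hp
          have : (2 : ℝ) ≤ p := by exact_mod_cast hp.1
          have : 0 < (p : ℝ) - 1 := by linarith
          positivity
  have h4 := Real.exp_one_lt_d9
  have h5 : (0 : ℝ) ≤ N := Nat.cast_nonneg N
  nlinarith

private theorem card_ks_le (a : ℕ) : (((ks a).card : ℕ) : ℝ) ≤ a + 1 := by
  classical
  have h1 : ks a ⊆ Icc (-((a / 2 : ℕ) : ℤ)) ((a / 2 : ℕ) : ℤ) := by
    intro k hk
    unfold ks at hk
    rw [Finset.mem_filter, Finset.mem_Icc] at hk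
    rw [Finset.mem_Icc]
    have h2 := hk.2
    have h3 := abs_le.1 (show |k| ≤ ((a / 2 : ℕ) : ℤ) by omega)
    exact h3
  have h2 := Finset.card_le_card h1
  rw [Int.card_Icc] at h2
  have h3 : (ks a).card ≤ a + 1 := by omega
  exact_mod_cast h3

private theorem sum_log_pr_le (Z : ℕ) : ∑ q ∈ pr Z, Real.log q ≤ 2 * Z := by
  have h1 := Chebyshev.theta_le_log4_mul_x (x := (Z : ℝ)) (Nat.cast_nonneg Z)
  unfold Chebyshev.theta at h1
  rw [Nat.floor_natCast] at h1
  have h2 : ∑ q ∈ pr Z, Real.log q = ∑ p ∈ Ioc 0 Z with Nat.Prime p, Real.log (p : ℝ) := by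
    unfold pr
    apply Finset.sum_congr _ (fun _ _ => rfl)
    ext p
    simp only [Finset.mem_filter, Finset.mem_Icc, Finset.mem_Ioc]
    constructor <;> rintro ⟨⟨h, h'⟩, h''⟩ <;> exact ⟨⟨by omega, h'⟩, h''⟩
  rw [h2]
  have h3 : Real.log 4 ≤ 2 := by
    have h4 : Real.log 4 = 2 * Real.log 2 := by
      rw [show (4 : ℝ) = 2 ^ 2 by norm_num, Real.log_pow]; norm_num
    have := Real.log_two_lt_d9
    rw [h4]; linarith
  have h5 : (0 : ℝ) ≤ Z := Nat.cast_nonneg Z
  nlinarith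

private theorem sum_log_pr_nonneg (Z : ℕ) : 0 ≤ ∑ q ∈ pr Z, Real.log q :=
  Finset.sum_nonneg fun q _ => Real.log_natCast_nonneg q

/-- sum over the multiples of `d` -/
theorem RED2x_mult (Q d : ℕ) (hd : 1 ≤ d) :
    ∑ a ∈ (Icc 1 Q).filter (fun a => d ∣ a), (a : ℝ) / a.totient ≤ 3 * Q / d.totient := by
  classical
  have hdφ : (0 : ℝ) < d.totient := by exact_mod_cast Nat.totient_pos.2 hd
  have h1 : ∑ a ∈ (Icc 1 Q).filter (fun a => d ∣ a), (a : ℝ) / a.totient ≤
      ∑ m ∈ Icc 1 (Q / d), ((d : ℝ) / d.totient) * ((m : ℝ) / m.totient) := by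
    have himg : (Icc 1 Q).filter (fun a => d ∣ a) = (Icc 1 (Q / d)).image (fun m => d * m) := by
      ext a
      simp only [Finset.mem_filter, Finset.mem_Icc, Finset.mem_image]
      constructor
      · rintro ⟨⟨h1, h2⟩, m, rfl⟩
        refine ⟨m, ⟨?_, ?_⟩, rfl⟩
        · rcases Nat.eq_zero_or_pos m with rfl | hm
          · simp at h1
          · exact hm
        · rw [Nat.le_div_iff_mul_le (by omega), mul_comm]
          exact h2
      · rintro ⟨m, ⟨h1, h2⟩, rfl⟩
        rw [Nat.le_div_iff_mul_le (by omega), mul_comm] at h2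
        exact ⟨⟨Nat.mul_pos hd h1, h2⟩, Dvd.intro m rfl⟩
    rw [himg, Finset.sum_image (by
      intro x _ y _ hxy
      exact Nat.eq_of_mul_eq_mul_left (by omega) hxy)]
    apply Finset.sum_le_sum
    intro m hm
    rw [Finset.mem_Icc] at hm
    have hmφ : (0 : ℝ) < m.totient := by exact_mod_cast Nat.totient_pos.2 hm.1
    have h2 : d.totient * m.totient ≤ (d * m).totient := Nat.totient_super_multiplicative d m
    have h3 : (d.totient : ℝ) * m.totient ≤ (d * m).totient := by exact_mod_cast h2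
    have h4 : (0 : ℝ) < ((d * m).totient : ℝ) := lt_of_lt_of_le (by positivity) h3
    push_cast
    rw [div_mul_div_comm]
    exact div_le_div_of_nonneg_left (by positivity) (by positivity) h3
  refine h1.trans ?_
  rw [← Finset.mul_sum]
  have h2 := RED2x_mean (Q / d)
  have h3 : ((Q / d : ℕ) : ℝ) ≤ (Q : ℝ) / d := Nat.cast_div_le
  have hd0 : (0 : ℝ) < d := by exact_mod_cast hd
  calc (d : ℝ) / d.totient * ∑ m ∈ Icc 1 (Q / d), (m : ℝ) / m.totient
      ≤ (d : ℝ) / d.totient * (3 * ((Q : ℝ) / d)) := by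
        apply mul_le_mul_of_nonneg_left _ (by positivity)
        linarith
    _ = 3 * Q / d.totient := by
        field_simp

theorem RED2x_phi_large (K : ℝ) : ∃ D : ℕ, ∀ d : ℕ, 1 ≤ d → D ≤ d → K ≤ d.totient := by
  have h := Real.isLittleO_log_id_atTop.def (show (0 : ℝ) < 1 / (4 * (|K| + 1)) by positivity)
  obtain ⟨a, ha⟩ := Filter.eventually_atTop.1 h
  refine ⟨max ⌈a⌉₊ ⌈2 * (|K| + 1)⌉₊, fun d hd hD => ?_⟩
  have h1 : a ≤ d := (Nat.le_ceil a).trans (by exact_mod_cast (le_max_left _ _).trans hD)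
  have h2 : 2 * (|K| + 1) ≤ (d : ℝ) :=
    (Nat.le_ceil _).trans (by exact_mod_cast (le_max_right _ _).trans hD)
  have h3 := ha (d : ℝ) h1
  have hlog : 0 ≤ Real.log d := Real.log_natCast_nonneg d
  rw [Real.norm_eq_abs, abs_of_nonneg hlog, Real.norm_eq_abs, id,
    abs_of_nonneg (show (0 : ℝ) ≤ (d : ℝ) from Nat.cast_nonneg d)] at h3
  have h4 := BVM.div_totient_le (m := d) (by omega)
  have hφ : (0 : ℝ) < d.totient := by exact_mod_cast Nat.totient_pos.2 hd
  rw [div_le_iff₀ hφ] at h4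
  have hK : K ≤ |K| := le_abs_self K
  have hK0 : 0 ≤ |K| := abs_nonneg K
  set L := Real.log d
  set φ : ℝ := (d.totient : ℝ) with hφd
  have h5 : L * (4 * (|K| + 1)) ≤ d := by
    rw [div_mul_eq_mul_div, one_mul, le_div_iff₀ (by positivity)] at h3
    exact h3
  by_contra hcon
  push Not at hcon
  have h6 : φ < |K| + 1 := by linarith
  have h7 : (d : ℝ) < (1 + 2 * L) * (|K| + 1) := by
    calc (d : ℝ) ≤ (1 + 2 * L) * φ := h4
      _ < (1 + 2 * L) * (|K| + 1) := by
          apply mul_lt_mul_of_pos_left h6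
          linarith
  nlinarith

theorem exc_part : ∀ ε : ℝ, 0 < ε → ∃ D : ℕ, ∃ X₀ : ℕ, ∀ X : ℕ, X₀ ≤ X → ∀ d : ℕ, 1 ≤ d → D ≤ d →
    ∑ q ∈ pr (Nat.sqrt X), Real.log q * ∑ a ∈ (Icc 1 (QQ X)).filter (fun a => d ∣ a),
      ∑ _k ∈ ks a, (4 * (X : ℝ) / a.totient) ≤ ε * (X : ℝ) ^ 2 := by
  intro ε hε
  obtain ⟨D, hD⟩ := RED2x_phi_large (192 / ε)
  refine ⟨D, 1, fun X hX d hd hDd => ?_⟩
  have hφ := hD d hd hDd
  have hφ0 : (0 : ℝ) < d.totient := by exact_mod_cast Nat.totient_pos.2 hd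
  rw [div_le_iff₀ hε] at hφ
  have hX1 : (1 : ℝ) ≤ X := by exact_mod_cast hX
  rw [← Finset.sum_mul]
  have h1 : ∑ a ∈ (Icc 1 (QQ X)).filter (fun a => d ∣ a), ∑ _k ∈ ks a, (4 * (X : ℝ) / a.totient) ≤
      8 * X * (3 * (QQ X : ℝ) / d.totient) := by
    calc ∑ a ∈ (Icc 1 (QQ X)).filter (fun a => d ∣ a), ∑ _k ∈ ks a, (4 * (X : ℝ) / a.totient)
        ≤ ∑ a ∈ (Icc 1 (QQ X)).filter (fun a => d ∣ a), 8 * X * ((a : ℝ) / a.totient) := by
          apply Finset.sum_le_sum
          intro a ha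
          rw [Finset.mem_filter, Finset.mem_Icc] at ha
          rw [Finset.sum_const, nsmul_eq_mul]
          have ha0 : (0 : ℝ) < a.totient := by exact_mod_cast Nat.totient_pos.2 ha.1.1
          have ha1 : (1 : ℝ) ≤ a := by exact_mod_cast ha.1.1
          have h2 := card_ks_le a
          calc ((ks a).card : ℝ) * (4 * (X : ℝ) / a.totient)
              ≤ (2 * a) * (4 * (X : ℝ) / a.totient) := by
                apply mul_le_mul_of_nonneg_right _ (by positivity)
                linarith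
            _ = 8 * X * ((a : ℝ) / a.totient) := by ring
      _ = 8 * X * ∑ a ∈ (Icc 1 (QQ X)).filter (fun a => d ∣ a), ((a : ℝ) / a.totient) := by
          rw [Finset.mul_sum]
      _ ≤ 8 * X * (3 * (QQ X : ℝ) / d.totient) := by
          apply mul_le_mul_of_nonneg_left (RED2x_mult _ d hd) (by positivity)
  have hs1 : 1 ≤ Nat.sqrt X := by
    rw [Nat.le_sqrt]
    omega
  have hQ : (QQ X : ℝ) ≤ 4 * Nat.sqrt X := by
    unfold QQ
    have : (1 : ℝ) ≤ Nat.sqrt X := by exact_mod_cast hs1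
    push_cast
    linarith
  have hsq : (Nat.sqrt X : ℝ) * Nat.sqrt X ≤ X := by
    exact_mod_cast Nat.sqrt_le X
  have h0 := sum_log_pr_nonneg (Nat.sqrt X)
  have h2 := sum_log_pr_le (Nat.sqrt X)
  have hsn : (0 : ℝ) ≤ Nat.sqrt X := Nat.cast_nonneg _
  calc (∑ q ∈ pr (Nat.sqrt X), Real.log q) * ∑ a ∈ (Icc 1 (QQ X)).filter (fun a => d ∣ a),
        ∑ _k ∈ ks a, (4 * (X : ℝ) / a.totient)
      ≤ (2 * (Nat.sqrt X : ℝ)) * (8 * X * (3 * (QQ X : ℝ) / d.totient)) := by
        apply mul_le_mul h2 h1 _ (by positivity)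
        apply Finset.sum_nonneg
        intro a _
        apply Finset.sum_nonneg
        intro k _
        positivity
    _ ≤ (2 * (Nat.sqrt X : ℝ)) * (8 * X * (3 * (4 * Nat.sqrt X) / d.totient)) := by
        gcongr
    _ = 192 * ((Nat.sqrt X : ℝ) * Nat.sqrt X) * X / d.totient := by ring
    _ ≤ 192 * X * X / d.totient := by gcongr
    _ ≤ ε * (X : ℝ) ^ 2 := by
        rw [div_le_iff₀ hφ0]
        nlinarith [sq_nonneg (X : ℝ)]

/-- a residue class not coprime to the modulus contains few primes -/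
theorem RED2x_theta {a r t : ℕ} (ha : 1 ≤ a) (hr : ¬ r.Coprime a) : thetaAP a r t ≤ Real.log a := by
  classical
  unfold thetaAP
  have hsub : (Icc 1 t).filter (fun p => p.Prime ∧ p ≡ r [MOD a]) ⊆ a.primeFactors := by
    intro p hp
    rw [Finset.mem_filter] at hp
    obtain ⟨_, hpp, hpr⟩ := hp
    rw [Nat.mem_primeFactors]
    refine ⟨hpp, ?_, by omega⟩
    have h1 : p.gcd a = r.gcd a := by
      have h2 := hpr.gcd_eq
      rw [Nat.gcd_comm p a, Nat.gcd_comm r a]
      simpa [Nat.gcd_comm] using h2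
    have h2 : ¬ p.Coprime a := by
      intro h3
      exact hr (by rw [Nat.Coprime] at h3 ⊢; rw [← h1]; exact h3)
    rw [Nat.Prime.coprime_iff_not_dvd hpp] at h2
    exact not_not.1 h2
  calc ∑ p ∈ (Icc 1 t).filter (fun p => p.Prime ∧ p ≡ r [MOD a]), Real.log p
      ≤ ∑ p ∈ a.primeFactors, Real.log p :=
        Finset.sum_le_sum_of_subset_of_nonneg hsub fun p _ _ => Real.log_natCast_nonneg p
    _ = Real.log ((∏ p ∈ a.primeFactors, p : ℕ) : ℝ) := by
        push_cast
        rw [Real.log_prod]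
        intro p hp
        have := (Nat.prime_of_mem_primeFactors hp).pos
        exact_mod_cast this.ne'
    _ ≤ Real.log a := by
        apply Real.log_le_log
        · have : 0 < ∏ p ∈ a.primeFactors, p :=
            Finset.prod_pos fun p hp => (Nat.prime_of_mem_primeFactors hp).pos
          exact_mod_cast this
        · exact_mod_cast Nat.le_of_dvd (by omega) (Nat.prod_primeFactors_dvd a)

theorem RED2x_theta_mono (a r : ℕ) {s t : ℕ} (h : s ≤ t) : thetaAP a r s ≤ thetaAP a r t := by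
  classical
  unfold thetaAP
  apply Finset.sum_le_sum_of_subset_of_nonneg
  · apply Finset.filter_subset_filter
    exact Finset.Icc_subset_Icc le_rfl h
  · intro p _ _
    exact Real.log_natCast_nonneg p

theorem RED2x_theta_nonneg (a r t : ℕ) : 0 ≤ thetaAP a r t := by
  unfold thetaAP
  exact Finset.sum_nonneg fun p _ => Real.log_natCast_nonneg p

open Classical in
theorem noncop : ∀ ε : ℝ, 0 < ε → ∃ X₀ : ℕ, ∀ X : ℕ, X₀ ≤ X →
    |∑ q ∈ pr (Nat.sqrt X), Real.log q * ∑ a ∈ Icc 1 (QQ X),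
      ∑ k ∈ (ks a).filter (fun k => ¬ (rr a q k).Coprime a),
        (thetaAP a (rr a q k) X - thetaAP a (rr a q k) (min X (mm a q k)))| ≤ ε * (X : ℝ) ^ 2 := by
  intro ε hε
  -- C X^(3/2) log X
  have hlim := Real.isLittleO_log_id_atTop.def (show (0 : ℝ) < ε / 160 by positivity)
  obtain ⟨A, hA⟩ := Filter.eventually_atTop.1 hlim
  refine ⟨max 1 (⌈A⌉₊ ^ 2), fun X hX => ?_⟩
  have hX1 : 1 ≤ X := (le_max_left _ _).trans hX
  set s : ℕ := Nat.sqrt X with hs
  have hs1 : 1 ≤ s := by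
    rw [hs, Nat.le_sqrt]
    omega
  have hsA : ⌈A⌉₊ ≤ s := by
    rw [hs, Nat.le_sqrt, ← sq]
    exact (le_max_right _ _).trans hX
  have hs1' : (1 : ℝ) ≤ s := by exact_mod_cast hs1
  have hsA' : A ≤ 4 * (s : ℝ) := by
    have h1 : A ≤ (s : ℝ) := (Nat.le_ceil A).trans (by exact_mod_cast hsA)
    linarith
  have hlog := hA (4 * (s : ℝ)) hsA'
  have hlog0 : 0 ≤ Real.log (4 * (s : ℝ)) := Real.log_nonneg (by linarith)
  rw [Real.norm_eq_abs, abs_of_nonneg hlog0, Real.norm_eq_abs, id,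
    abs_of_nonneg (show (0 : ℝ) ≤ 4 * (s : ℝ) by linarith)] at hlog
  have hQ : (QQ X : ℝ) ≤ 4 * s := by
    unfold QQ
    push_cast
    rw [← hs]
    linarith
  have hin : ∀ q ∈ pr s, |∑ a ∈ Icc 1 (QQ X), ∑ k ∈ (ks a).filter (fun k => ¬ (rr a q k).Coprime a),
      (thetaAP a (rr a q k) X - thetaAP a (rr a q k) (min X (mm a q k)))| ≤
        (4 * s) * ((5 * s) * Real.log (4 * s)) := by
    intro q _
    refine (Finset.abs_sum_le_sum_abs _ _).trans ?_
    have h1 : ∀ a ∈ Icc 1 (QQ X), |∑ k ∈ (ks a).filter (fun k => ¬ (rr a q k).Coprime a),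
        (thetaAP a (rr a q k) X - thetaAP a (rr a q k) (min X (mm a q k)))| ≤
        (5 * s) * Real.log (4 * s) := by
      intro a ha
      rw [Finset.mem_Icc] at ha
      have ha1 : (1 : ℝ) ≤ a := by exact_mod_cast ha.1
      have ha2 : (a : ℝ) ≤ 4 * s := le_trans (by exact_mod_cast ha.2) hQ
      have hla : Real.log a ≤ Real.log (4 * s) := Real.log_le_log (by linarith) ha2
      refine (Finset.abs_sum_le_sum_abs _ _).trans ?_
      have h2 : ∀ k ∈ (ks a).filter (fun k => ¬ (rr a q k).Coprime a),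
          |thetaAP a (rr a q k) X - thetaAP a (rr a q k) (min X (mm a q k))| ≤ Real.log (4 * s) := by
        intro k hk
        rw [Finset.mem_filter] at hk
        have h3 := RED2x_theta (t := X) ha.1 hk.2
        have h4 := RED2x_theta_mono a (rr a q k) (min_le_left X (mm a q k))
        have h5 := RED2x_theta_nonneg a (rr a q k) (min X (mm a q k))
        rw [abs_of_nonneg (by linarith)]
        linarith
      refine (Finset.sum_le_sum h2).trans ?_
      rw [Finset.sum_const, nsmul_eq_mul]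
      apply mul_le_mul_of_nonneg_right _ hlog0
      have h6 : (((ks a).filter (fun k => ¬ (rr a q k).Coprime a)).card : ℝ) ≤ ((ks a).card : ℝ) := by
        exact_mod_cast Finset.card_le_card (Finset.filter_subset _ _)
      have h7 := card_ks_le a
      linarith
    refine (Finset.sum_le_sum h1).trans ?_
    rw [Finset.sum_const, nsmul_eq_mul, Nat.card_Icc, Nat.add_sub_cancel]
    apply mul_le_mul_of_nonneg_right hQ
    positivity
  calc |∑ q ∈ pr s, Real.log q * ∑ a ∈ Icc 1 (QQ X),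
      ∑ k ∈ (ks a).filter (fun k => ¬ (rr a q k).Coprime a),
        (thetaAP a (rr a q k) X - thetaAP a (rr a q k) (min X (mm a q k)))|
      ≤ ∑ q ∈ pr s, |Real.log q * ∑ a ∈ Icc 1 (QQ X),
      ∑ k ∈ (ks a).filter (fun k => ¬ (rr a q k).Coprime a),
        (thetaAP a (rr a q k) X - thetaAP a (rr a q k) (min X (mm a q k)))| :=
        Finset.abs_sum_le_sum_abs _ _
    _ ≤ ∑ q ∈ pr s, Real.log q * ((4 * s) * ((5 * s) * Real.log (4 * s))) := by
        apply Finset.sum_le_sum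
        intro q hq
        rw [abs_mul, abs_of_nonneg (Real.log_natCast_nonneg q)]
        exact mul_le_mul_of_nonneg_left (hin q hq) (Real.log_natCast_nonneg q)
    _ = (∑ q ∈ pr s, Real.log q) * ((4 * s) * ((5 * s) * Real.log (4 * s))) := by
        rw [Finset.sum_mul]
    _ ≤ (2 * s) * ((4 * s) * ((5 * s) * Real.log (4 * s))) := by
        apply mul_le_mul_of_nonneg_right (sum_log_pr_le s)
        positivity
    _ ≤ (2 * s) * ((4 * s) * ((5 * s) * (ε / 160 * (4 * s)))) := by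
        gcongr
    _ = ε * (((s : ℝ) * s) ^ 2) := by ring
    _ ≤ ε * (X : ℝ) ^ 2 := by
        have h1 : (s : ℝ) * s ≤ X := by exact_mod_cast Nat.sqrt_le X
        gcongr

end Pool.Agent.HAV
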